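import Pool.Agent.Lib.PolyTime.IntBin

/-!
# Integer points in a unary box with a separation oracle: the algorithm

The set `S` of integer points of the box `[0, N]^k` is given by a separation oracle. The algorithm
decides whether `S` is empty; its running time is `f k * (N + a + 2) ^ c`, where `a` bounds the
number of bits of the answers of the oracle.

Everything is written with lists of integers. `M` is a bound (given in unary) for everything that
is enumerated.
-/

namespace Pool.Agent.Lib.UBox

open Pool.Agent.Lib.PolyTime

/-! ## Vectors -/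

/-- Inner product. -/
def dot (u v : List ℤ) : ℤ := (List.zipWith (fun a b => a * b) u v).sum

/-- Sum. -/
def vadd (u v : List ℤ) : List ℤ := List.zipWith (fun a b => a + b) u v

/-- Difference. -/
def vsub (u v : List ℤ) : List ℤ := List.zipWith (fun a b => a - b) u v

/-- Multiple. -/
def smul (c : ℤ) (v : List ℤ) : List ℤ := v.map fun a => c * a

/-- The `j`-th unit vector of length `d`. -/
def unitv (d j : ℕ) : List ℤ := (List.range d).map fun i => if i = j then 1 else 0

/-- The combination `∑ c_j L_j` of vectors of length `d`. -/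
def comb (d : ℕ) (c : List ℤ) (L : List (List ℤ)) : List ℤ :=
  (List.range d).map fun l => dot c (L.map fun v => v.getD l 0)

/-! ## Determinants and tuples -/

/-- The `n × n` matrix with given rows. -/
def toMat (n : ℕ) (A : List (List ℤ)) : Matrix (Fin n) (Fin n) ℤ :=
  Matrix.of fun i j => (A.getD i []).getD j 0

/-- Determinant (for `n ^ n ≤ M`). -/
def cdet (M n : ℕ) (A : List (List ℤ)) : ℤ := if n ^ n ≤ M then (toMat n A).det else 0

/-- All lists of length `n` with entries in `L`. -/
def tuples {α : Type*} (L : List α) : ℕ → List (List α)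
  | 0 => [[]]
  | n + 1 => L.flatMap fun a => (tuples L n).map fun t => a :: t

/-- All lists of length `n` with entries in `L`, if there are at most `M`. -/
def ctuples {α : Type*} (M : ℕ) (L : List α) (n : ℕ) : List (List α) :=
  if L.length ^ n ≤ M then tuples L n else []

/-- Do not apply `f` if the result is larger than `M`. -/
def cap {α : Type*} [TEnc α] (M : ℕ) (f : α → α) (x : α) : α := if sz (f x) ≤ M then f x else x

/-! ## Vertices and simplices -/

/-- The constraint `dot c.1 y ≤ c.2`. -/
abbrev Con : Type := List ℤ × ℤ

/-- All constraints are satisfied. -/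
def sat (C : List Con) (y : List ℤ) : Prop := ∀ c ∈ C, dot c.1 y ≤ c.2

/-- Homogeneous coordinates of the solution of the equations `2 dot c.1 y = 2 c.2 + 1`,
`c ∈ τ`. -/
def vertexOf (M d : ℕ) (τ : List Con) : List ℤ :=
  (cdet M d (τ.map fun c => smul 2 c.1) ::
    (List.range d).map fun j => cdet M d (τ.map fun c => (smul 2 c.1).set j (2 * c.2 + 1))).map
    fun a => (cdet M d (τ.map fun c => smul 2 c.1)).sign * a

/-- Does the point with homogeneous coordinates `h` satisfy `2 dot c.1 y ≤ 2 c.2 + 1`, `c ∈ C`? -/
def okVertex (C : List Con) (h : List ℤ) : Bool :=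
  decide (0 < h.headD 0) && C.all fun c => decide (2 * dot c.1 h.tail ≤ (2 * c.2 + 1) * h.headD 0)

/-- The vertices of the polytope `2 dot c.1 y ≤ 2 c.2 + 1`, `c ∈ C`. -/
def vertices (M d : ℕ) (C : List Con) : List (List ℤ) :=
  ((ctuples M C d).map (vertexOf M d)).filter (okVertex C)

/-- The volume of a simplex, as a fraction. -/
def qual (M d : ℕ) (H : List (List ℤ)) : ℤ × ℤ :=
  (|cdet M (d + 1) H|, (H.map fun h => h.headD 0).prod)

/-- The larger one of two simplices. -/
def pick (M d : ℕ) (H H' : List (List ℤ)) : List (List ℤ) :=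
  if (qual M d H).1 * (qual M d H').2 < (qual M d H').1 * (qual M d H).2 then H' else H

/-- A largest simplex with vertices among the vertices of the polytope. -/
def simplexOf (M d : ℕ) (C : List Con) : List (List ℤ) :=
  (ctuples M (vertices M d C) (d + 1)).foldl (pick M d) []

/-- `lamOf M d H i u / det H` is the `i`-th barycentric coordinate of the point `y` for
`u = 1 :: y`, and of the vector `w` for `u = 0 :: w`. -/
def lamOf (M d : ℕ) (H : List (List ℤ)) (i : ℕ) (u : List ℤ) : ℤ :=
  (H.getD i []).headD 0 * cdet M (d + 1) (H.set i u)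

/-- The linear forms `lam i (0 :: w)`. -/
def rowsOf (M d : ℕ) (H : List (List ℤ)) : List (List ℤ) :=
  (List.range (d + 1)).map fun i => (List.range d).map fun j => lamOf M d H i (0 :: unitv d j)

/-! ## Lattice reduction -/

/-- The bilinear form `∑ r, dot r u * dot r v`. -/
def bil (R : List (List ℤ)) (u v : List ℤ) : ℤ := (R.map fun r => dot r u * dot r v).sum

/-- Gram matrix. -/
def gramOf (R b : List (List ℤ)) : List (List ℤ) := b.map fun u => b.map fun v => bil R u v

/-- The integer closest to `a / b`, for `0 < b`. -/
def rnd (a b : ℤ) : ℤ := (2 * a + b) / (2 * b)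

/-- The rounded coefficients of the projection of `b_i` to the space of `b_0, ..., b_(i-1)`. -/
def coefs (M : ℕ) (R b : List (List ℤ)) (i : ℕ) : List ℤ :=
  (List.range i).map fun j =>
    rnd (cdet M i ((gramOf R (b.take i)).set j ((b.take i).map (bil R (b.getD i [])))))
      (cdet M i (gramOf R (b.take i)))

/-- Has `b_i` to be size-reduced? -/
def sizeBad (M : ℕ) (R b : List (List ℤ)) (i : ℕ) : Bool :=
  (coefs M R b i).any fun c => decide (c ≠ 0)

/-- Should `b_i` and `b_(i+1)` be swapped? -/
def swapBad (M : ℕ) (R b : List (List ℤ)) (i : ℕ) : Bool :=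
  decide (4 * cdet M (i + 1) (gramOf R (b.take i ++ [b.getD (i + 1) []])) <
    3 * cdet M (i + 1) (gramOf R (b.take (i + 1))))

/-- One step of the reduction. -/
def lllStep (M d : ℕ) (R b : List (List ℤ)) : List (List ℤ) :=
  match (List.range d).find? (sizeBad M R b) with
  | some i => b.set i (vsub (b.getD i []) (comb d (coefs M R b i) (b.take i)))
  | none =>
    match (List.range (d - 1)).find? (swapBad M R b) with
    | some i => (b.set i (b.getD (i + 1) [])).set (i + 1) (b.getD i [])
    | none => b

/-- Lattice reduction for the form `bil R`. -/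
def lll (M d : ℕ) (R : List (List ℤ)) : List (List ℤ) :=
  (cap M (lllStep M d R))^[M] ((List.range d).map (unitv d))

/-! ## Tasks -/

/-- The task `(z, B)`: find `y` such that `z + ∑ y_j B_j` is in `S`. -/
abbrev Task : Type := List ℤ × List (List ℤ)

/-- The constraint on `y` given by `dot α x ≤ β`, `x = z + ∑ y_j B_j`. -/
def conOf (T : Task) (α : List ℤ) (β : ℤ) : Con := (T.2.map (dot α), β - dot α T.1)

/-- The constraints of the box. -/
def boxCons (k N : ℕ) (T : Task) : List Con :=
  (List.range k).flatMap fun i =>
    [conOf T (unitv k i) N, conOf T (smul (-1) (unitv k i)) 0]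

/-- The point `z + ∑ y_j B_j`. -/
def xof (k : ℕ) (T : Task) (y : List ℤ) : List ℤ := vadd T.1 (comb k y T.2)

/-- Are all vectors of the basis short? -/
def allShort (d : ℕ) (R b : List (List ℤ)) (Δ : ℤ) : Bool :=
  b.all fun u => decide (bil R u u * ((d : ℤ) * (d + 1)) ^ 2 ≤ Δ ^ 2)

/-- The centroid of a simplex (homogeneous coordinates). -/
def centroid (d : ℕ) (H : List (List ℤ)) : List ℤ :=
  (List.range (d + 1)).map fun l =>
    (H.map fun h => (H.map fun h => h.headD 0).prod / h.headD 0 * h.getD l 0).sum

/-- The last coordinate of `y` with respect to the unimodular basis `b`. -/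
def psi (M d : ℕ) (b : List (List ℤ)) (y : List ℤ) : ℤ := cdet M d (b.set (d - 1) y) * cdet M d b

/-- The centroid, rounded to an integer point. -/
def zof (M d : ℕ) (H b : List (List ℤ)) : List ℤ :=
  comb d ((List.range d).map fun j =>
    rnd (cdet M d (b.set j (centroid d H).tail) * cdet M d b) ((centroid d H).headD 0)) b

/-- Half of the width of the window. -/
def width (d : ℕ) : ℕ := 5 ^ d * (4 * (d + 1)) * (d * (d + 1)) ^ 2

/-- The tasks for the hyperplanes. -/
def subtasks (M k : ℕ) (T : Task) (H b : List (List ℤ)) : List Task :=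
  (List.range (min M (2 * width T.2.length + 2))).map fun i : ℕ =>
    (vadd T.1 (smul (psi M T.2.length b (H.headD []).tail / (H.headD []).headD 0 -
        width T.2.length + (i : ℤ)) (comb k (b.getD (T.2.length - 1) []) T.2)),
      (b.take (T.2.length - 1)).map fun u => comb k u T.2)

/-- State of the cutting phase: the constraints, and the result (`none`: running, `some none`:
a point of `S` was found, `some (some L)`: continue with the tasks `L`). -/
abbrev CutState : Type := List Con × Option (Option (List Task))

/-- One cut. -/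
def cutStep (M k : ℕ) (orc : List ℤ → Option (List ℤ)) (T : Task) (s : CutState) : CutState :=
  match s.2 with
  | some _ => s
  | none =>
    if cdet M (T.2.length + 1) (simplexOf M T.2.length s.1) = 0 then (s.1, some (some []))
    else if allShort T.2.length (rowsOf M T.2.length (simplexOf M T.2.length s.1))
        (lll M T.2.length (rowsOf M T.2.length (simplexOf M T.2.length s.1)))
        (cdet M (T.2.length + 1) (simplexOf M T.2.length s.1)) then
      match orc (xof k T (zof M T.2.length (simplexOf M T.2.length s.1)
        (lll M T.2.length (rowsOf M T.2.length (simplexOf M T.2.length s.1))))) with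
      | none => (s.1, some none)
      | some α => (conOf T α (dot α (xof k T (zof M T.2.length (simplexOf M T.2.length s.1)
        (lll M T.2.length (rowsOf M T.2.length (simplexOf M T.2.length s.1))))) - 1) :: s.1, none)
    else (s.1, some (some (subtasks M k T (simplexOf M T.2.length s.1)
      (lll M T.2.length (rowsOf M T.2.length (simplexOf M T.2.length s.1))))))

/-- The cutting phase. -/
def process (M k N : ℕ) (orc : List ℤ → Option (List ℤ)) (T : Task) : Option (List Task) :=
  (((cap M (cutStep M k orc T))^[M] (boxCons k N T, none)).2).getD (some [])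

/-- All tasks of one level. -/
def level (M k N : ℕ) (orc : List ℤ → Option (List ℤ)) (st : Option (List Task)) :
    Option (List Task) :=
  match st with
  | none => none
  | some L =>
    if (L.map (process M k N orc)).any Option.isNone then none
    else some (L.flatMap fun T => (process M k N orc T).getD [])

/-- Integer points of the box. -/
def inBox (k N : ℕ) (x : List ℤ) : Prop := x.length = k ∧ ∀ a ∈ x, 0 ≤ a ∧ a ≤ N

instance (k N : ℕ) (x : List ℤ) : Decidable (inBox k N x) := by unfold inBox; infer_instance

/-- The algorithm. -/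
def solve (M k N : ℕ) (orc : List ℤ → Option (List ℤ)) : Bool :=
  match (cap M (level M k N orc))^[k]
    (some [(List.replicate k 0, (List.range k).map (unitv k))]) with
  | none => true
  | some L => L.any fun T => decide (inBox k N T.1) && (orc T.1).isNone

/-! ## The oracle -/

/-- `orc` is a separation oracle for the set `S` of integer points of the box `[0, N]^k`; the
entries of its answers have at most `a` bits. -/
structure IsOracle (k N a : ℕ) (orc : List ℤ → Option (List ℤ)) (S : Set (List ℤ)) : Prop where
  sub : ∀ x ∈ S, inBox k N x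
  none_iff : ∀ x, inBox k N x → (orc x = none ↔ x ∈ S)
  some_len : ∀ x α, inBox k N x → orc x = some α → α.length = k
  some_ht : ∀ x α, inBox k N x → orc x = some α → ∀ c ∈ α, |c| ≤ 2 ^ a
  some_cut : ∀ x α, inBox k N x → orc x = some α → ∀ y ∈ S, dot α y < dot α x

/-! ## Definitions used in the statements -/

/-- The vector of a list. -/
def vec (n : ℕ) (v : List ℤ) : Fin n → ℤ := fun i => v.getD i 0

/-- Barycentric coordinates (times `det H`). -/
def lam (d : ℕ) (H : List (List ℤ)) (i : ℕ) (u : List ℤ) : ℤ :=
  (H.getD i []).headD 0 * (toMat (d + 1) (H.set i u)).det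

/-- `H` is a simplex inside the polytope `2 dot c.1 y ≤ 2 c.2 + 1`, and the integer points of the
polytope have barycentric coordinates between `-1` and `1`. -/
structure IsSimplex (d : ℕ) (C : List Con) (H : List (List ℤ)) : Prop where
  len : H.length = d + 1
  lens : ∀ h ∈ H, h.length = d + 1
  pos : ∀ h ∈ H, 0 < h.headD 0
  det_ne : (toMat (d + 1) H).det ≠ 0
  bary : ∀ y : List ℤ, y.length = d → sat C y → ∀ i < d + 1,
    |lam d H i (1 :: y)| ≤ |(toMat (d + 1) H).det|
  inner : ∀ y : List ℤ, y.length = d →
    (∀ i < d + 1, 0 ≤ lam d H i (1 :: y) * (toMat (d + 1) H).det) → sat C y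

/-- `b` is a basis of `ℤ^d`. -/
structure IsBas (d : ℕ) (b : List (List ℤ)) : Prop where
  len : b.length = d
  lens : ∀ u ∈ b, u.length = d
  det : (toMat d b).det ^ 2 = 1

/-- A task of dimension `d`. -/
structure Good (k d : ℕ) (T : Task) : Prop where
  len1 : T.1.length = k
  len2 : T.2.length = d
  lens : ∀ u ∈ T.2, u.length = k
  indep : ∀ y : Fin d → ℝ, (∀ c : Fin k, ∑ j : Fin d, y j * (((T.2.getD j []).getD c 0 : ℤ) : ℝ) =
    0) → y = 0

/-- The numbers of a task have at most `h` bits. -/
def Ht (h : ℕ) (T : Task) : Prop := (∀ a ∈ T.1, |a| ≤ 2 ^ h) ∧ ∀ u ∈ T.2, ∀ a ∈ u, |a| ≤ 2 ^ h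

end Pool.Agent.Lib.UBox
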