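import Pool.Agent.Lib.UBox.Defs

/-!
# Lists as vectors
-/

namespace Pool.Agent.Lib.UBox

open Pool.Agent.Lib.PolyTime

theorem basic_getD_lt {α : Type*} {l : List α} {i : ℕ} (d : α) (h : i < l.length) :
    l.getD i d = l[i] := List.getD_eq_getElem _ _ h

theorem basic_getD_ge {α : Type*} {l : List α} {i : ℕ} (d : α) (h : l.length ≤ i) :
    l.getD i d = d := by
  rw [List.getD_eq_getElem?_getD, List.getElem?_eq_none h, Option.getD_none]

theorem basic_getD_map {α β : Type*} (f : α → β) (l : List α) (i : ℕ) (d : α) (e : β)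
    (h : i < l.length) : (l.map f).getD i e = f (l.getD i d) := by
  rw [basic_getD_lt e (by simpa using h), basic_getD_lt d h, List.getElem_map]

theorem basic_getD_mem {α : Type*} {l : List α} {i : ℕ} (d : α) (h : i < l.length) :
    l.getD i d ∈ l := by
  rw [basic_getD_lt d h]; exact List.getElem_mem h

theorem vec_ofFn {n : ℕ} (f : Fin n → ℤ) : vec n (List.ofFn f) = f := by
  ext i
  unfold vec
  rw [basic_getD_lt 0 (by simp), List.getElem_ofFn]

theorem ofFn_vec {n : ℕ} {v : List ℤ} (h : v.length = n) : List.ofFn (vec n v) = v := by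
  apply List.ext_getElem
  · simp [h]
  · intro i h1 h2
    rw [List.getElem_ofFn]
    unfold vec
    exact basic_getD_lt 0 h2

theorem vec_inj {n : ℕ} {u v : List ℤ} (hu : u.length = n) (hv : v.length = n)
    (h : vec n u = vec n v) : u = v := by
  rw [← ofFn_vec hu, ← ofFn_vec hv, h]

@[simp] theorem length_unitv (d j : ℕ) : (unitv d j).length = d := by simp [unitv]

@[simp] theorem length_smul (c : ℤ) (v : List ℤ) : (smul c v).length = v.length := by simp [smul]

@[simp] theorem length_comb (d : ℕ) (c : List ℤ) (L : List (List ℤ)) : (comb d c L).length = d := by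
  simp [comb]

theorem length_vadd {n : ℕ} {u v : List ℤ} (hu : u.length = n) (hv : v.length = n) :
    (vadd u v).length = n := by simp [vadd, hu, hv]

theorem length_vsub {n : ℕ} {u v : List ℤ} (hu : u.length = n) (hv : v.length = n) :
    (vsub u v).length = n := by simp [vsub, hu, hv]

theorem basic_dot_cons (a b : ℤ) (u v : List ℤ) : dot (a :: u) (b :: v) = a * b + dot u v := by
  simp [dot]

theorem dot_comm (u v : List ℤ) : dot u v = dot v u := by
  unfold dot
  rw [List.zipWith_comm]
  simp only [mul_comm]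

theorem dot_eq {n : ℕ} {u v : List ℤ} (hu : u.length = n) (hv : v.length = n) :
    dot u v = dotProduct (vec n u) (vec n v) := by
  induction n generalizing u v with
  | zero =>
    rw [List.length_eq_zero_iff.mp hu]
    simp [dot, dotProduct]
  | succ n ih =>
    obtain ⟨a, u, rfl⟩ := List.exists_cons_of_length_eq_add_one hu
    obtain ⟨b, v, rfl⟩ := List.exists_cons_of_length_eq_add_one hv
    rw [basic_dot_cons, ih (by simpa using hu) (by simpa using hv)]
    unfold dotProduct
    rw [Fin.sum_univ_succ]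
    rfl

theorem vec_vadd {n : ℕ} {u v : List ℤ} (hu : u.length = n) (hv : v.length = n) :
    vec n (vadd u v) = vec n u + vec n v := by
  ext i
  simp only [vec, Pi.add_apply]
  rw [basic_getD_lt 0 (by rw [length_vadd hu hv]; exact i.2), basic_getD_lt 0 (by rw [hu]; exact i.2),
    basic_getD_lt 0 (by rw [hv]; exact i.2)]
  simp [vadd]

theorem vec_vsub {n : ℕ} {u v : List ℤ} (hu : u.length = n) (hv : v.length = n) :
    vec n (vsub u v) = vec n u - vec n v := by
  ext i
  simp only [vec, Pi.sub_apply]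
  rw [basic_getD_lt 0 (by rw [length_vsub hu hv]; exact i.2), basic_getD_lt 0 (by rw [hu]; exact i.2),
    basic_getD_lt 0 (by rw [hv]; exact i.2)]
  simp [vsub]

theorem vec_smul (n : ℕ) (c : ℤ) (v : List ℤ) : vec n (smul c v) = c • vec n v := by
  ext i
  simp only [vec, Pi.smul_apply, smul_eq_mul]
  rcases lt_or_ge (i : ℕ) v.length with h | h
  · exact basic_getD_map (fun a => c * a) v i 0 0 h
  · rw [basic_getD_ge 0 (by simpa using h), basic_getD_ge 0 h, mul_zero]

theorem vec_unitv {d : ℕ} (j : Fin d) : vec d (unitv d j) = Pi.single j 1 := by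
  ext i
  simp only [vec, unitv]
  rw [basic_getD_map (fun i : ℕ => if i = (j : ℕ) then (1 : ℤ) else 0) _ i 0 0 (by simp),
    basic_getD_lt 0 (by simp), List.getElem_range, Pi.single_apply]
  simp [Fin.ext_iff]

theorem vec_comb {d n : ℕ} {c : List ℤ} {L : List (List ℤ)} (hc : c.length = n)
    (hL : L.length = n) :
    vec d (comb d c L) = ∑ j : Fin n, c.getD j 0 • vec d (L.getD j []) := by
  ext i
  rw [Finset.sum_apply]
  simp only [Pi.smul_apply, smul_eq_mul]
  have h1 : vec d (comb d c L) i = dot c (L.map fun v => v.getD i 0) := by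
    simp only [vec, comb]
    rw [basic_getD_map (fun l => dot c (L.map fun v => v.getD l 0)) _ i 0 0 (by simp),
      basic_getD_lt 0 (by simp), List.getElem_range]
  rw [h1, dot_eq hc (by simpa using hL)]
  unfold dotProduct
  refine Finset.sum_congr rfl fun j _ => ?_
  simp only [vec]
  rw [basic_getD_map (fun v : List ℤ => v.getD i 0) L j [] 0 (by rw [hL]; exact j.2)]

theorem dot_comb {d : ℕ} {u c : List ℤ} {L : List (List ℤ)} (hu : u.length = d)
    (hc : c.length = L.length) (hL : ∀ v ∈ L, v.length = d) :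
    dot u (comb d c L) = dot c (L.map (dot u)) := by
  rw [dot_eq hu (length_comb d c L), vec_comb hc rfl, dot_eq hc (by simp)]
  unfold dotProduct
  simp only [Finset.sum_apply, Pi.smul_apply, smul_eq_mul, Finset.mul_sum]
  rw [Finset.sum_comm]
  refine Finset.sum_congr rfl fun j _ => ?_
  have h1 : vec L.length (L.map (dot u)) j = dotProduct (vec d u) (vec d (L.getD j [])) := by
    simp only [vec]
    rw [basic_getD_map (dot u) L j [] 0 j.2, dot_eq hu (hL _ (basic_getD_mem _ j.2))]
  rw [h1]
  unfold dotProduct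
  rw [Finset.mul_sum]
  refine Finset.sum_congr rfl fun i _ => ?_
  simp only [vec]
  ring

theorem toMat_row {n : ℕ} (A : List (List ℤ)) (i : Fin n) : toMat n A i = vec n (A.getD i []) := by
  rfl

theorem toMat_set {n : ℕ} {A : List (List ℤ)} (hA : A.length = n) (i : Fin n) (v : List ℤ) :
    toMat n (A.set i v) = (toMat n A).updateRow i (vec n v) := by
  ext i' j
  rw [Matrix.updateRow_apply]
  simp only [toMat, Matrix.of_apply, vec]
  have h1 : (i' : ℕ) < (A.set i v).length := by rw [List.length_set, hA]; exact i'.2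
  have h2 : (i' : ℕ) < A.length := by rw [hA]; exact i'.2
  rw [basic_getD_lt [] h1, basic_getD_lt [] h2, List.getElem_set]
  by_cases h : i' = i
  · subst h; simp
  · rw [if_neg h, if_neg]
    intro h'
    exact h (Fin.ext h'.symm)

theorem mem_tuples {α : Type*} {L : List α} {n : ℕ} {t : List α} :
    t ∈ tuples L n ↔ t.length = n ∧ ∀ a ∈ t, a ∈ L := by
  induction n generalizing t with
  | zero =>
    simp only [tuples, List.mem_singleton, List.length_eq_zero_iff]
    constructor
    · rintro rfl; simp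
    · exact fun h => h.1
  | succ n ih =>
    simp only [tuples, List.mem_flatMap, List.mem_map]
    constructor
    · rintro ⟨a, ha, t', ht', rfl⟩
      obtain ⟨h1, h2⟩ := ih.mp ht'
      refine ⟨by simp [h1], ?_⟩
      intro b hb
      rcases List.mem_cons.mp hb with rfl | hb
      · exact ha
      · exact h2 b hb
    · rintro ⟨h1, h2⟩
      obtain ⟨a, t', rfl⟩ := List.exists_cons_of_length_eq_add_one h1
      exact ⟨a, h2 a (by simp), t', ih.mpr ⟨by simpa using h1, fun b hb => h2 b (by simp [hb])⟩,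
        rfl⟩

theorem length_tuples {α : Type*} (L : List α) (n : ℕ) : (tuples L n).length = L.length ^ n := by
  induction n with
  | zero => simp [tuples]
  | succ n ih =>
    simp only [tuples, List.length_flatMap, List.length_map, ih]
    simp [pow_succ, mul_comm]

theorem basic_abs_dot {s t : ℕ} : ∀ {u v : List ℤ}, (∀ a ∈ u, |a| ≤ 2 ^ s) →
    (∀ a ∈ v, |a| ≤ 2 ^ t) → |dot u v| ≤ (u.length : ℤ) * 2 ^ (s + t)
  | [], v, _, _ => by simp [dot]
  | a :: u, [], _, _ => by
    simp only [dot, List.zipWith_nil_right, List.sum_nil, abs_zero]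
    positivity
  | a :: u, b :: v, h1, h2 => by
    rw [basic_dot_cons]
    have h3 := basic_abs_dot (u := u) (v := v) (fun x hx => h1 x (by simp [hx]))
      (fun x hx => h2 x (by simp [hx]))
    have h4 : |a * b| ≤ 2 ^ (s + t) := by
      rw [abs_mul, pow_add]
      exact mul_le_mul (h1 a (by simp)) (h2 b (by simp)) (abs_nonneg _) (by positivity)
    calc |a * b + dot u v| ≤ |a * b| + |dot u v| := abs_add_le _ _
      _ ≤ 2 ^ (s + t) + (u.length : ℤ) * 2 ^ (s + t) := add_le_add h4 h3
      _ = ((a :: u).length : ℤ) * 2 ^ (s + t) := by push_cast [List.length_cons]; ring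

theorem abs_dot_le {n s t : ℕ} {u v : List ℤ} (hu : u.length ≤ n) (h1 : ∀ a ∈ u, |a| ≤ 2 ^ s)
    (h2 : ∀ a ∈ v, |a| ≤ 2 ^ t) : |dot u v| ≤ 2 ^ (n + s + t) := by
  refine (basic_abs_dot h1 h2).trans ?_
  rw [add_assoc, pow_add 2 n]
  refine mul_le_mul_of_nonneg_right ?_ (by positivity)
  have h3 : (u.length : ℤ) ≤ n := by exact_mod_cast hu
  have h4 : (n : ℤ) ≤ 2 ^ n := by exact_mod_cast Nat.lt_two_pow_self.le
  exact h3.trans h4

theorem abs_det_le {n s : ℕ} {A : Matrix (Fin n) (Fin n) ℤ} (h : ∀ i j, |A i j| ≤ 2 ^ s) :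
    |A.det| ≤ 2 ^ (n * (n + s)) := by
  have h1 := Matrix.det_le (abv := AbsoluteValue.abs) (x := (2 : ℤ) ^ s) (A := A)
    (fun i j => h i j)
  have h2 : |A.det| ≤ (n.factorial : ℤ) * ((2 : ℤ) ^ s) ^ n := by
    simpa [nsmul_eq_mul] using h1
  refine h2.trans ?_
  have h3 : (n.factorial : ℤ) ≤ 2 ^ (n * n) := by
    have : n.factorial ≤ 2 ^ (n * n) := by
      refine (Nat.factorial_le_pow n).trans ?_
      rw [pow_mul]
      exact Nat.pow_le_pow_left Nat.lt_two_pow_self.le n
    exact_mod_cast this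
  calc (n.factorial : ℤ) * ((2 : ℤ) ^ s) ^ n ≤ 2 ^ (n * n) * ((2 : ℤ) ^ s) ^ n :=
        mul_le_mul_of_nonneg_right h3 (by positivity)
    _ = 2 ^ (n * (n + s)) := by rw [← pow_mul, ← pow_add]; ring_nf

theorem basic_abs_getD {s : ℕ} {v : List ℤ} (h : ∀ a ∈ v, |a| ≤ 2 ^ s) (i : ℕ) :
    |v.getD i 0| ≤ 2 ^ s := by
  rcases lt_or_ge i v.length with h1 | h1
  · exact h _ (basic_getD_mem 0 h1)
  · rw [basic_getD_ge 0 h1, abs_zero]; positivity

theorem abs_cdet_le {M n s : ℕ} {A : List (List ℤ)} (h : ∀ v ∈ A, ∀ a ∈ v, |a| ≤ 2 ^ s) :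
    |cdet M n A| ≤ 2 ^ (n * (n + s)) := by
  unfold cdet
  split_ifs
  · refine abs_det_le fun i j => ?_
    show |(A.getD i []).getD j 0| ≤ 2 ^ s
    rcases lt_or_ge (i : ℕ) A.length with h1 | h1
    · exact basic_abs_getD (h _ (basic_getD_mem [] h1)) j
    · rw [basic_getD_ge [] h1]
      exact basic_abs_getD (by simp) j
  · rw [abs_zero]; positivity

end Pool.Agent.Lib.UBox
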