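import Pool.Agent.Lib.UBox.PFBase

/-!
# Polynomial time: the algorithm
-/

namespace Pool.Agent.Lib.UBox

open Pool.Agent.Lib.PolyTime

section

variable {α : Type*} [TEnc α]

theorem pf_dot {u v : α → List ℤ} (hu : PolyF u) (hv : PolyF v) :
    PolyF (fun x => dot (u x) (v x)) :=
  (PolyF.zipWith (h := fun _ a b => a * b) hu hv
    (PolyF.intMul PolyF.snd'.fst PolyF.snd'.snd)).intSum

theorem pf_vadd {u v : α → List ℤ} (hu : PolyF u) (hv : PolyF v) :
    PolyF (fun x => vadd (u x) (v x)) :=
  PolyF.zipWith (h := fun _ a b => a + b) hu hv (PolyF.intAdd PolyF.snd'.fst PolyF.snd'.snd)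

theorem pf_vsub {u v : α → List ℤ} (hu : PolyF u) (hv : PolyF v) :
    PolyF (fun x => vsub (u x) (v x)) :=
  PolyF.zipWith (h := fun _ a b => a - b) hu hv (PolyF.intSub PolyF.snd'.fst PolyF.snd'.snd)

theorem pf_smul {c : α → ℤ} {v : α → List ℤ} (hc : PolyF c) (hv : PolyF v) :
    PolyF (fun x => smul (c x) (v x)) :=
  hv.map (h := fun x a => c x * a) ((hc.comp PolyF.fst').intMul PolyF.snd')

theorem pf_unitv {d j : α → ℕ} (hd : PolyF d) (hj : PolyF j) :
    PolyF (fun x => unitv (d x) (j x)) :=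
  hd.range.map (h := fun x i => if i = j x then (1 : ℤ) else 0)
    (PolyF.ite (p := fun q : α × ℕ => q.2 = j q.1) (PolyF.snd'.natEq (hj.comp PolyF.fst'))
      (PolyF.const 1) (PolyF.const 0))

theorem pf_getD {β : Type*} [TEnc β] {l : α → List β} {n : α → ℕ} {b : α → β} (hl : PolyF l)
    (hn : PolyF n) (hb : PolyF b) : PolyF (fun x => (l x).getD (n x) (b x)) :=
  ((hn.getElem? hl).getD hb).congr fun x => by rw [List.getD_eq_getElem?_getD]

theorem pf_comb {d : α → ℕ} {c : α → List ℤ} {L : α → List (List ℤ)} (hd : PolyF d)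
    (hc : PolyF c) (hL : PolyF L) : PolyF (fun x => comb (d x) (c x) (L x)) := by
  refine hd.range.map (h := fun x l => dot (c x) ((L x).map fun v => v.getD l 0)) ?_
  refine pf_dot (hc.comp PolyF.fst') ?_
  exact PolyF.map (h := fun (q : α × ℕ) (v : List ℤ) => v.getD q.2 0) (hL.comp PolyF.fst')
    (pf_getD PolyF.snd' PolyF.fst'.snd (PolyF.const 0))

theorem pf_vertexOf {M d : α → ℕ} {τ : α → List Con} (hM : PolyF M) (hd : PolyF d)
    (hτ : PolyF τ) : PolyF (fun x => vertexOf (M x) (d x) (τ x)) := by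
  have h1 : PolyF (fun x => cdet (M x) (d x) ((τ x).map fun c => smul 2 c.1)) :=
    polyF_cdet hM hd (hτ.map (h := fun _ (c : Con) => smul 2 c.1)
      (pf_smul (PolyF.const 2) PolyF.snd'.fst))
  have h2 : PolyF (fun x => (List.range (d x)).map fun j =>
      cdet (M x) (d x) ((τ x).map fun c => (smul 2 c.1).set j (2 * c.2 + 1))) := by
    have h3 : PolyF (fun q : α × ℕ => (τ q.1).map fun c => (smul 2 c.1).set q.2 (2 * c.2 + 1)) := by
      refine PolyF.map (h := fun (q : α × ℕ) (c : Con) => (smul 2 c.1).set q.2 (2 * c.2 + 1))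
        (hτ.comp PolyF.fst') ?_
      have h4 : PolyF (fun q : (α × ℕ) × Con => smul 2 q.2.1) :=
        pf_smul (PolyF.const 2) PolyF.snd'.fst
      have h5 : PolyF (fun q : (α × ℕ) × Con => 2 * q.2.2 + 1) :=
        ((PolyF.const 2).intMul PolyF.snd'.snd).intAdd (PolyF.const 1)
      exact PolyF.set (n := fun q : (α × ℕ) × Con => q.1.2) PolyF.fst'.snd h4 h5
    have hM' : PolyF (fun q : α × ℕ => M q.1) := hM.comp PolyF.fst'
    have hd' : PolyF (fun q : α × ℕ => d q.1) := hd.comp PolyF.fst'
    have h6 := polyF_cdet hM' hd' h3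
    let h : α → ℕ → ℤ := fun x j =>
      cdet (M x) (d x) ((τ x).map fun c => (smul 2 c.1).set j (2 * c.2 + 1))
    have h7 : PolyF (fun p : α × ℕ => h p.1 p.2) := h6
    exact PolyF.map (h := h) hd.range h7
  exact (h1.cons h2).map (h := fun x (a : ℤ) =>
    (cdet (M x) (d x) ((τ x).map fun c => smul 2 c.1)).sign * a)
    ((h1.comp PolyF.fst').intSign.intMul PolyF.snd')

theorem pf_okVertex {C : α → List Con} {h : α → List ℤ} (hC : PolyF C) (hh : PolyF h) :
    PolyF (fun x => okVertex (C x) (h x)) := by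
  have hd : PolyF (fun x => (h x).headD 0) := hh.headD (PolyF.const 0)
  refine PolyF.and ((PolyF.const 0).intLt hd) ?_
  refine hC.all (p := fun x (c : Con) =>
    decide (2 * dot c.1 (h x).tail ≤ (2 * c.2 + 1) * (h x).headD 0)) ?_
  refine PolyF.intLe ((PolyF.const 2).intMul (pf_dot PolyF.snd'.fst (hh.comp PolyF.fst').tail)) ?_
  exact (((PolyF.const 2).intMul PolyF.snd'.snd).intAdd (PolyF.const 1)).intMul (hd.comp PolyF.fst')

theorem pf_vertices {M d : α → ℕ} {C : α → List Con} (hM : PolyF M) (hd : PolyF d)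
    (hC : PolyF C) : PolyF (fun x => vertices (M x) (d x) (C x)) := by
  refine PolyF.filter (p := fun x v => okVertex (C x) v) ?_
    (pf_okVertex (hC.comp PolyF.fst') PolyF.snd')
  exact (polyF_ctuples hM hd hC).map (h := fun x τ => vertexOf (M x) (d x) τ)
    (pf_vertexOf (hM.comp PolyF.fst') (hd.comp PolyF.fst') PolyF.snd')

theorem pf_qual {M d : α → ℕ} {H : α → List (List ℤ)} (hM : PolyF M) (hd : PolyF d)
    (hH : PolyF H) : PolyF (fun x => qual (M x) (d x) (H x)) := by
  refine (polyF_cdet hM hd.succ hH).intAbs.pair ?_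
  exact (hH.map (h := fun _ (v : List ℤ) => v.headD 0) (PolyF.snd'.headD (PolyF.const 0))).intProd

theorem pf_pick {M d : α → ℕ} {H H' : α → List (List ℤ)} (hM : PolyF M) (hd : PolyF d)
    (hH : PolyF H) (hH' : PolyF H') : PolyF (fun x => pick (M x) (d x) (H x) (H' x)) := by
  refine PolyF.ite (p := fun x => (qual (M x) (d x) (H x)).1 * (qual (M x) (d x) (H' x)).2 <
    (qual (M x) (d x) (H' x)).1 * (qual (M x) (d x) (H x)).2) ?_ hH' hH
  have h1 := pf_qual hM hd hH
  have h2 := pf_qual hM hd hH'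
  exact (h1.fst.intMul h2.snd).intLt (h2.fst.intMul h1.snd)

theorem pf_simplexOf {M d : α → ℕ} {C : α → List Con} (hM : PolyF M) (hd : PolyF d)
    (hC : PolyF C) : PolyF (fun x => simplexOf (M x) (d x) (C x)) := by
  have hl : PolyF (fun x => ctuples (M x) (vertices (M x) (d x) (C x)) (d x + 1)) :=
    polyF_ctuples hM hd.succ (pf_vertices hM hd hC)
  refine PolyF.foldl_inv (l := fun x => ctuples (M x) (vertices (M x) (d x) (C x)) (d x + 1))
    (i := fun _ => ([] : List (List ℤ))) (f := fun x c b => pick (M x) (d x) c b) hl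
    (PolyF.const []) ?_ (fun x c => sz c ≤ sz (ctuples (M x) (vertices (M x) (d x) (C x)) (d x + 1)))
    (fun x => sz (ctuples (M x) (vertices (M x) (d x) (C x)) (d x + 1))) hl.pbd ?_ ?_ ?_
  · exact pf_pick (hM.comp PolyF.fst') (hd.comp PolyF.fst') PolyF.snd'.fst PolyF.snd'.snd
  · intro x
    simp
  · intro x c b hb hc
    have := sz_mem hb
    unfold pick
    split_ifs
    · beta_reduce at this ⊢
      omega
    · exact hc
  · intro x c hc
    exact hc

theorem pf_lamOf {M d i : α → ℕ} {H : α → List (List ℤ)} {u : α → List ℤ} (hM : PolyF M)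
    (hd : PolyF d) (hH : PolyF H) (hi : PolyF i) (hu : PolyF u) :
    PolyF (fun x => lamOf (M x) (d x) (H x) (i x) (u x)) := by
  refine PolyF.intMul ((pf_getD hH hi (PolyF.const [])).headD (PolyF.const 0)) ?_
  exact polyF_cdet hM hd.succ (PolyF.set hi hH hu)

theorem pf_rowsOf {M d : α → ℕ} {H : α → List (List ℤ)} (hM : PolyF M) (hd : PolyF d)
    (hH : PolyF H) : PolyF (fun x => rowsOf (M x) (d x) (H x)) := by
  refine hd.succ.range.map (h := fun x i => (List.range (d x)).map fun j =>
    lamOf (M x) (d x) (H x) i (0 :: unitv (d x) j)) ?_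
  refine PolyF.map (h := fun (q : α × ℕ) j =>
    lamOf (M q.1) (d q.1) (H q.1) q.2 (0 :: unitv (d q.1) j)) (hd.comp PolyF.fst').range ?_
  have hd' : PolyF (fun q : (α × ℕ) × ℕ => d q.1.1) := hd.comp PolyF.fst'.fst
  exact pf_lamOf (hM.comp PolyF.fst'.fst) hd' (hH.comp PolyF.fst'.fst) PolyF.fst'.snd
    ((PolyF.const 0).cons (pf_unitv hd' PolyF.snd'))

theorem pf_bil {R : α → List (List ℤ)} {u v : α → List ℤ} (hR : PolyF R) (hu : PolyF u)
    (hv : PolyF v) : PolyF (fun x => bil (R x) (u x) (v x)) :=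
  (hR.map (h := fun x r => dot r (u x) * dot r (v x))
    ((pf_dot PolyF.snd' (hu.comp PolyF.fst')).intMul (pf_dot PolyF.snd' (hv.comp PolyF.fst')))).intSum

theorem pf_gramOf {R b : α → List (List ℤ)} (hR : PolyF R) (hb : PolyF b) :
    PolyF (fun x => gramOf (R x) (b x)) := by
  refine hb.map (h := fun x u => (b x).map fun v => bil (R x) u v) ?_
  refine PolyF.map (h := fun (q : α × List ℤ) v => bil (R q.1) q.2 v) (hb.comp PolyF.fst') ?_
  exact pf_bil (hR.comp PolyF.fst'.fst) PolyF.fst'.snd PolyF.snd'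

theorem pf_rnd {a b : α → ℤ} (ha : PolyF a) (hb : PolyF b) : PolyF (fun x => rnd (a x) (b x)) :=
  (((PolyF.const 2).intMul ha).intAdd hb).intEdiv ((PolyF.const 2).intMul hb)

theorem pf_coefs {M i : α → ℕ} {R b : α → List (List ℤ)} (hM : PolyF M) (hR : PolyF R)
    (hb : PolyF b) (hi : PolyF i) : PolyF (fun x => coefs (M x) (R x) (b x) (i x)) := by
  have ht : PolyF (fun x => (b x).take (i x)) := hi.take hb
  have hg : PolyF (fun x => gramOf (R x) ((b x).take (i x))) := pf_gramOf hR ht
  have hrow : PolyF (fun x => ((b x).take (i x)).map (bil (R x) ((b x).getD (i x) []))) :=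
    ht.map (h := fun x v => bil (R x) ((b x).getD (i x) []) v)
      (pf_bil (hR.comp PolyF.fst') ((pf_getD hb hi (PolyF.const [])).comp PolyF.fst') PolyF.snd')
  refine hi.range.map (h := fun x j =>
    rnd (cdet (M x) (i x) ((gramOf (R x) ((b x).take (i x))).set j
      (((b x).take (i x)).map (bil (R x) ((b x).getD (i x) [])))))
      (cdet (M x) (i x) (gramOf (R x) ((b x).take (i x))))) ?_
  refine pf_rnd ?_ ?_
  · exact polyF_cdet (hM.comp PolyF.fst') (hi.comp PolyF.fst')
      (PolyF.set PolyF.snd' (hg.comp PolyF.fst') (hrow.comp PolyF.fst'))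
  · exact polyF_cdet (hM.comp PolyF.fst') (hi.comp PolyF.fst') (hg.comp PolyF.fst')

theorem pf_sizeBad {M i : α → ℕ} {R b : α → List (List ℤ)} (hM : PolyF M) (hR : PolyF R)
    (hb : PolyF b) (hi : PolyF i) : PolyF (fun x => sizeBad (M x) (R x) (b x) (i x)) := by
  refine (pf_coefs hM hR hb hi).any (p := fun _ (c : ℤ) => decide (c ≠ 0)) ?_
  exact (PolyF.decide_not (p := fun q : α × ℤ => q.2 = 0) (PolyF.snd'.intEq (PolyF.const 0)))

theorem pf_swapBad {M i : α → ℕ} {R b : α → List (List ℤ)} (hM : PolyF M) (hR : PolyF R)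
    (hb : PolyF b) (hi : PolyF i) : PolyF (fun x => swapBad (M x) (R x) (b x) (i x)) := by
  have h1 : PolyF (fun x => cdet (M x) (i x + 1)
      (gramOf (R x) ((b x).take (i x) ++ [(b x).getD (i x + 1) []]))) :=
    polyF_cdet hM hi.succ (pf_gramOf hR ((hi.take hb).append
      (pf_getD hb hi.succ (PolyF.const [])).singleton))
  have h2 : PolyF (fun x => cdet (M x) (i x + 1) (gramOf (R x) ((b x).take (i x + 1)))) :=
    polyF_cdet hM hi.succ (pf_gramOf hR (hi.succ.take hb))
  exact ((PolyF.const 4).intMul h1).intLt ((PolyF.const 3).intMul h2)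

theorem pf_lllStep {M d : α → ℕ} {R b : α → List (List ℤ)} (hM : PolyF M) (hd : PolyF d)
    (hR : PolyF R) (hb : PolyF b) : PolyF (fun x => lllStep (M x) (d x) (R x) (b x)) := by
  have h1 : PolyF (fun x => (List.range (d x)).find? (sizeBad (M x) (R x) (b x))) :=
    hd.range.find? (p := fun x i => sizeBad (M x) (R x) (b x) i)
      (pf_sizeBad (hM.comp PolyF.fst') (hR.comp PolyF.fst') (hb.comp PolyF.fst') PolyF.snd')
  have h2 : PolyF (fun x => (List.range (d x - 1)).find? (swapBad (M x) (R x) (b x))) :=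
    hd.pred.range.find? (p := fun x i => swapBad (M x) (R x) (b x) i)
      (pf_swapBad (hM.comp PolyF.fst') (hR.comp PolyF.fst') (hb.comp PolyF.fst') PolyF.snd')
  have hM' : PolyF (fun q : α × ℕ => M q.1) := hM.comp PolyF.fst'
  have hd' : PolyF (fun q : α × ℕ => d q.1) := hd.comp PolyF.fst'
  have hR' : PolyF (fun q : α × ℕ => R q.1) := hR.comp PolyF.fst'
  have hb' : PolyF (fun q : α × ℕ => b q.1) := hb.comp PolyF.fst'
  have h3 : PolyF (fun q : α × ℕ => (b q.1).set q.2 (vsub ((b q.1).getD q.2 [])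
      (comb (d q.1) (coefs (M q.1) (R q.1) (b q.1) q.2) ((b q.1).take q.2)))) :=
    PolyF.set PolyF.snd' hb' (pf_vsub (pf_getD hb' PolyF.snd' (PolyF.const []))
      (pf_comb hd' (pf_coefs hM' hR' hb' PolyF.snd') (PolyF.snd'.take hb')))
  have h4 : PolyF (fun q : α × ℕ => ((b q.1).set q.2 ((b q.1).getD (q.2 + 1) [])).set (q.2 + 1)
      ((b q.1).getD q.2 [])) :=
    PolyF.set PolyF.snd'.succ (PolyF.set PolyF.snd' hb' (pf_getD hb' PolyF.snd'.succ
      (PolyF.const []))) (pf_getD hb' PolyF.snd' (PolyF.const []))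
  have h5 : PolyF (fun x => match (List.range (d x - 1)).find? (swapBad (M x) (R x) (b x)) with
      | some i => ((b x).set i ((b x).getD (i + 1) [])).set (i + 1) ((b x).getD i [])
      | none => b x) :=
    PolyF.optionCases h2 hb h4 (fun x hx => by simp only [hx]) (fun x i hx => by simp only [hx])
  refine PolyF.optionCases h1 h5 h3 (fun x hx => ?_) (fun x i hx => ?_)
  · simp only [lllStep, hx]
    cases (List.range (d x - 1)).find? (swapBad (M x) (R x) (b x)) <;> rfl
  · simp only [lllStep, hx]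

theorem pf_lll {M d : α → ℕ} {R : α → List (List ℤ)} (hM : PolyF M) (hd : PolyF d)
    (hR : PolyF R) : PolyF (fun x => lll (M x) (d x) (R x)) := by
  refine PolyF.iterateCap (f := fun x b => lllStep (M x) (d x) (R x) b) hM hM ?_ ?_
  · exact pf_lllStep (hM.comp PolyF.fst') (hd.comp PolyF.fst') (hR.comp PolyF.fst') PolyF.snd'
  · exact hd.range.map (h := fun x j => unitv (d x) j) (pf_unitv (hd.comp PolyF.fst') PolyF.snd')

theorem pf_conOf {T : α → Task} {a : α → List ℤ} {β : α → ℤ} (hT : PolyF T) (ha : PolyF a)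
    (hβ : PolyF β) : PolyF (fun x => conOf (T x) (a x) (β x)) := by
  refine PolyF.pair (hT.snd.map (h := fun x v => dot (a x) v)
    (pf_dot (ha.comp PolyF.fst') PolyF.snd')) ?_
  exact hβ.intSub (pf_dot ha hT.fst)

theorem pf_boxCons {k N : α → ℕ} {T : α → Task} (hk : PolyF k) (hN : PolyF N) (hT : PolyF T) :
    PolyF (fun x => boxCons (k x) (N x) (T x)) := by
  refine hk.range.flatMap (h := fun x i =>
    [conOf (T x) (unitv (k x) i) (N x), conOf (T x) (smul (-1) (unitv (k x) i)) 0]) ?_
  have hu : PolyF (fun q : α × ℕ => unitv (k q.1) q.2) := pf_unitv (hk.comp PolyF.fst') PolyF.snd'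
  exact (pf_conOf (hT.comp PolyF.fst') hu (hN.comp PolyF.fst').intOfNat).cons
    (pf_conOf (hT.comp PolyF.fst') (pf_smul (PolyF.const (-1)) hu) (PolyF.const 0)).singleton

theorem pf_xof {k : α → ℕ} {T : α → Task} {y : α → List ℤ} (hk : PolyF k) (hT : PolyF T)
    (hy : PolyF y) : PolyF (fun x => xof (k x) (T x) (y x)) :=
  pf_vadd hT.fst (pf_comb hk hy hT.snd)

theorem pf_allShort {d : α → ℕ} {R b : α → List (List ℤ)} {Δ : α → ℤ} (hd : PolyF d)
    (hR : PolyF R) (hb : PolyF b) (hΔ : PolyF Δ) :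
    PolyF (fun x => allShort (d x) (R x) (b x) (Δ x)) := by
  refine hb.all (p := fun x u =>
    decide (bil (R x) u u * ((d x : ℤ) * (d x + 1)) ^ 2 ≤ (Δ x) ^ 2)) ?_
  have hd' : PolyF (fun q : α × List ℤ => (d q.1 : ℤ)) := (hd.comp PolyF.fst').intOfNat
  refine PolyF.intLe ?_ ?_
  · exact (pf_bil (hR.comp PolyF.fst') PolyF.snd' PolyF.snd').intMul
      ((hd'.intMul (hd'.intAdd (PolyF.const 1))).intPow (PolyF.const 2))
  · exact (hΔ.comp PolyF.fst').intPow (PolyF.const 2)

theorem pf_centroid {d : α → ℕ} {H : α → List (List ℤ)} (hd : PolyF d) (hH : PolyF H) :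
    PolyF (fun x => centroid (d x) (H x)) := by
  have hp : PolyF (fun x => ((H x).map fun h => h.headD 0).prod) :=
    (hH.map (h := fun _ (v : List ℤ) => v.headD 0) (PolyF.snd'.headD (PolyF.const 0))).intProd
  refine hd.succ.range.map (h := fun x l =>
    ((H x).map fun h => ((H x).map fun h => h.headD 0).prod / h.headD 0 * h.getD l 0).sum) ?_
  refine PolyF.intSum (PolyF.map (h := fun (q : α × ℕ) (h : List ℤ) =>
    ((H q.1).map fun h => h.headD 0).prod / h.headD 0 * h.getD q.2 0) (hH.comp PolyF.fst') ?_)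
  exact ((hp.comp PolyF.fst'.fst).intEdiv (PolyF.snd'.headD (PolyF.const 0))).intMul
    (pf_getD PolyF.snd' PolyF.fst'.snd (PolyF.const 0))

theorem pf_psi {M d : α → ℕ} {b : α → List (List ℤ)} {y : α → List ℤ} (hM : PolyF M)
    (hd : PolyF d) (hb : PolyF b) (hy : PolyF y) : PolyF (fun x => psi (M x) (d x) (b x) (y x)) :=
  (polyF_cdet hM hd (PolyF.set hd.pred hb hy)).intMul (polyF_cdet hM hd hb)

theorem pf_zof {M d : α → ℕ} {H b : α → List (List ℤ)} (hM : PolyF M) (hd : PolyF d)
    (hH : PolyF H) (hb : PolyF b) : PolyF (fun x => zof (M x) (d x) (H x) (b x)) := by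
  refine pf_comb hd ?_ hb
  have hc := pf_centroid hd hH
  refine hd.range.map (h := fun x j =>
    rnd (cdet (M x) (d x) ((b x).set j (centroid (d x) (H x)).tail) * cdet (M x) (d x) (b x))
      ((centroid (d x) (H x)).headD 0)) ?_
  refine pf_rnd ?_ ((hc.headD (PolyF.const 0)).comp PolyF.fst')
  exact (polyF_cdet (hM.comp PolyF.fst') (hd.comp PolyF.fst')
    (PolyF.set PolyF.snd' (hb.comp PolyF.fst') (hc.tail.comp PolyF.fst'))).intMul
    ((polyF_cdet hM hd hb).comp PolyF.fst')

theorem pf_width {d : α → ℕ} (hd : PolyF d) : PolyF (fun x => (width (d x) : ℤ)) := by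
  have hd' : PolyF (fun x => (d x : ℤ)) := hd.intOfNat
  have h1 : PolyF (fun x => (5 : ℤ) ^ d x * (4 * ((d x : ℤ) + 1)) *
      ((d x : ℤ) * ((d x : ℤ) + 1)) ^ 2) :=
    (((PolyF.const 5).intPow hd).intMul ((PolyF.const 4).intMul (hd'.intAdd (PolyF.const 1)))).intMul
      ((hd'.intMul (hd'.intAdd (PolyF.const 1))).intPow (PolyF.const 2))
  exact h1.congr fun x => by unfold width; push_cast; ring

theorem pf_minWidth {M d : α → ℕ} (hM : PolyF M) (hd : PolyF d) :
    PolyF (fun x => min (M x) (2 * width (d x) + 2)) := by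
  have h1 : PolyF (fun x => (⟨((2 : ℤ) * (width (d x) : ℤ) + 2).toNat⟩ : Bin)) :=
    (((PolyF.const 2).intMul (pf_width hd)).intAdd (PolyF.const 2)).intToNat
  refine (h1.natOfBin hM).congr fun x => ?_
  have : ((2 : ℤ) * (width (d x) : ℤ) + 2).toNat = 2 * width (d x) + 2 := by omega
  simp only [this]
  exact min_comm _ _

theorem pf_subtasks {M k : α → ℕ} {T : α → Task} {H b : α → List (List ℤ)} (hM : PolyF M)
    (hk : PolyF k) (hT : PolyF T) (hH : PolyF H) (hb : PolyF b) :
    PolyF (fun x => subtasks (M x) (k x) (T x) (H x) (b x)) := by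
  have hd : PolyF (fun x => (T x).2.length) := hT.snd.length
  have h0 : PolyF (fun x => (H x).headD []) := hH.headD (PolyF.const [])
  have h1 : PolyF (fun x => psi (M x) (T x).2.length (b x) ((H x).headD []).tail /
      ((H x).headD []).headD 0 - width (T x).2.length) :=
    ((pf_psi hM hd hb h0.tail).intEdiv (h0.headD (PolyF.const 0))).intSub (pf_width hd)
  have h2 : PolyF (fun x => comb (k x) ((b x).getD ((T x).2.length - 1) []) (T x).2) :=
    pf_comb hk (pf_getD hb hd.pred (PolyF.const [])) hT.snd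
  have h3 : PolyF (fun x => ((b x).take ((T x).2.length - 1)).map fun u => comb (k x) u (T x).2) :=
    (hd.pred.take hb).map (h := fun x u => comb (k x) u (T x).2)
      (pf_comb (hk.comp PolyF.fst') PolyF.snd' (hT.snd.comp PolyF.fst'))
  refine (pf_minWidth hM hd).range.map (h := fun x (i : ℕ) =>
    (vadd (T x).1 (smul (psi (M x) (T x).2.length (b x) ((H x).headD []).tail /
        ((H x).headD []).headD 0 - width (T x).2.length + (i : ℤ))
        (comb (k x) ((b x).getD ((T x).2.length - 1) []) (T x).2)),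
      ((b x).take ((T x).2.length - 1)).map fun u => comb (k x) u (T x).2)) ?_
  refine PolyF.pair (pf_vadd (hT.fst.comp PolyF.fst') (pf_smul ?_ (h2.comp PolyF.fst')))
    (h3.comp PolyF.fst')
  exact (h1.comp PolyF.fst').intAdd PolyF.snd'.intOfNat

theorem pf_cutStep {M k : α → ℕ} {orc : α → List ℤ → Option (List ℤ)} {T : α → Task}
    {s : α → CutState} (hM : PolyF M) (hk : PolyF k)
    (ho : PolyF (fun p : α × List ℤ => orc p.1 p.2)) (hT : PolyF T) (hs : PolyF s) :
    PolyF (fun x => cutStep (M x) (k x) (orc x) (T x) (s x)) := by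
  have hd : PolyF (fun x => (T x).2.length) := hT.snd.length
  let sim : α → List (List ℤ) := fun x => simplexOf (M x) (T x).2.length (s x).1
  have hsim : PolyF sim := pf_simplexOf hM hd hs.fst
  let row : α → List (List ℤ) := fun x => rowsOf (M x) (T x).2.length (sim x)
  have hrow : PolyF row := pf_rowsOf hM hd hsim
  let ll : α → List (List ℤ) := fun x => lll (M x) (T x).2.length (row x)
  have hl : PolyF ll := pf_lll hM hd hrow
  let dt : α → ℤ := fun x => cdet (M x) ((T x).2.length + 1) (sim x)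
  have hdet : PolyF dt := polyF_cdet hM hd.succ hsim
  have hsh : PolyF (fun x => allShort (T x).2.length (row x) (ll x) (dt x)) :=
    pf_allShort hd hrow hl hdet
  let xx : α → List ℤ := fun x => xof (k x) (T x) (zof (M x) (T x).2.length (sim x) (ll x))
  have hx : PolyF xx := pf_xof hk hT (pf_zof hM hd hsim hl)
  let sub : α → List Task := fun x => subtasks (M x) (k x) (T x) (sim x) (ll x)
  have hsub : PolyF sub := pf_subtasks hM hk hT hsim hl
  have hor : PolyF (fun x => orc x (xx x)) := ho.comp (PolyF.id.pair hx)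
  let cs : α × List ℤ → CutState := fun q =>
    (conOf (T q.1) q.2 (dot q.2 (xx q.1) - 1) :: (s q.1).1, none)
  have h1 : PolyF cs := by
    refine PolyF.pair (PolyF.cons ?_ (hs.fst.comp PolyF.fst')) (PolyF.const none)
    exact pf_conOf (hT.comp PolyF.fst') PolyF.snd'
      ((pf_dot PolyF.snd' (hx.comp PolyF.fst')).intSub (PolyF.const 1))
  let c2 : α → CutState := fun x => ((s x).1, some none)
  have h2 : PolyF c2 := hs.fst.pair (PolyF.const _)
  let c3 : α → CutState := fun x => ((s x).1, some (some []))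
  have h3 : PolyF c3 := hs.fst.pair (PolyF.const _)
  let c4 : α → CutState := fun x => ((s x).1, some (some (sub x)))
  have h4 : PolyF c4 := hs.fst.pair hsub.some.some
  let c5 : α → CutState := fun x => match orc x (xx x) with
    | none => c2 x
    | some a => cs (x, a)
  have h5 : PolyF c5 := PolyF.optionCases hor h2 h1 (fun x hx => by simp only [c5, hx])
    (fun x a hx => by simp only [c5, hx])
  let c6 : α → CutState := fun x => if dt x = 0 then c3 x else
    if allShort (T x).2.length (row x) (ll x) (dt x) = true then c5 x else c4 x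
  have h6 : PolyF c6 := PolyF.ite (p := fun x => dt x = 0) (hdet.intEq (PolyF.const 0)) h3
    (PolyF.iteBool hsh h5 h4)
  refine PolyF.optionCases (o := fun x => (s x).2) (g := c6)
    (h := fun q : α × Option (List Task) => s q.1) hs.snd h6 (hs.comp PolyF.fst') ?_ ?_
  · intro x hx
    simp only [cutStep, hx]
    rfl
  · intro x b hx
    simp only [cutStep, hx]

theorem pf_process {M k N : α → ℕ} {orc : α → List ℤ → Option (List ℤ)} {T : α → Task}
    (hM : PolyF M) (hk : PolyF k) (hN : PolyF N)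
    (ho : PolyF (fun p : α × List ℤ => orc p.1 p.2)) (hT : PolyF T) :
    PolyF (fun x => process (M x) (k x) (N x) (orc x) (T x)) := by
  have h1 : PolyF (fun x => (cap (M x) (cutStep (M x) (k x) (orc x) (T x)))^[M x]
      (boxCons (k x) (N x) (T x), none)) := by
    refine PolyF.iterateCap (f := fun x s => cutStep (M x) (k x) (orc x) (T x) s)
      (g := fun x => ((boxCons (k x) (N x) (T x), none) : CutState)) hM hM ?_ ?_
    · refine pf_cutStep (α := α × CutState) (orc := fun p => orc p.1) (hM.comp PolyF.fst')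
        (hk.comp PolyF.fst') ?_ (hT.comp PolyF.fst') PolyF.snd'
      exact ho.comp (PolyF.fst'.fst.pair PolyF.snd')
    · exact (pf_boxCons hk hN hT).pair (PolyF.const _)
  exact h1.snd.getD (PolyF.const _)

theorem pf_level {M k N : α → ℕ} {orc : α → List ℤ → Option (List ℤ)}
    {st : α → Option (List Task)} (hM : PolyF M) (hk : PolyF k) (hN : PolyF N)
    (ho : PolyF (fun p : α × List ℤ => orc p.1 p.2)) (hst : PolyF st) :
    PolyF (fun x => level (M x) (k x) (N x) (orc x) (st x)) := by
  have hp : PolyF (fun q : (α × List Task) × Task =>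
      process (M q.1.1) (k q.1.1) (N q.1.1) (orc q.1.1) q.2) := by
    refine pf_process (α := (α × List Task) × Task) (orc := fun q => orc q.1.1)
      (hM.comp PolyF.fst'.fst) (hk.comp PolyF.fst'.fst) (hN.comp PolyF.fst'.fst) ?_ PolyF.snd'
    exact ho.comp (PolyF.fst'.fst.fst.pair PolyF.snd')
  let pr : (α × List Task) → Task → Option (List Task) := fun q T =>
    process (M q.1) (k q.1) (N q.1) (orc q.1) T
  have hp' : PolyF (fun q : (α × List Task) × Task => pr q.1 q.2) := hp
  have h1 : PolyF (fun q : α × List Task => (q.2.map (pr q)).any Option.isNone) :=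
    (PolyF.map (h := pr) PolyF.snd' hp').any (p := fun _ (o : Option (List Task)) => o.isNone)
      PolyF.snd'.isNone
  let pg : (α × List Task) → Task → List Task := fun q T => (pr q T).getD []
  have hg' : PolyF (fun q : (α × List Task) × Task => pg q.1 q.2) := hp'.getD (PolyF.const [])
  have h2 : PolyF (fun q : α × List Task => q.2.flatMap (pg q)) :=
    PolyF.flatMap (h := pg) PolyF.snd' hg'
  let c3 : α × List Task → Option (List Task) := fun q =>
    if (q.2.map (pr q)).any Option.isNone = true then none else some (q.2.flatMap (pg q))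
  have h3 : PolyF c3 := PolyF.iteBool h1 (PolyF.const none) h2.some
  refine PolyF.optionCases (o := st) (g := fun _ => none) (h := c3) hst (PolyF.const none) h3 ?_ ?_
  · intro x hx
    simp only [level, hx]
  · intro x L hx
    simp only [level, hx]
    rfl

theorem pf_inBox {k N : α → ℕ} {y : α → List ℤ} (hk : PolyF k) (hN : PolyF N) (hy : PolyF y) :
    PolyF (fun x => decide (inBox (k x) (N x) (y x))) := by
  have h1 : PolyF (fun x => decide ((y x).length = k x)) := hy.length.natEq hk
  have h2 : PolyF (fun x => (y x).all fun a => decide (0 ≤ a ∧ a ≤ (N x : ℤ))) := by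
    refine hy.all (p := fun x a => decide (0 ≤ a ∧ a ≤ (N x : ℤ))) ?_
    exact PolyF.decide_and (p := fun q : α × ℤ => 0 ≤ q.2) (q := fun q : α × ℤ => q.2 ≤ (N q.1 : ℤ))
      ((PolyF.const 0).intLe PolyF.snd') (PolyF.snd'.intLe (hN.comp PolyF.fst').intOfNat)
  refine (h1.and h2).congr fun x => ?_
  rw [Bool.eq_iff_iff, decide_eq_true_iff (p := inBox (k x) (N x) (y x))]
  simp [inBox]

theorem polyF_solve' {M k N : α → ℕ} {orc : α → List ℤ → Option (List ℤ)}
    (hM : PolyF M) (hk : PolyF k) (hN : PolyF N)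
    (ho : PolyF (fun p : α × List ℤ => orc p.1 p.2)) :
    PolyF (fun x => solve (M x) (k x) (N x) (orc x)) := by
  have h0 : PolyF (fun x => (some [(List.replicate (k x) (0 : ℤ),
      (List.range (k x)).map (unitv (k x)))] : Option (List Task))) := by
    have : PolyF (fun x => (List.range (k x)).map (unitv (k x))) :=
      hk.range.map (h := fun x j => unitv (k x) j) (pf_unitv (hk.comp PolyF.fst') PolyF.snd')
    exact ((PolyF.replicate hk (PolyF.const 0)).pair this).singleton.some
  have h1 : PolyF (fun x => (cap (M x) (level (M x) (k x) (N x) (orc x)))^[k x]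
      (some [(List.replicate (k x) (0 : ℤ), (List.range (k x)).map (unitv (k x)))])) := by
    refine PolyF.iterateCap (f := fun x s => level (M x) (k x) (N x) (orc x) s) hM hk ?_ h0
    refine pf_level (α := α × Option (List Task)) (orc := fun p => orc p.1) (hM.comp PolyF.fst')
      (hk.comp PolyF.fst') (hN.comp PolyF.fst') ?_ PolyF.snd'
    exact ho.comp (PolyF.fst'.fst.pair PolyF.snd')
  have h2 : PolyF (fun q : α × List Task =>
      q.2.any fun T => decide (inBox (k q.1) (N q.1) T.1) && (orc q.1 T.1).isNone) := by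
    refine PolyF.any (p := fun (q : α × List Task) (T : Task) =>
      decide (inBox (k q.1) (N q.1) T.1) && (orc q.1 T.1).isNone) PolyF.snd' ?_
    refine PolyF.and (pf_inBox (hk.comp PolyF.fst'.fst) (hN.comp PolyF.fst'.fst) PolyF.snd'.fst) ?_
    exact (ho.comp (PolyF.fst'.fst.pair PolyF.snd'.fst)).isNone
  refine PolyF.optionCases h1 (PolyF.const true) h2 ?_ ?_
  · intro x hx
    simp only [solve, hx]
  · intro x L hx
    simp only [solve, hx]

end

theorem polyF_solve {α : Type*} [TEnc α] {M k N : α → ℕ} {orc : α → List ℤ → Option (List ℤ)}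
    (hM : PolyF M) (hk : PolyF k) (hN : PolyF N)
    (ho : PolyF (fun p : α × List ℤ => orc p.1 p.2)) :
    PolyF (fun x => solve (M x) (k x) (N x) (orc x)) :=
  polyF_solve' hM hk hN ho

end Pool.Agent.Lib.UBox
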