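import Pool.Agent.Lib.UBox.Basic

/-!
# A cut through a deep point removes many integer points
-/

namespace Pool.Agent.Lib.UBox

open Pool.Agent.Lib.PolyTime

theorem count_vec_cons {d : ℕ} (a : ℤ) (v : List ℤ) :
    vec (d + 1) (a :: v) = Fin.cons a (vec d v) := by
  funext i
  refine Fin.cases ?_ (fun j => ?_) i
  · simp [vec]
  · simp [vec]

theorem count_lam_eq {d : ℕ} {H : List (List ℤ)} (hH : H.length = d + 1) (i : Fin (d + 1))
    (u : List ℤ) : lam d H i u = (H.getD i []).headD 0 *
      ((toMat (d + 1) H).updateRow i (vec (d + 1) u)).det := by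
  unfold lam
  rw [toMat_set hH]

theorem count_lam_shift {d : ℕ} {H : List (List ℤ)} (hH : H.length = d + 1) (i : Fin (d + 1))
    {z a b : List ℤ} (hz : z.length = d) (ha : a.length = d) (hb : b.length = d) :
    lam d H i (1 :: vadd z (vsub a b)) = lam d H i (1 :: z) + lam d H i (1 :: a) -
      lam d H i (1 :: b) := by
  have h : vec (d + 1) (1 :: vadd z (vsub a b)) + vec (d + 1) (1 :: b) =
      vec (d + 1) (1 :: z) + vec (d + 1) (1 :: a) := by
    rw [count_vec_cons, count_vec_cons, count_vec_cons, count_vec_cons,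
      vec_vadd hz (length_vsub ha hb), vec_vsub ha hb]
    funext j
    refine Fin.cases ?_ (fun j => ?_) j
    · simp
    · simp
      ring
  have h2 := congrArg (fun v => ((toMat (d + 1) H).updateRow i v).det) h
  simp only [Matrix.det_updateRow_add] at h2
  rw [count_lam_eq hH, count_lam_eq hH, count_lam_eq hH, count_lam_eq hH]
  linear_combination ((H.getD i []).headD 0) * h2

/-- The cell of a point. -/
def countCell (d : ℕ) (H : List (List ℤ)) (y : List ℤ) (i : Fin (d + 1)) : ℤ :=
  2 * ((d : ℤ) + 1) * (lam d H i (1 :: y) * (toMat (d + 1) H).det) / (toMat (d + 1) H).det ^ 2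

theorem count_cell_mem {d : ℕ} {C : List Con} {H : List (List ℤ)} (hH : IsSimplex d C H)
    {y : List ℤ} (hy : y.length = d) (hs : sat C y) (i : Fin (d + 1)) :
    countCell d H y i ∈ Finset.Icc (-(2 * ((d : ℤ) + 1))) (2 * ((d : ℤ) + 1)) := by
  have hb := hH.bary y hy hs i i.2
  have hD : 0 < (toMat (d + 1) H).det ^ 2 := by
    have := hH.det_ne
    positivity
  have hab : |lam d H i (1 :: y) * (toMat (d + 1) H).det| ≤ (toMat (d + 1) H).det ^ 2 := by
    rw [abs_mul, ← sq_abs (toMat (d + 1) H).det, sq]
    exact mul_le_mul_of_nonneg_right hb (abs_nonneg _)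
  obtain ⟨h1, h2⟩ := abs_le.1 hab
  have hd : (0 : ℤ) ≤ 2 * ((d : ℤ) + 1) := by positivity
  rw [Finset.mem_Icc]
  unfold countCell
  constructor
  · rw [Int.le_ediv_iff_mul_le hD]
    nlinarith
  · apply Int.ediv_le_of_le_mul hD
    nlinarith

theorem count_cell_lt {d : ℕ} {H : List (List ℤ)} (hdet : (toMat (d + 1) H).det ≠ 0)
    {a b : List ℤ} {i : Fin (d + 1)} (h : countCell d H a i = countCell d H b i) :
    2 * ((d : ℤ) + 1) * (lam d H i (1 :: a) * (toMat (d + 1) H).det) <
      2 * ((d : ℤ) + 1) * (lam d H i (1 :: b) * (toMat (d + 1) H).det) +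
        (toMat (d + 1) H).det ^ 2 := by
  have hD : 0 < (toMat (d + 1) H).det ^ 2 := by positivity
  have h1 := Int.lt_ediv_add_one_mul_self
    (2 * ((d : ℤ) + 1) * (lam d H i (1 :: a) * (toMat (d + 1) H).det)) hD
  have h2 := Int.ediv_mul_le
    (2 * ((d : ℤ) + 1) * (lam d H i (1 :: b) * (toMat (d + 1) H).det)) hD.ne'
  unfold countCell at h
  rw [h] at h1
  linarith

theorem count_shift_sat {d : ℕ} {C : List Con} {H : List (List ℤ)} (hH : IsSimplex d C H)
    {z : List ℤ} (hz : z.length = d) (hdeep : ∀ i < d + 1, (toMat (d + 1) H).det ^ 2 ≤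
      2 * ((d : ℤ) + 1) * (lam d H i (1 :: z) * (toMat (d + 1) H).det))
    {a b : List ℤ} (ha : a.length = d) (hb : b.length = d)
    (h : countCell d H a = countCell d H b) : sat C (vadd z (vsub a b)) := by
  apply hH.inner _ (length_vadd hz (length_vsub ha hb))
  intro i hi
  have h1 := count_lam_shift hH.len ⟨i, hi⟩ hz ha hb
  have h2 := count_cell_lt hH.det_ne (congrFun h ⟨i, hi⟩).symm
  have h3 := hdeep i hi
  simp only at h1 h2
  rw [h1]
  have hd : (0 : ℤ) < 2 * ((d : ℤ) + 1) := by positivity
  by_contra hneg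
  rw [not_le] at hneg
  nlinarith

theorem count_dot_shift {d : ℕ} {α z a b : List ℤ} (hα : α.length = d) (hz : z.length = d)
    (ha : a.length = d) (hb : b.length = d) :
    dot α (vadd z (vsub a b)) = dot α z + dot α a - dot α b := by
  rw [dot_eq hα (length_vadd hz (length_vsub ha hb)), dot_eq hα hz, dot_eq hα ha, dot_eq hα hb,
    vec_vadd hz (length_vsub ha hb), vec_vsub ha hb, dotProduct_add, dotProduct_sub]
  ring

theorem count_shift_inj {d : ℕ} {z a b c e : List ℤ} (hz : z.length = d)
    (ha : a.length = d) (hb : b.length = d) (hc : c.length = d) (he : e.length = d)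
    (h : vadd z (vsub a b) = vadd z (vsub c e)) : vec d a - vec d b = vec d c - vec d e := by
  have h1 := congrArg (vec d) h
  rw [vec_vadd hz (length_vsub ha hb), vec_vsub ha hb, vec_vadd hz (length_vsub hc he),
    vec_vsub hc he] at h1
  exact add_left_cancel h1

theorem count_cut {d : ℕ} {C : List Con} {H : List (List ℤ)} (hH : IsSimplex d C H) {z : List ℤ}
    (hz : z.length = d) (hdeep : ∀ i < d + 1, (toMat (d + 1) H).det ^ 2 ≤
      2 * ((d : ℤ) + 1) * (lam d H i (1 :: z) * (toMat (d + 1) H).det))
    {α : List ℤ} (hα : α.length = d) (S : Finset (List ℤ))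
    (hS : ∀ y, y ∈ S ↔ y.length = d ∧ sat C y) :
    S.card ≤ 2 * (4 * d + 5) ^ (d + 1) * (S.filter fun y => dot α z ≤ dot α y).card := by
  classical
  have hmaps : ∀ y ∈ S, countCell d H y ∈ Fintype.piFinset
      (fun _ : Fin (d + 1) => Finset.Icc (-(2 * ((d : ℤ) + 1))) (2 * ((d : ℤ) + 1))) := by
    intro y hy
    rw [Fintype.mem_piFinset]
    exact count_cell_mem hH ((hS y).1 hy).1 ((hS y).1 hy).2
  have hcard : (Fintype.piFinset
      (fun _ : Fin (d + 1) => Finset.Icc (-(2 * ((d : ℤ) + 1))) (2 * ((d : ℤ) + 1)))).card =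
      (4 * d + 5) ^ (d + 1) := by
    rw [Fintype.card_piFinset_const, Int.card_Icc]
    congr 1
    omega
  have hmain : ∀ b ∈ Fintype.piFinset
      (fun _ : Fin (d + 1) => Finset.Icc (-(2 * ((d : ℤ) + 1))) (2 * ((d : ℤ) + 1))),
      (S.filter fun a => countCell d H a = b).card ≤
        2 * (S.filter fun y => dot α z ≤ dot α y).card := by
    intro b _
    rcases (S.filter fun a => countCell d H a = b).eq_empty_or_nonempty with he | ⟨a0, ha0⟩
    · rw [he]
      simp
    · rw [Finset.mem_filter] at ha0
      obtain ⟨ha0S, ha0b⟩ := ha0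
      have hl0 := ((hS a0).1 ha0S).1
      have hsub : (S.filter fun a => countCell d H a = b) ⊆
          ((S.filter fun a => countCell d H a = b).filter fun a => dot α a0 ≤ dot α a) ∪
          ((S.filter fun a => countCell d H a = b).filter fun a => dot α a ≤ dot α a0) := by
        intro a ha
        rw [Finset.mem_union]
        rcases le_total (dot α a0) (dot α a) with h | h
        · exact Or.inl (Finset.mem_filter.2 ⟨ha, h⟩)
        · exact Or.inr (Finset.mem_filter.2 ⟨ha, h⟩)
      refine (Finset.card_le_card hsub).trans ((Finset.card_union_le _ _).trans ?_)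
      rw [two_mul]
      refine Nat.add_le_add ?_ ?_
      · apply Finset.card_le_card_of_injOn (fun a => vadd z (vsub a a0))
        · intro a ha
          simp only [Finset.coe_filter, Set.mem_ofPred_eq, Finset.mem_filter] at ha
          obtain ⟨⟨haS, hab⟩, hd⟩ := ha
          have hl := ((hS a).1 haS).1
          simp only [Finset.coe_filter, Set.mem_ofPred_eq]
          refine ⟨(hS _).2 ⟨length_vadd hz (length_vsub hl hl0), ?_⟩, ?_⟩
          · exact count_shift_sat hH hz hdeep hl hl0 (hab.trans ha0b.symm)
          · rw [count_dot_shift hα hz hl hl0]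
            linarith
        · intro a ha c hc hac
          simp only [Finset.coe_filter, Set.mem_ofPred_eq, Finset.mem_filter] at ha hc
          have hl := ((hS a).1 ha.1.1).1
          have hl' := ((hS c).1 hc.1.1).1
          have := count_shift_inj hz hl hl0 hl' hl0 hac
          exact vec_inj hl hl' (by simpa using this)
      · apply Finset.card_le_card_of_injOn (fun a => vadd z (vsub a0 a))
        · intro a ha
          simp only [Finset.coe_filter, Set.mem_ofPred_eq, Finset.mem_filter] at ha
          obtain ⟨⟨haS, hab⟩, hd⟩ := ha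
          have hl := ((hS a).1 haS).1
          simp only [Finset.coe_filter, Set.mem_ofPred_eq]
          refine ⟨(hS _).2 ⟨length_vadd hz (length_vsub hl0 hl), ?_⟩, ?_⟩
          · exact count_shift_sat hH hz hdeep hl0 hl (ha0b.trans hab.symm)
          · rw [count_dot_shift hα hz hl0 hl]
            linarith
        · intro a ha c hc hac
          simp only [Finset.coe_filter, Set.mem_ofPred_eq, Finset.mem_filter] at ha hc
          have hl := ((hS a).1 ha.1.1).1
          have hl' := ((hS c).1 hc.1.1).1
          have := count_shift_inj hz hl0 hl hl0 hl' hac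
          exact vec_inj hl hl' (by simpa using this)
  have := Finset.card_le_mul_card_image_of_maps_to hmaps _ hmain
  rw [hcard] at this
  calc S.card ≤ _ := this
    _ = _ := by ring

end Pool.Agent.Lib.UBox
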