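import Mathlib

/-!
# Gram-Schmidt: abstract facts for lattice reduction, part 1
-/

namespace Pool.Agent.Lib.UBox



variable {m : ℕ}

/-- Gram determinant of the first `i` vectors. -/
noncomputable def gdet (β : ℕ → EuclideanSpace ℝ (Fin m)) (i : ℕ) : ℝ :=
  (Matrix.of fun j l : Fin i => inner ℝ (β j) (β l)).det

/-- The space of the first `i` vectors. -/
def spn (β : ℕ → EuclideanSpace ℝ (Fin m)) (i : ℕ) : Submodule ℝ (EuclideanSpace ℝ (Fin m)) :=
  Submodule.span ℝ (β '' Set.Iio i)

/-- The component of `β i` orthogonal to the vectors before. -/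
noncomputable def orth (β : ℕ → EuclideanSpace ℝ (Fin m)) (i : ℕ) : EuclideanSpace ℝ (Fin m) :=
  β i - (spn β i).starProjection (β i)

/-- `β i` is size-reduced. -/
def SizeRed (β : ℕ → EuclideanSpace ℝ (Fin m)) (i : ℕ) : Prop :=
  ∃ s : Fin i → ℝ, (∀ j, |s j| ≤ 1 / 2) ∧ β i = orth β i + ∑ j : Fin i, s j • β j

theorem gs_mem_spn (β : ℕ → EuclideanSpace ℝ (Fin m)) {i j : ℕ} (h : j < i) : β j ∈ spn β i :=
  Submodule.subset_span ⟨j, h, rfl⟩

theorem gs_image (β : ℕ → EuclideanSpace ℝ (Fin m)) (i : ℕ) :
    β '' Set.Iio i = Set.range fun j : Fin i => β j := by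
  ext x
  constructor
  · rintro ⟨j, hj, rfl⟩
    exact ⟨⟨j, hj⟩, rfl⟩
  · rintro ⟨j, rfl⟩
    exact ⟨j, j.2, rfl⟩

theorem gs_exists_coeff (β : ℕ → EuclideanSpace ℝ (Fin m)) {i : ℕ} {x : EuclideanSpace ℝ (Fin m)}
    (hx : x ∈ spn β i) : ∃ c : Fin i → ℝ, x = ∑ j, c j • β j := by
  unfold spn at hx
  rw [gs_image, Submodule.mem_span_range_iff_exists_fun] at hx
  obtain ⟨c, hc⟩ := hx
  exact ⟨c, hc.symm⟩

theorem gs_inner_orth (β : ℕ → EuclideanSpace ℝ (Fin m)) (i : ℕ) {x : EuclideanSpace ℝ (Fin m)}
    (hx : x ∈ spn β i) : inner ℝ (orth β i) x = 0 := by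
  have h := (spn β i).sub_starProjection_mem_orthogonal (β i)
  rw [Submodule.mem_orthogonal'] at h
  exact h x hx

theorem gs_exists_orth (β : ℕ → EuclideanSpace ℝ (Fin m)) (i : ℕ) :
    ∃ c : Fin i → ℝ, β i = orth β i + ∑ j, c j • β j := by
  obtain ⟨c, hc⟩ := gs_exists_coeff β ((spn β i).starProjection_apply_mem (β i))
  refine ⟨c, ?_⟩
  rw [← hc]
  unfold orth
  abel

theorem gdet_succ (β : ℕ → EuclideanSpace ℝ (Fin m)) (i : ℕ) :
    gdet β (i + 1) = gdet β i * ‖orth β i‖ ^ 2 := by
  classical
  obtain ⟨c, hc⟩ := gs_exists_orth β i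
  -- the transformation
  set E : Matrix (Fin (i + 1)) (Fin (i + 1)) ℝ := Matrix.of fun a b =>
    if a = Fin.last i then (if h : (b : ℕ) < i then - c ⟨b, h⟩ else 1) else if a = b then 1 else 0
    with hE
  set γ : Fin (i + 1) → EuclideanSpace ℝ (Fin m) :=
    fun a => if a = Fin.last i then orth β i else β a with hγ
  have hγE : ∀ a, γ a = ∑ b : Fin (i + 1), E a b • β b := by
    intro a
    by_cases ha : a = Fin.last i
    · subst ha
      rw [Fin.sum_univ_castSucc]
      simp only [hγ, hE, Matrix.of_apply, if_true, Fin.val_castSucc, Fin.val_last, Fin.is_lt,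
        dif_pos, lt_irrefl, dif_neg, not_false_eq_true, one_smul, Fin.eta, neg_smul,
        Finset.sum_neg_distrib]
      rw [eq_neg_add_iff_add_eq, add_comm]
      exact hc.symm
    · simp only [hγ, hE, Matrix.of_apply, if_neg ha]
      simp
  have hdetE : E.det = 1 := by
    rw [Matrix.det_of_isLowerTriangular]
    · refine Finset.prod_eq_one fun a _ => ?_
      simp only [hE, Matrix.of_apply]
      by_cases ha : a = Fin.last i
      · subst ha
        simp
      · simp [ha]
    · intro a b hab
      simp only [hE, Matrix.of_apply]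
      have h1 : a < b := hab
      have h2 : a ≠ Fin.last i := by
        intro h
        rw [h] at h1
        exact absurd h1 (not_lt.2 (Fin.le_last b))
      rw [if_neg h2, if_neg h1.ne]
  have hG : (Matrix.of fun a b : Fin (i + 1) => inner ℝ (γ a) (γ b))
      = E * (Matrix.of fun j l : Fin (i + 1) => inner ℝ (β j) (β l)) * E.transpose := by
    ext a b
    simp only [Matrix.of_apply, Matrix.mul_apply, Matrix.transpose_apply]
    rw [hγE a, hγE b, sum_inner]
    simp only [inner_sum, inner_smul_left, inner_smul_right, Finset.sum_mul]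
    rw [Finset.sum_comm]
    refine Finset.sum_congr rfl fun k _ => Finset.sum_congr rfl fun l _ => ?_
    simp only [conj_trivial]
    ring
  have h1 : gdet β (i + 1) = (Matrix.of fun a b : Fin (i + 1) => inner ℝ (γ a) (γ b)).det := by
    rw [hG, Matrix.det_mul, Matrix.det_mul, Matrix.det_transpose, hdetE]
    unfold gdet
    ring
  rw [h1, Matrix.det_succ_row _ (Fin.last i), Finset.sum_eq_single (Fin.last i)]
  · have h2 : (Matrix.of fun a b : Fin (i + 1) => inner ℝ (γ a) (γ b)) (Fin.last i) (Fin.last i)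
        = ‖orth β i‖ ^ 2 := by
      simp only [Matrix.of_apply, hγ, if_true]
      exact real_inner_self_eq_norm_sq _
    have h3 : ((Matrix.of fun a b : Fin (i + 1) => inner ℝ (γ a) (γ b)).submatrix
        (Fin.last i).succAbove (Fin.last i).succAbove).det = gdet β i := by
      unfold gdet
      congr 1
      ext a b
      simp only [Matrix.submatrix_apply, Matrix.of_apply, hγ, Fin.succAbove_last,
        if_neg (Fin.castSucc_ne_last _), Fin.val_castSucc]
    rw [h2, h3]
    have h4 : ((-1 : ℝ)) ^ ((Fin.last i : ℕ) + (Fin.last i : ℕ)) = 1 := by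
      rw [← two_mul, pow_mul]; simp
    rw [h4]; ring
  · intro b _ hb
    have h5 : (Matrix.of fun a b : Fin (i + 1) => inner ℝ (γ a) (γ b)) (Fin.last i) b = 0 := by
      simp only [Matrix.of_apply, hγ, if_true, if_neg hb]
      refine gs_inner_orth β i (gs_mem_spn β ?_)
      exact Fin.val_lt_last hb
    rw [h5]; ring
  · intro h; exact absurd (Finset.mem_univ _) h

theorem orth_ne_zero {β : ℕ → EuclideanSpace ℝ (Fin m)} {d : ℕ}
    (h : LinearIndependent ℝ fun j : Fin d => β j) {i : ℕ} (hi : i < d) : orth β i ≠ 0 := by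
  intro h0
  have h1 : β i ∈ spn β i := by
    have h2 : β i = (spn β i).starProjection (β i) := by
      unfold orth at h0
      exact sub_eq_zero.1 h0
    rw [h2]
    exact (spn β i).starProjection_apply_mem (β i)
  have h3 : (⟨i, hi⟩ : Fin d) ∉ {j : Fin d | (j : ℕ) < i} := by simp
  have h4 := h.notMem_span_image h3
  apply h4
  unfold spn at h1
  convert h1 using 2
  ext x
  constructor
  · rintro ⟨j, hj, rfl⟩
    exact ⟨j, hj, rfl⟩
  · rintro ⟨j, hj, rfl⟩
    exact ⟨⟨j, lt_trans hj hi⟩, hj, rfl⟩

theorem norm_orth_le (β : ℕ → EuclideanSpace ℝ (Fin m)) (i : ℕ) : ‖orth β i‖ ≤ ‖β i‖ := by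
  have h1 : inner ℝ (orth β i) ((spn β i).starProjection (β i)) = 0 :=
    gs_inner_orth β i ((spn β i).starProjection_apply_mem (β i))
  have h2 : β i = orth β i + (spn β i).starProjection (β i) := by unfold orth; abel
  have h3 : ‖β i‖ ^ 2 = ‖orth β i‖ ^ 2 + ‖(spn β i).starProjection (β i)‖ ^ 2 := by
    conv_lhs => rw [h2]
    rw [norm_add_sq_real, h1]; ring
  have h4 : ‖orth β i‖ ^ 2 ≤ ‖β i‖ ^ 2 := by
    rw [h3]; nlinarith [sq_nonneg ‖(spn β i).starProjection (β i)‖]
  exact le_of_sq_le_sq h4 (norm_nonneg _)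

theorem orth_eq {β : ℕ → EuclideanSpace ℝ (Fin m)} {i : ℕ} (h : gdet β i ≠ 0) :
    β i = orth β i + ∑ j : Fin i, (((Matrix.of fun j l : Fin i => inner ℝ (β j) (β l)).updateRow j
      fun l => inner ℝ (β i) (β l)).det / gdet β i) • β j := by
  classical
  obtain ⟨c, hc⟩ := gs_exists_orth β i
  have h1 : ∀ l : Fin i, inner ℝ (β i) (β l) = ∑ k : Fin i, c k * inner ℝ (β k) (β l) := by
    intro l
    conv_lhs => rw [hc]
    rw [inner_add_left, gs_inner_orth β i (gs_mem_spn β l.2), zero_add, sum_inner]
    refine Finset.sum_congr rfl fun k _ => ?_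
    rw [inner_smul_left]; simp
  have h2 : ∀ j : Fin i, ((Matrix.of fun j l : Fin i => inner ℝ (β j) (β l)).updateRow j
      fun l => inner ℝ (β i) (β l)).det / gdet β i = c j := by
    intro j
    rw [div_eq_iff h]
    have h3 : (fun l : Fin i => inner ℝ (β i) (β l))
        = ∑ k, c k • (Matrix.of fun j l : Fin i => inner ℝ (β j) (β l)) k := by
      funext l
      rw [Finset.sum_apply, h1 l]
      rfl
    rw [h3, Matrix.det_updateRow_sum]
    rfl
  simp_rw [h2]
  exact hc

theorem gs_spn_congr {β β' : ℕ → EuclideanSpace ℝ (Fin m)} {i : ℕ} (h : ∀ j < i, β' j = β j) :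
    spn β' i = spn β i := by
  unfold spn
  congr 1
  exact Set.image_congr fun j hj => h j hj

theorem gs_proj_congr {U V : Submodule ℝ (EuclideanSpace ℝ (Fin m))} [U.HasOrthogonalProjection]
    [V.HasOrthogonalProjection] (h : U = V) (x : EuclideanSpace ℝ (Fin m)) :
    U.starProjection x = V.starProjection x := by
  subst h; rfl

theorem gs_orth_congr {β β' : ℕ → EuclideanSpace ℝ (Fin m)} {i : ℕ} (h : ∀ j < i, β' j = β j)
    (h2 : β' i - β i ∈ spn β i) : orth β' i = orth β i := by
  unfold orth
  rw [gs_proj_congr (gs_spn_congr h)]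
  have h3 : β' i = β i + (β' i - β i) := by abel
  have h4 : (spn β i).starProjection (β' i - β i) = β' i - β i :=
    Submodule.starProjection_eq_self_iff.2 h2
  conv_lhs => rw [h3]
  rw [map_add, h4]
  abel

/-- Adding vectors before `β i` does not change the orthogonal components. -/
theorem orth_update {β : ℕ → EuclideanSpace ℝ (Fin m)} (i : ℕ) (s : Fin i → ℝ) (j : ℕ) :
    orth (Function.update β i (β i + ∑ l : Fin i, s l • β l)) j = orth β j := by
  have hmem : ∑ l : Fin i, s l • β l ∈ spn β i :=
    Submodule.sum_mem _ fun l _ => Submodule.smul_mem _ _ (gs_mem_spn β l.2)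
  set β' := Function.update β i (β i + ∑ l : Fin i, s l • β l) with hβ'
  rcases lt_trichotomy j i with hj | hj | hj
  · refine gs_orth_congr (fun k hk => ?_) ?_
    · rw [hβ', Function.update_of_ne (by omega)]
    · rw [hβ', Function.update_of_ne (by omega), sub_self]
      exact Submodule.zero_mem _
  · subst hj
    refine gs_orth_congr (fun k hk => ?_) ?_
    · rw [hβ', Function.update_of_ne (by omega)]
    · rw [hβ', Function.update_self, add_sub_cancel_left]
      exact hmem
  · have h1 : spn β' j = spn β j := by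
      apply le_antisymm
      · unfold spn
        rw [Submodule.span_le]
        rintro _ ⟨k, hk, rfl⟩
        by_cases hki : k = i
        · subst hki
          rw [hβ', Function.update_self]
          refine Submodule.add_mem _ (gs_mem_spn β hj) ?_
          exact Submodule.span_mono (Set.image_mono (Set.Iio_subset_Iio hj.le)) hmem
        · rw [hβ', Function.update_of_ne hki]
          exact gs_mem_spn β hk
      · unfold spn
        rw [Submodule.span_le]
        rintro _ ⟨k, hk, rfl⟩
        by_cases hki : k = i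
        · subst hki
          have h2 : β k = β' k - ∑ l : Fin k, s l • β' l := by
            have h3 : ∀ l : Fin k, β' l = β l := fun l => by
              rw [hβ', Function.update_of_ne (by have := l.2; omega)]
            simp_rw [h3]
            rw [hβ', Function.update_self, add_sub_cancel_right]
          rw [h2]
          refine Submodule.sub_mem _ (gs_mem_spn β' hj) ?_
          exact Submodule.sum_mem _ fun l _ => Submodule.smul_mem _ _
            (gs_mem_spn β' (lt_trans l.2 hj))
        · have h2 : β k = β' k := by rw [hβ', Function.update_of_ne hki]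
          rw [h2]
          exact gs_mem_spn β' hk
    unfold orth
    rw [gs_proj_congr h1, hβ', Function.update_of_ne (by omega)]

theorem gdet_update {β : ℕ → EuclideanSpace ℝ (Fin m)} (i : ℕ) (s : Fin i → ℝ) (j : ℕ) :
    gdet (Function.update β i (β i + ∑ l : Fin i, s l • β l)) j = gdet β j := by
  induction j with
  | zero => simp [gdet]
  | succ j ih => rw [gdet_succ, gdet_succ, ih, orth_update]

theorem gdet_swap {β : ℕ → EuclideanSpace ℝ (Fin m)} (i : ℕ) {j : ℕ} (hj : j ≠ i + 1) :
    gdet (β ∘ Equiv.swap i (i + 1)) j = gdet β j := by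
  classical
  rcases lt_or_gt_of_ne hj with h | h
  · unfold gdet
    congr 1
    ext a b
    have h1 : ∀ a : Fin j, (β ∘ Equiv.swap i (i + 1)) a = β a := by
      intro a
      have := a.2
      rw [Function.comp_apply, Equiv.swap_apply_of_ne_of_ne (by omega) (by omega)]
    simp only [Matrix.of_apply]
    rw [h1, h1]
  · have h2 : ∀ a : Fin j, ((Equiv.swap (⟨i, by omega⟩ : Fin j) ⟨i + 1, h⟩ a : Fin j) : ℕ)
        = Equiv.swap i (i + 1) (a : ℕ) := by
      intro a
      by_cases h3 : (a : ℕ) = i
      · have h4 : a = (⟨i, by omega⟩ : Fin j) := Fin.ext h3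
        rw [h4, Equiv.swap_apply_left]
        simp
      · by_cases h5 : (a : ℕ) = i + 1
        · have h6 : a = (⟨i + 1, h⟩ : Fin j) := Fin.ext h5
          rw [h6, Equiv.swap_apply_right]
          simp
        · rw [Equiv.swap_apply_of_ne_of_ne (fun h7 => h3 (congrArg Fin.val h7))
            (fun h7 => h5 (congrArg Fin.val h7)), Equiv.swap_apply_of_ne_of_ne h3 h5]
    have h8 : (Matrix.of fun a b : Fin j => inner ℝ ((β ∘ Equiv.swap i (i + 1)) a)
        ((β ∘ Equiv.swap i (i + 1)) b))
        = (Matrix.of fun a b : Fin j => inner ℝ (β a) (β b)).submatrix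
          (Equiv.swap (⟨i, by omega⟩ : Fin j) ⟨i + 1, h⟩)
          (Equiv.swap (⟨i, by omega⟩ : Fin j) ⟨i + 1, h⟩) := by
      ext a b
      simp only [Matrix.of_apply, Matrix.submatrix_apply, Function.comp_apply, h2]
    unfold gdet
    rw [h8, Matrix.det_submatrix_equiv_self]

end Pool.Agent.Lib.UBox
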