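import Pool.Agent.Lib.UBox.GS

/-!
# Gram-Schmidt: abstract facts for lattice reduction, part 2
-/

namespace Pool.Agent.Lib.UBox



variable {m : ℕ}

theorem gs2_dist_le (K : Submodule ℝ (EuclideanSpace ℝ (Fin m))) (x w : EuclideanSpace ℝ (Fin m))
    (hw : w ∈ K) : ‖x - K.starProjection x‖ ≤ ‖x - w‖ := by
  have h1 : inner ℝ (x - K.starProjection x) (K.starProjection x - w) = 0 :=
    K.starProjection_inner_eq_zero x _ (K.sub_mem (K.starProjection_apply_mem x) hw)
  have h2 : x - w = (x - K.starProjection x) + (K.starProjection x - w) := by abel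
  have h3 := norm_add_sq_real (x - K.starProjection x) (K.starProjection x - w)
  rw [← h2, h1] at h3
  have h4 : ‖x - K.starProjection x‖ ^ 2 ≤ ‖x - w‖ ^ 2 := by
    rw [h3]
    nlinarith [sq_nonneg ‖K.starProjection x - w‖]
  exact (pow_le_pow_iff_left₀ (norm_nonneg _) (norm_nonneg _) two_ne_zero).mp h4

theorem gs2_proj_congr {K K' : Submodule ℝ (EuclideanSpace ℝ (Fin m))} (h : K = K')
    (x : EuclideanSpace ℝ (Fin m)) : K.starProjection x = K'.starProjection x := by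
  subst h
  rfl

theorem gs2_spn_swap (β : ℕ → EuclideanSpace ℝ (Fin m)) {i j : ℕ} (h : j ≤ i) :
    spn (β ∘ Equiv.swap i (i + 1)) j = spn β j := by
  unfold spn
  congr 1
  apply Set.image_congr
  intro l hl
  have : l < j := hl
  simp only [Function.comp_apply]
  rw [Equiv.swap_apply_of_ne_of_ne (by omega) (by omega)]

theorem gs2_gdet_zero (β : ℕ → EuclideanSpace ℝ (Fin m)) : gdet β 0 = 1 := by
  unfold gdet
  simp

theorem gs2_gdet_pos {β : ℕ → EuclideanSpace ℝ (Fin m)} {d : ℕ}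
    (h : LinearIndependent ℝ fun j : Fin d => β j) : ∀ i ≤ d, 0 < gdet β i := by
  intro i
  induction i with
  | zero => intro _; rw [gs2_gdet_zero]; norm_num
  | succ i ih =>
    intro hi
    rw [gdet_succ]
    have h1 := orth_ne_zero h (show i < d by omega)
    have h2 := ih (by omega)
    positivity

theorem gs2_orth_swap (β : ℕ → EuclideanSpace ℝ (Fin m)) (i : ℕ) :
    orth (β ∘ Equiv.swap i (i + 1)) i = β (i + 1) - (spn β i).starProjection (β (i + 1)) := by
  unfold orth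
  rw [gs2_proj_congr (gs2_spn_swap β le_rfl)]
  simp only [Function.comp_apply, Equiv.swap_apply_left]

theorem gs2_mem_spn (β : ℕ → EuclideanSpace ℝ (Fin m)) {i j : ℕ} (h : j < i) : β j ∈ spn β i :=
  Submodule.subset_span ⟨j, h, rfl⟩

/-- A swap does not increase the largest orthogonal component. -/
theorem orth_swap_le {β : ℕ → EuclideanSpace ℝ (Fin m)} {d i : ℕ} {A : ℝ}
    (h : LinearIndependent ℝ fun j : Fin d => β j) (hi : i + 1 < d)
    (hs : 4 * gdet (β ∘ Equiv.swap i (i + 1)) (i + 1) ≤ 3 * gdet β (i + 1))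
    (hA : ∀ j < d, ‖orth β j‖ ^ 2 ≤ A) :
    ∀ j < d, ‖orth (β ∘ Equiv.swap i (i + 1)) j‖ ^ 2 ≤ A := by
  intro j hj
  have hpos := gs2_gdet_pos h
  rcases lt_trichotomy j i with hlt | heq | hgt
  · have e : orth (β ∘ Equiv.swap i (i + 1)) j = orth β j := by
      unfold orth
      rw [gs2_proj_congr (gs2_spn_swap β hlt.le)]
      simp only [Function.comp_apply]
      rw [Equiv.swap_apply_of_ne_of_ne (by omega) (by omega)]
    rw [e]; exact hA j hj
  · subst heq
    have h1 := gdet_succ (β ∘ Equiv.swap j (j + 1)) j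
    rw [gdet_swap j (by omega : j ≠ j + 1)] at h1
    have h2 := gdet_succ β j
    have h3 := hpos j (by omega)
    rw [h1, h2] at hs
    have h4 : ‖orth (β ∘ Equiv.swap j (j + 1)) j‖ ^ 2 ≤ ‖orth β j‖ ^ 2 := by
      have h5 : gdet β j * (4 * ‖orth (β ∘ Equiv.swap j (j + 1)) j‖ ^ 2) ≤
          gdet β j * (3 * ‖orth β j‖ ^ 2) := by nlinarith
      have h6 := le_of_mul_le_mul_left h5 h3
      nlinarith [sq_nonneg ‖orth β j‖]
    exact h4.trans (hA j hj)
  · rcases Nat.lt_or_ge (i + 1) j with h1 | h1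
    · have e1 := gdet_succ (β ∘ Equiv.swap i (i + 1)) j
      rw [gdet_swap i (by omega : j ≠ i + 1), gdet_swap i (by omega : j + 1 ≠ i + 1)] at e1
      have e2 := gdet_succ β j
      rw [e2] at e1
      have h3 := hpos j (by omega)
      have e3 := mul_left_cancel₀ h3.ne' e1
      rw [← e3]; exact hA j hj
    · have hj' : j = i + 1 := by omega
      subst hj'
      have h2 : ‖orth (β ∘ Equiv.swap i (i + 1)) (i + 1)‖ ≤ ‖orth β i‖ := by
        have h3 : (spn β i).starProjection (β i) ∈ spn (β ∘ Equiv.swap i (i + 1)) (i + 1) := by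
          have h4 : spn β i ≤ spn (β ∘ Equiv.swap i (i + 1)) (i + 1) := by
            rw [← gs2_spn_swap β (le_refl i)]
            apply Submodule.span_mono
            apply Set.image_mono
            intro l hl
            have : l < i := hl
            show l < i + 1
            omega
          exact h4 ((spn β i).starProjection_apply_mem _)
        have h5 := gs2_dist_le (spn (β ∘ Equiv.swap i (i + 1)) (i + 1)) (β i) _ h3
        unfold orth
        simpa only [Function.comp_apply, Equiv.swap_apply_right] using h5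
      have h6 : ‖orth (β ∘ Equiv.swap i (i + 1)) (i + 1)‖ ^ 2 ≤ ‖orth β i‖ ^ 2 := by
        gcongr
      exact h6.trans (hA i (by omega))

theorem norm_le_of_sizeRed {β : ℕ → EuclideanSpace ℝ (Fin m)} {i : ℕ} {A : ℝ}
    (hs : ∀ j ≤ i, SizeRed β j) (hA : ∀ j ≤ i, ‖orth β j‖ ^ 2 ≤ A) :
    ‖β i‖ ^ 2 ≤ (9 / 4) ^ i * A := by
  have hA0 : 0 ≤ A := (sq_nonneg _).trans (hA 0 (Nat.zero_le _))
  have key : ∀ j ≤ i, ‖β j‖ ≤ (3 / 2) ^ j * Real.sqrt A := by
    intro j
    induction j using Nat.strong_induction_on with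
    | _ j ih =>
      intro hj
      obtain ⟨s, hs1, hs2⟩ := hs j hj
      have h1 : ‖orth β j‖ ≤ Real.sqrt A := Real.le_sqrt_of_sq_le (hA j hj)
      have h2 : ‖∑ l : Fin j, s l • β l‖ ≤ ∑ l : Fin j, (1 / 2) * ((3 / 2) ^ (l : ℕ) * Real.sqrt A) := by
        refine (norm_sum_le _ _).trans (Finset.sum_le_sum fun l _ => ?_)
        rw [norm_smul]
        have h3 := ih l l.2 (by omega)
        have h4 : ‖s l‖ ≤ 1 / 2 := hs1 l
        exact mul_le_mul h4 h3 (norm_nonneg _) (by norm_num)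
      have h5 : ∑ l : Fin j, (1 / 2 : ℝ) * ((3 / 2) ^ (l : ℕ) * Real.sqrt A) =
          ((3 / 2) ^ j - 1) * Real.sqrt A := by
        rw [← Finset.mul_sum, ← Finset.sum_mul, Fin.sum_univ_eq_sum_range (fun l => (3 / 2 : ℝ) ^ l) j,
          geom_sum_eq (by norm_num)]
        ring
      calc ‖β j‖ = ‖orth β j + ∑ l : Fin j, s l • β l‖ := by rw [← hs2]
        _ ≤ ‖orth β j‖ + ‖∑ l : Fin j, s l • β l‖ := norm_add_le _ _
        _ ≤ Real.sqrt A + ((3 / 2) ^ j - 1) * Real.sqrt A := by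
            rw [← h5]; exact add_le_add h1 h2
        _ = (3 / 2) ^ j * Real.sqrt A := by ring
  have h1 := key i le_rfl
  calc ‖β i‖ ^ 2 ≤ ((3 / 2) ^ i * Real.sqrt A) ^ 2 := by gcongr
    _ = ((3 / 2) ^ 2) ^ i * (Real.sqrt A) ^ 2 := by
        rw [mul_pow, ← pow_mul, ← pow_mul, mul_comm i 2]
    _ = (9 / 4) ^ i * A := by rw [Real.sq_sqrt hA0]; norm_num

theorem gs2_orth_inner (β : ℕ → EuclideanSpace ℝ (Fin m)) (i : ℕ)
    {w : EuclideanSpace ℝ (Fin m)} (hw : w ∈ spn β i) : inner ℝ (orth β i) w = 0 :=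
  (spn β i).starProjection_inner_eq_zero _ _ hw

theorem gs2_spn_mono (β : ℕ → EuclideanSpace ℝ (Fin m)) {i j : ℕ} (h : i ≤ j) :
    spn β i ≤ spn β j := by
  apply Submodule.span_mono
  apply Set.image_mono
  intro l hl
  have : l < i := hl
  show l < j
  omega

theorem gs2_orth_mem (β : ℕ → EuclideanSpace ℝ (Fin m)) (i : ℕ) : orth β i ∈ spn β (i + 1) :=
  Submodule.sub_mem _ (gs2_mem_spn β (Nat.lt_succ_self i))
    (gs2_spn_mono β (Nat.le_succ i) ((spn β i).starProjection_apply_mem _))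

theorem gs2_lovasz {β : ℕ → EuclideanSpace ℝ (Fin m)} {i : ℕ} (hpos : 0 < gdet β i)
    (hs : SizeRed β (i + 1))
    (hl : 3 * gdet β (i + 1) ≤ 4 * gdet (β ∘ Equiv.swap i (i + 1)) (i + 1)) :
    ‖orth β i‖ ^ 2 ≤ 2 * ‖orth β (i + 1)‖ ^ 2 := by
  obtain ⟨s, hs1, hs2⟩ := hs
  set K := spn β i with hK
  -- the component of `β (i+1)` orthogonal to `K`
  have e1 : orth (β ∘ Equiv.swap i (i + 1)) i = orth β (i + 1) + s (Fin.last i) • orth β i := by
    rw [gs2_orth_swap]
    have e2 : (spn β i).starProjection (β (i + 1)) =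
        β (i + 1) - (orth β (i + 1) + s (Fin.last i) • orth β i) := by
      apply Submodule.eq_starProjection_of_mem_of_inner_eq_zero
      · have e3 : β (i + 1) - (orth β (i + 1) + s (Fin.last i) • orth β i) =
            (∑ l : Fin i, s l.castSucc • β l) + s (Fin.last i) • (spn β i).starProjection (β i) := by
          conv_lhs => rw [hs2, Fin.sum_univ_castSucc]
          simp only [Fin.val_castSucc, Fin.val_last]
          have : orth β i = β i - (spn β i).starProjection (β i) := rfl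
          rw [this, smul_sub]
          abel
        rw [e3]
        refine Submodule.add_mem _ (Submodule.sum_mem _ fun l _ => Submodule.smul_mem _ _
          (gs2_mem_spn β l.2)) (Submodule.smul_mem _ _ ((spn β i).starProjection_apply_mem _))
      · intro w hw
        rw [sub_sub_cancel, inner_add_left, inner_smul_left,
          gs2_orth_inner β (i + 1) (gs2_spn_mono β (Nat.le_succ i) hw), gs2_orth_inner β i hw]
        simp
    rw [e2]
    abel
  have h1 := gdet_succ (β ∘ Equiv.swap i (i + 1)) i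
  rw [gdet_swap i (by omega : i ≠ i + 1)] at h1
  rw [h1, gdet_succ] at hl
  have h2 : gdet β i * (3 * ‖orth β i‖ ^ 2) ≤
      gdet β i * (4 * ‖orth (β ∘ Equiv.swap i (i + 1)) i‖ ^ 2) := by nlinarith
  have h3 := le_of_mul_le_mul_left h2 hpos
  have h4 : ‖orth (β ∘ Equiv.swap i (i + 1)) i‖ ^ 2 =
      ‖orth β (i + 1)‖ ^ 2 + s (Fin.last i) ^ 2 * ‖orth β i‖ ^ 2 := by
    rw [e1, norm_add_sq_real, inner_smul_right, gs2_orth_inner β (i + 1) (gs2_orth_mem β i),
      norm_smul, mul_pow, Real.norm_eq_abs, sq_abs]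
    ring
  have h5 : s (Fin.last i) ^ 2 ≤ 1 / 4 := by
    have := hs1 (Fin.last i)
    rw [abs_le] at this
    nlinarith [this.1, this.2]
  have h6 : s (Fin.last i) ^ 2 * ‖orth β i‖ ^ 2 ≤ 1 / 4 * ‖orth β i‖ ^ 2 :=
    mul_le_mul_of_nonneg_right h5 (sq_nonneg _)
  nlinarith

theorem reduced_thin {β : ℕ → EuclideanSpace ℝ (Fin m)} {d : ℕ}
    (h : LinearIndependent ℝ fun j : Fin (d + 1) => β j) (hs : ∀ i ≤ d, SizeRed β i)
    (hl : ∀ i < d, 3 * gdet β (i + 1) ≤ 4 * gdet (β ∘ Equiv.swap i (i + 1)) (i + 1))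
    (x : Fin (d + 1) → ℝ) (i : ℕ) (hi : i ≤ d) :
    x (Fin.last d) ^ 2 * ‖β i‖ ^ 2 ≤ 5 ^ (d + 1) * ‖∑ j : Fin (d + 1), x j • β j‖ ^ 2 := by
  have hpos := gs2_gdet_pos h
  have hstep : ∀ j < d, ‖orth β j‖ ^ 2 ≤ 2 * ‖orth β (j + 1)‖ ^ 2 := fun j hj =>
    gs2_lovasz (hpos j (by omega)) (hs (j + 1) (by omega)) (hl j hj)
  have hchain : ∀ t ≤ d, ‖orth β (d - t)‖ ^ 2 ≤ 2 ^ t * ‖orth β d‖ ^ 2 := by
    intro t
    induction t with
    | zero => intro _; simp
    | succ t ih =>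
      intro ht
      have h1 := ih (by omega)
      have h2 := hstep (d - (t + 1)) (by omega)
      rw [show d - (t + 1) + 1 = d - t by omega] at h2
      calc ‖orth β (d - (t + 1))‖ ^ 2 ≤ 2 * ‖orth β (d - t)‖ ^ 2 := h2
        _ ≤ 2 * (2 ^ t * ‖orth β d‖ ^ 2) := by linarith
        _ = 2 ^ (t + 1) * ‖orth β d‖ ^ 2 := by ring
  have hall : ∀ j ≤ d, ‖orth β j‖ ^ 2 ≤ 2 ^ d * ‖orth β d‖ ^ 2 := by
    intro j hj
    have h1 := hchain (d - j) (by omega)
    rw [show d - (d - j) = j by omega] at h1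
    refine h1.trans (mul_le_mul_of_nonneg_right ?_ (sq_nonneg _))
    exact pow_le_pow_right₀ (by norm_num) (by omega)
  have h1 := norm_le_of_sizeRed (i := i) (A := 2 ^ d * ‖orth β d‖ ^ 2)
    (fun j hj => hs j (by omega)) (fun j hj => hall j (by omega))
  have h2 : ‖β i‖ ^ 2 ≤ 5 ^ (d + 1) * ‖orth β d‖ ^ 2 := by
    calc ‖β i‖ ^ 2 ≤ (9 / 4) ^ i * (2 ^ d * ‖orth β d‖ ^ 2) := h1
      _ ≤ (9 / 4) ^ d * (2 ^ d * ‖orth β d‖ ^ 2) := by
          have : (9 / 4 : ℝ) ^ i ≤ (9 / 4) ^ d := pow_le_pow_right₀ (by norm_num) hi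
          gcongr
      _ = (9 / 2) ^ d * ‖orth β d‖ ^ 2 := by
          rw [← mul_assoc, ← mul_pow]; norm_num
      _ ≤ 5 ^ (d + 1) * ‖orth β d‖ ^ 2 := by
          refine mul_le_mul_of_nonneg_right ?_ (sq_nonneg _)
          calc (9 / 2 : ℝ) ^ d ≤ 5 ^ d := by gcongr; norm_num
            _ ≤ 5 ^ (d + 1) := pow_le_pow_right₀ (by norm_num) (by omega)
  have h3 : x (Fin.last d) ^ 2 * ‖orth β d‖ ^ 2 ≤ ‖∑ j : Fin (d + 1), x j • β j‖ ^ 2 := by
    have e1 : ∑ j : Fin (d + 1), x j • β j = x (Fin.last d) • orth β d +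
        (∑ j : Fin d, x j.castSucc • β j + x (Fin.last d) • (spn β d).starProjection (β d)) := by
      rw [Fin.sum_univ_castSucc]
      simp only [Fin.val_castSucc, Fin.val_last]
      have : orth β d = β d - (spn β d).starProjection (β d) := rfl
      rw [this, smul_sub]
      abel
    have e2 : (∑ j : Fin d, x j.castSucc • β j + x (Fin.last d) • (spn β d).starProjection (β d)) ∈
        spn β d :=
      Submodule.add_mem _ (Submodule.sum_mem _ fun l _ => Submodule.smul_mem _ _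
        (gs2_mem_spn β l.2)) (Submodule.smul_mem _ _ ((spn β d).starProjection_apply_mem _))
    rw [e1, norm_add_sq_real, inner_smul_left, gs2_orth_inner β d e2, norm_smul, mul_pow,
      Real.norm_eq_abs, sq_abs]
    simp only [mul_zero, add_zero]
    nlinarith [sq_nonneg ‖∑ j : Fin d, x j.castSucc • β j + x (Fin.last d) • (spn β d).starProjection (β d)‖]
  calc x (Fin.last d) ^ 2 * ‖β i‖ ^ 2 ≤ x (Fin.last d) ^ 2 * (5 ^ (d + 1) * ‖orth β d‖ ^ 2) :=
        mul_le_mul_of_nonneg_left h2 (sq_nonneg _)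
    _ = 5 ^ (d + 1) * (x (Fin.last d) ^ 2 * ‖orth β d‖ ^ 2) := by ring
    _ ≤ 5 ^ (d + 1) * ‖∑ j : Fin (d + 1), x j • β j‖ ^ 2 :=
        mul_le_mul_of_nonneg_left h3 (by positivity)

end Pool.Agent.Lib.UBox
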