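import Pool.Agent.Lib.UBox.Basic
import Pool.Agent.Lib.UBox.GS2

/-!
# The lattice reduction
-/

namespace Pool.Agent.Lib.UBox

open Pool.Agent.Lib.PolyTime

/-! ### The matrix of the linear forms -/

/-- The matrix of the forms. -/
def lllRM (d : ℕ) (R : List (List ℤ)) : Matrix (Fin R.length) (Fin d) ℤ :=
  Matrix.of fun r l => (R.getD r []).getD l 0

theorem lll_getD_mem {R : List (List ℤ)} {r : ℕ} (h : r < R.length) : R.getD r [] ∈ R := by
  rw [List.getD_eq_getElem _ _ h]
  exact List.getElem_mem h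

theorem lll_getD_mem' {v : List ℤ} {l : ℕ} (h : l < v.length) : v.getD l 0 ∈ v := by
  rw [List.getD_eq_getElem _ _ h]
  exact List.getElem_mem h

theorem lll_mulVec {d : ℕ} {R : List (List ℤ)} (hR : ∀ r ∈ R, r.length = d) {w : List ℤ}
    (hw : w.length = d) (r : Fin R.length) :
    (lllRM d R).mulVec (vec d w) r = dot (R.getD r []) w := by
  rw [dot_eq (hR _ (lll_getD_mem r.2)) hw]
  rfl

theorem lll_det_ne {d : ℕ} {R : List (List ℤ)} (hR : ∀ r ∈ R, r.length = d)
    (hker : ∀ w : List ℤ, w.length = d → (∀ r ∈ R, dot r w = 0) → ∀ a ∈ w, a = 0) :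
    ((lllRM d R).transpose * lllRM d R).det ≠ 0 := by
  intro h0
  obtain ⟨v, hv, hv0⟩ := Matrix.exists_mulVec_eq_zero_iff.mpr h0
  apply hv
  have h1 : dotProduct ((lllRM d R).mulVec v) ((lllRM d R).mulVec v) = 0 := by
    have h2 : dotProduct v (((lllRM d R).transpose * lllRM d R).mulVec v) = 0 := by
      rw [hv0]; simp
    rw [← Matrix.mulVec_mulVec, Matrix.dotProduct_mulVec, Matrix.vecMul_transpose] at h2
    exact h2
  have h3 : (lllRM d R).mulVec v = 0 := dotProduct_self_eq_zero.mp h1
  have h4 := hker (List.ofFn v) (by simp) (by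
    intro r hr
    obtain ⟨n, hn, rfl⟩ := List.getElem_of_mem hr
    have h5 := lll_mulVec hR (w := List.ofFn v) (by simp) ⟨n, hn⟩
    rw [vec_ofFn, h3] at h5
    simp only [Pi.zero_apply] at h5
    rw [List.getD_eq_getElem _ _ hn] at h5
    exact h5.symm)
  funext l
  exact h4 (v l) (List.mem_ofFn.mpr ⟨l, rfl⟩)

/-! ### The vectors in Euclidean space -/

/-- The images of the vectors of a list under the forms. -/
noncomputable def bet (R b : List (List ℤ)) (j : ℕ) : EuclideanSpace ℝ (Fin R.length) :=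
  WithLp.toLp 2 fun r => ((dot (R.getD r []) (b.getD j []) : ℤ) : ℝ)

theorem inner_bet (R b b' : List (List ℤ)) (j l : ℕ) :
    inner ℝ (bet R b j) (bet R b' l) = ((bil R (b.getD j []) (b'.getD l []) : ℤ) : ℝ) := by
  have h1 : bil R (b.getD j []) (b'.getD l []) = ∑ r : Fin R.length,
      dot (R.getD r []) (b.getD j []) * dot (R.getD r []) (b'.getD l []) := by
    unfold bil
    rw [← Fin.sum_univ_fun_getElem]
    refine Finset.sum_congr rfl fun r _ => ?_
    rw [List.getD_eq_getElem _ _ r.2]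
  rw [h1, PiLp.inner_apply, Int.cast_sum]
  refine Finset.sum_congr rfl fun r _ => ?_
  simp only [bet, RCLike.inner_apply, conj_trivial, Int.cast_mul]
  ring

theorem lll_norm_bet (R b : List (List ℤ)) (j : ℕ) :
    ‖bet R b j‖ ^ 2 = ((bil R (b.getD j []) (b.getD j []) : ℤ) : ℝ) := by
  rw [← inner_bet, real_inner_self_eq_norm_sq]

theorem lll_dot_nil_right (u : List ℤ) : dot u [] = 0 := by
  simp [dot]

/-- Gram determinants are determinants of inner products. -/
theorem gdet_congr {m : ℕ} {β β' : ℕ → EuclideanSpace ℝ (Fin m)} {i : ℕ}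
    (h : ∀ j < i, β j = β' j) : gdet β i = gdet β' i := by
  unfold gdet
  congr 1
  ext j l
  simp only [Matrix.of_apply]
  rw [h j j.2, h l l.2]

theorem lll_gram_getD (R L : List (List ℤ)) {j l : ℕ} (hj : j < L.length) (hl : l < L.length) :
    ((gramOf R L).getD j []).getD l 0 = bil R (L.getD j []) (L.getD l []) := by
  unfold gramOf
  simp [List.getD_eq_getElem?_getD, hj, hl]

theorem lll_gdet_eq (R L : List (List ℤ)) :
    gdet (bet R L) L.length = (((toMat L.length (gramOf R L)).det : ℤ) : ℝ) := by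
  unfold gdet
  rw [show (((toMat L.length (gramOf R L)).det : ℤ) : ℝ) =
    (Int.castRingHom ℝ) (toMat L.length (gramOf R L)).det from rfl, RingHom.map_det]
  congr 1
  ext j l
  simp only [Matrix.of_apply, RingHom.mapMatrix_apply, Matrix.map_apply, toMat, inner_bet]
  rw [lll_gram_getD R L j.2 l.2]
  rfl

theorem lll_bet_take (R b : List (List ℤ)) {i j : ℕ} (h : j < i) :
    bet R (b.take i) j = bet R b j := by
  unfold bet
  have : (b.take i).getD j [] = b.getD j [] := by
    simp [List.getD_eq_getElem?_getD, h]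
  rw [this]

theorem lll_gdet_take (R b : List (List ℤ)) {i : ℕ} (hi : i ≤ b.length) :
    gdet (bet R b) i = (((toMat i (gramOf R (b.take i))).det : ℤ) : ℝ) := by
  have h1 := lll_gdet_eq R (b.take i)
  have h2 : (b.take i).length = i := by simp [hi]
  rw [h2] at h1
  rw [← h1]
  exact gdet_congr fun j hj => (lll_bet_take R b hj).symm

theorem lll_gdet_swap (R b : List (List ℤ)) {i : ℕ} (hi : i + 1 < b.length) :
    gdet (bet R b ∘ Equiv.swap i (i + 1)) (i + 1) =
      (((toMat (i + 1) (gramOf R (b.take i ++ [b.getD (i + 1) []]))).det : ℤ) : ℝ) := by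
  have h1 := lll_gdet_eq R (b.take i ++ [b.getD (i + 1) []])
  have h2 : (b.take i ++ [b.getD (i + 1) []]).length = i + 1 := by
    simp; omega
  rw [h2] at h1
  rw [← h1]
  apply gdet_congr
  intro j hj
  simp only [Function.comp_apply]
  rcases Nat.lt_or_ge j i with h | h
  · rw [Equiv.swap_apply_of_ne_of_ne (by omega) (by omega)]
    unfold bet
    have : (b.take i ++ [b.getD (i + 1) []]).getD j [] = b.getD j [] := by
      rw [List.getD_append _ _ _ _ (by simp; omega)]
      simp [List.getD_eq_getElem?_getD, h]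
    rw [this]
  · have hj' : j = i := by omega
    subst hj'
    rw [Equiv.swap_apply_left]
    unfold bet
    have : (b.take j ++ [b.getD (j + 1) []]).getD j [] = b.getD (j + 1) [] := by
      rw [List.getD_append_right _ _ _ _ (by simp)]
      have : (b.take j).length = j := by simp; omega
      rw [this]
      simp
    rw [this]

/-! ### Linear combinations and updates -/

theorem lll_bet_set_self (R b : List (List ℤ)) {i : ℕ} (hi : i < b.length) (v : List ℤ) :
    bet R (b.set i v) i =
      WithLp.toLp 2 (fun r : Fin R.length => ((dot (R.getD r []) v : ℤ) : ℝ)) := by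
  unfold bet
  have : (b.set i v).getD i [] = v := by simp [List.getD_eq_getElem?_getD, hi]
  rw [this]

theorem lll_bet_set_ne (R b : List (List ℤ)) {i j : ℕ} (hij : j ≠ i) (v : List ℤ) :
    bet R (b.set i v) j = bet R b j := by
  unfold bet
  have : (b.set i v).getD j [] = b.getD j [] := by
    simp [List.getD_eq_getElem?_getD, hij.symm]
  rw [this]

theorem lll_dot_vsub {d : ℕ} {r u v : List ℤ} (hr : r.length = d) (hu : u.length = d)
    (hv : v.length = d) : dot r (vsub u v) = dot r u - dot r v := by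
  rw [dot_eq hr (length_vsub hu hv), dot_eq hr hu, dot_eq hr hv, vec_vsub hu hv, dotProduct_sub]

theorem lll_bet_reduce {d : ℕ} {R b : List (List ℤ)} (hR : ∀ r ∈ R, r.length = d)
    (hb : b.length = d) (hbl : ∀ u ∈ b, u.length = d) {i : ℕ} (hi : i < d) {c : List ℤ}
    (hc : c.length = i) :
    bet R (b.set i (vsub (b.getD i []) (comb d c (b.take i)))) =
      Function.update (bet R b) i (bet R b i + ∑ l : Fin i, (-(c.getD l 0 : ℝ)) • bet R b l) := by
  funext j
  by_cases hj : j = i
  · subst hj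
    rw [Function.update_self, lll_bet_set_self R b (by omega)]
    ext r
    have hr : (R.getD r []).length = d := hR _ (lll_getD_mem r.2)
    have htl : (b.take j).length = j := by simp; omega
    have h1 : dot (R.getD r []) (vsub (b.getD j []) (comb d c (b.take j))) =
        dot (R.getD r []) (b.getD j []) - dot c ((b.take j).map (dot (R.getD r []))) := by
      rw [lll_dot_vsub hr (hbl _ (lll_getD_mem (show j < b.length by omega))) (length_comb _ _ _),
        dot_comb hr (by omega) (fun v hv => hbl v (List.mem_of_mem_take hv))]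
    have h2 : dot c ((b.take j).map (dot (R.getD r []))) =
        ∑ l : Fin j, c.getD l 0 * dot (R.getD r []) (b.getD l []) := by
      rw [dot_eq hc (by simp; omega)]
      unfold dotProduct vec
      refine Finset.sum_congr rfl fun l _ => ?_
      congr 1
      have : (l : ℕ) < b.length := by omega
      simp [List.getD_eq_getElem?_getD, l.2, this]
    simp only [h1, h2, bet, PiLp.add_apply, PiLp.smul_apply, WithLp.ofLp_sum, Finset.sum_apply,
      Int.cast_sub, Int.cast_sum, Int.cast_mul, smul_eq_mul, neg_mul, Finset.sum_neg_distrib]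
    ring
  · rw [Function.update_of_ne hj, lll_bet_set_ne R b hj]

theorem lll_bet_swap (R b : List (List ℤ)) {i : ℕ} (hi : i + 1 < b.length) :
    bet R ((b.set i (b.getD (i + 1) [])).set (i + 1) (b.getD i [])) =
      bet R b ∘ Equiv.swap i (i + 1) := by
  funext j
  simp only [Function.comp_apply]
  by_cases h1 : j = i + 1
  · subst h1
    rw [Equiv.swap_apply_right, lll_bet_set_self _ _ (by simp; omega)]
    rfl
  · rw [lll_bet_set_ne _ _ h1]
    by_cases h2 : j = i
    · subst h2
      rw [Equiv.swap_apply_left, lll_bet_set_self _ _ (by omega)]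
      rfl
    · rw [lll_bet_set_ne _ _ h2, Equiv.swap_apply_of_ne_of_ne h2 h1]

/-! ### Rounding -/

theorem lll_rnd_bounds {a b : ℤ} (hb : 0 < b) :
    2 * b * rnd a b ≤ 2 * a + b ∧ 2 * a + b < 2 * b * rnd a b + 2 * b := by
  unfold rnd
  have h1 : (2 * b) * ((2 * a + b) / (2 * b)) + (2 * a + b) % (2 * b) = 2 * a + b :=
    Int.mul_ediv_add_emod _ _
  have h2 : 0 ≤ (2 * a + b) % (2 * b) := Int.emod_nonneg _ (by omega)
  have h3 : (2 * a + b) % (2 * b) < 2 * b := Int.emod_lt_of_pos _ (by omega)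
  constructor <;> linarith

theorem lll_rnd_abs {a b : ℤ} (hb : 0 < b) : |(a : ℝ) / b - (rnd a b : ℝ)| ≤ 1 / 2 := by
  obtain ⟨h1, h2⟩ := lll_rnd_bounds (a := a) hb
  have hb' : (0 : ℝ) < b := by exact_mod_cast hb
  have h1' : 2 * (b : ℝ) * rnd a b ≤ 2 * a + b := by exact_mod_cast h1
  have h2' : 2 * (a : ℝ) + b < 2 * b * rnd a b + 2 * b := by exact_mod_cast h2
  have e : (a : ℝ) / b - (rnd a b : ℝ) = (a - b * rnd a b) / b := by field_simp
  rw [e, abs_div, abs_of_pos hb', div_le_iff₀ hb', abs_le]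
  constructor <;> linarith

theorem lll_rnd_eq_zero {a b : ℤ} (h1 : -b ≤ 2 * a) (h2 : 2 * a < b) :
    rnd a b = 0 := by
  unfold rnd
  exact Int.ediv_eq_zero_of_lt (by linarith) (by linarith)

theorem lll_rnd_sub {a b : ℤ} (hb : 0 < b) : rnd (a - rnd a b * b) b = 0 := by
  obtain ⟨h1, h2⟩ := lll_rnd_bounds (a := a) hb
  apply lll_rnd_eq_zero <;> linarith

/-! ### Coefficients -/

/-- Numerator of a coefficient. -/
def lllNum (R b : List (List ℤ)) (i j : ℕ) : ℤ :=
  (toMat i ((gramOf R (b.take i)).set j ((b.take i).map (bil R (b.getD i []))))).det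

/-- Denominator of a coefficient. -/
def lllDen (R b : List (List ℤ)) (i : ℕ) : ℤ := (toMat i (gramOf R (b.take i))).det

theorem lll_coefs_length (M : ℕ) (R b : List (List ℤ)) (i : ℕ) : (coefs M R b i).length = i := by
  simp [coefs]

theorem lll_coefs_getD {M : ℕ} {R b : List (List ℤ)} {i j : ℕ} (hM : i ^ i ≤ M) (hj : j < i) :
    (coefs M R b i).getD j 0 = rnd (lllNum R b i j) (lllDen R b i) := by
  unfold coefs cdet lllNum lllDen
  simp [List.getD_eq_getElem?_getD, hj, hM]

theorem lll_sizeBad_false {M : ℕ} {R b : List (List ℤ)} {i : ℕ} (hM : i ^ i ≤ M) :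
    sizeBad M R b i = false ↔ ∀ j < i, rnd (lllNum R b i j) (lllDen R b i) = 0 := by
  unfold sizeBad
  rw [List.any_eq_false]
  constructor
  · intro h j hj
    have h1 := h ((coefs M R b i).getD j 0) (by
      rw [List.getD_eq_getElem _ _ (by rw [lll_coefs_length]; exact hj)]
      exact List.getElem_mem _)
    rw [lll_coefs_getD hM hj] at h1
    simpa using h1
  · intro h x hx
    obtain ⟨j, hj, rfl⟩ := List.getElem_of_mem hx
    rw [lll_coefs_length] at hj
    have h1 := h j hj
    rw [← lll_coefs_getD hM hj, List.getD_eq_getElem _ _ (by rw [lll_coefs_length]; exact hj)] at h1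
    simp [h1]

theorem lll_den_eq (R b : List (List ℤ)) {i : ℕ} (hi : i ≤ b.length) :
    (lllDen R b i : ℝ) = gdet (bet R b) i := (lll_gdet_take R b hi).symm

theorem lll_num_eq (R b : List (List ℤ)) {i : ℕ} (hi : i ≤ b.length) (j : Fin i) :
    (lllNum R b i j : ℝ) = ((Matrix.of fun j l : Fin i => inner ℝ (bet R b j)
      (bet R b l)).updateRow j fun l => inner ℝ (bet R b i) (bet R b l)).det := by
  have hlen : (b.take i).length = i := by simp [hi]
  have hg : (gramOf R (b.take i)).length = i := by simp [gramOf, hi]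
  unfold lllNum
  rw [toMat_set hg]
  rw [show ((((toMat i (gramOf R (b.take i))).updateRow j
      (vec i ((b.take i).map (bil R (b.getD i []))))).det : ℤ) : ℝ) =
    (Int.castRingHom ℝ) ((toMat i (gramOf R (b.take i))).updateRow j
      (vec i ((b.take i).map (bil R (b.getD i []))))).det from rfl, RingHom.map_det]
  congr 1
  ext a l
  have hl : (l : ℕ) < b.length := by omega
  by_cases h : a = j
  · subst h
    simp only [RingHom.mapMatrix_apply, Matrix.map_apply, Matrix.updateRow_self, inner_bet, vec]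
    simp [List.getD_eq_getElem?_getD, hl, l.2]
  · simp only [RingHom.mapMatrix_apply, Matrix.map_apply, Matrix.updateRow_ne h, Matrix.of_apply,
      inner_bet, toMat]
    rw [lll_gram_getD R (b.take i) (by omega) (by omega)]
    have ha : (a : ℕ) < b.length := by omega
    simp [List.getD_eq_getElem?_getD, hl, l.2, ha, a.2]

theorem lll_indep_le {m : ℕ} {β : ℕ → EuclideanSpace ℝ (Fin m)} {d i : ℕ} (hi : i ≤ d)
    (h : LinearIndependent ℝ fun j : Fin d => β j) : LinearIndependent ℝ fun j : Fin i => β j :=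
  h.comp (Fin.castLE hi) (Fin.castLE_injective hi)

theorem lll_den_pos {R b : List (List ℤ)} {d : ℕ} (hb : b.length = d)
    (h : LinearIndependent ℝ fun j : Fin d => bet R b j) {i : ℕ} (hi : i ≤ d) :
    0 < lllDen R b i := by
  have h1 := gs2_gdet_pos h i hi
  rw [← lll_den_eq R b (by omega)] at h1
  exact_mod_cast h1

/-- The expansion of `β i`. -/
theorem lll_expand {R b : List (List ℤ)} {d : ℕ} (hb : b.length = d)
    (h : LinearIndependent ℝ fun j : Fin d => bet R b j) {i : ℕ} (hi : i < d) :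
    bet R b i = orth (bet R b) i +
      ∑ j : Fin i, ((lllNum R b i j : ℝ) / lllDen R b i) • bet R b j := by
  have h1 := gs2_gdet_pos h i hi.le
  conv_lhs => rw [orth_eq h1.ne']
  congr 1
  refine Finset.sum_congr rfl fun j _ => ?_
  rw [lll_num_eq R b (by omega), lll_den_eq R b (by omega)]

theorem lll_sizeRed {M : ℕ} {R b : List (List ℤ)} {d : ℕ} (hb : b.length = d)
    (h : LinearIndependent ℝ fun j : Fin d => bet R b j) {i : ℕ} (hi : i < d) (hM : i ^ i ≤ M)
    (hs : sizeBad M R b i = false) : SizeRed (bet R b) i := by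
  refine ⟨fun j => (lllNum R b i j : ℝ) / lllDen R b i, fun j => ?_, lll_expand hb h hi⟩
  have h1 := (lll_sizeBad_false hM).mp hs j j.2
  have h2 := lll_rnd_abs (a := lllNum R b i j) (lll_den_pos hb h hi.le)
  rw [h1] at h2
  simpa using h2

/-! ### Gram determinant of a basis -/

theorem lll_gdet_full {d : ℕ} {R b : List (List ℤ)} (hR : ∀ r ∈ R, r.length = d)
    (hb : b.length = d) (hbl : ∀ u ∈ b, u.length = d) :
    gdet (bet R b) d =
      ((toMat d b).det : ℝ) ^ 2 * ((((lllRM d R).transpose * lllRM d R).det : ℤ) : ℝ) := by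
  have h1 := lll_gdet_eq R b
  rw [hb] at h1
  rw [h1]
  have h2 : toMat d (gramOf R b) =
      toMat d b * ((lllRM d R).transpose * lllRM d R) * (toMat d b).transpose := by
    have h3 : toMat d b * ((lllRM d R).transpose * lllRM d R) * (toMat d b).transpose =
        (toMat d b * (lllRM d R).transpose) * (toMat d b * (lllRM d R).transpose).transpose := by
      rw [Matrix.transpose_mul, Matrix.transpose_transpose]
      simp only [Matrix.mul_assoc]
    have h4 : ∀ (j : Fin d) (r : Fin R.length), (toMat d b * (lllRM d R).transpose) j r =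
        dot (R.getD r []) (b.getD j []) := by
      intro j r
      have hj : (j : ℕ) < b.length := by omega
      rw [← lll_mulVec hR (hbl _ (lll_getD_mem hj)) r]
      simp only [Matrix.mul_apply, Matrix.transpose_apply, Matrix.mulVec, dotProduct, toMat,
        Matrix.of_apply, vec]
      exact Finset.sum_congr rfl fun _ _ => mul_comm _ _
    rw [h3]
    ext j l
    have hj : (j : ℕ) < b.length := by omega
    have hl : (l : ℕ) < b.length := by omega
    rw [Matrix.mul_apply]
    simp only [Matrix.transpose_apply, h4]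
    show ((gramOf R b).getD j []).getD l 0 = _
    rw [lll_gram_getD R b hj hl]
    unfold bil
    rw [← Fin.sum_univ_fun_getElem]
    refine Finset.sum_congr rfl fun r _ => ?_
    rw [List.getD_eq_getElem _ _ r.2]
  rw [h2, Matrix.det_mul, Matrix.det_mul, Matrix.det_transpose]
  push_cast
  ring

theorem lll_indep_of_gdet {m : ℕ} {β : ℕ → EuclideanSpace ℝ (Fin m)} {d : ℕ}
    (h : gdet β d ≠ 0) : LinearIndependent ℝ fun j : Fin d => β j := by
  rw [Fintype.linearIndependent_iff]
  intro g hg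
  have h1 : Matrix.vecMul g (Matrix.of fun j l : Fin d => inner ℝ (β j) (β l)) = 0 := by
    funext l
    simp only [Matrix.vecMul, dotProduct, Matrix.of_apply, Pi.zero_apply]
    have h2 : inner ℝ (∑ j : Fin d, g j • β j) (β l) = 0 := by rw [hg, inner_zero_left]
    rw [sum_inner] at h2
    rw [← h2]
    refine Finset.sum_congr rfl fun j _ => ?_
    rw [inner_smul_left]
    rfl
  have h2 := Matrix.eq_zero_of_vecMul_eq_zero h h1
  intro i
  rw [h2]
  rfl

theorem lll_indep {d : ℕ} {R b : List (List ℤ)} (hR : ∀ r ∈ R, r.length = d)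
    (hG : ((lllRM d R).transpose * lllRM d R).det ≠ 0) (hb : IsBas d b) :
    LinearIndependent ℝ fun j : Fin d => bet R b j := by
  apply lll_indep_of_gdet
  rw [lll_gdet_full hR hb.len hb.lens]
  have h1 : ((toMat d b).det : ℝ) ^ 2 = 1 := by exact_mod_cast hb.det
  rw [h1, one_mul]
  exact_mod_cast hG

/-- A list of vectors with the same Gram determinant as a basis is a basis. -/
theorem lll_isBas_of_gdet {d : ℕ} {R b b' : List (List ℤ)} (hR : ∀ r ∈ R, r.length = d)
    (hG : ((lllRM d R).transpose * lllRM d R).det ≠ 0) (hb : IsBas d b) (hlen : b'.length = d)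
    (hlens : ∀ u ∈ b', u.length = d) (h : gdet (bet R b') d = gdet (bet R b) d) : IsBas d b' := by
  refine ⟨hlen, hlens, ?_⟩
  rw [lll_gdet_full hR hb.len hb.lens, lll_gdet_full hR hlen hlens] at h
  have h1 : (((((lllRM d R).transpose * lllRM d R).det : ℤ)) : ℝ) ≠ 0 := by exact_mod_cast hG
  have h2 := mul_right_cancel₀ h1 h
  have h3 : (toMat d b').det ^ 2 = (toMat d b).det ^ 2 := by exact_mod_cast h2
  rw [h3, hb.det]

/-! ### The two operations -/

/-- The size reduction of `b_i`. -/
def lllRed (M d : ℕ) (R b : List (List ℤ)) (i : ℕ) : List (List ℤ) :=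
  b.set i (vsub (b.getD i []) (comb d (coefs M R b i) (b.take i)))

/-- The swap. -/
def lllSwap (b : List (List ℤ)) (i : ℕ) : List (List ℤ) :=
  (b.set i (b.getD (i + 1) [])).set (i + 1) (b.getD i [])

section Red

variable {M d : ℕ} {R b : List (List ℤ)} {i : ℕ}

theorem lll_bet_red (hR : ∀ r ∈ R, r.length = d) (hb : IsBas d b) (hi : i < d) :
    bet R (lllRed M d R b i) = Function.update (bet R b) i (bet R b i +
      ∑ l : Fin i, (-((coefs M R b i).getD l 0 : ℝ)) • bet R b l) :=
  lll_bet_reduce hR hb.len hb.lens hi (lll_coefs_length M R b i)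

theorem lll_orth_red (hR : ∀ r ∈ R, r.length = d) (hb : IsBas d b) (hi : i < d) (j : ℕ) :
    orth (bet R (lllRed M d R b i)) j = orth (bet R b) j := by
  rw [lll_bet_red hR hb hi, orth_update]

theorem lll_gdet_red (hR : ∀ r ∈ R, r.length = d) (hb : IsBas d b) (hi : i < d) (j : ℕ) :
    gdet (bet R (lllRed M d R b i)) j = gdet (bet R b) j := by
  rw [lll_bet_red hR hb hi, gdet_update]

theorem lll_isBas_red (hR : ∀ r ∈ R, r.length = d)
    (hG : ((lllRM d R).transpose * lllRM d R).det ≠ 0) (hb : IsBas d b) (hi : i < d) :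
    IsBas d (lllRed M d R b i) := by
  refine lll_isBas_of_gdet hR hG hb (by simp [lllRed, hb.len]) ?_ (lll_gdet_red hR hb hi d)
  intro u hu
  rcases List.mem_or_eq_of_mem_set hu with h | h
  · exact hb.lens u h
  · rw [h]
    exact length_vsub (hb.lens _ (lll_getD_mem (by rw [hb.len]; exact hi))) (length_comb _ _ _)

theorem lll_take_set {b : List (List ℤ)} {i j : ℕ} (h : j ≤ i) (v : List ℤ) :
    (b.set i v).take j = b.take j := by
  apply List.ext_getElem?
  intro n
  rw [List.getElem?_take, List.getElem?_take]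
  by_cases hn : n < j
  · rw [if_pos hn, if_pos hn, List.getElem?_set_ne (by omega)]
  · rw [if_neg hn, if_neg hn]

theorem lll_sizeBad_set {b : List (List ℤ)} {i j : ℕ} (hj : j < i) (v : List ℤ) :
    sizeBad M R (b.set i v) j = sizeBad M R b j := by
  have : (b.set i v).getD j [] = b.getD j [] := by
    simp [List.getD_eq_getElem?_getD, List.getElem?_set_ne (show i ≠ j by omega)]
  unfold sizeBad coefs
  rw [lll_take_set hj.le, this]

theorem lll_sizeBad_red_lt {j : ℕ} (hj : j < i) :
    sizeBad M R (lllRed M d R b i) j = sizeBad M R b j := lll_sizeBad_set hj _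

/-- After the size reduction, `b_i` is size-reduced. -/
theorem lll_sizeBad_red_self (hR : ∀ r ∈ R, r.length = d)
    (hG : ((lllRM d R).transpose * lllRM d R).det ≠ 0) (hb : IsBas d b) (hi : i < d)
    (hM : i ^ i ≤ M) : sizeBad M R (lllRed M d R b i) i = false := by
  rw [lll_sizeBad_false hM]
  set b' := lllRed M d R b i with hb'
  have hbas' : IsBas d b' := lll_isBas_red hR hG hb hi
  have hind := lll_indep hR hG hb
  have hind' := lll_indep hR hG hbas'
  have hden : lllDen R b' i = lllDen R b i := by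
    have h1 := lll_den_eq R b' (i := i) (by rw [hbas'.len]; omega)
    have h2 := lll_den_eq R b (i := i) (by rw [hb.len]; omega)
    rw [hb', lll_gdet_red hR hb hi, ← h2, ← hb'] at h1
    exact_mod_cast h1
  have hpos := lll_den_pos hb.len hind hi.le
  have hbj : ∀ j : Fin i, bet R b' j = bet R b j := fun j => by
    rw [hb', lll_bet_red hR hb hi, Function.update_of_ne (by omega)]
  have e1 := lll_expand hbas'.len hind' hi
  have e2 := lll_expand hb.len hind hi
  have e3 : bet R b' i = bet R b i +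
      ∑ l : Fin i, (-((coefs M R b i).getD l 0 : ℝ)) • bet R b l := by
    rw [hb', lll_bet_red hR hb hi, Function.update_self]
  have e4 : orth (bet R b') i = orth (bet R b) i := lll_orth_red hR hb hi i
  rw [e3, e4, e2] at e1
  have e5 : ∑ j : Fin i, (((lllNum R b i j : ℝ) / lllDen R b i) - ((coefs M R b i).getD j 0 : ℝ) -
      (lllNum R b' i j : ℝ) / lllDen R b' i) • bet R b j = 0 := by
    have : ∑ j : Fin i, ((lllNum R b' i j : ℝ) / lllDen R b' i) • bet R b' j =
        ∑ j : Fin i, ((lllNum R b' i j : ℝ) / lllDen R b' i) • bet R b j :=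
      Finset.sum_congr rfl fun j _ => by rw [hbj j]
    rw [this, add_assoc, add_right_inj, ← Finset.sum_add_distrib] at e1
    simp only [sub_smul, Finset.sum_sub_distrib]
    rw [← e1, ← Finset.sum_sub_distrib, ← Finset.sum_sub_distrib]
    apply Finset.sum_eq_zero
    intro j _
    simp only [neg_smul]
    abel
  have e6 := Fintype.linearIndependent_iff.mp (lll_indep_le hi.le hind) _ e5
  intro j hj
  have e7 := e6 ⟨j, hj⟩
  simp only at e7
  rw [hden, lll_coefs_getD hM hj] at e7
  have hpos' : (lllDen R b i : ℝ) ≠ 0 := by exact_mod_cast hpos.ne'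
  have e8 : lllNum R b' i j = lllNum R b i j - rnd (lllNum R b i j) (lllDen R b i) *
      lllDen R b i := by
    have : (lllNum R b' i j : ℝ) = lllNum R b i j -
        rnd (lllNum R b i j) (lllDen R b i) * lllDen R b i := by
      field_simp at e7
      linarith
    exact_mod_cast this
  rw [hden, e8]
  exact lll_rnd_sub hpos

end Red

/-! ### The invariant -/

/-- The invariant of the reduction. -/
structure LInv (d : ℕ) (R : List (List ℤ)) (A : ℝ) (b : List (List ℤ)) : Prop where
  bas : IsBas d b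
  orth : ∀ j < d, ‖orth (bet R b) j‖ ^ 2 ≤ A
  norm : ∀ j < d, ‖bet R b j‖ ^ 2 ≤ (9 / 4) ^ d * A

/-- The potential. -/
noncomputable def lllPhi (d : ℕ) (R b : List (List ℤ)) : ℝ :=
  ∏ i ∈ Finset.range d, gdet (bet R b) (i + 1)

section Inv

variable {M d : ℕ} {R b : List (List ℤ)} {i : ℕ} {A : ℝ}

theorem lll_inv_red (hR : ∀ r ∈ R, r.length = d)
    (hG : ((lllRM d R).transpose * lllRM d R).det ≠ 0) (hM : ∀ j < d, j ^ j ≤ M)
    (hb : LInv d R A b) (hi : i < d) (hs : ∀ j < i, sizeBad M R b j = false) :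
    LInv d R A (lllRed M d R b i) := by
  have hbas := lll_isBas_red (M := M) hR hG hb.bas hi
  have horth : ∀ j < d, ‖UBox.orth (bet R (lllRed M d R b i)) j‖ ^ 2 ≤ A := fun j hj => by
    rw [lll_orth_red hR hb.bas hi]; exact hb.orth j hj
  have hA : 0 ≤ A := (sq_nonneg _).trans (hb.orth i hi)
  refine ⟨hbas, horth, fun j hj => ?_⟩
  by_cases h : j = i
  · subst h
    have h1 : ∀ l ≤ j, SizeRed (bet R (lllRed M d R b j)) l := by
      intro l hl
      refine lll_sizeRed (M := M) hbas.len (lll_indep hR hG hbas) (by omega) (hM l (by omega)) ?_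
      rcases Nat.lt_or_ge l j with h2 | h2
      · rw [lll_sizeBad_red_lt h2]; exact hs l h2
      · have : l = j := by omega
        subst this
        exact lll_sizeBad_red_self hR hG hb.bas hi (hM l hi)
    have h2 := norm_le_of_sizeRed h1 (fun l hl => horth l (by omega))
    refine h2.trans (mul_le_mul_of_nonneg_right ?_ hA)
    exact pow_le_pow_right₀ (by norm_num) (by omega)
  · have : bet R (lllRed M d R b i) j = bet R b j := by
      rw [lll_bet_red hR hb.bas hi, Function.update_of_ne h]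
    rw [this]
    exact hb.norm j hj

theorem lll_phi_red (hR : ∀ r ∈ R, r.length = d) (hb : IsBas d b) (hi : i < d) :
    lllPhi d R (lllRed M d R b i) = lllPhi d R b := by
  unfold lllPhi
  exact Finset.prod_congr rfl fun j _ => lll_gdet_red hR hb hi _

theorem lll_swapBad_iff (hM : (i + 1) ^ (i + 1) ≤ M) (hb : b.length = d) (hi : i + 1 < d) :
    swapBad M R b i = true ↔
      4 * gdet (bet R b ∘ Equiv.swap i (i + 1)) (i + 1) < 3 * gdet (bet R b) (i + 1) := by
  unfold swapBad cdet
  rw [if_pos hM, if_pos hM, lll_gdet_swap R b (by omega), lll_gdet_take R b (by omega), decide_eq_true_eq]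
  constructor
  · intro h; exact_mod_cast h
  · intro h; exact_mod_cast h

theorem lll_isBas_swap (hR : ∀ r ∈ R, r.length = d)
    (hG : ((lllRM d R).transpose * lllRM d R).det ≠ 0) (hb : IsBas d b) (hi : i + 1 < d) :
    IsBas d (lllSwap b i) := by
  refine lll_isBas_of_gdet hR hG hb (by simp [lllSwap, hb.len]) ?_ ?_
  · intro u hu
    unfold lllSwap at hu
    rcases List.mem_or_eq_of_mem_set hu with h | h
    · rcases List.mem_or_eq_of_mem_set h with h | h
      · exact hb.lens u h
      · rw [h]; exact hb.lens _ (lll_getD_mem (by rw [hb.len]; exact hi))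
    · rw [h]; exact hb.lens _ (lll_getD_mem (by rw [hb.len]; omega))
  · unfold lllSwap
    rw [lll_bet_swap R b (by rw [hb.len]; exact hi), gdet_swap i (by omega)]

theorem lll_inv_swap (hR : ∀ r ∈ R, r.length = d)
    (hG : ((lllRM d R).transpose * lllRM d R).det ≠ 0) (hM : ∀ j < d, j ^ j ≤ M)
    (hb : LInv d R A b) (hi : i + 1 < d) (hs : swapBad M R b i = true) :
    LInv d R A (lllSwap b i) := by
  have hbet : bet R (lllSwap b i) = bet R b ∘ Equiv.swap i (i + 1) :=
    lll_bet_swap R b (by rw [hb.bas.len]; exact hi)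
  have h1 := (lll_swapBad_iff (hM (i + 1) hi) hb.bas.len hi).mp hs
  refine ⟨lll_isBas_swap hR hG hb.bas hi, ?_, ?_⟩
  · rw [hbet]
    exact orth_swap_le (lll_indep hR hG hb.bas) hi h1.le hb.orth
  · intro j hj
    rw [hbet, Function.comp_apply]
    apply hb.norm
    rcases eq_or_ne j i with h | h
    · rw [h, Equiv.swap_apply_left]; exact hi
    · rcases eq_or_ne j (i + 1) with h' | h'
      · rw [h', Equiv.swap_apply_right]; omega
      · rw [Equiv.swap_apply_of_ne_of_ne h h']; exact hj

theorem lll_gdet_one_le (hR : ∀ r ∈ R, r.length = d)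
    (hG : ((lllRM d R).transpose * lllRM d R).det ≠ 0) (hb : IsBas d b) {j : ℕ} (hj : j ≤ d) :
    1 ≤ gdet (bet R b) j := by
  rw [← lll_den_eq R b (by rw [hb.len]; exact hj)]
  have := lll_den_pos hb.len (lll_indep hR hG hb) hj
  exact_mod_cast this

theorem lll_phi_one_le (hR : ∀ r ∈ R, r.length = d)
    (hG : ((lllRM d R).transpose * lllRM d R).det ≠ 0) (hb : IsBas d b) : 1 ≤ lllPhi d R b := by
  unfold lllPhi
  have h1 : ∏ _j ∈ Finset.range d, (1 : ℝ) ≤ ∏ i ∈ Finset.range d, gdet (bet R b) (i + 1) := by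
    refine Finset.prod_le_prod (fun _ _ => by norm_num) fun j hj => ?_
    exact lll_gdet_one_le hR hG hb (by have := Finset.mem_range.mp hj; omega)
  simpa using h1

theorem lll_phi_swap (hR : ∀ r ∈ R, r.length = d)
    (hG : ((lllRM d R).transpose * lllRM d R).det ≠ 0) (hM : ∀ j < d, j ^ j ≤ M)
    (hb : IsBas d b) (hi : i + 1 < d) (hs : swapBad M R b i = true) :
    4 * lllPhi d R (lllSwap b i) ≤ 3 * lllPhi d R b := by
  have hbet : bet R (lllSwap b i) = bet R b ∘ Equiv.swap i (i + 1) :=
    lll_bet_swap R b (by rw [hb.len]; exact hi)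
  have h1 := (lll_swapBad_iff (hM (i + 1) hi) hb.len hi).mp hs
  unfold lllPhi
  have hmem : i ∈ Finset.range d := Finset.mem_range.mpr (by omega)
  rw [← Finset.mul_prod_erase _ _ hmem, ← Finset.mul_prod_erase _ (fun i => gdet (bet R b) (i + 1))
    hmem]
  have h2 : ∏ x ∈ (Finset.range d).erase i, gdet (bet R (lllSwap b i)) (x + 1) =
      ∏ x ∈ (Finset.range d).erase i, gdet (bet R b) (x + 1) := by
    refine Finset.prod_congr rfl fun x hx => ?_
    have hx' : x ≠ i := (Finset.mem_erase.mp hx).1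
    rw [hbet, gdet_swap i (by omega)]
  rw [h2, hbet]
  have h3 : 0 ≤ ∏ x ∈ (Finset.range d).erase i, gdet (bet R b) (x + 1) := by
    refine Finset.prod_nonneg fun x hx => ?_
    have := Finset.mem_range.mp (Finset.mem_of_mem_erase hx)
    linarith [lll_gdet_one_le hR hG hb (j := x + 1) (by omega)]
  nlinarith

end Inv

/-! ### Running the reduction -/

/-- A reduced basis. -/
def LRed (M d : ℕ) (R b : List (List ℤ)) : Prop :=
  (∀ i < d, sizeBad M R b i = false) ∧ ∀ i < d - 1, swapBad M R b i = false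

theorem lll_step_cases (M d : ℕ) (R b : List (List ℤ)) :
    (LRed M d R b ∧ lllStep M d R b = b) ∨
    (∃ i < d, sizeBad M R b i = true ∧ (∀ j < i, sizeBad M R b j = false) ∧
      lllStep M d R b = lllRed M d R b i) ∨
    ((∀ i < d, sizeBad M R b i = false) ∧ ∃ i < d - 1, swapBad M R b i = true ∧
      lllStep M d R b = lllSwap b i) := by
  unfold lllStep
  cases h : (List.range d).find? (sizeBad M R b) with
  | some i =>
    rw [List.find?_range_eq_some] at h
    obtain ⟨h1, h2, h3⟩ := h
    refine Or.inr (Or.inl ⟨i, List.mem_range.mp h2, h1, fun j hj => ?_, rfl⟩)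
    have := h3 j hj
    simpa using this
  | none =>
    rw [List.find?_range_eq_none] at h
    have h' : ∀ i < d, sizeBad M R b i = false := fun i hi => by simpa using h i hi
    cases h2 : (List.range (d - 1)).find? (swapBad M R b) with
    | some i =>
      rw [List.find?_range_eq_some] at h2
      obtain ⟨h3, h4, _⟩ := h2
      exact Or.inr (Or.inr ⟨h', i, List.mem_range.mp h4, h3, rfl⟩)
    | none =>
      rw [List.find?_range_eq_none] at h2
      exact Or.inl ⟨⟨h', fun i hi => by simpa using h2 i hi⟩, rfl⟩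

theorem lll_run {M d : ℕ} {R : List (List ℤ)} {A : ℝ} (hR : ∀ r ∈ R, r.length = d)
    (hG : ((lllRM d R).transpose * lllRM d R).det ≠ 0) (hM : ∀ j < d, j ^ j ≤ M)
    (hsz : ∀ b, LInv d R A b → sz b ≤ M) :
    ∀ (n k t : ℕ) (b : List (List ℤ)), LInv d R A b → t ≤ d → (d + 1) * k + t ≤ n →
      lllPhi d R b ≤ (4 / 3) ^ k → (∀ j < d - t, sizeBad M R b j = false) →
      LRed M d R ((cap M (lllStep M d R))^[n] b) ∧
        LInv d R A ((cap M (lllStep M d R))^[n] b) := by
  intro n
  have hstable : ∀ (n : ℕ) (b : List (List ℤ)), LRed M d R b ∧ lllStep M d R b = b →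
      LInv d R A b → LRed M d R ((cap M (lllStep M d R))^[n] b) ∧
        LInv d R A ((cap M (lllStep M d R))^[n] b) := by
    intro n b h1 h2
    have h3 : cap M (lllStep M d R) b = b := by
      unfold cap
      rw [h1.2]
      simp
    rw [Function.iterate_fixed h3]
    exact ⟨h1.1, h2⟩
  induction n with
  | zero =>
    intro k t b hinv ht hn hphi hsize
    have hk : k = 0 := by
      by_contra hk
      have : 1 ≤ k := Nat.one_le_iff_ne_zero.mpr hk
      nlinarith
    have ht0 : t = 0 := by omega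
    subst hk ht0
    rcases lll_step_cases M d R b with h | ⟨i, hi, h1, _, _⟩ | ⟨_, i, hi, h1, h2⟩
    · exact hstable 0 b h hinv
    · exfalso
      have := hsize i (by omega)
      rw [this] at h1
      exact Bool.false_ne_true h1
    · exfalso
      have h3 := lll_phi_swap hR hG hM hinv.bas (by omega) h1
      have h4 := lll_phi_one_le hR hG (lll_isBas_swap hR hG hinv.bas (i := i) (by omega))
      rw [pow_zero] at hphi
      linarith
  | succ n ih =>
    intro k t b hinv ht hn hphi hsize
    rcases lll_step_cases M d R b with h | ⟨i, hi, h1, h2, h3⟩ | ⟨h0, i, hi, h1, h3⟩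
    · exact hstable (n + 1) b h hinv
    · have hinv' : LInv d R A (lllRed M d R b i) := lll_inv_red hR hG hM hinv hi h2
      have hstep : cap M (lllStep M d R) b = lllRed M d R b i := by
        unfold cap
        rw [h3, if_pos (hsz _ hinv')]
      rw [Function.iterate_succ_apply, hstep]
      have hit : d - t ≤ i := by
        by_contra hlt
        have := hsize i (by omega)
        rw [this] at h1
        exact Bool.false_ne_true h1
      refine ih k (t - 1) _ hinv' (by omega) (by omega) ?_ ?_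
      · rw [lll_phi_red hR hinv.bas hi]; exact hphi
      · intro j hj
        rcases Nat.lt_or_ge j i with hji | hji
        · rw [lll_sizeBad_red_lt hji]; exact h2 j hji
        · have : j = i := by omega
          subst this
          exact lll_sizeBad_red_self hR hG hinv.bas hi (hM j hi)
    · have hinv' : LInv d R A (lllSwap b i) := lll_inv_swap hR hG hM hinv (by omega) h1
      have hstep : cap M (lllStep M d R) b = lllSwap b i := by
        unfold cap
        rw [h3, if_pos (hsz _ hinv')]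
      rw [Function.iterate_succ_apply, hstep]
      have h4 := lll_phi_swap hR hG hM hinv.bas (by omega) h1
      have h5 := lll_phi_one_le hR hG hinv'.bas
      have hk : k ≠ 0 := by
        intro hk
        subst hk
        rw [pow_zero] at hphi
        linarith
      obtain ⟨k', rfl⟩ := Nat.exists_eq_succ_of_ne_zero hk
      refine ih k' d _ hinv' le_rfl ?_ ?_ (by intro j hj; omega)
      · rw [Nat.succ_eq_add_one] at hn; nlinarith
      · rw [Nat.succ_eq_add_one, pow_succ] at hphi
        linarith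

/-! ### Bounds -/

theorem lll_mul_pow_le {n m k : ℕ} (h : n ≤ 2 ^ m) : (n : ℤ) * 2 ^ k ≤ 2 ^ (m + k) := by
  rw [pow_add]
  exact mul_le_mul_of_nonneg_right (by exact_mod_cast h) (by positivity)

theorem lll_sum_abs_le {n m k : ℕ} {f : Fin n → ℤ} (hn : n ≤ 2 ^ m) (h : ∀ i, |f i| ≤ 2 ^ k) :
    |∑ i, f i| ≤ 2 ^ (m + k) := by
  calc |∑ i, f i| ≤ ∑ i, |f i| := Finset.abs_sum_le_sum_abs _ _
    _ ≤ ∑ _i : Fin n, 2 ^ k := Finset.sum_le_sum fun i _ => h i
    _ = (n : ℤ) * 2 ^ k := by simp
    _ ≤ 2 ^ (m + k) := lll_mul_pow_le hn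

theorem lll_abs_mul_le {a b : ℤ} {m k : ℕ} (ha : |a| ≤ 2 ^ m) (hb : |b| ≤ 2 ^ k) :
    |a * b| ≤ 2 ^ (m + k) := by
  rw [abs_mul, pow_add]
  exact mul_le_mul ha hb (abs_nonneg _) (by positivity)

/-- The entries of a vector are bounded by its image. -/
theorem lll_entry {d s t : ℕ} {R : List (List ℤ)} (hR : ∀ r ∈ R, r.length = d)
    (hm : R.length ≤ d + 1) (hs : ∀ r ∈ R, ∀ a ∈ r, |a| ≤ 2 ^ s)
    (hG : ((lllRM d R).transpose * lllRM d R).det ≠ 0) {u : List ℤ} (hu : u.length = d)
    (ht : ∀ r ∈ R, |dot r u| ≤ 2 ^ t) :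
    ∀ a ∈ u, |a| ≤ 2 ^ (d + (d * (d + (2 * s + d + 1)) + (d + 1 + (s + t)))) := by
  set G := (lllRM d R).transpose * lllRM d R with hGd
  have hent : ∀ (r : Fin R.length) (l : Fin d), |lllRM d R r l| ≤ 2 ^ s := by
    intro r l
    have h1 := lll_getD_mem r.2
    apply hs _ h1
    exact lll_getD_mem' (by rw [hR _ h1]; exact l.2)
  have hm2 : R.length ≤ 2 ^ (d + 1) := hm.trans (Nat.lt_two_pow_self).le
  have hGent : ∀ k l, |G k l| ≤ 2 ^ (2 * s + d + 1) := by
    intro k l
    rw [hGd, Matrix.mul_apply]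
    have := lll_sum_abs_le (f := fun r => (lllRM d R).transpose k r * lllRM d R r l)
      (m := d + 1) (k := s + s) hm2 (fun r => lll_abs_mul_le (hent r k) (hent r l))
    convert this using 2
    ring
  have hadj : ∀ l k, |G.adjugate l k| ≤ 2 ^ (d * (d + (2 * s + d + 1))) := by
    intro l k
    rw [Matrix.adjugate_apply]
    apply abs_det_le
    intro i j
    rw [Matrix.updateRow_apply]
    split_ifs with h
    · by_cases hj : j = l
      · subst hj
        simp only [Pi.single_eq_same, abs_one]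
        exact one_le_pow₀ (by norm_num)
      · rw [Pi.single_eq_of_ne hj, abs_zero]
        positivity
    · exact hGent i j
  have hy : ∀ r, |(lllRM d R).mulVec (vec d u) r| ≤ 2 ^ t := by
    intro r
    rw [lll_mulVec hR hu r]
    exact ht _ (lll_getD_mem r.2)
  have hw : ∀ k, |(lllRM d R).transpose.mulVec ((lllRM d R).mulVec (vec d u)) k| ≤
      2 ^ (d + 1 + (s + t)) := by
    intro k
    exact lll_sum_abs_le (f := fun r => (lllRM d R).transpose k r *
      (lllRM d R).mulVec (vec d u) r) hm2 (fun r => lll_abs_mul_le (hent r k) (hy r))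
  have hfin : ∀ l : Fin d, |vec d u l| ≤
      2 ^ (d + (d * (d + (2 * s + d + 1)) + (d + 1 + (s + t)))) := by
    intro l
    have h1 : G.adjugate.mulVec ((lllRM d R).transpose.mulVec ((lllRM d R).mulVec (vec d u))) l =
        G.det * vec d u l := by
      rw [Matrix.mulVec_mulVec _ (lllRM d R).transpose, ← hGd, Matrix.mulVec_mulVec,
        Matrix.adjugate_mul, Matrix.smul_mulVec, Matrix.one_mulVec]
      rfl
    have h2 : |G.adjugate.mulVec ((lllRM d R).transpose.mulVec
        ((lllRM d R).mulVec (vec d u))) l| ≤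
        2 ^ (d + (d * (d + (2 * s + d + 1)) + (d + 1 + (s + t)))) :=
      lll_sum_abs_le (f := fun k => G.adjugate l k * _) (Nat.lt_two_pow_self).le
        (fun k => lll_abs_mul_le (hadj l k) (hw k))
    rw [h1, abs_mul] at h2
    have h3 : 1 ≤ |G.det| := Int.one_le_abs hG
    calc |vec d u l| = 1 * |vec d u l| := (one_mul _).symm
      _ ≤ |G.det| * |vec d u l| := mul_le_mul_of_nonneg_right h3 (abs_nonneg _)
      _ ≤ _ := h2
  intro a ha
  obtain ⟨n, hn, rfl⟩ := List.getElem_of_mem ha
  have := hfin ⟨n, by omega⟩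
  simpa [vec, List.getD_eq_getElem?_getD, hn] using this

theorem lll_dot_sq_le (R : List (List ℤ)) (u : List ℤ) {r : List ℤ} (hr : r ∈ R) :
    dot r u ^ 2 ≤ bil R u u := by
  unfold bil
  have h1 : dot r u * dot r u ≤ (R.map fun r => dot r u * dot r u).sum :=
    List.single_le_sum (fun x hx => by
      obtain ⟨q, _, rfl⟩ := List.mem_map.mp hx
      exact mul_self_nonneg _) _ (List.mem_map.mpr ⟨r, hr, rfl⟩)
  rw [sq]
  exact h1

theorem lll_bil_le {R : List (List ℤ)} {u : List ℤ} {c : ℤ} (h : ∀ r ∈ R, dot r u ^ 2 ≤ c) :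
    bil R u u ≤ R.length * c := by
  unfold bil
  induction R with
  | nil => simp
  | cons r R ih =>
    have h1 := h r (by simp)
    have h2 := ih (fun q hq => h q (by simp [hq]))
    simp only [List.map_cons, List.sum_cons, List.length_cons]
    push_cast
    nlinarith

theorem lll_gdet_le {m : ℕ} {β : ℕ → EuclideanSpace ℝ (Fin m)} {A : ℝ} {i : ℕ}
    (hA : 0 ≤ A) (h : ∀ j < i, ‖orth β j‖ ^ 2 ≤ A) : gdet β i ≤ A ^ i := by
  induction i with
  | zero => rw [gs2_gdet_zero, pow_zero]
  | succ i ih =>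
    rw [gdet_succ, pow_succ]
    exact mul_le_mul (ih fun j hj => h j (by omega)) (h i (by omega)) (sq_nonneg _)
      (pow_nonneg hA _)

/-! ### The initial basis -/

theorem lll_init_getD {d i : ℕ} (hi : i < d) :
    ((List.range d).map (unitv d)).getD i [] = unitv d i := by
  simp [List.getD_eq_getElem?_getD, hi]

theorem lll_isBas_init (d : ℕ) : IsBas d ((List.range d).map (unitv d)) := by
  refine ⟨by simp, fun u hu => ?_, ?_⟩
  · obtain ⟨i, _, rfl⟩ := List.mem_map.mp hu
    exact length_unitv d i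
  · have : toMat d ((List.range d).map (unitv d)) = 1 := by
      ext i j
      have h1 : toMat d ((List.range d).map (unitv d)) i = Pi.single i 1 := by
        rw [toMat_row, lll_init_getD i.2, vec_unitv]
      rw [h1, Matrix.one_apply, Pi.single_apply]
      simp only [eq_comm]
    rw [this, Matrix.det_one, one_pow]

theorem lll_dot_unitv {d : ℕ} {r : List ℤ} (hr : r.length = d) {j : ℕ} (hj : j < d) :
    dot r (unitv d j) = r.getD j 0 := by
  rw [dot_eq hr (length_unitv d j), vec_unitv ⟨j, hj⟩, dotProduct_single_one]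
  rfl

theorem lll_inv_init {d s : ℕ} {R : List (List ℤ)} (hR : ∀ r ∈ R, r.length = d)
    (hm : R.length ≤ d + 1) (hs : ∀ r ∈ R, ∀ a ∈ r, |a| ≤ 2 ^ s) :
    LInv d R ((d + 1) * 4 ^ s) ((List.range d).map (unitv d)) := by
  have hnorm : ∀ j < d, ‖bet R ((List.range d).map (unitv d)) j‖ ^ 2 ≤ ((d : ℝ) + 1) * 4 ^ s := by
    intro j hj
    rw [lll_norm_bet, lll_init_getD hj]
    have h1 : bil R (unitv d j) (unitv d j) ≤ R.length * (4 ^ s) := by
      apply lll_bil_le
      intro r hr
      rw [lll_dot_unitv (hR r hr) hj]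
      have h2 := hs r hr _ (lll_getD_mem' (v := r) (l := j) (by rw [hR r hr]; exact hj))
      rw [← sq_abs]
      calc |r.getD j 0| ^ 2 ≤ (2 ^ s) ^ 2 := by gcongr
        _ = 4 ^ s := by rw [← pow_mul, mul_comm, pow_mul]; norm_num
    have h2 : (R.length : ℤ) * 4 ^ s ≤ (d + 1) * 4 ^ s :=
      mul_le_mul_of_nonneg_right (by exact_mod_cast hm) (by positivity)
    exact_mod_cast h1.trans h2
  have hA : (0 : ℝ) ≤ ((d : ℝ) + 1) * 4 ^ s := by positivity
  refine ⟨lll_isBas_init d, fun j hj => ?_, fun j hj => ?_⟩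
  · refine le_trans ?_ (hnorm j hj)
    have := norm_orth_le (bet R ((List.range d).map (unitv d))) j
    gcongr
  · refine (hnorm j hj).trans ?_
    have h1 : (1 : ℝ) ≤ (9 / 4) ^ d := one_le_pow₀ (by norm_num)
    calc ((d : ℝ) + 1) * 4 ^ s = 1 * (((d : ℝ) + 1) * 4 ^ s) := (one_mul _).symm
      _ ≤ (9 / 4) ^ d * (((d : ℝ) + 1) * 4 ^ s) := mul_le_mul_of_nonneg_right h1 hA

theorem lll_phi_init {d s : ℕ} {R : List (List ℤ)} (hR : ∀ r ∈ R, r.length = d)
    (hG : ((lllRM d R).transpose * lllRM d R).det ≠ 0)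
    (hm : R.length ≤ d + 1) (hs : ∀ r ∈ R, ∀ a ∈ r, |a| ≤ 2 ^ s) :
    lllPhi d R ((List.range d).map (unitv d)) ≤ (4 / 3) ^ (3 * ((d + 1 + 2 * s) * (d * d))) := by
  have hinv := lll_inv_init hR hm hs
  set A : ℝ := ((d : ℝ) + 1) * 4 ^ s with hA
  have hA1 : 1 ≤ A := by
    have h1 : (1 : ℝ) ≤ (d : ℝ) + 1 := by linarith [Nat.cast_nonneg (α := ℝ) d]
    have h2 : (1 : ℝ) ≤ 4 ^ s := one_le_pow₀ (by norm_num)
    nlinarith
  have h1 : lllPhi d R ((List.range d).map (unitv d)) ≤ ∏ _i ∈ Finset.range d, A ^ d := by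
    refine Finset.prod_le_prod (fun i hi => ?_) fun i hi => ?_
    · have := Finset.mem_range.mp hi
      linarith [lll_gdet_one_le hR hG hinv.bas (j := i + 1) (by omega)]
    · have hi' := Finset.mem_range.mp hi
      refine (lll_gdet_le (by linarith) fun j hj => hinv.orth j (by omega)).trans ?_
      exact pow_le_pow_right₀ hA1 (by omega)
  rw [Finset.prod_const, Finset.card_range, ← pow_mul] at h1
  have h2 : A ≤ 2 ^ (d + 1 + 2 * s) := by
    rw [hA, pow_add, pow_mul]
    have h3 : ((d : ℝ) + 1) ≤ 2 ^ (d + 1) := by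
      exact_mod_cast (Nat.lt_two_pow_self (n := d + 1)).le
    have h4 : (4 : ℝ) ^ s = (2 ^ 2) ^ s := by norm_num
    rw [h4]
    gcongr
  calc lllPhi d R ((List.range d).map (unitv d)) ≤ A ^ (d * d) := h1
    _ ≤ (2 ^ (d + 1 + 2 * s)) ^ (d * d) := by gcongr
    _ = 2 ^ ((d + 1 + 2 * s) * (d * d)) := by rw [← pow_mul]
    _ ≤ ((4 / 3) ^ 3) ^ ((d + 1 + 2 * s) * (d * d)) := by
        gcongr
        norm_num
    _ = (4 / 3) ^ (3 * ((d + 1 + 2 * s) * (d * d))) := by rw [← pow_mul]

/-! ### Numbers -/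

/-- The exponent in the bound for the entries. -/
def lllH (d s : ℕ) : ℕ := d + (d * (d + (2 * s + d + 1)) + (d + 1 + (s + (2 * d + 1 + s))))

theorem lll_inv_entry {d s : ℕ} {R : List (List ℤ)} (hR : ∀ r ∈ R, r.length = d)
    (hm : R.length ≤ d + 1) (hs : ∀ r ∈ R, ∀ a ∈ r, |a| ≤ 2 ^ s)
    (hG : ((lllRM d R).transpose * lllRM d R).det ≠ 0) {b : List (List ℤ)}
    (hb : LInv d R ((d + 1) * 4 ^ s) b) : ∀ u ∈ b, ∀ a ∈ u, |a| ≤ 2 ^ lllH d s := by
  intro u hu
  obtain ⟨j, hj, rfl⟩ := List.getElem_of_mem hu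
  have hjd : j < d := by rw [← hb.bas.len]; exact hj
  refine lll_entry hR hm hs hG (hb.bas.lens _ hu) (t := 2 * d + 1 + s) fun r hr => ?_
  have h1 := hb.norm j hjd
  rw [lll_norm_bet, List.getD_eq_getElem _ _ hj] at h1
  have h2 : ((dot r b[j] ^ 2 : ℤ) : ℝ) ≤ ((bil R b[j] b[j] : ℤ) : ℝ) := by
    exact_mod_cast lll_dot_sq_le R b[j] hr
  have h3 : ((9 : ℝ) / 4) ^ d * ((d + 1) * 4 ^ s) ≤ (2 ^ (2 * d + 1 + s)) ^ 2 := by
    have e1 : ((9 : ℝ) / 4) ^ d ≤ 4 ^ d := by gcongr; norm_num
    have e2 : ((d : ℝ) + 1) ≤ 2 ^ (d + 1) := by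
      exact_mod_cast (Nat.lt_two_pow_self (n := d + 1)).le
    have e3 : (4 : ℝ) ^ d = 2 ^ (2 * d) := by rw [pow_mul]; norm_num
    have e4 : (4 : ℝ) ^ s = 2 ^ (2 * s) := by rw [pow_mul]; norm_num
    calc ((9 : ℝ) / 4) ^ d * ((d + 1) * 4 ^ s) ≤ 2 ^ (2 * d) * (2 ^ (d + 1) * 2 ^ (2 * s)) := by
          rw [← e3, ← e4]; gcongr
      _ = 2 ^ (2 * d + (d + 1 + 2 * s)) := by rw [← pow_add, ← pow_add]
      _ ≤ 2 ^ ((2 * d + 1 + s) * 2) := pow_le_pow_right₀ (by norm_num) (by omega)
      _ = (2 ^ (2 * d + 1 + s)) ^ 2 := by rw [pow_mul]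
  have h4 : ((dot r b[j] ^ 2 : ℤ) : ℝ) ≤ (2 ^ (2 * d + 1 + s)) ^ 2 := h2.trans (h1.trans h3)
  have h5 : dot r b[j] ^ 2 ≤ (2 ^ (2 * d + 1 + s)) ^ 2 := by exact_mod_cast h4
  exact abs_le_of_sq_le_sq h5 (by positivity)

theorem lll_inv_sz {d s : ℕ} {R : List (List ℤ)} (hR : ∀ r ∈ R, r.length = d)
    (hm : R.length ≤ d + 1) (hs : ∀ r ∈ R, ∀ a ∈ r, |a| ≤ 2 ^ s)
    (hG : ((lllRM d R).transpose * lllRM d R).det ≠ 0) {b : List (List ℤ)}
    (hb : LInv d R ((d + 1) * 4 ^ s) b) :
    sz b ≤ ((2 * (lllH d s + 1) + 2 + 1) * d + 1) * d := by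
  have h1 := lll_inv_entry hR hm hs hG hb
  have h2 : ∀ u ∈ b, sz u ≤ (2 * (lllH d s + 1) + 2 + 1) * d := by
    intro u hu
    have h3 : ∀ a ∈ u, sz a ≤ 2 * (lllH d s + 1) + 2 := fun a ha => by
      apply sz_int_le_of_abs_lt
      refine (h1 u hu a ha).trans_lt ?_
      exact pow_lt_pow_right₀ (by norm_num) (Nat.lt_succ_self _)
    have h4 := sz_le_of_forall h3
    rw [hb.bas.lens u hu] at h4
    exact h4
  have h3 := sz_le_of_forall h2
  rw [hb.bas.len] at h3
  exact h3

theorem lll_H_le (d s : ℕ) : lllH d s ≤ (d + 2) ^ 6 * (s + 2) := by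
  have h1 : lllH d s = 2 * (d * d) + 2 * (d * s) + 5 * d + 2 + 2 * s := by
    unfold lllH; ring
  have h2 : 16 * ((d + 2) * (d + 2) * (s + 2)) ≤ (d + 2) ^ 6 * (s + 2) := by
    have : 16 * ((d + 2) * (d + 2)) ≤ (d + 2) ^ 6 := by
      have h3 : 2 ^ 4 ≤ (d + 2) ^ 4 := Nat.pow_le_pow_left (by omega) 4
      calc 16 * ((d + 2) * (d + 2)) ≤ (d + 2) ^ 4 * ((d + 2) * (d + 2)) :=
            Nat.mul_le_mul_right _ (by simpa using h3)
        _ = (d + 2) ^ 6 := by ring
    calc 16 * ((d + 2) * (d + 2) * (s + 2)) = 16 * ((d + 2) * (d + 2)) * (s + 2) := by ring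
      _ ≤ (d + 2) ^ 6 * (s + 2) := Nat.mul_le_mul_right _ this
  refine le_trans ?_ h2
  rw [h1]
  nlinarith [Nat.zero_le (d * d * s), Nat.zero_le (d * s), Nat.zero_le (d * d)]

/-! ### The theorem -/

theorem lll_comb_bet {d : ℕ} {R b : List (List ℤ)} (hR : ∀ r ∈ R, r.length = d)
    (hb : IsBas d b) {y : List ℤ} (hy : y.length = d) :
    ∑ j : Fin d, ((((toMat d b).updateRow j (vec d y)).det : ℤ) : ℝ) • bet R b j =
      (((toMat d b).det : ℤ) : ℝ) • bet R [y] 0 := by
  have h1 : (toMat d b).transpose.mulVec ((toMat d b).transpose.cramer (vec d y)) =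
      (toMat d b).det • vec d y := by
    rw [Matrix.mulVec_cramer, Matrix.det_transpose]
  ext r
  have hr : (R.getD r []).length = d := hR _ (lll_getD_mem r.2)
  have h2 : ∀ j : Fin d, dot (R.getD r []) (b.getD j []) =
      ∑ l : Fin d, vec d (R.getD r []) l * toMat d b j l := by
    intro j
    rw [dot_eq hr (hb.lens _ (lll_getD_mem (by rw [hb.len]; exact j.2)))]
    rfl
  have h3 : ∑ j : Fin d, ((toMat d b).updateRow j (vec d y)).det *
      dot (R.getD r []) (b.getD j []) = (toMat d b).det * dot (R.getD r []) y := by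
    rw [dot_eq hr hy]
    simp only [h2, Finset.mul_sum, dotProduct]
    rw [Finset.sum_comm]
    refine Finset.sum_congr rfl fun l _ => ?_
    have h4 := congrFun h1 l
    simp only [Matrix.mulVec, dotProduct, Matrix.transpose_apply, Matrix.cramer_transpose_apply,
      Pi.smul_apply, smul_eq_mul] at h4
    rw [mul_left_comm, ← h4, Finset.mul_sum]
    refine Finset.sum_congr rfl fun j _ => ?_
    ring
  have h5 : (∑ j : Fin d, ((((toMat d b).updateRow j (vec d y)).det : ℤ) : ℝ) * ((dot (R.getD r [])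
      (b.getD j []) : ℤ) : ℝ)) = (((toMat d b).det : ℤ) : ℝ) * ((dot (R.getD r []) y : ℤ) : ℝ) := by
    exact_mod_cast h3
  simpa [bet, Finset.sum_apply] using h5

theorem lll_spec : ∃ E : ℕ, ∀ (M d s : ℕ) (R : List (List ℤ)), 1 ≤ d → R.length ≤ d + 1 →
    (∀ r ∈ R, r.length = d) → (∀ r ∈ R, ∀ a ∈ r, |a| ≤ 2 ^ s) →
    (∀ w : List ℤ, w.length = d → (∀ r ∈ R, dot r w = 0) → ∀ a ∈ w, a = 0) →
    2 ^ ((d + 2) ^ E) * (s + 2) ^ E ≤ M →
    IsBas d (lll M d R) ∧
    (∀ y : List ℤ, y.length = d → ∀ u ∈ lll M d R,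
      ((toMat d ((lll M d R).set (d - 1) y)).det) ^ 2 * bil R u u ≤ 5 ^ d * bil R y y) ∧
    (∀ u ∈ lll M d R, ∀ a ∈ u, |a| ≤ 2 ^ ((d + 2) ^ E * (s + 1))) := by
  refine ⟨12, fun M d s R hd hm hR hs hker hM => ?_⟩
  have hG := lll_det_ne hR hker
  -- numerical bounds
  have hD : (d + 2) ^ 12 * (s + 2) ≤ M := by
    refine le_trans (Nat.mul_le_mul (Nat.lt_two_pow_self).le ?_) hM
    exact Nat.le_self_pow (by norm_num) _
  have hpow : ∀ j < d, j ^ j ≤ M := by
    intro j hj
    have h1 : j ^ j ≤ 2 ^ ((d + 2) ^ 12) := by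
      calc j ^ j ≤ (2 ^ j) ^ j := Nat.pow_le_pow_left (Nat.lt_two_pow_self).le _
        _ = 2 ^ (j * j) := by rw [← pow_mul]
        _ ≤ 2 ^ ((d + 2) ^ 12) := by
            apply Nat.pow_le_pow_right (by norm_num)
            calc j * j ≤ (d + 2) * (d + 2) := Nat.mul_le_mul (by omega) (by omega)
              _ = (d + 2) ^ 2 := by ring
              _ ≤ (d + 2) ^ 12 := Nat.pow_le_pow_right (by omega) (by norm_num)
    refine h1.trans (le_trans ?_ hM)
    exact Nat.le_mul_of_pos_right _ (by positivity)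
  have hH := lll_H_le d s
  have hsz : ∀ b, LInv d R ((d + 1) * 4 ^ s) b → sz b ≤ M := by
    intro b hb
    refine (lll_inv_sz hR hm hs hG hb).trans (le_trans ?_ hD)
    set D := d + 2 with hDd
    have hD2 : 2 ≤ D := by omega
    have hT : 2 ≤ s + 2 := by omega
    have h1 : 1 ≤ D ^ 6 * (s + 2) := Nat.one_le_iff_ne_zero.mpr (by positivity)
    calc ((2 * (lllH d s + 1) + 2 + 1) * d + 1) * d
        ≤ ((7 * (D ^ 6 * (s + 2))) * D + D ^ 6 * (s + 2) * D) * D := by
          gcongr
          · omega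
          · omega
          · nlinarith
          · omega
      _ = 8 * (D ^ 8 * (s + 2)) := by ring
      _ ≤ D ^ 3 * (D ^ 8 * (s + 2)) := by
          apply Nat.mul_le_mul_right
          calc 8 = 2 ^ 3 := by norm_num
            _ ≤ D ^ 3 := Nat.pow_le_pow_left hD2 3
      _ = D ^ 11 * (s + 2) := by ring
      _ ≤ D ^ 12 * (s + 2) := by
          apply Nat.mul_le_mul_right
          exact Nat.pow_le_pow_right (by omega) (by norm_num)
  have hn : (d + 1) * (3 * ((d + 1 + 2 * s) * (d * d))) + d ≤ M := by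
    refine le_trans ?_ hD
    set D := d + 2 with hDd
    have hD2 : 2 ≤ D := by omega
    have h1 : d + 1 + 2 * s ≤ 2 * D * (s + 2) := by nlinarith
    have h0 : 1 ≤ D ^ 3 * (s + 2) := Nat.one_le_iff_ne_zero.mpr (by positivity)
    calc (d + 1) * (3 * ((d + 1 + 2 * s) * (d * d))) + d
        ≤ D * (3 * ((2 * D * (s + 2)) * (D * D))) + D * (D ^ 3 * (s + 2)) := by
          gcongr
          · omega
          · omega
          · omega
          · nlinarith
      _ = 7 * (D ^ 4 * (s + 2)) := by ring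
      _ ≤ D ^ 3 * (D ^ 4 * (s + 2)) := by
          apply Nat.mul_le_mul_right
          calc 7 ≤ 2 ^ 3 := by norm_num
            _ ≤ D ^ 3 := Nat.pow_le_pow_left hD2 3
      _ = D ^ 7 * (s + 2) := by ring
      _ ≤ D ^ 12 * (s + 2) := by
          apply Nat.mul_le_mul_right
          exact Nat.pow_le_pow_right (by omega) (by norm_num)
  obtain ⟨hred, hinv⟩ := lll_run hR hG hpow hsz M _ d _ (lll_inv_init hR hm hs) le_rfl hn
    (lll_phi_init hR hG hm hs) (by intro j hj; omega)
  change LRed M d R (lll M d R) at hred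
  change LInv d R ((d + 1) * 4 ^ s) (lll M d R) at hinv
  refine ⟨hinv.bas, ?_, ?_⟩
  · intro y hy u hu
    obtain ⟨i, hi, rfl⟩ := List.getElem_of_mem hu
    have hid : i < d := by rw [← hinv.bas.len]; exact hi
    obtain ⟨e, rfl⟩ : ∃ e, d = e + 1 := ⟨d - 1, by omega⟩
    have hind := lll_indep hR hG hinv.bas
    have h1 := reduced_thin (β := bet R (lll M (e + 1) R)) (d := e) hind
      (fun j hj => lll_sizeRed (M := M) hinv.bas.len hind (by omega) (hpow j (by omega))
        (hred.1 j (by omega)))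
      (fun j hj => by
        have h2 := hred.2 j (by omega)
        have h3 := lll_swapBad_iff (R := R) (b := lll M (e + 1) R) (hpow (j + 1) (by omega))
          hinv.bas.len (by omega : j + 1 < e + 1)
        rw [h2] at h3
        by_contra h4
        exact Bool.false_ne_true (h3.mpr (not_le.mp h4)))
      (fun j => ((((toMat (e + 1) (lll M (e + 1) R)).updateRow j (vec (e + 1) y)).det : ℤ) : ℝ))
      i (by omega)
    rw [lll_comb_bet hR hinv.bas hy, norm_smul, mul_pow, lll_norm_bet, lll_norm_bet,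
      List.getD_eq_getElem _ _ hi] at h1
    have h5 : ‖(((toMat (e + 1) (lll M (e + 1) R)).det : ℤ) : ℝ)‖ ^ 2 = 1 := by
      rw [Real.norm_eq_abs, sq_abs]
      exact_mod_cast hinv.bas.det
    rw [h5, one_mul] at h1
    have h6 : (toMat (e + 1) ((lll M (e + 1) R).set (e + 1 - 1) y)) =
        (toMat (e + 1) (lll M (e + 1) R)).updateRow (Fin.last e) (vec (e + 1) y) :=
      toMat_set hinv.bas.len (Fin.last e) y
    rw [h6]
    have h7 : ([y] : List (List ℤ)).getD 0 [] = y := rfl
    rw [h7] at h1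
    exact_mod_cast h1
  · intro u hu a ha
    refine (lll_inv_entry hR hm hs hG hinv u hu a ha).trans ?_
    apply pow_le_pow_right₀ (by norm_num)
    refine hH.trans ?_
    calc (d + 2) ^ 6 * (s + 2) ≤ (d + 2) ^ 6 * ((d + 2) * (s + 1)) := by
          apply Nat.mul_le_mul_left
          nlinarith
      _ = (d + 2) ^ 7 * (s + 1) := by ring
      _ ≤ (d + 2) ^ 12 * (s + 1) := by
          apply Nat.mul_le_mul_right
          exact Nat.pow_le_pow_right (by omega) (by norm_num)

end Pool.Agent.Lib.UBox
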