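import Pool.Agent.Lib.UBox.Defs
import Pool.Agent.Lib.PolyTime.NatBin

/-!
# Polynomial time: capped iteration, tuples, determinants
-/

namespace Pool.Agent.Lib.UBox

open Pool.Agent.Lib.PolyTime

theorem PolyF.iterateCap {α γ : Type*} [TEnc α] [TEnc γ] {M n : α → ℕ} {f : α → γ → γ} {g : α → γ}
    (hM : PolyF M) (hn : PolyF n) (hf : PolyF (fun p : α × γ => f p.1 p.2)) (hg : PolyF g) :
    PolyF (fun x => (cap (M x) (f x))^[n x] (g x)) := by
  have h1 : PolyF (fun p : α × γ => cap (M p.1) (f p.1) p.2) :=
    PolyTime.PolyF.ite (p := fun p : α × γ => sz (f p.1 p.2) ≤ M p.1)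
      (PolyTime.PolyF.natLe (PolyTime.PolyF.szFun hf) (hM.comp PolyTime.PolyF.fst')) hf
      PolyTime.PolyF.snd'
  refine PolyTime.PolyF.natIterate (f := fun x => cap (M x) (f x)) hn h1 hg ?_
  obtain ⟨B, hB⟩ := (PolyTime.PolyF.pbd hg).add (PolyTime.PolyF.pbdNat hM)
  have key : ∀ (x : α) (i : ℕ), sz ((cap (M x) (f x))^[i] (g x)) ≤ sz (g x) + M x := by
    intro x i
    induction i with
    | zero => exact Nat.le_add_right _ _
    | succ i ih =>
      rw [Function.iterate_succ_apply']
      have h2 : ∀ y, sz y ≤ sz (g x) + M x → sz (cap (M x) (f x) y) ≤ sz (g x) + M x := by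
        intro y hy
        unfold cap
        split_ifs with h
        · omega
        · exact hy
      exact h2 _ ih
  exact ⟨B, fun x i _ => (key x i).trans (hB x)⟩

/-! ### Tuples -/

theorem pfbase_pow (M a : ℕ) : ∀ n : ℕ,
    (fun c => min (c * a) (M + 1))^[n] 1 = min (a ^ n) (M + 1) := by
  intro n
  induction n with
  | zero => simp
  | succ n ih =>
    rw [Function.iterate_succ_apply', ih]
    show min (min (a ^ n) (M + 1) * a) (M + 1) = _
    rcases Nat.eq_zero_or_pos a with rfl | ha
    · simp
    · rcases le_total (a ^ n) (M + 1) with h | h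
      · rw [min_eq_left h, pow_succ]
      · rw [min_eq_right h]
        have h1 : M + 1 ≤ (M + 1) * a := Nat.le_mul_of_pos_right _ ha
        have h2 : M + 1 ≤ a ^ (n + 1) := by
          rw [pow_succ]; exact h.trans (Nat.le_mul_of_pos_right _ ha)
        rw [min_eq_right h1, min_eq_right h2]

theorem pfbase_powLe {α : Type*} [TEnc α] {M n a : α → ℕ} (hM : PolyF M) (hn : PolyF n)
    (ha : PolyF a) : PolyF (fun x => decide (a x ^ n x ≤ M x)) := by
  have h1 : PolyF (fun x => (fun c => min (c * a x) (M x + 1))^[n x] 1) := by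
    refine PolyTime.PolyF.natIterate (f := fun x c => min (c * a x) (M x + 1)) hn
      (PolyTime.PolyF.natMin (PolyTime.PolyF.natMul PolyTime.PolyF.snd' (ha.comp
        PolyTime.PolyF.fst')) ((hM.comp PolyTime.PolyF.fst').succ)) (PolyTime.PolyF.const 1) ?_
    obtain ⟨B, hB⟩ := (PolyTime.PolyF.pbdNat hM).add (PBd.const 1)
    refine ⟨B, fun x i _ => le_trans ?_ (hB x)⟩
    rw [pfbase_pow, sz_nat]
    exact min_le_right _ _
  refine (PolyTime.PolyF.natLe h1 hM).congr fun x => ?_
  rw [pfbase_pow]
  congr 1
  apply propext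
  constructor
  · intro h
    rcases min_le_iff.mp h with h | h
    · exact h
    · omega
  · intro h
    exact (min_le_left _ _).trans h

theorem pfbase_mem_tuples {α : Type*} {L : List α} {n : ℕ} {t : List α} (h : t ∈ tuples L n) :
    t.length = n ∧ ∀ a ∈ t, a ∈ L := by
  induction n generalizing t with
  | zero =>
    simp only [tuples, List.mem_singleton] at h
    subst h; simp
  | succ n ih =>
    simp only [tuples, List.mem_flatMap, List.mem_map] at h
    obtain ⟨a, ha, t', ht', rfl⟩ := h
    obtain ⟨h1, h2⟩ := ih ht'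
    refine ⟨by simp [h1], ?_⟩
    intro b hb
    rcases List.mem_cons.mp hb with rfl | hb
    · exact ha
    · exact h2 b hb

theorem pfbase_length_tuples {α : Type*} (L : List α) (n : ℕ) :
    (tuples L n).length = L.length ^ n := by
  induction n with
  | zero => simp [tuples]
  | succ n ih =>
    simp only [tuples, List.length_flatMap, List.length_map, ih]
    simp [pow_succ, mul_comm]

theorem pfbase_sz_tuples {α : Type*} [TEnc α] (L : List α) (n : ℕ) :
    sz (tuples L n) ≤ ((sz L + 1) * n + 1) * L.length ^ n := by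
  rw [← pfbase_length_tuples]
  refine sz_le_of_forall fun t ht => ?_
  obtain ⟨h1, h2⟩ := pfbase_mem_tuples ht
  have h3 := sz_le_of_forall (l := t) (M := sz L) (fun a ha => by
    have := sz_mem (h2 a ha); omega)
  rw [h1] at h3
  exact h3

theorem pfbase_iter_tuples {α : Type*} (L : List α) (n : ℕ) :
    (fun T : List (List α) => L.flatMap fun a => T.map fun t => a :: t)^[n] [[]] = tuples L n := by
  induction n with
  | zero => rfl
  | succ n ih => rw [Function.iterate_succ_apply', ih]; rfl

theorem polyF_ctuples {α β : Type*} [TEnc α] [TEnc β] {M n : α → ℕ} {L : α → List β}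
    (hM : PolyF M) (hn : PolyF n) (hL : PolyF L) : PolyF (fun x => ctuples (M x) (L x) (n x)) := by
  have hc := pfbase_powLe hM hn (PolyTime.PolyF.length hL)
  have hn' : PolyF (fun x => if (L x).length ^ n x ≤ M x then n x else 0) :=
    PolyTime.PolyF.ite hc hn (PolyTime.PolyF.const 0)
  have hstep : PolyF (fun p : α × List (List β) =>
      (L p.1).flatMap fun a => p.2.map fun t => a :: t) :=
    PolyTime.PolyF.flatMap (h := fun (p : α × List (List β)) a => p.2.map fun t => a :: t)
      (hL.comp PolyTime.PolyF.fst')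
      (PolyTime.PolyF.map (h := fun (q : (α × List (List β)) × β) t => q.2 :: t)
        PolyTime.PolyF.fst'.snd (PolyTime.PolyF.cons PolyTime.PolyF.fst'.snd
          PolyTime.PolyF.snd'))
  have hit : PolyF (fun x => (fun T : List (List β) =>
      (L x).flatMap fun a => T.map fun t => a :: t)^[if (L x).length ^ n x ≤ M x then n x else 0]
        ([[]] : List (List β))) := by
    refine PolyTime.PolyF.natIterate (f := fun x (T : List (List β)) =>
      (L x).flatMap fun a => T.map fun t => a :: t) (g := fun _ => ([[]] : List (List β))) hn'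
      hstep (PolyTime.PolyF.const _) ?_
    obtain ⟨B, hB⟩ := ((((PolyTime.PolyF.pbd hL).add (PBd.const 1)).mul
      (PolyTime.PolyF.pbdNat hn)).add (PBd.const 1)).mul
      ((PolyTime.PolyF.pbdNat hM).add (PBd.const 1))
    refine ⟨B, fun x i hi => le_trans ?_ (hB x)⟩
    rw [pfbase_iter_tuples]
    refine (pfbase_sz_tuples (L x) i).trans ?_
    by_cases h : (L x).length ^ n x ≤ M x
    · rw [if_pos h] at hi
      refine Nat.mul_le_mul (Nat.add_le_add_right (Nat.mul_le_mul_left _ hi) _) ?_
      rcases Nat.eq_zero_or_pos (L x).length with h0 | h0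
      · rw [h0]
        rcases Nat.eq_zero_or_pos i with rfl | hi'
        · simp
        · rw [zero_pow (by omega)]; exact Nat.zero_le _
      · exact (Nat.pow_le_pow_right h0 hi).trans (h.trans (Nat.le_succ _))
    · rw [if_neg h] at hi
      have : i = 0 := by omega
      subst this
      simp only [mul_zero, zero_add, pow_zero, mul_one]
      exact Nat.one_le_iff_ne_zero.mpr (by positivity)
  refine (PolyTime.PolyF.ite (p := fun x => (L x).length ^ n x ≤ M x) hc hit
    (PolyTime.PolyF.const ([] : List (List β)))).congr fun x => ?_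
  unfold ctuples
  by_cases h : (L x).length ^ n x ≤ M x
  · rw [if_pos h, if_pos h, if_pos h, pfbase_iter_tuples]
  · rw [if_neg h, if_neg h]

/-! ### Determinants -/

theorem pfbase_sum_tuples {α : Type*} (L : List α) (F : List α → ℤ) (n : ℕ) :
    ((tuples L n).map F).sum =
      ∑ f : Fin n → Fin L.length, F (List.ofFn fun i => L[(f i : ℕ)]) := by
  induction n generalizing F with
  | zero => simp [tuples]
  | succ n ih =>
    have h1 : ((tuples L (n + 1)).map F).sum =
        (L.map fun a => ((tuples L n).map fun t => F (a :: t)).sum).sum := by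
      have h0 : ∀ L' : List α, ((L'.flatMap fun a => (tuples L n).map fun t => a :: t).map F).sum =
          (L'.map fun a => ((tuples L n).map fun t => F (a :: t)).sum).sum := by
        intro L'
        induction L' with
        | nil => rfl
        | cons b L' ih' =>
          rw [List.flatMap_cons, List.map_append, List.sum_append, ih', List.map_cons,
            List.sum_cons, List.map_map]
          rfl
      exact h0 L
    rw [h1]
    simp only [ih]
    have h2 : ∀ G : α → ℤ, (L.map G).sum = ∑ k : Fin L.length, G L[(k : ℕ)] := by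
      intro G
      rw [← List.sum_ofFn]
      congr 1
      apply List.ext_getElem
      · simp
      · intro i h1 h2
        simp
    rw [h2, ← Fintype.sum_prod_type']
    refine Fintype.sum_equiv (Fin.consEquiv fun _ => Fin L.length) _ _ fun p => ?_
    rw [List.ofFn_succ]
    rfl

/-- The sign of a map `i ↦ t_i`. -/
def pfbase_sg (n : ℕ) (t : List ℕ) : ℤ :=
  ((List.range n).map fun j => ((List.range j).map fun i =>
    ((t.getD j 0 : ℤ) - (t.getD i 0 : ℤ)).sign).prod).prod

theorem pfbase_prod_range (n : ℕ) (f : ℕ → ℤ) :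
    ((List.range n).map f).prod = ∏ i ∈ Finset.range n, f i := by
  induction n with
  | zero => simp
  | succ n ih => rw [List.range_succ, List.map_append, List.prod_append, ih,
      Finset.prod_range_succ]; simp

theorem pfbase_det (n : ℕ) (A : List (List ℤ)) :
    ((tuples (List.range n) n).map fun t => pfbase_sg n t *
      ((List.range n).map fun i => (A.getD i []).getD (t.getD i 0) 0).prod).sum =
      (toMat n A).det := by
  rw [pfbase_sum_tuples]
  have e : ∑ f : Fin n → Fin (List.range n).length, (pfbase_sg n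
        (List.ofFn fun i => (List.range n)[(f i : ℕ)]) *
      ((List.range n).map fun i => (A.getD i []).getD
        ((List.ofFn fun i => (List.range n)[(f i : ℕ)]).getD i 0) 0).prod) =
      ∑ f : Fin n → Fin n, (∏ j : Fin n, ∏ i ∈ Finset.Iio j,
        (((f j : ℕ) : ℤ) - ((f i : ℕ) : ℤ)).sign) * ∏ i : Fin n, toMat n A i (f i) := by
    refine Fintype.sum_equiv (Equiv.arrowCongr (Equiv.refl _)
      (finCongr (List.length_range (n := n)))) _ _ fun f => ?_
    have h1 : ∀ (i : ℕ) (hi : i < n), (List.ofFn fun i => (List.range n)[(f i : ℕ)]).getD i 0 =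
        (f ⟨i, hi⟩ : ℕ) := by
      intro i hi
      rw [List.getD_eq_getElem _ _ (by simpa using hi)]
      simp
    congr 1
    · unfold pfbase_sg
      rw [pfbase_prod_range, Finset.prod_range]
      refine Finset.prod_congr rfl fun j _ => ?_
      rw [pfbase_prod_range]
      refine Finset.prod_bij' (fun i hi => ⟨i, (Finset.mem_range.mp hi).trans j.2⟩)
        (fun i _ => (i : ℕ)) ?_ ?_ ?_ ?_ ?_
      · intro i hi
        rw [Finset.mem_Iio]
        exact Finset.mem_range.mp hi
      · intro i hi
        rw [Finset.mem_range]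
        exact Fin.lt_def.mp (Finset.mem_Iio.mp hi)
      · intro i hi; rfl
      · intro i hi; rfl
      · intro i hi
        rw [h1 j j.2, h1 i ((Finset.mem_range.mp hi).trans j.2)]
        rfl
    · rw [pfbase_prod_range, Finset.prod_range]
      refine Finset.prod_congr rfl fun i _ => ?_
      rw [h1 i i.2]
      rfl
  rw [e, ← Matrix.det_transpose, Matrix.det_apply']
  symm
  refine Fintype.sum_of_injective (fun σ : Equiv.Perm (Fin n) => (σ : Fin n → Fin n))
    DFunLike.coe_injective _ _ ?_ ?_
  · intro f hf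
    have h1 : ¬ Function.Injective f := by
      intro hinj
      exact hf ⟨Equiv.ofBijective f (Finite.injective_iff_bijective.mp hinj), rfl⟩
    unfold Function.Injective at h1
    push Not at h1
    obtain ⟨a, b, hab, hne⟩ := h1
    have h2 : ∀ a b : Fin n, f a = f b → a < b → (∏ j : Fin n, ∏ i ∈ Finset.Iio j,
        (((f j : ℕ) : ℤ) - ((f i : ℕ) : ℤ)).sign) = 0 := by
      intro a b hab hlt
      refine Finset.prod_eq_zero (Finset.mem_univ b) ?_
      refine Finset.prod_eq_zero (Finset.mem_Iio.mpr hlt) ?_
      rw [hab, sub_self, Int.sign_zero]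
    rcases lt_or_gt_of_ne hne with h | h
    · rw [h2 a b hab h, zero_mul]
    · rw [h2 b a hab.symm h, zero_mul]
  · intro σ
    congr 1
    rw [Equiv.Perm.sign_eq_prod_prod_Iio]
    simp only [Units.coe_prod, Int.cast_prod]
    refine Finset.prod_congr rfl fun j _ => Finset.prod_congr rfl fun i hi => ?_
    have hne : σ i ≠ σ j := fun h => (Finset.mem_Iio.mp hi).ne (σ.injective h)
    by_cases h : σ i < σ j
    · rw [if_pos h]
      have h3 : (0 : ℤ) < ((σ j : ℕ) : ℤ) - ((σ i : ℕ) : ℤ) := by
        have : (σ i : ℕ) < (σ j : ℕ) := h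
        omega
      rw [Int.sign_eq_one_of_pos h3]
      simp
    · rw [if_neg h]
      have h3 : ((σ j : ℕ) : ℤ) - ((σ i : ℕ) : ℤ) < 0 := by
        have h4 : (σ j : ℕ) < (σ i : ℕ) := lt_of_le_of_ne (not_lt.mp h) (fun h' => hne (Fin.ext h'.symm))
        omega
      rw [Int.sign_eq_neg_one_of_neg h3]
      simp

theorem pfbase_getD {α β : Type*} [TEnc α] [TEnc β] {l : α → List β} {i : α → ℕ} (d : β)
    (hl : PolyF l) (hi : PolyF i) : PolyF (fun x => (l x).getD (i x) d) :=
  (PolyTime.PolyF.getD (PolyTime.PolyF.getElem? hi hl) (PolyTime.PolyF.const d)).congr fun x => by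
    rw [List.getD_eq_getElem?_getD]

theorem polyF_cdet {α : Type*} [TEnc α] {M n : α → ℕ} {A : α → List (List ℤ)}
    (hM : PolyF M) (hn : PolyF n) (hA : PolyF A) : PolyF (fun x => cdet (M x) (n x) (A x)) := by
  have hT : PolyF (fun x => ctuples (M x) (List.range (n x)) (n x)) :=
    polyF_ctuples hM hn (PolyTime.PolyF.range hn)
  have hsg : PolyF (fun q : α × List ℕ => pfbase_sg (n q.1) q.2) := by
    unfold pfbase_sg
    refine PolyTime.PolyF.intProd (PolyTime.PolyF.map (h := fun (q : α × List ℕ) j =>
      ((List.range j).map fun i => ((q.2.getD j 0 : ℤ) - (q.2.getD i 0 : ℤ)).sign).prod)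
      (PolyTime.PolyF.range (hn.comp PolyTime.PolyF.fst')) ?_)
    refine PolyTime.PolyF.intProd (PolyTime.PolyF.map
      (h := fun (r : (α × List ℕ) × ℕ) i =>
        ((r.1.2.getD r.2 0 : ℤ) - (r.1.2.getD i 0 : ℤ)).sign)
      (PolyTime.PolyF.range PolyTime.PolyF.snd') ?_)
    exact PolyTime.PolyF.intSign (PolyTime.PolyF.intSub
      (PolyTime.PolyF.intOfNat (pfbase_getD 0 PolyTime.PolyF.fst'.fst.snd
        PolyTime.PolyF.fst'.snd))
      (PolyTime.PolyF.intOfNat (pfbase_getD 0 PolyTime.PolyF.fst'.fst.snd
        PolyTime.PolyF.snd')))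
  have hpr : PolyF (fun q : α × List ℕ =>
      ((List.range (n q.1)).map fun i => ((A q.1).getD i []).getD (q.2.getD i 0) 0).prod) := by
    refine PolyTime.PolyF.intProd (PolyTime.PolyF.map (h := fun (q : α × List ℕ) i =>
      ((A q.1).getD i []).getD (q.2.getD i 0) 0)
      (PolyTime.PolyF.range (hn.comp PolyTime.PolyF.fst')) ?_)
    exact pfbase_getD 0 (pfbase_getD [] (hA.comp PolyTime.PolyF.fst'.fst) PolyTime.PolyF.snd')
      (pfbase_getD 0 PolyTime.PolyF.fst'.snd PolyTime.PolyF.snd')
  refine (PolyTime.PolyF.intSum (PolyTime.PolyF.map (h := fun x t => pfbase_sg (n x) t *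
    ((List.range (n x)).map fun i => ((A x).getD i []).getD (t.getD i 0) 0).prod) hT
    (PolyTime.PolyF.intMul hsg hpr))).congr fun x => ?_
  unfold cdet ctuples
  rw [List.length_range]
  by_cases h : n x ^ n x ≤ M x
  · rw [if_pos h, if_pos h, pfbase_det]
  · rw [if_neg h, if_neg h]; rfl

end Pool.Agent.Lib.UBox
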