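import Mathlib

/-!
# Bounds of the form `2 ^ poly k * poly (N, g)`
-/

namespace Pool.Agent.Lib.UBox

/-- The bound with exponent `E`. -/
def tb (E k N g : ℕ) : ℕ := 2 ^ ((k + 2) ^ E) * (N + 2) ^ E * (g + 2) ^ E

/-- Functions with such a bound. -/
def Tame (F : ℕ → ℕ → ℕ → ℕ) : Prop := ∃ E, ∀ k N g, F k N g ≤ tb E k N g

theorem tb_mono {E E' : ℕ} (h : E ≤ E') (k N g : ℕ) : tb E k N g ≤ tb E' k N g := by
  unfold tb
  have h1 : 2 ^ ((k + 2) ^ E) ≤ 2 ^ ((k + 2) ^ E') :=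
    Nat.pow_le_pow_right (by norm_num) (Nat.pow_le_pow_right (by omega) h)
  have h2 : (N + 2) ^ E ≤ (N + 2) ^ E' := Nat.pow_le_pow_right (by omega) h
  have h3 : (g + 2) ^ E ≤ (g + 2) ^ E' := Nat.pow_le_pow_right (by omega) h
  exact Nat.mul_le_mul (Nat.mul_le_mul h1 h2) h3

theorem Tame.mono {F G : ℕ → ℕ → ℕ → ℕ} (h : Tame G) (h' : ∀ k N g, F k N g ≤ G k N g) : Tame F := by
  obtain ⟨E, hE⟩ := h
  exact ⟨E, fun k N g => (h' k N g).trans (hE k N g)⟩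

theorem pow_add_le {k a b : ℕ} : (k + 2) ^ a + (k + 2) ^ b ≤ (k + 2) ^ (a + b + 1) := by
  have h1 : (k + 2) ^ a ≤ (k + 2) ^ (a + b) := Nat.pow_le_pow_right (by omega) (by omega)
  have h2 : (k + 2) ^ b ≤ (k + 2) ^ (a + b) := Nat.pow_le_pow_right (by omega) (by omega)
  calc (k + 2) ^ a + (k + 2) ^ b ≤ (k + 2) ^ (a + b) * 2 := by omega
    _ ≤ (k + 2) ^ (a + b) * (k + 2) := Nat.mul_le_mul_left _ (by omega)
    _ = (k + 2) ^ (a + b + 1) := (pow_succ _ _).symm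

theorem tb_mul (E E' k N g : ℕ) : tb E k N g * tb E' k N g ≤ tb (E + E' + 1) k N g := by
  have e : tb E k N g * tb E' k N g =
      2 ^ ((k + 2) ^ E + (k + 2) ^ E') * (N + 2) ^ (E + E') * (g + 2) ^ (E + E') := by
    unfold tb
    rw [pow_add, pow_add, pow_add]
    ring
  rw [e]
  unfold tb
  have h1 := Nat.pow_le_pow_right (n := 2) (by norm_num) (pow_add_le (k := k) (a := E) (b := E'))
  have h2 : (N + 2) ^ (E + E') ≤ (N + 2) ^ (E + E' + 1) :=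
    Nat.pow_le_pow_right (by omega) (by omega)
  have h3 : (g + 2) ^ (E + E') ≤ (g + 2) ^ (E + E' + 1) :=
    Nat.pow_le_pow_right (by omega) (by omega)
  exact Nat.mul_le_mul (Nat.mul_le_mul h1 h2) h3

theorem Tame.mul {F G : ℕ → ℕ → ℕ → ℕ} (hF : Tame F) (hG : Tame G) :
    Tame fun k N g => F k N g * G k N g := by
  obtain ⟨E, hE⟩ := hF
  obtain ⟨E', hE'⟩ := hG
  exact ⟨E + E' + 1, fun k N g => (Nat.mul_le_mul (hE k N g) (hE' k N g)).trans (tb_mul ..)⟩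

theorem two_le_tb (E k N g : ℕ) : 2 ≤ tb E k N g := by
  unfold tb
  have h1 : 2 ^ 1 ≤ 2 ^ ((k + 2) ^ E) :=
    Nat.pow_le_pow_right (by norm_num) (Nat.one_le_pow _ _ (by omega))
  have h2 : 1 ≤ (N + 2) ^ E := Nat.one_le_pow _ _ (by omega)
  have h3 : 1 ≤ (g + 2) ^ E := Nat.one_le_pow _ _ (by omega)
  calc 2 = 2 ^ 1 * 1 * 1 := by norm_num
    _ ≤ _ := by gcongr

theorem Tame.add {F G : ℕ → ℕ → ℕ → ℕ} (hF : Tame F) (hG : Tame G) :
    Tame fun k N g => F k N g + G k N g := by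
  obtain ⟨E, hE⟩ := hF
  obtain ⟨E', hE'⟩ := hG
  refine ⟨E + E' + 1, fun k N g => ?_⟩
  show F k N g + G k N g ≤ _
  have h1 := hE k N g
  have h2 := hE' k N g
  have h3 := two_le_tb E k N g
  have h4 := two_le_tb E' k N g
  have h5 := tb_mul E E' k N g
  have h6 : tb E k N g + tb E' k N g ≤ tb E k N g * tb E' k N g := by nlinarith
  omega

theorem Tame.exp (e : ℕ) : Tame fun k _ _ => 2 ^ ((k + 2) ^ e) :=
  ⟨e, fun k N g => by
    unfold tb
    have h2 : 1 ≤ (N + 2) ^ e := Nat.one_le_pow _ _ (by omega)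
    have h3 : 1 ≤ (g + 2) ^ e := Nat.one_le_pow _ _ (by omega)
    rw [mul_assoc]
    exact Nat.le_mul_of_pos_right _ (Nat.mul_pos h2 h3)⟩

theorem Tame.const (c : ℕ) : Tame fun _ _ _ => c :=
  (Tame.exp c).mono fun k _ _ => by
    have h1 : c ≤ (k + 2) ^ c := (Nat.lt_pow_self (by omega)).le
    exact h1.trans (Nat.lt_two_pow_self).le

theorem Tame.k : Tame fun k _ _ => k :=
  (Tame.exp 1).mono fun k _ _ => by
    have : k < 2 ^ k := Nat.lt_two_pow_self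
    have h2 : 2 ^ k ≤ 2 ^ ((k + 2) ^ 1) := Nat.pow_le_pow_right (by norm_num) (by rw [pow_one]; omega)
    omega

theorem Tame.N : Tame fun _ N _ => N := ⟨1, fun k N g => by
  unfold tb
  have h1 : 1 ≤ 2 ^ ((k + 2) ^ 1) := Nat.one_le_two_pow
  have h2 : 1 ≤ (g + 2) ^ 1 := Nat.one_le_pow _ _ (by omega)
  calc N ≤ 1 * (N + 2) ^ 1 * 1 := by rw [pow_one]; omega
    _ ≤ 2 ^ ((k + 2) ^ 1) * (N + 2) ^ 1 * (g + 2) ^ 1 := by gcongr⟩

theorem Tame.g : Tame fun _ _ g => g := ⟨1, fun k N g => by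
  unfold tb
  have h1 : 1 ≤ 2 ^ ((k + 2) ^ 1) := Nat.one_le_two_pow
  have h2 : 1 ≤ (N + 2) ^ 1 := Nat.one_le_pow _ _ (by omega)
  calc g ≤ 1 * 1 * (g + 2) ^ 1 := by rw [pow_one]; omega
    _ ≤ 2 ^ ((k + 2) ^ 1) * (N + 2) ^ 1 * (g + 2) ^ 1 := by gcongr⟩

theorem Tame.pow {F : ℕ → ℕ → ℕ → ℕ} (hF : Tame F) (n : ℕ) : Tame fun k N g => F k N g ^ n := by
  induction n with
  | zero => exact (Tame.const 1).mono fun k N g => by simp
  | succ n ih => exact (ih.mul hF).mono fun k N g => by rw [pow_succ]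

/-- Powers of the logarithm. -/
theorem pow_le_two_pow (x m : ℕ) : x ^ m ≤ m ^ m * 2 ^ (x + m) := by
  rcases Nat.eq_zero_or_pos m with rfl | hm
  · simp; exact Nat.one_le_two_pow
  · have h1 : x ≤ m * 2 ^ (x / m + 1) := by
      have h2 : x < m * (x / m + 1) := Nat.lt_mul_div_succ x hm
      have h3 : x / m + 1 ≤ 2 ^ (x / m + 1) := (Nat.lt_two_pow_self).le
      exact h2.le.trans (Nat.mul_le_mul_left _ h3)
    calc x ^ m ≤ (m * 2 ^ (x / m + 1)) ^ m := Nat.pow_le_pow_left h1 m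
      _ = m ^ m * 2 ^ ((x / m + 1) * m) := by rw [mul_pow, ← pow_mul]
      _ ≤ m ^ m * 2 ^ (x + m) := by
        refine Nat.mul_le_mul_left _ (Nat.pow_le_pow_right (by norm_num) ?_)
        have := Nat.div_mul_le_self x m
        nlinarith

theorem two_pow_size_le (N : ℕ) : 2 ^ Nat.size N ≤ 2 * (N + 2) := by
  rcases Nat.eq_zero_or_pos N with rfl | hN
  · simp
  · have h1 : Nat.size N = (Nat.size N - 1) + 1 := by
      have : 0 < Nat.size N := Nat.size_pos.2 hN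
      omega
    have h2 : 2 ^ (Nat.size N - 1) ≤ N := by
      have := Nat.lt_size.1 (show Nat.size N - 1 < Nat.size N by omega)
      exact this
    rw [h1, pow_succ]
    omega

/-- Powers with exponent depending on `k` of `2 ^ poly k * log N`. -/
theorem Tame.logpow {F m : ℕ → ℕ → ℕ → ℕ} {e : ℕ}
    (hF : ∀ k N g, F k N g ≤ 2 ^ ((k + 2) ^ e) * (Nat.size N + 1))
    (hm : ∀ k N g, m k N g ≤ (k + 2) ^ e) : Tame fun k N g => F k N g ^ m k N g := by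
  refine (((Tame.exp (2 * e)).mul (Tame.exp (2 * e))).mul
    (((Tame.exp (e + 1)).mul (Tame.const 4)).mul ((Tame.N).add (Tame.const 2)))).mono
      fun k N g => ?_
  have h0 : 1 ≤ 2 ^ ((k + 2) ^ e) * (Nat.size N + 1) :=
    Nat.mul_pos (Nat.two_pow_pos _) (Nat.succ_pos _)
  set p := (k + 2) ^ e with hp
  have h1 : F k N g ^ m k N g ≤ (2 ^ p * (Nat.size N + 1)) ^ p :=
    (Nat.pow_le_pow_left (hF k N g) _).trans (Nat.pow_le_pow_right h0 (hm k N g))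
  have h2 : (2 ^ p * (Nat.size N + 1)) ^ p ≤
      2 ^ (p * p) * (p ^ p * 2 ^ (Nat.size N + 1 + p)) := by
    rw [mul_pow, ← pow_mul]
    exact Nat.mul_le_mul_left _ (pow_le_two_pow _ _)
  have h3 : p ^ p ≤ 2 ^ (p * p) := by
    rw [pow_mul]
    exact Nat.pow_le_pow_left (Nat.lt_two_pow_self).le p
  have h4 : 2 ^ (Nat.size N + 1 + p) = 2 ^ Nat.size N * 2 * 2 ^ p := by
    rw [pow_add, pow_add, pow_one]
  have h5 := two_pow_size_le N
  have h6 : (k + 2) ^ (2 * e) = p * p := by rw [hp, two_mul, pow_add]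
  have h7 : 2 ^ p ≤ 2 ^ ((k + 2) ^ (e + 1)) :=
    Nat.pow_le_pow_right (by norm_num) (Nat.pow_le_pow_right (by omega) (by omega))
  calc F k N g ^ m k N g ≤ 2 ^ (p * p) * (p ^ p * 2 ^ (Nat.size N + 1 + p)) := h1.trans h2
    _ ≤ 2 ^ (p * p) * (2 ^ (p * p) * (2 * (N + 2) * 2 * 2 ^ ((k + 2) ^ (e + 1)))) := by
        rw [h4]
        gcongr
    _ = 2 ^ ((k + 2) ^ (2 * e)) * 2 ^ ((k + 2) ^ (2 * e)) *
        (2 ^ ((k + 2) ^ (e + 1)) * 4 * (N + 2)) := by rw [h6]; ring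

end Pool.Agent.Lib.UBox
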