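import Pool.Agent.Lib.UBox.ProcD
import Pool.Agent.Lib.UBox.Tame

/-!
# The cutting phase
-/

namespace Pool.Agent.Lib.UBox

open Pool.Agent.Lib.PolyTime

theorem cap_iterate_eq {γ : Type*} [TEnc γ] {M : ℕ} {f : γ → γ} {x : γ} :
    ∀ n : ℕ, (∀ i ≤ n, sz (f^[i] x) ≤ M) → (cap M f)^[n] x = f^[n] x
  | 0, _ => rfl
  | n + 1, h => by
    rw [Function.iterate_succ_apply', Function.iterate_succ_apply',
      cap_iterate_eq n fun i hi => h i (by omega), cap, if_pos]
    have := h (n + 1) le_rfl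
    rwa [Function.iterate_succ_apply'] at this

/-! ## Sizes -/

theorem sz_vec_le {v : List ℤ} {n s : ℕ} (hn : v.length ≤ n) (hs : ∀ x ∈ v, |x| ≤ 2 ^ s) :
    sz v ≤ (2 * s + 5) * n := by
  have h1 : ∀ x ∈ v, sz x ≤ 2 * s + 4 := fun x hx => by
    have h2 : |x| < 2 ^ (s + 1) := by
      have h3 := hs x hx
      have h4 : (0 : ℤ) < 2 ^ s := by positivity
      rw [pow_succ]
      linarith
    have := sz_int_le_of_abs_lt h2
    omega
  exact (sz_le_of_forall h1).trans (Nat.mul_le_mul_left _ hn)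

theorem sz_int_le' {x : ℤ} {s : ℕ} (h : |x| ≤ 2 ^ s) : sz x ≤ 2 * s + 4 := by
  have h2 : |x| < 2 ^ (s + 1) := by
    have h4 : (0 : ℤ) < 2 ^ s := by positivity
    rw [pow_succ]
    linarith
  have := sz_int_le_of_abs_lt h2
  omega

/-- Size of a list of constraints. -/
def szC (D s n : ℕ) : ℕ := (1 + (2 * s + 5) * D + (2 * s + 4) + 1) * n

theorem sz_cons_le {D s n : ℕ} {C : List Con} (hlen : ∀ c ∈ C, c.1.length = D)
    (ht : ∀ c ∈ C, (∀ x ∈ c.1, |x| ≤ 2 ^ s) ∧ |c.2| ≤ 2 ^ s) (hn : C.length ≤ n) :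
    sz C ≤ szC D s n := by
  have h1 : ∀ c ∈ C, sz c ≤ 1 + (2 * s + 5) * D + (2 * s + 4) := fun c hc => by
    rw [sz_prod]
    have h2 := sz_vec_le (hlen c hc).le (ht c hc).1
    have h3 := sz_int_le' (ht c hc).2
    omega
  exact (sz_le_of_forall h1).trans (Nat.mul_le_mul_left _ hn)

/-- Size of a list of tasks. -/
def szL (k d s n : ℕ) : ℕ := (1 + (2 * s + 5) * k + ((2 * s + 5) * k + 1) * d + 1) * n

theorem sz_tasks_le {k d h n : ℕ} {L : List Task} (hL : ∀ T ∈ L, Good k d T ∧ Ht h T)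
    (hn : L.length ≤ n) : sz L ≤ szL k d h n := by
  have h1 : ∀ T ∈ L, sz T ≤ 1 + (2 * h + 5) * k + ((2 * h + 5) * k + 1) * d := fun T hT => by
    obtain ⟨h2, h3⟩ := hL T hT
    rw [sz_prod]
    have h4 := sz_vec_le h2.len1.le h3.1
    have h5 : sz T.2 ≤ ((2 * h + 5) * k + 1) * T.2.length :=
      sz_le_of_forall fun u hu => sz_vec_le (h2.lens u hu).le (h3.2 u hu)
    rw [h2.len2] at h5
    omega
  exact (sz_le_of_forall h1).trans (Nat.mul_le_mul_left _ hn)

/-! ## The number of cuts -/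

theorem bernoulli_nat (q n : ℕ) : q ^ n * (q + n) ≤ (q + 1) ^ n * q + 0 * n ∨
    q ^ n * (q + n) ≤ (q + 1) ^ n * q := by
  right
  induction n with
  | zero => simp
  | succ n ih =>
    have h1 : q ^ (n + 1) * (q + (n + 1)) ≤ q ^ n * (q + n) * (q + 1) := by
      rw [pow_succ]
      nlinarith [Nat.zero_le (q ^ n * n)]
    calc q ^ (n + 1) * (q + (n + 1)) ≤ q ^ n * (q + n) * (q + 1) := h1
      _ ≤ (q + 1) ^ n * q * (q + 1) := Nat.mul_le_mul_right _ ih
      _ = (q + 1) ^ (n + 1) * q := by ring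

theorem two_mul_pow_le {q : ℕ} (hq : 0 < q) : 2 * q ^ q ≤ (q + 1) ^ q := by
  have h : q ^ q * (q + q) ≤ (q + 1) ^ q * q := by
    rcases bernoulli_nat q q with h | h
    · simpa using h
    · exact h
  have h2 : 2 * q ^ q * q ≤ (q + 1) ^ q * q := by
    calc 2 * q ^ q * q = q ^ q * (q + q) := by ring
      _ ≤ _ := h
  exact Nat.le_of_mul_le_mul_right h2 hq

theorem cuts_bound {q j t A : ℕ} (hq : 0 < q) (hA : A < 2 ^ t) (h : (q + 1) ^ j ≤ q ^ j * A) :
    j < q * t := by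
  by_contra hneg
  push Not at hneg
  obtain ⟨r, rfl⟩ := Nat.exists_eq_add_of_le hneg
  have h1 : 2 ^ t * q ^ (q * t) ≤ (q + 1) ^ (q * t) := by
    rw [pow_mul, pow_mul, ← mul_pow]
    exact Nat.pow_le_pow_left (two_mul_pow_le hq) t
  have h2 : q ^ r ≤ (q + 1) ^ r := Nat.pow_le_pow_left (by omega) r
  have h3 : q ^ (q * t + r) * 2 ^ t ≤ (q + 1) ^ (q * t + r) := by
    rw [pow_add, pow_add]
    calc q ^ (q * t) * q ^ r * 2 ^ t = 2 ^ t * q ^ (q * t) * q ^ r := by ring
      _ ≤ _ := Nat.mul_le_mul h1 h2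
  have h4 : q ^ (q * t + r) * 2 ^ t ≤ q ^ (q * t + r) * A := h3.trans h
  have h5 := Nat.le_of_mul_le_mul_left h4 (pow_pos hq _)
  omega

theorem succ_pow_lt (N k : ℕ) : (N + 1) ^ k < 2 ^ (k * Nat.size N + 1) := by
  have h1 : N + 1 ≤ 2 ^ Nat.size N := Nat.lt_size_self N
  calc (N + 1) ^ k ≤ (2 ^ Nat.size N) ^ k := Nat.pow_le_pow_left h1 k
    _ = 2 ^ (k * Nat.size N) := by rw [← pow_mul, mul_comm]
    _ < 2 ^ (k * Nat.size N + 1) := Nat.pow_lt_pow_right (by norm_num) (by omega)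

/-- Bound for the number of cuts. -/
def jj (k N D : ℕ) : ℕ := qq D * (k * Nat.size N + 1) + 1

/-! ## The loop -/

section

variable {M k N a h d E : ℕ} {orc : List ℤ → Option (List ℤ)} {S : Set (List ℤ)} {T : Task}

/-- The hypotheses on `M`. -/
structure Big (M k N s d h E : ℕ) : Prop where
  m1 : (2 * k + jj k N (d + 1)) ^ (d + 1) ≤ M
  m2 : ((2 * k + jj k N (d + 1)) ^ (d + 1)) ^ (d + 1 + 1) ≤ M
  m3 : (d + 1 + 1) ^ (d + 1 + 1) ≤ M
  m4 : 2 ^ ((d + 1 + 2) ^ E) * (sB (d + 1) s + 2) ^ E ≤ M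
  m5 : 2 * width (d + 1) + 2 ≤ M
  m6 : szC (d + 1) s (2 * k + jj k N (d + 1)) +
    szL k d (sT E (d + 1) s h) (2 * width (d + 1) + 2) + 3 ≤ M
  m7 : jj k N (d + 1) < M

/-- The states of the loop. -/
def LoopInv (k N a h d E : ℕ) (S : Set (List ℤ)) (T : Task) (i : ℕ) (s : CutState) : Prop :=
  CInv k N (d + 1) (bt k N a h) T S s.1 ∧ s.1.length ≤ 2 * k + jj k N (d + 1) ∧
  ((s.2 = none ∧ s.1.length = 2 * k + i ∧
      qq (d + 1) ^ i * (pts (d + 1) s.1).ncard ≤ (qq (d + 1) - 1) ^ i * (N + 1) ^ k ∧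
      i ≤ jj k N (d + 1)) ∨
    ∃ r, s.2 = some r ∧ ResOk k d (sT E (d + 1) (bt k N a h) h) (2 * width (d + 1) + 2) S T r)

theorem length_boxCons (k N : ℕ) (T : Task) : (boxCons k N T).length = 2 * k := by
  simp [boxCons, mul_comm]

theorem loopInv_zero (ho : IsOracle k N a orc S) (hT : Good k (d + 1) T) (hh : Ht h T) :
    LoopInv k N a h d E S T 0 (boxCons k N T, none) := by
  refine ⟨cinv_box ho hT hh, by rw [length_boxCons]; omega,
    Or.inl ⟨rfl, length_boxCons _ _ _, ?_, by omega⟩⟩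
  simpa using (pts_finite_card hT (C := boxCons k N T) fun c hc => hc).2

theorem loopInv_succ (hE : LLLSpec E) (ho : IsOracle k N a orc S) (hT : Good k (d + 1) T)
    (hh : Ht h T) (hM : Big M k N (bt k N a h) d h E) {i : ℕ} {s : CutState}
    (hs : LoopInv k N a h d E S T i s) :
    LoopInv k N a h d E S T (i + 1) (cutStep M k orc T s) := by
  obtain ⟨C, o⟩ := s
  obtain ⟨hC, hlen, hrun | ⟨r, hr, hres⟩⟩ := hs
  · obtain ⟨ho', hl, hcard, hi⟩ := hrun
    simp only at ho' hC hlen hl hcard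
    subst ho'
    have hle : C.length ≤ 2 * k + jj k N (d + 1) := hlen
    rcases cut_cases hE ho hT hh hC
      ((Nat.pow_le_pow_left hle _).trans hM.m1)
      ((Nat.pow_le_pow_left (Nat.pow_le_pow_left hle _) _).trans hM.m2) hM.m3 hM.m4 hM.m5 with
      ⟨r, hr, hres⟩ | ⟨c, hc, hC', hcnt, hpos⟩
    · rw [hr]
      exact ⟨hC, hlen, Or.inr ⟨r, rfl, hres⟩⟩
    · rw [hc]
      have hq : 0 < qq (d + 1) - 1 := by
        unfold qq
        have : 1 ≤ (4 * (d + 1) + 5) ^ (d + 1 + 1) := Nat.one_le_pow _ _ (by omega)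
        omega
      obtain ⟨q, hqq⟩ : ∃ q, qq (d + 1) = q + 1 := ⟨qq (d + 1) - 1, by omega⟩
      rw [hqq, Nat.add_sub_cancel] at hcard hq
      rw [hqq] at hcnt
      -- `i` is small
      have hi' : i < q * (k * Nat.size N + 1) := by
        refine cuts_bound hq (succ_pow_lt N k) ?_
        refine le_trans ?_ hcard
        exact Nat.le_mul_of_pos_right _ hpos
      have hi2 : i + 1 ≤ jj k N (d + 1) := by
        unfold jj
        rw [hqq]
        nlinarith
      refine ⟨hC', ?_, Or.inl ⟨rfl, ?_, ?_, hi2⟩⟩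
      · simp only [List.length_cons]
        omega
      · simp only [List.length_cons]
        omega
      · simp only
        rw [hqq, Nat.add_sub_cancel]
        have h1 : (q + 1) * (pts (d + 1) (c :: C)).ncard ≤ q * (pts (d + 1) C).ncard := by
          nlinarith
        calc (q + 1) ^ (i + 1) * (pts (d + 1) (c :: C)).ncard
            = (q + 1) ^ i * ((q + 1) * (pts (d + 1) (c :: C)).ncard) := by ring
          _ ≤ (q + 1) ^ i * (q * (pts (d + 1) C).ncard) := Nat.mul_le_mul_left _ h1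
          _ = q * ((q + 1) ^ i * (pts (d + 1) C).ncard) := by ring
          _ ≤ q * (q ^ i * (N + 1) ^ k) := Nat.mul_le_mul_left _ hcard
          _ = q ^ (i + 1) * (N + 1) ^ k := by ring
  · simp only at hr
    subst hr
    exact ⟨hC, hlen, Or.inr ⟨r, rfl, hres⟩⟩

theorem loopInv_iterate (hE : LLLSpec E) (ho : IsOracle k N a orc S) (hT : Good k (d + 1) T)
    (hh : Ht h T) (hM : Big M k N (bt k N a h) d h E) (i : ℕ) :
    LoopInv k N a h d E S T i ((cutStep M k orc T)^[i] (boxCons k N T, none)) := by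
  induction i with
  | zero => exact loopInv_zero ho hT hh
  | succ i ih =>
    rw [Function.iterate_succ_apply']
    exact loopInv_succ hE ho hT hh hM ih

theorem sz_le_of_loopInv (hM : Big M k N (bt k N a h) d h E) {i : ℕ} {s : CutState}
    (hs : LoopInv k N a h d E S T i s) : sz s ≤ M := by
  obtain ⟨hC, hlen, hs⟩ := hs
  have h1 := sz_cons_le hC.len hC.ht hlen
  have h2 := hM.m6
  rw [sz_prod]
  rcases hs with ⟨h3, -, -, -⟩ | ⟨r, hr, hres⟩
  · rw [h3, sz_none]
    omega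
  · rw [hr, sz_some]
    cases r with
    | none =>
      rw [sz_none]
      omega
    | some L =>
      rw [sz_some]
      obtain ⟨h4, h5, -⟩ := hres.2 L rfl
      have h6 := sz_tasks_le h4 h5
      omega

theorem process_ok (hE : LLLSpec E) (ho : IsOracle k N a orc S) (hT : Good k (d + 1) T)
    (hh : Ht h T) (hM : Big M k N (bt k N a h) d h E) :
    ResOk k d (sT E (d + 1) (bt k N a h) h) (2 * width (d + 1) + 2) S T
      (process M k N orc T) := by
  have h1 := loopInv_iterate hE ho hT hh hM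
  have h2 : (cap M (cutStep M k orc T))^[M] (boxCons k N T, none) =
      (cutStep M k orc T)^[M] (boxCons k N T, none) :=
    cap_iterate_eq M fun i _ => sz_le_of_loopInv hM (h1 i)
  unfold process
  rw [h2]
  obtain ⟨-, -, ⟨-, -, -, hi⟩ | ⟨r, hr, hres⟩⟩ := h1 M
  · exact absurd hM.m7 (by omega)
  · rw [hr]
    exact hres

end

end Pool.Agent.Lib.UBox
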