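import Pool.Agent.Lib.UBox.Basic

/-!
# Deep points
-/

namespace Pool.Agent.Lib.UBox

open Pool.Agent.Lib.PolyTime

/-! ## Linear forms -/

theorem step_vec_cons {d : ℕ} (a : ℤ) (v : List ℤ) :
    vec (d + 1) (a :: v) = a • Fin.cons 1 0 + Fin.cons 0 (vec d v) := by
  funext i
  refine Fin.cases ?_ (fun j => ?_) i
  · simp [vec]
  · simp [vec]

/-- The linear form `lam`. -/
def stepL (d : ℕ) (H : List (List ℤ)) (i : Fin (d + 1)) : (Fin (d + 1) → ℤ) →ₗ[ℤ] ℤ where
  toFun v := (H.getD i []).headD 0 * ((toMat (d + 1) H).updateRow i v).det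
  map_add' u v := by rw [Matrix.det_updateRow_add]; ring
  map_smul' c v := by rw [Matrix.det_updateRow_smul]; simp; ring

theorem step_lam {d : ℕ} {H : List (List ℤ)} (hH : H.length = d + 1) (i : Fin (d + 1))
    (u : List ℤ) : lam d H i u = stepL d H i (vec (d + 1) u) := by
  unfold lam
  rw [toMat_set hH]
  rfl

/-- The linear form `lam (0 :: w)`. -/
def stepK (d : ℕ) (H : List (List ℤ)) (i : Fin (d + 1)) : (Fin d → ℤ) →ₗ[ℤ] ℤ where
  toFun v := stepL d H i (Fin.cons 0 v)
  map_add' u v := by
    rw [← map_add]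
    congr 1
    funext j
    refine Fin.cases ?_ (fun j => ?_) j <;> simp
  map_smul' c v := by
    rw [← map_smul]
    congr 1
    funext j
    refine Fin.cases ?_ (fun j => ?_) j <;> simp

theorem step_lam_cons {d : ℕ} {H : List (List ℤ)} (hH : H.length = d + 1) (i : Fin (d + 1))
    (a : ℤ) (u : List ℤ) :
    lam d H i (a :: u) = a * stepL d H i (Fin.cons 1 0) + stepK d H i (vec d u) := by
  rw [step_lam hH, step_vec_cons, map_add, map_smul]
  rfl

theorem step_cdet {M n : ℕ} (h : n ^ n ≤ M) (A : List (List ℤ)) :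
    cdet M n A = (toMat n A).det := by
  unfold cdet
  rw [if_pos h]

theorem step_lamOf {M d : ℕ} (hM : (d + 1) ^ (d + 1) ≤ M) (H : List (List ℤ)) (i : ℕ)
    (u : List ℤ) : lamOf M d H i u = lam d H i u := by
  unfold lamOf lam
  rw [step_cdet hM]

theorem step_pow_le {M d : ℕ} (hM : (d + 1) ^ (d + 1) ≤ M) : d ^ d ≤ M := by
  refine le_trans ?_ hM
  calc d ^ d ≤ (d + 1) ^ d := Nat.pow_le_pow_left (Nat.le_succ d) d
    _ ≤ (d + 1) ^ (d + 1) := Nat.pow_le_pow_right (Nat.succ_pos d) (Nat.le_succ d)

theorem rows_len {M d : ℕ} (H : List (List ℤ)) :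
    (rowsOf M d H).length = d + 1 ∧ ∀ r ∈ rowsOf M d H, r.length = d := by
  unfold rowsOf
  refine ⟨by simp, ?_⟩
  intro r hr
  simp only [List.mem_map, List.mem_range] at hr
  obtain ⟨i, _, rfl⟩ := hr
  simp

theorem step_dot_row {M d : ℕ} (hM : (d + 1) ^ (d + 1) ≤ M) {H : List (List ℤ)}
    (hH : H.length = d + 1) (i : Fin (d + 1)) {w : List ℤ} (hw : w.length = d) :
    dot ((List.range d).map fun j => lamOf M d H i (0 :: unitv d j)) w =
      stepK d H i (vec d w) := by
  rw [dot_eq (n := d) (by simp) hw, LinearMap.pi_apply_eq_sum_univ]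
  unfold dotProduct
  apply Finset.sum_congr rfl
  intro j _
  have h1 : vec d ((List.range d).map fun j => lamOf M d H i (0 :: unitv d j)) j =
      lamOf M d H i (0 :: unitv d j) := by
    unfold vec
    rw [List.getD_eq_getElem _ _ (by simp)]
    simp
  rw [h1, step_lamOf hM, step_lam_cons hH, vec_unitv, mul_comm, zero_mul, zero_add, smul_eq_mul]
  congr 2
  funext l
  simp [Pi.single_apply, eq_comm]

theorem step_bil {M d : ℕ} (hM : (d + 1) ^ (d + 1) ≤ M) {H : List (List ℤ)}
    (hH : H.length = d + 1) {w : List ℤ} (hw : w.length = d) :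
    bil (rowsOf M d H) w w = ∑ i : Fin (d + 1), stepK d H i (vec d w) ^ 2 := by
  unfold bil rowsOf
  rw [List.map_map, ← Fin.sum_univ_getElem]
  have h : ∀ (n : ℕ) (hn : n = d + 1) (f : Fin n → ℤ), ∑ i : Fin n, f i =
      ∑ i : Fin (d + 1), f (Fin.cast hn.symm i) := by
    intro n hn f
    subst hn
    rfl
  rw [h _ (by simp)]
  apply Finset.sum_congr rfl
  intro i _
  simp only [List.getElem_map, Fin.val_cast, List.getElem_range, Function.comp]
  rw [step_dot_row hM hH i hw]
  ring

theorem step_row_mem {M d : ℕ} (H : List (List ℤ)) (i : Fin (d + 1)) :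
    ((List.range d).map fun j => lamOf M d H i (0 :: unitv d j)) ∈ rowsOf M d H := by
  unfold rowsOf
  rw [List.mem_map]
  exact ⟨i, List.mem_range.2 i.2, rfl⟩

theorem step_head_abs {s : ℕ} {H : List (List ℤ)} (h : ∀ h ∈ H, ∀ a ∈ h, |a| ≤ 2 ^ s) (i : ℕ) :
    |(H.getD i []).headD 0| ≤ 2 ^ s := by
  by_cases hi : i < H.length
  · rw [List.getD_eq_getElem _ _ hi]
    rcases he : H[i] with _ | ⟨a, v⟩
    · simp
    · simp only [List.headD_cons]
      exact h _ (List.getElem_mem hi) a (by rw [he]; simp)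
  · rw [List.getD_eq_default _ _ (by omega)]
    simp

theorem rows_ht {M d s : ℕ} {H : List (List ℤ)} (h : ∀ h ∈ H, ∀ a ∈ h, |a| ≤ 2 ^ s) :
    ∀ r ∈ rowsOf M d H, ∀ a ∈ r, |a| ≤ 2 ^ ((d + 2) * (d + 1 + s)) := by
  intro r hr a ha
  unfold rowsOf at hr
  simp only [List.mem_map, List.mem_range] at hr
  obtain ⟨i, _, rfl⟩ := hr
  simp only [List.mem_map, List.mem_range] at ha
  obtain ⟨j, _, rfl⟩ := ha
  unfold lamOf
  rw [abs_mul]
  have h1 := step_head_abs h i
  have h2 : |cdet M (d + 1) (H.set i (0 :: unitv d j))| ≤ 2 ^ ((d + 1) * (d + 1 + s)) := by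
    apply abs_cdet_le
    intro v hv a ha
    rcases List.mem_or_eq_of_mem_set hv with hv | rfl
    · exact h v hv a ha
    · have hone : (1 : ℤ) ≤ 2 ^ s := one_le_pow₀ (by norm_num)
      rw [List.mem_cons] at ha
      rcases ha with rfl | ha
      · simp
      · unfold unitv at ha
        simp only [List.mem_map, List.mem_range] at ha
        obtain ⟨l, _, rfl⟩ := ha
        split_ifs
        · simpa using hone
        · simp
  calc |(H.getD i []).headD 0| * |cdet M (d + 1) (H.set i (0 :: unitv d j))|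
      ≤ 2 ^ s * 2 ^ ((d + 1) * (d + 1 + s)) :=
        mul_le_mul h1 h2 (abs_nonneg _) (by positivity)
    _ = 2 ^ (s + (d + 1) * (d + 1 + s)) := by rw [pow_add]
    _ ≤ 2 ^ ((d + 2) * (d + 1 + s)) := by
        apply pow_le_pow_right₀ (by norm_num)
        nlinarith

/-- Cramer's rule for rows. -/
theorem step_cramer {n : ℕ} (A : Matrix (Fin n) (Fin n) ℤ) (v : Fin n → ℤ) :
    A.det • v = ∑ i : Fin n, (A.updateRow i v).det • A i := by
  have h := Matrix.mulVec_cramer A.transpose v
  rw [Matrix.det_transpose] at h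
  rw [← h]
  funext l
  simp only [Matrix.mulVec, dotProduct, Matrix.transpose_apply, Matrix.cramer_transpose_apply,
    Finset.sum_apply, Pi.smul_apply, smul_eq_mul]
  apply Finset.sum_congr rfl
  intro i _
  ring

theorem rows_inj {M d : ℕ} {C : List Con} {H : List (List ℤ)} (hM : (d + 1) ^ (d + 1) ≤ M)
    (hH : IsSimplex d C H) (w : List ℤ) (hw : w.length = d)
    (h : ∀ r ∈ rowsOf M d H, dot r w = 0) : ∀ a ∈ w, a = 0 := by
  have h1 : ∀ i : Fin (d + 1), stepK d H i (vec d w) = 0 := by
    intro i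
    rw [← step_dot_row hM hH.len i hw]
    exact h _ (step_row_mem H i)
  have h2 : ∀ i : Fin (d + 1), ((toMat (d + 1) H).updateRow i (Fin.cons 0 (vec d w))).det = 0 := by
    intro i
    have h3 : (H.getD i []).headD 0 *
      ((toMat (d + 1) H).updateRow i (Fin.cons 0 (vec d w))).det = 0 := h1 i
    have hi : (i : ℕ) < H.length := by rw [hH.len]; exact i.2
    have hp := hH.pos (H.getD i []) (by
      rw [List.getD_eq_getElem _ _ hi]
      exact List.getElem_mem hi)
    rcases mul_eq_zero.1 h3 with h4 | h4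
    · omega
    · exact h4
  have h3 := step_cramer (toMat (d + 1) H) (Fin.cons 0 (vec d w))
  simp only [h2, zero_smul, Finset.sum_const_zero] at h3
  have h4 : (Fin.cons 0 (vec d w) : Fin (d + 1) → ℤ) = 0 := by
    rcases smul_eq_zero.1 h3 with h5 | h5
    · exact absurd h5 hH.det_ne
    · exact h5
  intro a ha
  obtain ⟨l, hl, rfl⟩ := List.mem_iff_getElem.1 ha
  have h5 := congrFun h4 (Fin.succ ⟨l, by omega⟩)
  simp only [Fin.cons_succ, Pi.zero_apply, vec] at h5
  rwa [List.getD_eq_getElem _ _ hl] at h5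

theorem step_rnd {a b : ℤ} (hb : 0 < b) : |2 * (rnd a b * b - a)| ≤ b := by
  unfold rnd
  have h1 := Int.ediv_mul_le (2 * a + b) (b := 2 * b) (by omega)
  have h2 := Int.lt_ediv_add_one_mul_self (2 * a + b) (b := 2 * b) (by omega)
  rw [abs_le]
  constructor <;> nlinarith

theorem step_short {M d : ℕ} (hM : (d + 1) ^ (d + 1) ≤ M) {H b : List (List ℤ)}
    (hH : H.length = d + 1) (hb : IsBas d b)
    (hs : allShort d (rowsOf M d H) b (cdet M (d + 1) H) = true) (i : Fin (d + 1)) (j : Fin d) :
    |stepK d H i (vec d (b.getD j []))| * (d * (d + 1)) ≤ |(toMat (d + 1) H).det| := by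
  have hj : (j : ℕ) < b.length := by rw [hb.len]; exact j.2
  have hmem : b.getD j [] ∈ b := by
    rw [List.getD_eq_getElem _ _ hj]
    exact List.getElem_mem hj
  unfold allShort at hs
  rw [List.all_eq_true] at hs
  have h1 := of_decide_eq_true (hs _ hmem)
  rw [step_bil hM hH (hb.lens _ hmem), step_cdet hM] at h1
  have h2 : stepK d H i (vec d (b.getD j [])) ^ 2 ≤
      ∑ i : Fin (d + 1), stepK d H i (vec d (b.getD j [])) ^ 2 :=
    Finset.single_le_sum (f := fun i => stepK d H i (vec d (b.getD j [])) ^ 2)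
      (fun i _ => sq_nonneg _) (Finset.mem_univ i)
  have h3 : (stepK d H i (vec d (b.getD j [])) * ((d : ℤ) * (d + 1))) ^ 2 ≤
      (toMat (d + 1) H).det ^ 2 := by
    rw [mul_pow]
    exact (mul_le_mul_of_nonneg_right h2 (sq_nonneg _)).trans h1
  have h4 := sq_le_sq.1 h3
  rw [abs_mul, abs_of_nonneg (by positivity : (0 : ℤ) ≤ (d : ℤ) * (d + 1))] at h4
  exact h4

theorem step_P_pos {d : ℕ} {C : List Con} {H : List (List ℤ)} (hH : IsSimplex d C H) :
    0 < (H.map fun h => h.headD 0).prod := by
  apply List.prod_pos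
  intro a ha
  rw [List.mem_map] at ha
  obtain ⟨h, hh, rfl⟩ := ha
  exact hH.pos h hh

theorem step_headD_eq (v : List ℤ) : v.headD 0 = v.getD 0 0 := by
  cases v <;> rfl

theorem step_sum_fin {n : ℕ} {H : List (List ℤ)} (hH : H.length = n) (f : List ℤ → ℤ) :
    (H.map f).sum = ∑ i : Fin n, f (H.getD i []) := by
  subst hH
  rw [← Fin.sum_univ_getElem]
  have h : ∀ (n m : ℕ) (hn : n = m) (f : Fin n → ℤ), ∑ i : Fin n, f i =
      ∑ i : Fin m, f (Fin.cast hn.symm i) := by
    intro n m hn f
    subst hn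
    rfl
  rw [h _ H.length (by simp)]
  apply Finset.sum_congr rfl
  intro i _
  simp

theorem step_centroid_vec {d : ℕ} {C : List Con} {H : List (List ℤ)} (hH : IsSimplex d C H) :
    vec (d + 1) (centroid d H) = ∑ i : Fin (d + 1),
      ((H.map fun h => h.headD 0).prod / (H.getD i []).headD 0) • toMat (d + 1) H i := by
  funext l
  unfold vec centroid
  rw [List.getD_eq_getElem _ _ (by simp; omega)]
  simp only [List.getElem_map, List.getElem_range, Finset.sum_apply, Pi.smul_apply, smul_eq_mul]
  rw [step_sum_fin hH.len]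
  apply Finset.sum_congr rfl
  intro i _
  rfl

theorem step_lam_row {d : ℕ} (H : List (List ℤ)) (i j : Fin (d + 1)) :
    stepL d H i (toMat (d + 1) H j) =
      if j = i then (H.getD i []).headD 0 * (toMat (d + 1) H).det else 0 := by
  show (H.getD i []).headD 0 * ((toMat (d + 1) H).updateRow i (toMat (d + 1) H j)).det = _
  split_ifs with h
  · rw [h, Matrix.updateRow_eq_self]
  · rw [Matrix.det_updateRow_eq_zero h, mul_zero]

theorem step_dvd {H : List (List ℤ)} {h : List ℤ} (hh : h ∈ H) :
    h.headD 0 ∣ (H.map fun h => h.headD 0).prod :=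
  List.dvd_prod (List.mem_map.2 ⟨h, hh, rfl⟩)

theorem step_lam_centroid {d : ℕ} {C : List Con} {H : List (List ℤ)} (hH : IsSimplex d C H)
    (i : Fin (d + 1)) : stepL d H i (vec (d + 1) (centroid d H)) =
      (H.map fun h => h.headD 0).prod * (toMat (d + 1) H).det := by
  rw [step_centroid_vec hH, map_sum]
  simp only [map_smul, step_lam_row, smul_eq_mul, mul_ite, mul_zero]
  rw [Finset.sum_ite_eq' Finset.univ i, if_pos (Finset.mem_univ i)]
  have hi : (i : ℕ) < H.length := by rw [hH.len]; exact i.2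
  have hmem : H.getD i [] ∈ H := by
    rw [List.getD_eq_getElem _ _ hi]
    exact List.getElem_mem hi
  rw [← mul_assoc, Int.ediv_mul_cancel (step_dvd hmem)]

theorem step_centroid_head {d : ℕ} {C : List Con} {H : List (List ℤ)} (hH : IsSimplex d C H) :
    (centroid d H).headD 0 = ((d : ℤ) + 1) * (H.map fun h => h.headD 0).prod := by
  have h0 : (centroid d H).headD 0 = vec (d + 1) (centroid d H) 0 := by
    rw [step_headD_eq]
    rfl
  rw [h0, step_centroid_vec hH]
  simp only [Finset.sum_apply, Pi.smul_apply, smul_eq_mul]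
  have h1 : ∀ i : Fin (d + 1), (H.map fun h => h.headD 0).prod / (H.getD i []).headD 0 *
      toMat (d + 1) H i 0 = (H.map fun h => h.headD 0).prod := by
    intro i
    have hi : (i : ℕ) < H.length := by rw [hH.len]; exact i.2
    have hmem : H.getD i [] ∈ H := by
      rw [List.getD_eq_getElem _ _ hi]
      exact List.getElem_mem hi
    have h2 : toMat (d + 1) H i 0 = (H.getD i []).headD 0 := by
      rw [step_headD_eq]
      rfl
    rw [h2, Int.ediv_mul_cancel (step_dvd hmem)]
  simp only [h1, Finset.sum_const, Finset.card_univ, Fintype.card_fin, nsmul_eq_mul]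
  push_cast
  ring

theorem step_centroid_cons {d : ℕ} (H : List (List ℤ)) :
    centroid d H = (centroid d H).headD 0 :: (centroid d H).tail := by
  have h : (centroid d H).length = d + 1 := by simp [centroid]
  rcases hc : centroid d H with _ | ⟨a, v⟩
  · rw [hc] at h
    simp at h
  · simp

theorem step_bas_cramer {d : ℕ} {b : List (List ℤ)} (hb : IsBas d b) (v : List ℤ) :
    vec d v = ∑ j : Fin d, ((toMat d (b.set j v)).det * (toMat d b).det) • toMat d b j := by
  have h := step_cramer (toMat d b) (vec d v)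
  have h2 := congrArg (fun u => (toMat d b).det • u) h
  simp only [smul_smul, ← sq, hb.det, one_smul, Finset.smul_sum] at h2
  rw [h2]
  apply Finset.sum_congr rfl
  intro j _
  rw [toMat_set hb.len, mul_comm]

theorem deep {M d : ℕ} {C : List Con} {H b : List (List ℤ)} (hd : 1 ≤ d)
    (hM : (d + 1) ^ (d + 1) ≤ M) (hH : IsSimplex d C H) (hb : IsBas d b)
    (hs : allShort d (rowsOf M d H) b (cdet M (d + 1) H) = true) :
    (zof M d H b).length = d ∧ ∀ i < d + 1, (toMat (d + 1) H).det ^ 2 ≤
      2 * ((d : ℤ) + 1) * (lam d H i (1 :: zof M d H b) * (toMat (d + 1) H).det) := by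
  refine ⟨by simp [zof], ?_⟩
  intro i hi
  have hP := step_P_pos hH
  set P := (H.map fun h => h.headD 0).prod with hPdef
  set D := (toMat (d + 1) H).det with hDdef
  have hS0 := step_centroid_head hH
  rw [← hPdef] at hS0
  have hS0pos : 0 < (centroid d H).headD 0 := by
    rw [hS0]
    positivity
  -- the coordinates
  have hz : vec d (zof M d H b) = ∑ j : Fin d,
      rnd ((toMat d (b.set j (centroid d H).tail)).det * (toMat d b).det)
        ((centroid d H).headD 0) • toMat d b j := by
    unfold zof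
    rw [vec_comb (n := d) (by simp) hb.len]
    apply Finset.sum_congr rfl
    intro j _
    rw [List.getD_eq_getElem _ _ (by simp), toMat_row]
    simp only [List.getElem_map, List.getElem_range]
    rw [step_cdet (step_pow_le hM), step_cdet (step_pow_le hM)]
  have ht := step_bas_cramer hb (centroid d H).tail
  -- the value of the form
  have h1 := step_lam_cons hH.len ⟨i, hi⟩ 1 (zof M d H b)
  have h2 := step_lam_centroid hH ⟨i, hi⟩
  rw [step_centroid_cons, step_vec_cons, map_add, map_smul] at h2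
  change _ • stepL d H ⟨i, hi⟩ (Fin.cons 1 0) + stepK d H ⟨i, hi⟩ (vec d (centroid d H).tail) = _
    at h2
  rw [ht, map_sum] at h2
  rw [hz, map_sum] at h1
  simp only [map_smul, smul_eq_mul, one_mul] at h1 h2
  have h3 : (centroid d H).headD 0 * lam d H i (1 :: zof M d H b) = P * D +
      ∑ j : Fin d, (rnd ((toMat d (b.set j (centroid d H).tail)).det * (toMat d b).det)
        ((centroid d H).headD 0) * (centroid d H).headD 0 -
        (toMat d (b.set j (centroid d H).tail)).det * (toMat d b).det) *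
        stepK d H ⟨i, hi⟩ (toMat d b j) := by
    simp only [sub_mul, Finset.sum_sub_distrib]
    have h4 : ∑ j : Fin d, rnd ((toMat d (b.set j (centroid d H).tail)).det * (toMat d b).det)
        ((centroid d H).headD 0) * (centroid d H).headD 0 *
        stepK d H ⟨i, hi⟩ (toMat d b j) = (centroid d H).headD 0 * ∑ j : Fin d,
        rnd ((toMat d (b.set j (centroid d H).tail)).det * (toMat d b).det)
        ((centroid d H).headD 0) * stepK d H ⟨i, hi⟩ (toMat d b j) := by
      rw [Finset.mul_sum]
      apply Finset.sum_congr rfl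
      intro j _
      ring
    rw [h4, ← h2]
    rw [h1]
    ring
  -- the error
  have h5 : |∑ j : Fin d, (rnd ((toMat d (b.set j (centroid d H).tail)).det * (toMat d b).det)
        ((centroid d H).headD 0) * (centroid d H).headD 0 -
        (toMat d (b.set j (centroid d H).tail)).det * (toMat d b).det) *
        stepK d H ⟨i, hi⟩ (toMat d b j)| * (2 * ((d : ℤ) * (d + 1))) ≤
        d * ((centroid d H).headD 0 * |D|) := by
    refine (mul_le_mul_of_nonneg_right (Finset.abs_sum_le_sum_abs _ _) (by positivity)).trans ?_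
    rw [Finset.sum_mul]
    have h6 : ∀ j ∈ (Finset.univ : Finset (Fin d)),
        |(rnd ((toMat d (b.set j (centroid d H).tail)).det * (toMat d b).det)
        ((centroid d H).headD 0) * (centroid d H).headD 0 -
        (toMat d (b.set j (centroid d H).tail)).det * (toMat d b).det) *
        stepK d H ⟨i, hi⟩ (toMat d b j)| * (2 * ((d : ℤ) * (d + 1))) ≤
        (centroid d H).headD 0 * |D| := by
      intro j _
      have h7 := step_rnd (a := (toMat d (b.set j (centroid d H).tail)).det * (toMat d b).det)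
        hS0pos
      have h8 := step_short hM hH.len hb hs ⟨i, hi⟩ j
      rw [← toMat_row] at h8
      rw [abs_mul] at h7 ⊢
      rw [abs_of_pos (by norm_num : (0 : ℤ) < 2)] at h7
      calc _ = 2 * |rnd ((toMat d (b.set j (centroid d H).tail)).det * (toMat d b).det)
            ((centroid d H).headD 0) * (centroid d H).headD 0 -
            (toMat d (b.set j (centroid d H).tail)).det * (toMat d b).det| *
            (|stepK d H ⟨i, hi⟩ (toMat d b j)| * ((d : ℤ) * (d + 1))) := by ring
        _ ≤ _ := mul_le_mul h7 h8 (by positivity) hS0pos.le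
    refine (Finset.sum_le_sum h6).trans ?_
    simp
  set E := ∑ j : Fin d, (rnd ((toMat d (b.set j (centroid d H).tail)).det * (toMat d b).det)
        ((centroid d H).headD 0) * (centroid d H).headD 0 -
        (toMat d (b.set j (centroid d H).tail)).det * (toMat d b).det) *
        stepK d H ⟨i, hi⟩ (toMat d b j) with hE
  rw [hS0] at h3 h5
  have hdpos : (0 : ℤ) < d := by exact_mod_cast hd
  have h9 : 2 * |E| ≤ P * |D| := by
    have h10 : (d * ((d : ℤ) + 1)) * (2 * |E|) ≤ (d * ((d : ℤ) + 1)) * (P * |D|) := by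
      calc _ = |E| * (2 * ((d : ℤ) * (d + 1))) := by ring
        _ ≤ _ := h5
        _ = _ := by ring
    exact le_of_mul_le_mul_left h10 (by positivity)
  have h11 : -(P * D ^ 2) ≤ 2 * (E * D) := by
    have h12 : |2 * (E * D)| ≤ P * D ^ 2 := by
      rw [abs_mul, abs_mul, abs_of_pos (by norm_num : (0 : ℤ) < 2)]
      calc 2 * (|E| * |D|) = (2 * |E|) * |D| := by ring
        _ ≤ (P * |D|) * |D| := mul_le_mul_of_nonneg_right h9 (abs_nonneg _)
        _ = P * |D| ^ 2 := by ring
        _ = P * D ^ 2 := by rw [sq_abs]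
    exact (abs_le.1 h12).1
  have h13 : P * D ^ 2 ≤ P * (2 * ((d : ℤ) + 1) * (lam d H i (1 :: zof M d H b) * D)) := by
    have h14 : P * (2 * ((d : ℤ) + 1) * (lam d H i (1 :: zof M d H b) * D)) =
        2 * D * (((d : ℤ) + 1) * P * lam d H i (1 :: zof M d H b)) := by ring
    rw [h14, h3]
    nlinarith
  exact le_of_mul_le_mul_left h13 hP

end Pool.Agent.Lib.UBox
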