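import Pool.Agent.Lib.UBox.Basic

/-!
# Thin directions
-/

namespace Pool.Agent.Lib.UBox

open Pool.Agent.Lib.PolyTime

/-- The linear form `v ↦ det (A with row i replaced by v)`. -/
private def window_lin {n : ℕ} (A : Matrix (Fin n) (Fin n) ℤ) (i : Fin n) :
    (Fin n → ℤ) →ₗ[ℤ] ℤ :=
  (Matrix.detRowAlternating (R := ℤ) (n := Fin n)).toMultilinearMap.toLinearMap A i

private theorem window_lin_apply {n : ℕ} (A : Matrix (Fin n) (Fin n) ℤ) (i : Fin n)
    (v : Fin n → ℤ) : window_lin A i v = (A.updateRow i v).det := rfl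

private theorem window_vec_cons (n : ℕ) (a : ℤ) (v : List ℤ) :
    vec (n + 1) (a :: v) = Fin.cons a (vec n v) := by
  funext i
  refine Fin.cases ?_ (fun j => ?_) i
  · simp [vec]
  · simp [vec]

private theorem window_cdet {M n : ℕ} {A : List (List ℤ)} (h : n ^ n ≤ M) :
    cdet M n A = (toMat n A).det := if_pos h

private theorem window_lam {d : ℕ} {H : List (List ℤ)} (hH : H.length = d + 1) (i : Fin (d + 1))
    (u : List ℤ) :
    lam d H i u = (H.getD i []).headD 0 * window_lin (toMat (d + 1) H) i (vec (d + 1) u) := by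
  rw [window_lin_apply, ← toMat_set hH]
  rfl

private theorem window_dot {M d : ℕ} {H : List (List ℤ)} (hM : (d + 1) ^ (d + 1) ≤ M)
    (hH : H.length = d + 1) (i : Fin (d + 1)) (w : List ℤ) (hw : w.length = d) :
    dot ((List.range d).map fun j => lamOf M d H i (0 :: unitv d j)) w = lam d H i (0 :: w) := by
  rw [dot_eq (n := d) (by simp) hw]
  have h1 : vec (d + 1) (0 :: w) = ∑ j : Fin d, vec d w j • vec (d + 1) (0 :: unitv d j) := by
    funext l
    rw [Finset.sum_apply]
    simp only [window_vec_cons, Pi.smul_apply, vec_unitv, smul_eq_mul]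
    refine Fin.cases ?_ (fun k => ?_) l
    · simp
    · simp only [Fin.cons_succ]
      rw [Finset.sum_eq_single k]
      · simp
      · intro b _ hb
        rw [Pi.single_apply, if_neg (Ne.symm hb), mul_zero]
      · intro h
        exact absurd (Finset.mem_univ k) h
  rw [window_lam hH, h1, map_sum, Finset.mul_sum]
  unfold dotProduct
  refine Finset.sum_congr rfl fun j _ => ?_
  have h2 : vec d ((List.range d).map fun j => lamOf M d H i (0 :: unitv d j)) j =
      lam d H i (0 :: unitv d j) := by
    simp only [vec]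
    rw [List.getD_eq_getElem _ _ (by simp)]
    simp only [List.getElem_map, List.getElem_range]
    unfold lamOf lam
    rw [window_cdet hM]
  rw [h2, window_lam hH, map_smul, smul_eq_mul]
  ring

private theorem window_bil {M d : ℕ} {H : List (List ℤ)} (hM : (d + 1) ^ (d + 1) ≤ M)
    (hH : H.length = d + 1) (w : List ℤ) (hw : w.length = d) :
    bil (rowsOf M d H) w w = ∑ i : Fin (d + 1), (lam d H i (0 :: w)) ^ 2 := by
  have h1 : bil (rowsOf M d H) w w = ((List.range (d + 1)).map fun i =>
      dot ((List.range d).map fun j => lamOf M d H i (0 :: unitv d j)) w *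
      dot ((List.range d).map fun j => lamOf M d H i (0 :: unitv d j)) w).sum := by
    unfold bil rowsOf
    rw [List.map_map]
    rfl
  rw [h1, ← List.sum_ofFn, List.ofFn_eq_map, ← List.map_coe_finRange_eq_range (n := d + 1),
    List.map_map]
  congr 1
  refine List.map_congr_left fun i _ => ?_
  simp only [Function.comp]
  rw [window_dot hM hH i w hw]
  ring

theorem window {M d : ℕ} {C : List Con} {H b : List (List ℤ)} (hd : 1 ≤ d)
    (hM : (d + 1) ^ (d + 1) ≤ M) (hH : IsSimplex d C H) (hb : IsBas d b)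
    (hr : ∀ y : List ℤ, y.length = d → ∀ u ∈ b, ((toMat d (b.set (d - 1) y)).det) ^ 2 *
      bil (rowsOf M d H) u u ≤ 5 ^ d * bil (rowsOf M d H) y y)
    (hs : allShort d (rowsOf M d H) b (cdet M (d + 1) H) = false)
    (y : List ℤ) (hy : y.length = d) (hC : sat C y) :
    psi M d b (H.headD []).tail / (H.headD []).headD 0 - width d ≤ psi M d b y ∧
    psi M d b y ≤ psi M d b (H.headD []).tail / (H.headD []).headD 0 + width d + 1 := by
  obtain ⟨h0, Hr, rfl⟩ : ∃ h0 Hr, H = h0 :: Hr := by
    cases H with
    | nil => exact absurd hH.len (by simp)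
    | cons a l => exact ⟨a, l, rfl⟩
  have hh0 : h0 ∈ h0 :: Hr := List.mem_cons_self
  have hl0 := hH.lens h0 hh0
  have hp0 := hH.pos h0 hh0
  obtain ⟨D, N, rfl⟩ : ∃ D N, h0 = D :: N := by
    cases h0 with
    | nil => exact absurd hl0 (by simp)
    | cons a l => exact ⟨a, l, rfl⟩
  set H : List (List ℤ) := (D :: N) :: Hr with hHdef
  have hN : N.length = d := by simpa using hl0
  have hD : 0 < D := hp0
  show psi M d b N / D - width d ≤ psi M d b y ∧ psi M d b y ≤ psi M d b N / D + width d + 1
  set Δ : ℤ := (toMat (d + 1) H).det with hΔ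
  have hΔ0 : Δ ≠ 0 := hH.det_ne
  -- the vector `w`
  let w : List ℤ := vsub (smul D y) N
  have hw : w.length = d := length_vsub (by simpa using hy) hN
  have hvw : vec d w = D • vec d y - vec d N := by
    rw [vec_vsub (by simpa using hy) hN, vec_smul]
  have hvw1 : vec (d + 1) (0 :: w) = D • vec (d + 1) (1 :: y) - vec (d + 1) (D :: N) := by
    rw [window_vec_cons, window_vec_cons, window_vec_cons, hvw]
    funext l
    refine Fin.cases ?_ (fun k => ?_) l
    · simp
    · simp
  have hlamH : ∀ i : Fin (d + 1), |lam d H i (D :: N)| ≤ D * |Δ| := by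
    intro i
    rw [window_lam hH.len, window_lin_apply]
    have hrow : vec (d + 1) (D :: N) = toMat (d + 1) H 0 := by
      rw [toMat_row]
      rfl
    by_cases hi : i = 0
    · subst hi
      rw [hrow, Matrix.updateRow_eq_self, abs_mul]
      have : ((H.getD ((0 : Fin (d + 1)) : ℕ) []).headD 0) = D := rfl
      rw [this, abs_of_pos hD]
    · have hz : ((toMat (d + 1) H).updateRow i (vec (d + 1) (D :: N))).det = 0 := by
        refine Matrix.det_zero_of_row_eq (i := i) (j := 0) hi ?_
        rw [Matrix.updateRow_self, Matrix.updateRow_ne (Ne.symm hi), hrow]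
      rw [hz, mul_zero, abs_zero]
      positivity
  have hlamw : ∀ i : Fin (d + 1), |lam d H i (0 :: w)| ≤ 2 * (D * |Δ|) := by
    intro i
    have h1 : lam d H i (0 :: w) = D * lam d H i (1 :: y) - lam d H i (D :: N) := by
      rw [window_lam hH.len, window_lam hH.len, window_lam hH.len, hvw1, map_sub, map_smul,
        smul_eq_mul]
      ring
    have h2 := hH.bary y hy hC i i.2
    have h3 := hlamH i
    rw [h1]
    calc |D * lam d H i (1 :: y) - lam d H i (D :: N)|
        ≤ |D * lam d H i (1 :: y)| + |lam d H i (D :: N)| := abs_sub _ _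
      _ ≤ D * |Δ| + D * |Δ| := by
          refine add_le_add ?_ h3
          rw [abs_mul, abs_of_pos hD]
          exact mul_le_mul_of_nonneg_left h2 hD.le
      _ = 2 * (D * |Δ|) := by ring
  have hbil : bil (rowsOf M d H) w w ≤ 4 * (d + 1) * D ^ 2 * Δ ^ 2 := by
    rw [window_bil hM hH.len w hw]
    calc ∑ i : Fin (d + 1), (lam d H i (0 :: w)) ^ 2
        ≤ ∑ _i : Fin (d + 1), (2 * (D * |Δ|)) ^ 2 := by
          refine Finset.sum_le_sum fun i _ => ?_
          rw [← sq_abs (lam d H i (0 :: w))]
          exact pow_le_pow_left₀ (abs_nonneg _) (hlamw i) 2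
      _ = 4 * (d + 1) * D ^ 2 * Δ ^ 2 := by
          rw [Finset.sum_const, Finset.card_univ, Fintype.card_fin, nsmul_eq_mul, mul_pow, mul_pow,
            sq_abs]
          push_cast
          ring
  -- the long vector
  obtain ⟨u, hu, hu2⟩ : ∃ u ∈ b, Δ ^ 2 < bil (rowsOf M d H) u u * ((d : ℤ) * (d + 1)) ^ 2 := by
    unfold allShort at hs
    rw [List.all_eq_false] at hs
    obtain ⟨u, hu, hu2⟩ := hs
    refine ⟨u, hu, ?_⟩
    rw [window_cdet hM] at hu2
    simpa using hu2
  set E : ℤ := (toMat d (b.set (d - 1) w)).det with hE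
  have h1 := hr w hw u hu
  have hE2 : E ^ 2 ≤ width d * D ^ 2 := by
    have hΔ2 : 0 < Δ ^ 2 := by positivity
    have h2 : E ^ 2 * Δ ^ 2 ≤ (width d * D ^ 2) * Δ ^ 2 := by
      calc E ^ 2 * Δ ^ 2 ≤ E ^ 2 * (bil (rowsOf M d H) u u * ((d : ℤ) * (d + 1)) ^ 2) :=
            mul_le_mul_of_nonneg_left hu2.le (sq_nonneg _)
        _ = (E ^ 2 * bil (rowsOf M d H) u u) * ((d : ℤ) * (d + 1)) ^ 2 := by ring
        _ ≤ (5 ^ d * bil (rowsOf M d H) w w) * ((d : ℤ) * (d + 1)) ^ 2 :=
            mul_le_mul_of_nonneg_right h1 (sq_nonneg _)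
        _ ≤ (5 ^ d * (4 * (d + 1) * D ^ 2 * Δ ^ 2)) * ((d : ℤ) * (d + 1)) ^ 2 := by
            refine mul_le_mul_of_nonneg_right ?_ (sq_nonneg _)
            exact mul_le_mul_of_nonneg_left hbil (by positivity)
        _ = (width d * D ^ 2) * Δ ^ 2 := by
            unfold width
            push_cast
            ring
    exact le_of_mul_le_mul_right h2 hΔ2
  have hwid : (1 : ℤ) ≤ width d := by
    have : 0 < width d := by
      unfold width
      positivity
    exact_mod_cast this
  have hEabs : |E| ≤ width d * D := by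
    refine abs_le_of_sq_le_sq ?_ (by positivity)
    calc E ^ 2 ≤ width d * D ^ 2 := hE2
      _ ≤ (width d * width d) * D ^ 2 := by
          refine mul_le_mul_of_nonneg_right ?_ (sq_nonneg _)
          nlinarith
      _ = (width d * D) ^ 2 := by ring
  -- the linear form psi
  have hMd : d ^ d ≤ M := by
    refine le_trans ?_ hM
    calc d ^ d ≤ (d + 1) ^ d := Nat.pow_le_pow_left (by omega) _
      _ ≤ (d + 1) ^ (d + 1) := Nat.pow_le_pow_right (by omega) (by omega)
  have hlast : d - 1 < d := by omega
  have hpsi : ∀ v : List ℤ, psi M d b v =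
      window_lin (toMat d b) ⟨d - 1, hlast⟩ (vec d v) * (toMat d b).det := by
    intro v
    unfold psi
    rw [window_cdet hMd, window_cdet hMd, window_lin_apply, ← toMat_set hb.len]
  have hpw : psi M d b w = D * psi M d b y - psi M d b N := by
    rw [hpsi, hpsi, hpsi, hvw, map_sub, map_smul, smul_eq_mul]
    ring
  have hpE : |psi M d b w| = |E| := by
    have h2 : psi M d b w = E * (toMat d b).det := by
      unfold psi
      rw [window_cdet hMd, window_cdet hMd]
    rw [h2, abs_mul]
    have h3 : |(toMat d b).det| = 1 := by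
      have := hb.det
      rcases (by simpa using this : (toMat d b).det = 1 ∨ (toMat d b).det = -1) with h | h <;> rw [h] <;> rfl
    rw [h3, mul_one]
  rw [← hpE, hpw, abs_le] at hEabs
  obtain ⟨h5, h6⟩ := hEabs
  have h7 := Int.emod_add_mul_ediv (psi M d b N) D
  have h8 := Int.emod_nonneg (psi M d b N) hD.ne'
  have h9 := Int.emod_lt_of_pos (psi M d b N) hD
  set P := psi M d b y
  set Q := psi M d b N
  constructor
  · have : D * (Q / D - width d) ≤ D * P := by nlinarith
    exact le_of_mul_le_mul_left this hD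
  · have : D * P < D * (Q / D + width d + 1) := by nlinarith
    exact (lt_of_mul_lt_mul_left this hD.le).le

end Pool.Agent.Lib.UBox
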