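import Pool.Agent.Lib.UBox.Round
import Pool.Agent.Lib.UBox.Count
import Pool.Agent.Lib.UBox.LLL
import Pool.Agent.Lib.UBox.Step
import Pool.Agent.Lib.UBox.Window

/-!
# The cutting phase: geometry
-/

namespace Pool.Agent.Lib.UBox

open Pool.Agent.Lib.PolyTime

theorem dot_vadd {n : ℕ} {α u v : List ℤ} (hα : α.length = n) (hu : u.length = n)
    (hv : v.length = n) : dot α (vadd u v) = dot α u + dot α v := by
  rw [dot_eq hα (length_vadd hu hv), dot_eq hα hu, dot_eq hα hv, vec_vadd hu hv, dotProduct_add]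

theorem dot_smul (n : ℕ) {α u : List ℤ} (c : ℤ) (hα : α.length = n) (hu : u.length = n) :
    dot α (smul c u) = c * dot α u := by
  rw [dot_eq hα (n := n) (by rw [length_smul, hu]), dot_eq hα hu, vec_smul, dotProduct_smul,
    smul_eq_mul]

theorem dot_unitv {k : ℕ} {x : List ℤ} (hx : x.length = k) (i : Fin k) :
    dot (unitv k i) x = x.getD i 0 := by
  rw [dot_eq (length_unitv k i) hx, vec_unitv, single_dotProduct, one_mul]
  rfl

section

variable {k D : ℕ} {T : Task}

theorem length_xof (hT : Good k D T) (y : List ℤ) : (xof k T y).length = k :=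
  length_vadd hT.len1 (length_comb _ _ _)

theorem dot_xof (hT : Good k D T) {α y : List ℤ} (hα : α.length = k) (hy : y.length = D) :
    dot α (xof k T y) = dot α T.1 + dot (T.2.map (dot α)) y := by
  rw [xof, dot_vadd hα hT.len1 (length_comb _ _ _), dot_comb hα (by rw [hy, hT.len2]) hT.lens,
    dot_comm y]

theorem conOf_iff (hT : Good k D T) {α y : List ℤ} (hα : α.length = k) (hy : y.length = D)
    (β : ℤ) : dot (conOf T α β).1 y ≤ (conOf T α β).2 ↔ dot α (xof k T y) ≤ β := by
  rw [dot_xof hT hα hy]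
  show dot (T.2.map (dot α)) y ≤ β - dot α T.1 ↔ _
  constructor <;> intro h <;> linarith

theorem mem_boxCons {N : ℕ} {c : Con} : c ∈ boxCons k N T ↔
    ∃ i < k, c = conOf T (unitv k i) N ∨ c = conOf T (smul (-1) (unitv k i)) 0 := by
  simp [boxCons]

theorem sat_boxCons {N : ℕ} (hT : Good k D T) {y : List ℤ} (hy : y.length = D) :
    sat (boxCons k N T) y ↔ inBox k N (xof k T y) := by
  have hx := length_xof hT y
  constructor
  · intro h
    refine ⟨hx, fun a ha => ?_⟩
    obtain ⟨i, hi, rfl⟩ := List.mem_iff_getElem.1 ha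
    rw [hx] at hi
    have h1 := h _ (mem_boxCons.2 ⟨i, hi, Or.inl rfl⟩)
    have h2 := h _ (mem_boxCons.2 ⟨i, hi, Or.inr rfl⟩)
    rw [conOf_iff hT (length_unitv _ _) hy] at h1
    rw [conOf_iff hT (by rw [length_smul, length_unitv]) hy, dot_comm,
      dot_smul k _ hx (length_unitv _ _), dot_comm] at h2
    have h3 := dot_unitv hx ⟨i, hi⟩
    simp only at h3
    rw [h3, List.getD_eq_getElem _ _ (by omega)] at h1 h2
    constructor <;> linarith
  · intro h c hc
    obtain ⟨i, hi, rfl | rfl⟩ := mem_boxCons.1 hc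
    · rw [conOf_iff hT (length_unitv _ _) hy]
      have h3 := dot_unitv hx ⟨i, hi⟩
      simp only at h3
      rw [h3, List.getD_eq_getElem _ _ (by omega)]
      exact (h.2 _ (List.getElem_mem _)).2
    · rw [conOf_iff hT (by rw [length_smul, length_unitv]) hy, dot_comm,
        dot_smul k _ hx (length_unitv _ _), dot_comm]
      have h3 := dot_unitv hx ⟨i, hi⟩
      simp only at h3
      rw [h3, List.getD_eq_getElem _ _ (by omega)]
      have := (h.2 _ (List.getElem_mem (l := xof k T y) (n := i) (by omega))).1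
      linarith

theorem vec_xof (hT : Good k D T) {y : List ℤ} (hy : y.length = D) :
    vec k (xof k T y) = vec k T.1 + ∑ j : Fin D, y.getD j 0 • vec k (T.2.getD j []) := by
  rw [xof, vec_vadd hT.len1 (length_comb _ _ _), vec_comb hy hT.len2]

theorem xof_inj (hT : Good k D T) {y y' : List ℤ} (hy : y.length = D) (hy' : y'.length = D)
    (h : xof k T y = xof k T y') : y = y' := by
  refine vec_inj hy hy' ?_
  have h1 : vec k (xof k T y) = vec k (xof k T y') := by rw [h]
  rw [vec_xof hT hy, vec_xof hT hy', add_right_inj] at h1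
  have h2 := hT.indep (fun j => ((y.getD j 0 - y'.getD j 0 : ℤ) : ℝ)) (fun c => by
    have h3 := congrFun h1 c
    simp only [Finset.sum_apply, Pi.smul_apply, smul_eq_mul, vec] at h3
    have h4 : ∑ j : Fin D, (y.getD j 0 - y'.getD j 0) * (T.2.getD j []).getD c 0 = 0 := by
      simp only [sub_mul, Finset.sum_sub_distrib]
      rw [h3, sub_self]
    exact_mod_cast h4)
  funext j
  have h5 := congrFun h2 j
  simp only [Pi.zero_apply, Int.cast_eq_zero] at h5
  show y.getD j 0 = y'.getD j 0
  omega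

/-- The box gives a bounded polytope. -/
theorem bounded_box {N : ℕ} (hT : Good k D T) : ∃ r : ℝ, ∀ y : Fin D → ℝ,
    (∀ c ∈ boxCons k N T, 2 * dotProduct (fun i => (vec D c.1 i : ℝ)) y ≤ 2 * (c.2 : ℝ) + 1) →
      ∀ j, |y j| ≤ r := by
  let Φ : (Fin D → ℝ) →ₗ[ℝ] (Fin k → ℝ) :=
    { toFun := fun y c => ∑ j : Fin D, y j * (((T.2.getD j []).getD c 0 : ℤ) : ℝ)
      map_add' := fun y y' => by
        funext c
        simp only [Pi.add_apply, add_mul, Finset.sum_add_distrib]
      map_smul' := fun t y => by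
        funext c
        simp only [Pi.smul_apply, smul_eq_mul, RingHom.id_apply, Finset.mul_sum, mul_assoc] }
  have hker : LinearMap.ker Φ = ⊥ := by
    rw [LinearMap.ker_eq_bot']
    intro y hy
    exact hT.indep y fun c => congrFun hy c
  obtain ⟨K, hK, hanti⟩ := Φ.exists_antilipschitzWith hker
  obtain ⟨ρ, hρ⟩ : ∃ ρ : ℝ, ∀ c : Fin k, |((T.1.getD c 0 : ℤ) : ℝ)| ≤ ρ := by
    refine ⟨∑ c : Fin k, |((T.1.getD c 0 : ℤ) : ℝ)|, fun c => ?_⟩
    exact Finset.single_le_sum (f := fun c : Fin k => |((T.1.getD c 0 : ℤ) : ℝ)|)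
      (fun _ _ => abs_nonneg _) (Finset.mem_univ c)
  refine ⟨K * (|ρ| + N + 1), fun y hy j => ?_⟩
  have h1 : ∀ c : Fin k, |Φ y c| ≤ |ρ| + N + 1 := by
    intro c
    have key : ∀ α : List ℤ, α.length = k →
        dotProduct (fun i => (vec D (T.2.map (dot α)) i : ℝ)) y =
        ∑ j : Fin D, y j * ((dot α (T.2.getD j []) : ℤ) : ℝ) := by
      intro α hα
      simp only [dotProduct]
      refine Finset.sum_congr rfl fun i _ => ?_
      rw [mul_comm]
      congr 2
      show (T.2.map (dot α)).getD i 0 = _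
      rw [List.getD_eq_getElem _ _ (by rw [List.length_map, hT.len2]; exact i.2),
        List.getD_eq_getElem _ _ (by rw [hT.len2]; exact i.2), List.getElem_map]
    have hlen : ∀ j : Fin D, (T.2.getD j []).length = k := fun j => by
      rw [List.getD_eq_getElem _ _ (by rw [hT.len2]; exact j.2)]
      exact hT.lens _ (List.getElem_mem _)
    have h2 := hy _ (mem_boxCons.2 ⟨c, c.2, Or.inl rfl⟩)
    have h3 := hy _ (mem_boxCons.2 ⟨c, c.2, Or.inr rfl⟩)
    simp only [conOf] at h2 h3
    rw [key _ (length_unitv _ _), dot_unitv hT.len1] at h2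
    rw [key _ (by rw [length_smul, length_unitv])] at h3
    have e1 : ∑ j : Fin D, y j * ((dot (unitv k c) (T.2.getD j []) : ℤ) : ℝ) = Φ y c := by
      refine Finset.sum_congr rfl fun j _ => ?_
      rw [dot_unitv (hlen j)]
    have e2 : ∑ j : Fin D, y j * ((dot (smul (-1) (unitv k c)) (T.2.getD j []) : ℤ) : ℝ) =
        -Φ y c := by
      show _ = -(∑ j : Fin D, y j * (((T.2.getD j []).getD c 0 : ℤ) : ℝ))
      rw [← Finset.sum_neg_distrib]
      refine Finset.sum_congr rfl fun j _ => ?_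
      rw [dot_comm, dot_smul k _ (hlen j) (length_unitv _ _), dot_comm, dot_unitv (hlen j)]
      push_cast
      ring
    have e3 : dot (smul (-1) (unitv k c)) T.1 = -T.1.getD c 0 := by
      rw [dot_comm, dot_smul k _ hT.len1 (length_unitv _ _), dot_comm, dot_unitv hT.len1]
      ring
    rw [e1] at h2
    rw [e2, e3] at h3
    push_cast at h2 h3
    have h4 := hρ c
    have h5 := abs_le.1 (h4.trans (le_abs_self ρ))
    have hN : (0 : ℝ) ≤ N := Nat.cast_nonneg N
    rw [abs_le]
    constructor <;> linarith [h5.1, h5.2]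
  have h2 : ‖Φ y‖ ≤ |ρ| + N + 1 := by
    rw [pi_norm_le_iff_of_nonneg (by positivity)]
    exact fun c => h1 c
  have h3 : ‖y‖ ≤ K * ‖Φ y‖ := by
    have := hanti.le_mul_dist y 0
    simpa [dist_zero_right] using this
  calc |y j| = ‖y j‖ := rfl
    _ ≤ ‖y‖ := norm_le_pi_norm y j
    _ ≤ K * ‖Φ y‖ := h3
    _ ≤ K * (|ρ| + N + 1) := mul_le_mul_of_nonneg_left h2 K.2

end

end Pool.Agent.Lib.UBox
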