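import Pool.Agent.Lib.UBox.ProcA

/-!
# The cutting phase: change of basis, subtasks
-/

namespace Pool.Agent.Lib.UBox

open Pool.Agent.Lib.PolyTime

section

variable {k d : ℕ} {T : Task} {b : List (List ℤ)}

theorem getD_ofFn {n : ℕ} (f : Fin n → ℤ) (j : Fin n) : (List.ofFn f).getD j 0 = f j := by
  rw [List.getD_eq_getElem _ _ (by rw [List.length_ofFn]; exact j.2), List.getElem_ofFn]

theorem bas_coords {D : ℕ} (hb : IsBas D b) {y : List ℤ} (hy : y.length = D) :
    ∃ t : List ℤ, t.length = D ∧ comb D t b = y ∧
      ∀ j < D, t.getD j 0 = (toMat D (b.set j y)).det * (toMat D b).det := by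
  refine ⟨List.ofFn fun j : Fin D => (toMat D (b.set j y)).det * (toMat D b).det,
    List.length_ofFn, ?_, fun j hj => getD_ofFn _ ⟨j, hj⟩⟩
  refine vec_inj (length_comb _ _ _) hy ?_
  rw [vec_comb List.length_ofFn hb.len]
  have h1 : ∀ j : Fin D, (List.ofFn fun j : Fin D => (toMat D (b.set j y)).det *
      (toMat D b).det).getD j 0 =
      (toMat D b).det * Matrix.cramer (toMat D b).transpose (vec D y) j := fun j => by
    rw [getD_ofFn, Matrix.cramer_transpose_apply, toMat_set hb.len, mul_comm]
  simp only [h1]
  have h2 := Matrix.mulVec_cramer (toMat D b).transpose (vec D y)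
  rw [Matrix.det_transpose] at h2
  funext l
  have h3 := congrFun h2 l
  simp only [Matrix.mulVec, dotProduct, Matrix.transpose_apply, Pi.smul_apply, smul_eq_mul] at h3
  simp only [Finset.sum_apply, Pi.smul_apply, smul_eq_mul]
  have h4 : ∀ j : Fin D, vec D (b.getD j []) l = toMat D b j l := fun j => by
    rw [toMat_row]
  simp only [h4]
  have h5 : ∑ j : Fin D, (toMat D b).det * Matrix.cramer (toMat D b).transpose (vec D y) j *
      toMat D b j l = (toMat D b).det * ((toMat D b).det * vec D y l) := by
    rw [← h3, Finset.mul_sum]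
    exact Finset.sum_congr rfl fun j _ => by ring
  rw [h5, ← mul_assoc, ← pow_two, hb.det, one_mul]

/-- The task of a hyperplane. -/
def subT (k d : ℕ) (T : Task) (b : List (List ℤ)) (v : ℤ) : Task :=
  (vadd T.1 (smul v (comb k (b.getD d []) T.2)), (b.take d).map fun u => comb k u T.2)

theorem getD_mem_lens {L : List (List ℤ)} {n m j : ℕ} (hL : L.length = n)
    (h : ∀ u ∈ L, u.length = m) (hj : j < n) : (L.getD j []).length = m := by
  rw [List.getD_eq_getElem _ _ (by omega)]
  exact h _ (List.getElem_mem _)

theorem vec_xof_comb (hT : Good k (d + 1) T) (hb : IsBas (d + 1) b) {t : List ℤ}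
    (ht : t.length = d + 1) :
    vec k (xof k T (comb (d + 1) t b)) = vec k T.1 +
      ∑ j : Fin (d + 1), t.getD j 0 • vec k (comb k (b.getD j []) T.2) := by
  rw [vec_xof hT (length_comb _ _ _)]
  congr 1
  have h1 : ∀ j : Fin (d + 1), vec k (comb k (b.getD j []) T.2) =
      ∑ l : Fin (d + 1), (b.getD j []).getD l 0 • vec k (T.2.getD l []) := fun j =>
    vec_comb (getD_mem_lens hb.len hb.lens j.2) hT.len2
  simp only [h1, Finset.smul_sum]
  rw [Finset.sum_comm]
  refine Finset.sum_congr rfl fun l _ => ?_
  have h2 : (comb (d + 1) t b).getD l 0 = ∑ j : Fin (d + 1), t.getD j 0 * (b.getD j []).getD l 0 := by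
    have := congrFun (vec_comb (d := d + 1) ht hb.len) l
    simp only [Finset.sum_apply, Pi.smul_apply, smul_eq_mul, vec] at this
    exact this
  rw [h2, Finset.sum_smul]
  exact Finset.sum_congr rfl fun j _ => by rw [smul_smul]

theorem xof_subT (hT : Good k (d + 1) T) (hb : IsBas (d + 1) b) {t : List ℤ}
    (ht : t.length = d) (v : ℤ) :
    xof k T (comb (d + 1) (t ++ [v]) b) = xof k (subT k d T b v) t := by
  have h1 : (subT k d T b v).1.length = k :=
    length_vadd hT.len1 (by rw [length_smul, length_comb])
  have h2 : (subT k d T b v).2.length = d := by simp [subT, hb.len]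
  refine vec_inj (length_xof hT _) (length_vadd h1 (length_comb _ _ _)) ?_
  rw [vec_xof_comb hT hb (by simp [ht]), xof, vec_vadd h1 (length_comb _ _ _), vec_comb ht h2]
  show _ = vec k (vadd T.1 (smul v (comb k (b.getD d []) T.2))) + _
  rw [vec_vadd hT.len1 (by rw [length_smul, length_comb]), vec_smul, Fin.sum_univ_castSucc]
  have e1 : (t ++ [v]).getD (Fin.last d) 0 = v := by
    rw [List.getD_eq_getElem _ _ (by simp [ht])]
    simp [ht]
  have e2 : ∀ j : Fin d, (t ++ [v]).getD (Fin.castSucc j) 0 = t.getD j 0 := fun j => by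
    rw [List.getD_append _ _ _ _ (by simp [ht])]
    rfl
  have e3 : ∀ j : Fin d, (subT k d T b v).2.getD j [] = comb k (b.getD j []) T.2 := fun j => by
    have hj : (j : ℕ) < ((b.take d).map fun u => comb k u T.2).length := by
      simp [hb.len]
    show ((b.take d).map fun u => comb k u T.2).getD j [] = _
    rw [List.getD_eq_getElem _ _ hj, List.getElem_map, List.getElem_take,
      List.getD_eq_getElem _ _ (by rw [hb.len]; have := j.2; omega)]
  simp only [e1, e2, e3]
  rw [add_assoc]
  congr 1
  rw [add_comm]
  rfl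

theorem bas_inj_real {D : ℕ} (hb : IsBas D b) (y : Fin D → ℝ)
    (h : ∀ l : Fin D, ∑ j : Fin D, y j * (((b.getD j []).getD l 0 : ℤ) : ℝ) = 0) : y = 0 := by
  have h0 : (toMat D b).det ≠ 0 := fun h0 => by
    have := hb.det
    rw [h0] at this
    norm_num at this
  have h1 : ((toMat D b).map (Int.cast : ℤ → ℝ)).det ≠ 0 := by
    have h2 : ((toMat D b).map (Int.cast : ℤ → ℝ)).det = (((toMat D b).det : ℤ) : ℝ) := by
      have := (RingHom.map_det (Int.castRingHom ℝ) (toMat D b)).symm
      simpa using this
    rw [h2]
    exact_mod_cast h0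
  have h2 := Matrix.eq_zero_of_vecMul_eq_zero h1 (v := y) (by
    funext l
    simpa [Matrix.vecMul, dotProduct, toMat] using h l)
  exact h2

theorem good_subT (hT : Good k (d + 1) T) (hb : IsBas (d + 1) b) (v : ℤ) :
    Good k d (subT k d T b v) where
  len1 := length_vadd hT.len1 (by rw [length_smul, length_comb])
  len2 := by simp [subT, hb.len]
  lens := by
    intro u hu
    simp only [subT, List.mem_map] at hu
    obtain ⟨w, _, rfl⟩ := hu
    exact length_comb _ _ _
  indep := by
    intro y hy
    have e3 : ∀ j : Fin d, (subT k d T b v).2.getD j [] = comb k (b.getD j []) T.2 := fun j => by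
      have hj : (j : ℕ) < ((b.take d).map fun u => comb k u T.2).length := by
        simp [hb.len]
      show ((b.take d).map fun u => comb k u T.2).getD j [] = _
      rw [List.getD_eq_getElem _ _ hj, List.getElem_map, List.getElem_take,
        List.getD_eq_getElem _ _ (by rw [hb.len]; have := j.2; omega)]
    let y' : Fin (d + 1) → ℝ := Fin.snoc y 0
    have hz := hT.indep (fun l => ∑ j : Fin (d + 1), y' j * (((b.getD j []).getD l 0 : ℤ) : ℝ))
      (fun c => by
        have h1 := hy c
        simp only [e3] at h1
        have h2 : ∀ j : Fin (d + 1), (((comb k (b.getD j []) T.2).getD c 0 : ℤ) : ℝ) =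
            ∑ l : Fin (d + 1), (((b.getD j []).getD l 0 : ℤ) : ℝ) *
              (((T.2.getD l []).getD c 0 : ℤ) : ℝ) := fun j => by
          have h3 := congrFun (vec_comb (d := k) (getD_mem_lens hb.len hb.lens j.2) hT.len2) c
          simp only [Finset.sum_apply, Pi.smul_apply, smul_eq_mul, vec] at h3
          rw [h3]
          push_cast
          rfl
        calc ∑ l : Fin (d + 1), (∑ j : Fin (d + 1), y' j * (((b.getD j []).getD l 0 : ℤ) : ℝ)) *
              (((T.2.getD l []).getD c 0 : ℤ) : ℝ)
            = ∑ j : Fin (d + 1), y' j * (((comb k (b.getD j []) T.2).getD c 0 : ℤ) : ℝ) := by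
              simp only [h2, Finset.sum_mul, Finset.mul_sum]
              rw [Finset.sum_comm]
              exact Finset.sum_congr rfl fun j _ => Finset.sum_congr rfl fun l _ => by ring
          _ = 0 := by
              rw [Fin.sum_univ_castSucc]
              simp only [y', Fin.snoc_castSucc, Fin.snoc_last, zero_mul, add_zero]
              exact h1)
    have hz' := bas_inj_real hb y' (fun l => congrFun hz l)
    funext j
    have := congrFun hz' (Fin.castSucc j)
    simpa [y'] using this

end

end Pool.Agent.Lib.UBox
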