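import Pool.Agent.Lib.UBox.ProcB

/-!
# The cutting phase: one step
-/

namespace Pool.Agent.Lib.UBox

open Pool.Agent.Lib.PolyTime

/-! ## Counting -/

/-- The integer points of the polytope. -/
def pts (D : ℕ) (C : List Con) : Set (List ℤ) := {y | y.length = D ∧ sat C y}

theorem pts_finite_card {k D N : ℕ} {T : Task} (hT : Good k D T) {C : List Con}
    (hbox : ∀ c ∈ boxCons k N T, c ∈ C) :
    (pts D C).Finite ∧ (pts D C).ncard ≤ (N + 1) ^ k := by
  have hmaps : ∀ y ∈ pts D C, vec k (xof k T y) ∈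
      ((Fintype.piFinset fun _ : Fin k => Finset.Icc (0 : ℤ) N : Finset (Fin k → ℤ)) :
        Set (Fin k → ℤ)) := by
    intro y hy
    have h1 := (sat_boxCons hT hy.1).1 fun c hc => hy.2 c (hbox c hc)
    simp only [Finset.mem_coe, Fintype.mem_piFinset, Finset.mem_Icc]
    intro c
    show 0 ≤ (xof k T y).getD c 0 ∧ (xof k T y).getD c 0 ≤ (N : ℤ)
    rw [List.getD_eq_getElem _ _ (by rw [h1.1]; exact c.2)]
    exact h1.2 _ (List.getElem_mem _)
  have hinj : Set.InjOn (fun y => vec k (xof k T y)) (pts D C) := by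
    intro y hy y' hy' h
    exact xof_inj hT hy.1 hy'.1 (vec_inj (length_xof hT _) (length_xof hT _) h)
  have hfin : ((Fintype.piFinset fun _ : Fin k => Finset.Icc (0 : ℤ) N : Finset (Fin k → ℤ)) :
      Set (Fin k → ℤ)).Finite := Finset.finite_toSet _
  refine ⟨Set.Finite.of_injOn hmaps hinj hfin, ?_⟩
  refine (Set.ncard_le_ncard_of_injOn _ hmaps hinj hfin).trans ?_
  rw [Set.ncard_coe_finset, Fintype.card_piFinset]
  simp

/-- The number by which the counting argument works. -/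
def qq (D : ℕ) : ℕ := 2 * (4 * D + 5) ^ (D + 1)

theorem cut_card {D : ℕ} {C : List Con} {H : List (List ℤ)} (hfin : (pts D C).Finite)
    (hH : IsSimplex D C H) {z : List ℤ} (hz : z.length = D)
    (hdeep : ∀ i < D + 1, (toMat (D + 1) H).det ^ 2 ≤
      2 * ((D : ℤ) + 1) * (lam D H i (1 :: z) * (toMat (D + 1) H).det))
    {α : List ℤ} (hα : α.length = D) {c : Con}
    (hc : ∀ y : List ℤ, y.length = D → (dot c.1 y ≤ c.2 ↔ dot α y < dot α z)) :
    qq D * (pts D (c :: C)).ncard + (pts D C).ncard ≤ qq D * (pts D C).ncard := by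
  classical
  have hS : ∀ y, y ∈ hfin.toFinset ↔ y.length = D ∧ sat C y := fun y => by
    rw [Set.Finite.mem_toFinset]
    rfl
  have h1 := count_cut hH hz hdeep hα hfin.toFinset hS
  have h2 : (pts D (c :: C)).ncard =
      (hfin.toFinset.filter fun y => ¬ dot α z ≤ dot α y).card := by
    rw [← Set.ncard_coe_finset]
    congr 1
    ext y
    rw [Finset.mem_coe, Finset.mem_filter, hS, not_le]
    show (y.length = D ∧ ∀ c' ∈ c :: C, dot c'.1 y ≤ c'.2) ↔ _
    rw [List.forall_mem_cons]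
    constructor
    · rintro ⟨h, h3, h4⟩
      exact ⟨⟨h, h4⟩, (hc y h).1 h3⟩
    · rintro ⟨⟨h, h4⟩, h3⟩
      exact ⟨h, (hc y h).2 h3, h4⟩
  have h3 : (hfin.toFinset.filter fun y => dot α z ≤ dot α y).card +
      (hfin.toFinset.filter fun y => ¬ dot α z ≤ dot α y).card = hfin.toFinset.card :=
    Finset.card_filter_add_card_filter_not _
  have h4 : (pts D C).ncard = hfin.toFinset.card := Set.ncard_eq_toFinset_card _ hfin
  have h5 : qq D * (hfin.toFinset.filter fun y => dot α z ≤ dot α y).card +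
      qq D * (hfin.toFinset.filter fun y => ¬ dot α z ≤ dot α y).card =
      qq D * hfin.toFinset.card := by
    rw [← h3, mul_add]
  have h6 : hfin.toFinset.card ≤
      qq D * (hfin.toFinset.filter fun y => dot α z ≤ dot α y).card := h1
  rw [h2, h4]
  omega

/-! ## Bounds for the numbers -/

theorem two_pow_le {a b : ℕ} (h : a ≤ b) : (2 : ℤ) ^ a ≤ 2 ^ b :=
  pow_le_pow_right₀ (by norm_num) h

theorem int_natCast_le_two_pow (n : ℕ) : (n : ℤ) ≤ 2 ^ n := by
  exact_mod_cast (Nat.lt_two_pow_self (n := n)).le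

theorem abs_add_le_two_pow {x y : ℤ} {a b c : ℕ} (hx : |x| ≤ 2 ^ a) (hy : |y| ≤ 2 ^ b)
    (ha : a + 1 ≤ c) (hb : b + 1 ≤ c) : |x + y| ≤ 2 ^ c := by
  obtain ⟨c, rfl⟩ : ∃ c', c = c' + 1 := ⟨c - 1, by omega⟩
  have h1 := two_pow_le (a := a) (b := c) (by omega)
  have h2 := two_pow_le (a := b) (b := c) (by omega)
  calc |x + y| ≤ |x| + |y| := abs_add_le x y
    _ ≤ 2 ^ c + 2 ^ c := by linarith
    _ = 2 ^ (c + 1) := by ring

theorem abs_sub_le_two_pow {x y : ℤ} {a b c : ℕ} (hx : |x| ≤ 2 ^ a) (hy : |y| ≤ 2 ^ b)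
    (ha : a + 1 ≤ c) (hb : b + 1 ≤ c) : |x - y| ≤ 2 ^ c := by
  rw [sub_eq_add_neg]
  exact abs_add_le_two_pow hx (by rwa [abs_neg]) ha hb

theorem unitv_ht (k i s : ℕ) : ∀ x ∈ unitv k i, |x| ≤ 2 ^ s := by
  intro x hx
  simp only [unitv, List.mem_map, List.mem_range] at hx
  obtain ⟨j, _, rfl⟩ := hx
  have : (1 : ℤ) ≤ 2 ^ s := one_le_pow₀ (by norm_num)
  split_ifs
  · simpa using this
  · simp

theorem smul_neg_ht {v : List ℤ} {s : ℕ} (h : ∀ x ∈ v, |x| ≤ 2 ^ s) :
    ∀ x ∈ smul (-1) v, |x| ≤ 2 ^ s := by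
  intro x hx
  simp only [smul, List.mem_map] at hx
  obtain ⟨y, hy, rfl⟩ := hx
  rw [neg_one_mul, abs_neg]
  exact h y hy

/-- Bits of the numbers of the constraints. -/
def bt (k N a h : ℕ) : ℕ := k + a + h + N + 2

theorem conOf_ht {k N a h : ℕ} {T : Task} (hh : Ht h T) {α : List ℤ}
    (hα : α.length = k) (hα' : ∀ x ∈ α, |x| ≤ 2 ^ a) {β : ℤ} (hβ : |β| ≤ 2 ^ (k + a + N + 1)) :
    (∀ x ∈ (conOf T α β).1, |x| ≤ 2 ^ bt k N a h) ∧ |(conOf T α β).2| ≤ 2 ^ bt k N a h := by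
  constructor
  · intro x hx
    simp only [conOf, List.mem_map] at hx
    obtain ⟨u, hu, rfl⟩ := hx
    exact (abs_dot_le hα.le hα' (hh.2 u hu)).trans (two_pow_le (by unfold bt; omega))
  · show |β - dot α T.1| ≤ _
    exact abs_sub_le_two_pow hβ (abs_dot_le hα.le hα' hh.1) (by unfold bt; omega)
      (by unfold bt; omega)

theorem inBox_ht {k N : ℕ} {x : List ℤ} (hx : inBox k N x) : ∀ y ∈ x, |y| ≤ 2 ^ N := by
  intro y hy
  obtain ⟨h1, h2⟩ := hx.2 y hy
  rw [abs_of_nonneg h1]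
  exact h2.trans (int_natCast_le_two_pow N)

theorem dot_box_ht {k N a : ℕ} {x α : List ℤ} (hx : inBox k N x) (hα : α.length = k)
    (hα' : ∀ x ∈ α, |x| ≤ 2 ^ a) : |dot α x - 1| ≤ 2 ^ (k + a + N + 1) := by
  exact abs_sub_le_two_pow (abs_dot_le hα.le hα' (inBox_ht hx)) (b := 0) (by simp) (by omega)
    (by omega)

/-- The invariant for the list of constraints. -/
structure CInv (k N D s : ℕ) (T : Task) (S : Set (List ℤ)) (C : List Con) : Prop where
  len : ∀ c ∈ C, c.1.length = D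
  ht : ∀ c ∈ C, (∀ x ∈ c.1, |x| ≤ 2 ^ s) ∧ |c.2| ≤ 2 ^ s
  box : ∀ c ∈ boxCons k N T, c ∈ C
  valid : ∀ y : List ℤ, y.length = D → xof k T y ∈ S → sat C y

section

variable {k N a D h : ℕ} {orc : List ℤ → Option (List ℤ)} {S : Set (List ℤ)} {T : Task}

theorem cinv_box (ho : IsOracle k N a orc S) (hT : Good k D T) (hh : Ht h T) :
    CInv k N D (bt k N a h) T S (boxCons k N T) where
  len := by
    intro c hc
    obtain ⟨i, hi, rfl | rfl⟩ := mem_boxCons.1 hc <;> simp [conOf, hT.len2]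
  ht := by
    intro c hc
    obtain ⟨i, hi, rfl | rfl⟩ := mem_boxCons.1 hc
    · refine conOf_ht hh (length_unitv _ _) (unitv_ht _ _ _) ?_
      rw [abs_of_nonneg (Int.natCast_nonneg N)]
      exact (int_natCast_le_two_pow N).trans (two_pow_le (by omega))
    · refine conOf_ht hh (by rw [length_smul, length_unitv]) (smul_neg_ht (unitv_ht _ _ _)) ?_
      simp
  box := fun c hc => hc
  valid := fun y hy hS => (sat_boxCons hT hy).2 (ho.sub _ hS)

theorem cinv_cons (ho : IsOracle k N a orc S) (hT : Good k D T) (hh : Ht h T) {C : List Con}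
    (hC : CInv k N D (bt k N a h) T S C) {z α : List ℤ}
    (hx : inBox k N (xof k T z)) (hα : orc (xof k T z) = some α) :
    CInv k N D (bt k N a h) T S (conOf T α (dot α (xof k T z) - 1) :: C) where
  len := by
    intro c hc
    rcases List.mem_cons.1 hc with rfl | hc
    · simp [conOf, hT.len2]
    · exact hC.len c hc
  ht := by
    intro c hc
    rcases List.mem_cons.1 hc with rfl | hc
    · exact conOf_ht hh (ho.some_len _ _ hx hα) (ho.some_ht _ _ hx hα)
        (dot_box_ht hx (ho.some_len _ _ hx hα) (ho.some_ht _ _ hx hα))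
    · exact hC.ht c hc
  box := fun c hc => List.mem_cons_of_mem _ (hC.box c hc)
  valid := by
    intro y hy hS c hc
    rcases List.mem_cons.1 hc with rfl | hc
    · rw [conOf_iff hT (ho.some_len _ _ hx hα) hy]
      have := ho.some_cut _ _ hx hα _ hS
      omega
    · exact hC.valid y hy hS c hc

theorem cinv_bounded (hT : Good k D T) {s : ℕ} {C : List Con} (hC : CInv k N D s T S C) :
    ∃ r : ℝ, ∀ y : Fin D → ℝ,
      (∀ c ∈ C, 2 * dotProduct (fun i => (vec D c.1 i : ℝ)) y ≤ 2 * (c.2 : ℝ) + 1) →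
        ∀ j, |y j| ≤ r := by
  obtain ⟨r, hr⟩ := bounded_box (N := N) hT
  exact ⟨r, fun y hy => hr y fun c hc => hy c (hC.box c hc)⟩

end

end Pool.Agent.Lib.UBox
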