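import Pool.Agent.Lib.UBox.ProcC

/-!
# The cutting phase: the cases of one step
-/

namespace Pool.Agent.Lib.UBox

open Pool.Agent.Lib.PolyTime

/-- The statement of `lll_spec`. -/
def LLLSpec (E : ℕ) : Prop := ∀ (M d s : ℕ) (R : List (List ℤ)), 1 ≤ d → R.length ≤ d + 1 →
    (∀ r ∈ R, r.length = d) → (∀ r ∈ R, ∀ a ∈ r, |a| ≤ 2 ^ s) →
    (∀ w : List ℤ, w.length = d → (∀ r ∈ R, dot r w = 0) → ∀ a ∈ w, a = 0) →
    2 ^ ((d + 2) ^ E) * (s + 2) ^ E ≤ M →
    IsBas d (lll M d R) ∧
    (∀ y : List ℤ, y.length = d → ∀ u ∈ lll M d R,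
      ((toMat d ((lll M d R).set (d - 1) y)).det) ^ 2 * bil R u u ≤ 5 ^ d * bil R y y) ∧
    (∀ u ∈ lll M d R, ∀ a ∈ u, |a| ≤ 2 ^ ((d + 2) ^ E * (s + 1)))

/-- Bits of the vertices. -/
def sA (D s : ℕ) : ℕ := D * (D + s + 2)

/-- Bits of the rows. -/
def sB (D s : ℕ) : ℕ := (D + 2) * (D + 1 + sA D s)

/-- Bits of the reduced basis. -/
def sC (E D s : ℕ) : ℕ := (D + 2) ^ E * (sB D s + 1)

/-- Bits of the value of the last coordinate. -/
def sV (E D s : ℕ) : ℕ := D * (D + (sA D s + sC E D s)) + 8 * D + 6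

/-- Bits of the subtasks. -/
def sT (E D s h : ℕ) : ℕ := sV E D s + D + sC E D s + h + 1

theorem width_le (D : ℕ) : 3 * width D + 2 ≤ 2 ^ (8 * D + 5) := by
  have h1 : 5 ^ D ≤ 2 ^ (3 * D) := by
    rw [pow_mul]
    exact Nat.pow_le_pow_left (by norm_num) D
  have h2 : D + 1 ≤ 2 ^ D := Nat.lt_two_pow_self
  have h3 : D ≤ 2 ^ D := by omega
  have h4 : width D ≤ 2 ^ (3 * D) * (4 * 2 ^ D) * (2 ^ D * 2 ^ D) ^ 2 := by
    unfold width
    gcongr
  have h5 : 2 ^ (3 * D) * (4 * 2 ^ D) * (2 ^ D * 2 ^ D) ^ 2 = 2 ^ (8 * D + 2) := by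
    rw [show (4 : ℕ) = 2 ^ 2 by norm_num]
    simp only [← pow_add, ← pow_mul]
    congr 1
    ring
  have h6 : 2 ^ (8 * D + 5) = 8 * 2 ^ (8 * D + 2) := by ring
  have h7 : 1 ≤ 2 ^ (8 * D + 2) := Nat.one_le_two_pow
  omega

theorem abs_ediv_le (a : ℤ) {b : ℤ} (hb : 0 < b) : |a / b| ≤ |a| := by
  rcases le_total 0 a with h | h
  · rw [abs_of_nonneg h, abs_of_nonneg (Int.ediv_nonneg h hb.le)]
    exact Int.ediv_le_self _ h
  · have h1 : a / b ≤ 0 := by
      have h2 := Int.ediv_mul_le a hb.ne'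
      by_contra h3
      push Not at h3
      nlinarith
    rw [abs_of_nonpos h, abs_of_nonpos h1]
    have h2 : a ≤ a / b := (Int.le_ediv_iff_mul_le hb).2 (by nlinarith)
    linarith

theorem comb_ht {k n s t : ℕ} {c : List ℤ} {L : List (List ℤ)} (hc : c.length ≤ n)
    (h1 : ∀ x ∈ c, |x| ≤ 2 ^ s) (h2 : ∀ u ∈ L, ∀ x ∈ u, |x| ≤ 2 ^ t) :
    ∀ x ∈ comb k c L, |x| ≤ 2 ^ (n + s + t) := by
  intro x hx
  simp only [comb, List.mem_map, List.mem_range] at hx
  obtain ⟨l, _, rfl⟩ := hx
  refine abs_dot_le hc h1 fun y hy => ?_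
  obtain ⟨u, hu, rfl⟩ := List.mem_map.1 hy
  by_cases hl : l < u.length
  · rw [List.getD_eq_getElem _ _ hl]
    exact h2 u hu _ (List.getElem_mem _)
  · rw [List.getD_eq_default _ _ (by omega)]
    simp

theorem vadd_ht {u v : List ℤ} {a b c : ℕ} (hu : ∀ x ∈ u, |x| ≤ 2 ^ a) (hv : ∀ x ∈ v, |x| ≤ 2 ^ b)
    (ha : a + 1 ≤ c) (hb : b + 1 ≤ c) : ∀ x ∈ vadd u v, |x| ≤ 2 ^ c := by
  intro x hx
  unfold vadd at hx
  obtain ⟨i, hi, rfl⟩ := List.mem_iff_getElem.1 hx
  rw [List.getElem_zipWith]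
  exact abs_add_le_two_pow (hu _ (List.getElem_mem _)) (hv _ (List.getElem_mem _)) ha hb

theorem smul_ht {v : List ℤ} {c : ℤ} {a b : ℕ} (hc : |c| ≤ 2 ^ a) (hv : ∀ x ∈ v, |x| ≤ 2 ^ b) :
    ∀ x ∈ smul c v, |x| ≤ 2 ^ (a + b) := by
  intro x hx
  simp only [smul, List.mem_map] at hx
  obtain ⟨y, hy, rfl⟩ := hx
  rw [abs_mul, pow_add]
  exact mul_le_mul hc (hv y hy) (abs_nonneg _) (by positivity)

theorem ht_subT {k d h s t : ℕ} {T : Task} {b : List (List ℤ)} (hh : Ht h T)
    (hb : IsBas (d + 1) b) (hbs : ∀ u ∈ b, ∀ x ∈ u, |x| ≤ 2 ^ s) {v : ℤ} (hv : |v| ≤ 2 ^ t) :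
    Ht (t + (d + 1) + s + h + 1) (subT k d T b v) := by
  have hcomb : ∀ u ∈ b, ∀ x ∈ comb k u T.2, |x| ≤ 2 ^ ((d + 1) + s + h) := fun u hu =>
    comb_ht (hb.lens u hu).le (hbs u hu) hh.2
  constructor
  · refine vadd_ht hh.1 (smul_ht hv (hcomb (b.getD d []) ?_)) (by omega) (by omega)
    rw [List.getD_eq_getElem _ _ (by rw [hb.len]; omega)]
    exact List.getElem_mem _
  · intro u hu x hx
    simp only [subT, List.mem_map] at hu
    obtain ⟨w, hw, rfl⟩ := hu
    exact (hcomb w (List.mem_of_mem_take hw) x hx).trans (two_pow_le (by omega))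

/-- What we want to know about the result of the cutting phase. -/
def ResOk (k d h Lm : ℕ) (S : Set (List ℤ)) (T : Task) (r : Option (List Task)) : Prop :=
  (r = none → ∃ y : List ℤ, y.length = d + 1 ∧ xof k T y ∈ S) ∧
    ∀ L, r = some L →
      (∀ T' ∈ L, Good k d T' ∧ Ht h T') ∧ L.length ≤ Lm ∧
      ((∃ y : List ℤ, y.length = d + 1 ∧ xof k T y ∈ S) ↔
        ∃ T' ∈ L, ∃ y : List ℤ, y.length = d ∧ xof k T' y ∈ S)

theorem subtasks_eq {M k d : ℕ} {T : Task} {H b : List (List ℤ)} (hT : T.2.length = d + 1)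
    (hM : 2 * width (d + 1) + 2 ≤ M) :
    subtasks M k T H b = (List.range (2 * width (d + 1) + 2)).map fun i =>
      subT k d T b (psi M (d + 1) b (H.headD []).tail / (H.headD []).headD 0 -
        width (d + 1) + (i : ℕ)) := by
  unfold subtasks subT
  rw [hT, Nat.min_eq_right hM]
  rfl

theorem cut_cases {M k N a h d E : ℕ} {orc : List ℤ → Option (List ℤ)} {S : Set (List ℤ)}
    {T : Task} (hE : LLLSpec E) (ho : IsOracle k N a orc S) (hT : Good k (d + 1) T) (hh : Ht h T)
    {C : List Con} (hC : CInv k N (d + 1) (bt k N a h) T S C) (hM1 : C.length ^ (d + 1) ≤ M)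
    (hM2 : (C.length ^ (d + 1)) ^ (d + 1 + 1) ≤ M) (hM3 : (d + 1 + 1) ^ (d + 1 + 1) ≤ M)
    (hM4 : 2 ^ ((d + 1 + 2) ^ E) * (sB (d + 1) (bt k N a h) + 2) ^ E ≤ M)
    (hM5 : 2 * width (d + 1) + 2 ≤ M) :
    (∃ r, cutStep M k orc T (C, none) = (C, some r) ∧
      ResOk k d (sT E (d + 1) (bt k N a h) h) (2 * width (d + 1) + 2) S T r) ∨
    (∃ c, cutStep M k orc T (C, none) = (c :: C, none) ∧
      CInv k N (d + 1) (bt k N a h) T S (c :: C) ∧
      qq (d + 1) * (pts (d + 1) (c :: C)).ncard + (pts (d + 1) C).ncard ≤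
        qq (d + 1) * (pts (d + 1) C).ncard ∧ 0 < (pts (d + 1) C).ncard) := by
  obtain ⟨hs1, hs2⟩ := simplex_spec (M := M) (d := d + 1) (C := C) (by omega) hC.len hM1 hM2 hM3
    (cinv_bounded hT hC)
  have hfin := (pts_finite_card hT hC.box).1
  have hstep : cutStep M k orc T (C, none) =
      if cdet M (d + 1 + 1) (simplexOf M (d + 1) C) = 0 then (C, some (some []))
      else if allShort (d + 1) (rowsOf M (d + 1) (simplexOf M (d + 1) C))
          (lll M (d + 1) (rowsOf M (d + 1) (simplexOf M (d + 1) C)))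
          (cdet M (d + 1 + 1) (simplexOf M (d + 1) C)) then
        match orc (xof k T (zof M (d + 1) (simplexOf M (d + 1) C)
          (lll M (d + 1) (rowsOf M (d + 1) (simplexOf M (d + 1) C))))) with
        | none => (C, some none)
        | some α => (conOf T α (dot α (xof k T (zof M (d + 1) (simplexOf M (d + 1) C)
          (lll M (d + 1) (rowsOf M (d + 1) (simplexOf M (d + 1) C))))) - 1) :: C, none)
      else (C, some (some (subtasks M k T (simplexOf M (d + 1) C)
        (lll M (d + 1) (rowsOf M (d + 1) (simplexOf M (d + 1) C)))))) := by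
    unfold cutStep
    rw [hT.len2]
    rfl
  rw [hstep]
  set H := simplexOf M (d + 1) C with hH
  by_cases hdet : cdet M (d + 1 + 1) H = 0
  · left
    rw [if_pos hdet]
    refine ⟨some [], rfl, fun h => (by cases h), fun L hL => ?_⟩
    obtain rfl : [] = L := by simpa using hL
    refine ⟨by simp, by simp, ?_⟩
    constructor
    · rintro ⟨y, hy, hyS⟩
      exact absurd (hC.valid y hy hyS) (hs1 hdet y hy)
    · rintro ⟨T', hT', _⟩
      simp at hT'
  rw [if_neg hdet]
  have hSim := hs2 hdet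
  have hHs : ∀ g ∈ H, ∀ x ∈ g, |x| ≤ 2 ^ sA (d + 1) (bt k N a h) :=
    simplex_ht hC.ht
  set R := rowsOf M (d + 1) H with hR
  set b := lll M (d + 1) R with hb
  obtain ⟨hbas, hthin, hbs⟩ := hE M (d + 1) (sB (d + 1) (bt k N a h)) R (by omega)
    (rows_len H).1.le (rows_len H).2 (rows_ht hHs) (rows_inj hM3 hSim) hM4
  rw [← hb] at hbas hthin hbs
  by_cases hshort : allShort (d + 1) R b (cdet M (d + 1 + 1) H) = true
  · rw [if_pos hshort]
    obtain ⟨hz, hdeep⟩ := deep (by omega) hM3 hSim hbas hshort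
    set z := zof M (d + 1) H b with hzz
    have hpos : 0 < (toMat (d + 1 + 1) H).det ^ 2 := by
      have := hSim.det_ne
      positivity
    have hsat : sat C z := hSim.inner z hz fun i hi => by
      have h1 := hdeep i hi
      have h2 : (0 : ℤ) < 2 * (((d + 1 : ℕ) : ℤ) + 1) := by positivity
      by_contra hneg
      push Not at hneg
      have := mul_neg_of_pos_of_neg h2 hneg
      linarith
    have hbox : inBox k N (xof k T z) :=
      (sat_boxCons hT hz).1 fun c hc => hsat c (hC.box c hc)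
    cases hα : orc (xof k T z) with
    | none =>
      left
      refine ⟨none, rfl, fun _ => ⟨z, hz, (ho.none_iff _ hbox).1 hα⟩, fun L hL => by cases hL⟩
    | some α =>
      right
      have hlen := ho.some_len _ _ hbox hα
      refine ⟨_, rfl, cinv_cons ho hT hh hC hbox hα, ?_, ?_⟩
      · refine cut_card hfin hSim hz hdeep (α := T.2.map (dot α))
          (by rw [List.length_map, hT.len2]) fun y hy => ?_
        rw [conOf_iff hT hlen hy, dot_xof hT hlen hy, dot_xof hT hlen hz]
        constructor <;> intro h <;> omega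
      · rw [Set.ncard_pos hfin]
        exact ⟨z, hz, hsat⟩
  · left
    rw [if_neg hshort]
    have hshort' : allShort (d + 1) R b (cdet M (d + 1 + 1) H) = false := by
      simpa using hshort
    have hwin := window (by omega) hM3 hSim hbas hthin hshort'
    refine ⟨some _, rfl, fun h => (by cases h), fun L hL => ?_⟩
    obtain rfl : subtasks M k T H b = L := by simpa using hL
    rw [subtasks_eq hT.len2 hM5]
    set t0 : ℤ := psi M (d + 1) b (H.headD []).tail / (H.headD []).headD 0 with ht0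
    -- the head of `H`
    have hH0 : H.headD [] ∈ H := by
      have : H ≠ [] := fun h => by
        have := hSim.len
        rw [h] at this
        simp at this
      obtain ⟨x, l, hxl⟩ := List.exists_cons_of_ne_nil this
      rw [hxl]
      simp
    have hd1 : (d + 1) ^ (d + 1) ≤ M := by
      refine le_trans ?_ hM3
      calc (d + 1) ^ (d + 1) ≤ (d + 1 + 1) ^ (d + 1) := Nat.pow_le_pow_left (by omega) _
        _ ≤ (d + 1 + 1) ^ (d + 1 + 1) := Nat.pow_le_pow_right (by omega) (by omega)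
    have ht0b : |t0| ≤ 2 ^ ((d + 1) * ((d + 1) + (sA (d + 1) (bt k N a h) +
        sC E (d + 1) (bt k N a h)))) := by
      refine (abs_ediv_le _ (hSim.pos _ hH0)).trans ?_
      have h1 : |cdet M (d + 1) b| = 1 := by
        rw [cdet, if_pos hd1]
        have h2 := hbas.det
        have h3 : |(toMat (d + 1) b).det| ^ 2 = 1 := by rw [sq_abs, h2]
        have h4 := abs_nonneg (toMat (d + 1) b).det
        nlinarith
      rw [psi, abs_mul, h1, mul_one]
      refine abs_cdet_le fun u hu x hx => ?_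
      rcases List.mem_or_eq_of_mem_set hu with hu | rfl
      · exact (hbs u hu x hx).trans (two_pow_le (by unfold sC; omega))
      · exact (hHs _ hH0 x (List.mem_of_mem_tail hx)).trans (two_pow_le (by omega))
    refine ⟨?_, by simp, ?_⟩
    · intro T' hT'
      simp only [List.mem_map, List.mem_range] at hT'
      obtain ⟨i, hi, rfl⟩ := hT'
      refine ⟨good_subT hT hbas _, ?_⟩
      have hv : |t0 - width (d + 1) + i| ≤ 2 ^ sV E (d + 1) (bt k N a h) := by
        rw [sub_add]
        have h1 : |(width (d + 1) : ℤ) - i| ≤ 2 ^ (8 * (d + 1) + 5) := by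
          have h2 := width_le (d + 1)
          have h3 : ((3 * width (d + 1) + 2 : ℕ) : ℤ) ≤ ((2 ^ (8 * (d + 1) + 5) : ℕ) : ℤ) := by
            exact_mod_cast h2
          push_cast at h3
          rw [abs_le]
          constructor <;> omega
        exact abs_sub_le_two_pow ht0b h1 (by unfold sV; omega) (by unfold sV; omega)
      have := ht_subT (k := k) hh hbas (s := sC E (d + 1) (bt k N a h)) hbs hv
      unfold sT
      exact this
    · constructor
      · rintro ⟨y, hy, hyS⟩
        obtain ⟨h1, h2⟩ := hwin y hy (hC.valid y hy hyS)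
        obtain ⟨t, ht, hty, htj⟩ := bas_coords hbas hy
        have hlast : t.getD d 0 = psi M (d + 1) b y := by
          rw [htj d (by omega)]
          simp only [psi, cdet, if_pos hd1, Nat.add_sub_cancel]
        have hsplit : t = t.take d ++ [psi M (d + 1) b y] := by
          have h3 : t.take (d + 1) = t := List.take_of_length_le (by omega)
          rw [← hlast, List.getD_eq_getElem _ _ (by omega)]
          conv_lhs => rw [← h3]
          rw [List.take_succ_eq_append_getElem (by omega)]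
        refine ⟨subT k d T b (psi M (d + 1) b y), ?_, t.take d, by simp [ht], ?_⟩
        · simp only [List.mem_map, List.mem_range]
          refine ⟨(psi M (d + 1) b y - (t0 - width (d + 1))).toNat, by omega, ?_⟩
          congr 1
          omega
        · rw [← xof_subT hT hbas (by simp [ht]), ← hsplit, hty]
          exact hyS
      · rintro ⟨T', hT', y, hy, hyS⟩
        simp only [List.mem_map, List.mem_range] at hT'
        obtain ⟨i, hi, rfl⟩ := hT'
        refine ⟨comb (d + 1) (y ++ [t0 - width (d + 1) + i]) b, length_comb _ _ _, ?_⟩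
        rw [xof_subT hT hbas hy]
        exact hyS

end Pool.Agent.Lib.UBox
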