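import Pool.Agent.Lib.UBox.Proc

/-!
# The cutting phase: bounds
-/

namespace Pool.Agent.Lib.UBox

open Pool.Agent.Lib.PolyTime

/-! ## Monotonicity -/

theorem sA_mono {D D' s : ℕ} (h : D ≤ D') : sA D s ≤ sA D' s := by unfold sA; gcongr

theorem sB_mono {D D' s : ℕ} (h : D ≤ D') : sB D s ≤ sB D' s := by
  unfold sB
  have := sA_mono (s := s) h
  gcongr

theorem sC_mono {E D D' s : ℕ} (h : D ≤ D') : sC E D s ≤ sC E D' s := by
  unfold sC
  have := sB_mono (s := s) h
  gcongr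

theorem sV_mono {E D D' s : ℕ} (h : D ≤ D') : sV E D s ≤ sV E D' s := by
  unfold sV
  have := sA_mono (s := s) h
  have := sC_mono (E := E) (s := s) h
  gcongr

theorem sT_mono {E D D' s g g' : ℕ} (h : D ≤ D') (hg : g ≤ g') : sT E D s g ≤ sT E D' s g' := by
  unfold sT
  have := sV_mono (E := E) (s := s) h
  have := sC_mono (E := E) (s := s) h
  omega

theorem qq_mono {D D' : ℕ} (h : D ≤ D') : qq D ≤ qq D' := by
  unfold qq
  have h1 : (4 * D + 5) ^ (D + 1) ≤ (4 * D' + 5) ^ (D' + 1) :=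
    (Nat.pow_le_pow_left (by omega) _).trans (Nat.pow_le_pow_right (by omega) (by omega))
  omega

theorem jj_mono {k N D D' : ℕ} (h : D ≤ D') : jj k N D ≤ jj k N D' := by
  unfold jj
  have := Nat.mul_le_mul_right (k * Nat.size N + 1) (qq_mono h)
  omega

/-! ## The largest number of constraints -/

/-- Bound for the number of constraints. -/
def lm (k N : ℕ) : ℕ := 2 * k + jj k N k

theorem lm_le (k N : ℕ) : lm k N ≤ 2 ^ ((k + 2) ^ 3) * (Nat.size N + 1) := by
  have h1 : 4 * k + 5 ≤ 2 ^ (k + 3) := by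
    have h2 : k + 2 ≤ 2 ^ (k + 1) := by
      have : k + 1 < 2 ^ (k + 1) := Nat.lt_two_pow_self
      omega
    rw [show k + 3 = (k + 1) + 2 by omega, pow_add]
    omega
  have h2 : qq k ≤ 2 ^ ((k + 3) * (k + 1) + 1) := by
    unfold qq
    have h0 : (4 * k + 5) ^ (k + 1) ≤ 2 ^ ((k + 3) * (k + 1)) := by
      rw [pow_mul]
      exact Nat.pow_le_pow_left h1 _
    rw [pow_succ 2]
    omega
  have h3 : k + 1 ≤ 2 ^ k := Nat.lt_two_pow_self
  have h4 : 2 * k + 1 + qq k * (k + 1) ≤ 2 ^ ((k + 2) ^ 3) := by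
    have h5 : qq k * (k + 1) ≤ 2 ^ ((k + 3) * (k + 1) + 1 + k) := by
      rw [pow_add _ _ k]
      exact Nat.mul_le_mul h2 h3
    have h6 : 2 * k + 1 ≤ 2 ^ ((k + 3) * (k + 1) + 1 + k) := by
      have h7 : 2 ^ (k + 1) ≤ 2 ^ ((k + 3) * (k + 1) + 1 + k) :=
        Nat.pow_le_pow_right (by norm_num) (by nlinarith)
      rw [pow_succ] at h7
      omega
    have h8 : 2 ^ ((k + 3) * (k + 1) + 1 + k + 1) ≤ 2 ^ ((k + 2) ^ 3) :=
      Nat.pow_le_pow_right (by norm_num) (by nlinarith [Nat.zero_le (k ^ 3), Nat.zero_le (k ^ 2)])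
    rw [pow_succ] at h8
    omega
  calc lm k N = 2 * k + 1 + qq k * (k * Nat.size N + 1) := by unfold lm jj; ring
    _ ≤ (2 * k + 1 + qq k * (k + 1)) * (Nat.size N + 1) := by
        have : qq k * (k * Nat.size N + 1) ≤ qq k * (k + 1) * (Nat.size N + 1) := by
          rw [mul_assoc]
          exact Nat.mul_le_mul_left _ (by nlinarith [Nat.zero_le (Nat.size N)])
        nlinarith [Nat.zero_le (Nat.size N)]
    _ ≤ _ := Nat.mul_le_mul_right _ h4

theorem tame_lmpow : Tame fun k N _ => lm k N ^ ((k + 2) ^ 2) :=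
  Tame.logpow (e := 3) (F := fun k N _ => lm k N) (m := fun k _ _ => (k + 2) ^ 2)
    (fun k N _ => lm_le k N) (fun k _ _ => Nat.pow_le_pow_right (by omega) (by omega))

theorem one_le_lm (k N : ℕ) : 1 ≤ lm k N := by unfold lm jj; omega

theorem tame_lm : Tame fun k N _ => lm k N :=
  tame_lmpow.mono fun k N _ => Nat.le_self_pow (by positivity) _

/-! ## Polynomials -/

/-- Bits of the numbers of the constraints, as a function of `g = h + a`. -/
def bg (k N g : ℕ) : ℕ := k + g + N + 2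

theorem bt_eq (k N a h : ℕ) : bt k N a h = bg k N (h + a) := by unfold bt bg; omega

theorem tame_bg : Tame fun k N g => bg k N g :=
  ((((Tame.k).add Tame.g).add Tame.N).add (Tame.const 2)).mono fun _ _ _ => le_rfl

theorem tame_sA : Tame fun k N g => sA k (bg k N g) :=
  ((Tame.k).mul (((Tame.k).add tame_bg).add (Tame.const 2))).mono fun _ _ _ => le_rfl

theorem tame_sB : Tame fun k N g => sB k (bg k N g) :=
  (((Tame.k).add (Tame.const 2)).mul (((Tame.k).add (Tame.const 1)).add tame_sA)).mono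
    fun _ _ _ => le_rfl

theorem tame_sC (E : ℕ) : Tame fun k N g => sC E k (bg k N g) :=
  ((((Tame.k).add (Tame.const 2)).pow E).mul ((tame_sB).add (Tame.const 1))).mono
    fun _ _ _ => le_rfl

theorem tame_sV (E : ℕ) : Tame fun k N g => sV E k (bg k N g) :=
  ((((Tame.k).mul ((Tame.k).add (tame_sA.add (tame_sC E)))).add ((Tame.const 8).mul Tame.k)).add
    (Tame.const 6)).mono fun _ _ _ => le_rfl

theorem tame_sT (E : ℕ) : Tame fun k N g => sT E k (bg k N g) g :=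
  (((((tame_sV E).add Tame.k).add (tame_sC E)).add Tame.g).add (Tame.const 1)).mono
    fun _ _ _ => le_rfl

theorem tame_width : Tame fun k _ _ => 2 ^ (8 * k + 5) :=
  (Tame.exp 4).mono fun k _ _ => Nat.pow_le_pow_right (by norm_num) (by
    nlinarith [Nat.zero_le (k ^ 3), Nat.zero_le (k ^ 2), Nat.zero_le (k ^ 4)])

theorem tame_szC : Tame fun k N g => szC k (bg k N g) (lm k N) :=
  (((((Tame.const 1).add ((((Tame.const 2).mul tame_bg).add (Tame.const 5)).mul Tame.k)).add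
    (((Tame.const 2).mul tame_bg).add (Tame.const 4))).add (Tame.const 1)).mul tame_lm).mono
    fun _ _ _ => le_rfl

theorem tame_szL (E : ℕ) : Tame fun k N g => szL k k (sT E k (bg k N g) g) (2 ^ (8 * k + 5)) :=
  (((((Tame.const 1).add ((((Tame.const 2).mul (tame_sT E)).add (Tame.const 5)).mul Tame.k)).add
    ((((((Tame.const 2).mul (tame_sT E)).add (Tame.const 5)).mul Tame.k).add
      (Tame.const 1)).mul Tame.k)).add (Tame.const 1)).mul tame_width).mono
    fun _ _ _ => le_rfl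

/-- Everything together. -/
def allB (E k N g : ℕ) : ℕ :=
  lm k N ^ ((k + 2) ^ 2) + 2 ^ ((k + 2) ^ 2) +
    2 ^ ((k + 2) ^ E) * (sB k (bg k N g) + 2) ^ E + 2 ^ (8 * k + 5) +
    (szC k (bg k N g) (lm k N) + szL k k (sT E k (bg k N g) g) (2 ^ (8 * k + 5)) + 3) +
    (lm k N + 1)

theorem tame_allB (E : ℕ) : Tame fun k N g => allB E k N g :=
  (((((tame_lmpow.add (Tame.exp 2)).add ((Tame.exp E).mul
    ((tame_sB.add (Tame.const 2)).pow E))).add tame_width).add
    ((tame_szC.add (tame_szL E)).add (Tame.const 3))).add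
    (tame_lm.add (Tame.const 1))).mono fun _ _ _ => le_rfl

theorem big_of_allB {M k N a h d E : ℕ} (hd : d < k) (hM : allB E k N (h + a) ≤ M) :
    Big M k N (bt k N a h) d h E := by
  have hd1 : d + 1 ≤ k := hd
  have hl : 2 * k + jj k N (d + 1) ≤ lm k N := by
    unfold lm
    have := jj_mono (k := k) (N := N) hd1
    omega
  have hw : 2 * width (d + 1) + 2 ≤ 2 ^ (8 * k + 5) := by
    have h1 := width_le (d + 1)
    have h2 : 2 ^ (8 * (d + 1) + 5) ≤ 2 ^ (8 * k + 5) :=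
      Nat.pow_le_pow_right (by norm_num) (by omega)
    omega
  have hexp : (d + 1) * (d + 1 + 1) ≤ (k + 2) ^ 2 := by nlinarith
  have hm2 : ((2 * k + jj k N (d + 1)) ^ (d + 1)) ^ (d + 1 + 1) ≤ lm k N ^ ((k + 2) ^ 2) := by
    rw [← pow_mul]
    exact (Nat.pow_le_pow_left hl _).trans (Nat.pow_le_pow_right (one_le_lm k N) hexp)
  have hm1 : (2 * k + jj k N (d + 1)) ^ (d + 1) ≤ lm k N ^ ((k + 2) ^ 2) :=
    (Nat.pow_le_pow_left hl _).trans (Nat.pow_le_pow_right (one_le_lm k N) (by nlinarith))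
  have hm3 : (d + 1 + 1) ^ (d + 1 + 1) ≤ 2 ^ ((k + 2) ^ 2) := by
    calc (d + 1 + 1) ^ (d + 1 + 1) ≤ (k + 2) ^ (d + 1 + 1) := Nat.pow_le_pow_left (by omega) _
      _ ≤ (k + 2) ^ (k + 2) := Nat.pow_le_pow_right (by omega) (by omega)
      _ ≤ (2 ^ (k + 2)) ^ (k + 2) := Nat.pow_le_pow_left (Nat.lt_two_pow_self).le _
      _ = 2 ^ ((k + 2) ^ 2) := by rw [← pow_mul, pow_two]
  have hbt := bt_eq k N a h
  have hm4 : 2 ^ ((d + 1 + 2) ^ E) * (sB (d + 1) (bt k N a h) + 2) ^ E ≤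
      2 ^ ((k + 2) ^ E) * (sB k (bg k N (h + a)) + 2) ^ E := by
    rw [hbt]
    have h1 := sB_mono (s := bg k N (h + a)) hd1
    have h2 : 2 ^ ((d + 1 + 2) ^ E) ≤ 2 ^ ((k + 2) ^ E) :=
      Nat.pow_le_pow_right (by norm_num) (Nat.pow_le_pow_left (by omega) _)
    exact Nat.mul_le_mul h2 (Nat.pow_le_pow_left (by omega) _)
  have hm6 : szC (d + 1) (bt k N a h) (2 * k + jj k N (d + 1)) ≤
      szC k (bg k N (h + a)) (lm k N) := by
    rw [hbt]
    unfold szC
    gcongr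
  have hm6' : szL k d (sT E (d + 1) (bt k N a h) h) (2 * width (d + 1) + 2) ≤
      szL k k (sT E k (bg k N (h + a)) (h + a)) (2 ^ (8 * k + 5)) := by
    rw [hbt]
    have h1 := sT_mono (E := E) (s := bg k N (h + a)) hd1 (show h ≤ h + a by omega)
    unfold szL
    gcongr
  unfold allB at hM
  exact ⟨by omega, by omega, by omega, by omega, by omega, by omega, by omega⟩

/-! ## The height of the subtasks -/

theorem sT_le (E k N g : ℕ) : sT E k (bg k N g) g ≤ (k + 2) ^ (E + 14) * (g + N + 2) := by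
  obtain ⟨X, hX⟩ : ∃ X, X = g + N + 2 := ⟨_, rfl⟩
  obtain ⟨K, hK⟩ : ∃ K, K = k + 2 := ⟨_, rfl⟩
  have hK2 : 2 ≤ K := by omega
  have hX1 : 2 ≤ X := by omega
  have hp : ∀ n, 1 ≤ K ^ n := fun n => Nat.one_le_pow _ _ (by omega)
  have h1 : bg k N g ≤ K * X := by unfold bg; nlinarith
  have h2 : sA k (bg k N g) ≤ K ^ 4 * X := by
    unfold sA
    calc k * (k + bg k N g + 2) ≤ K * (K * X + K * X) := by
          refine Nat.mul_le_mul (by omega) ?_
          have : k + 2 ≤ K * X := by nlinarith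
          omega
      _ = K * K * 2 * X := by ring
      _ ≤ K * K * (K * K) * X := by
          refine Nat.mul_le_mul_right _ (Nat.mul_le_mul_left _ (by nlinarith))
      _ = K ^ 4 * X := by ring
  have h3 : sB k (bg k N g) + 1 ≤ K ^ 7 * X := by
    unfold sB
    have h4 : k + 1 + sA k (bg k N g) + 1 ≤ K ^ 4 * X + K ^ 4 * X := by
      have h5 : K * 1 ≤ K ^ 4 * X := Nat.mul_le_mul (Nat.le_self_pow (by norm_num) K) (by omega)
      omega
    calc (k + 2) * (k + 1 + sA k (bg k N g)) + 1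
        ≤ K * (k + 1 + sA k (bg k N g) + 1) := by rw [hK]; nlinarith
      _ ≤ K * (K ^ 4 * X + K ^ 4 * X) := Nat.mul_le_mul_left _ h4
      _ = K ^ 5 * 2 * X := by ring
      _ ≤ K ^ 5 * (K * K) * X := by
          refine Nat.mul_le_mul_right _ (Nat.mul_le_mul_left _ (by nlinarith))
      _ = K ^ 7 * X := by ring
  have h4 : sC E k (bg k N g) ≤ K ^ (E + 7) * X := by
    unfold sC
    rw [← hK, pow_add, mul_assoc]
    exact Nat.mul_le_mul_left _ h3
  have hE7 : K ^ 4 * X ≤ K ^ (E + 7) * X :=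
    Nat.mul_le_mul_right _ (Nat.pow_le_pow_right (by omega) (by omega))
  have hE8 : K ≤ K ^ (E + 7) * X := by
    calc K = K ^ 1 * 1 := by ring
      _ ≤ _ := Nat.mul_le_mul (Nat.pow_le_pow_right (by omega) (by omega)) (by omega)
  have h5 : sV E k (bg k N g) ≤ K ^ (E + 12) * X := by
    unfold sV
    calc k * (k + (sA k (bg k N g) + sC E k (bg k N g))) + 8 * k + 6
        ≤ K * (K ^ (E + 7) * X + (K ^ (E + 7) * X + K ^ (E + 7) * X)) + 8 * K := by
          have : k * (k + (sA k (bg k N g) + sC E k (bg k N g))) ≤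
              K * (K ^ (E + 7) * X + (K ^ (E + 7) * X + K ^ (E + 7) * X)) :=
            Nat.mul_le_mul (by omega) (by omega)
          omega
      _ ≤ K * (K ^ (E + 7) * X + (K ^ (E + 7) * X + K ^ (E + 7) * X)) + 8 * (K ^ (E + 7) * X) := by
          omega
      _ ≤ K * (K ^ (E + 7) * X) * 16 := by nlinarith
      _ ≤ K * (K ^ (E + 7) * X) * K ^ 4 := by
          refine Nat.mul_le_mul_left _ ?_
          calc 16 = 2 ^ 4 := by norm_num
            _ ≤ K ^ 4 := Nat.pow_le_pow_left hK2 4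
      _ = K ^ (E + 12) * X := by ring
  have h6 : K ^ (E + 7) * X ≤ K ^ (E + 12) * X :=
    Nat.mul_le_mul_right _ (Nat.pow_le_pow_right (by omega) (by omega))
  have h7 : X ≤ K ^ (E + 12) * X := Nat.le_mul_of_pos_left _ (pow_pos (by omega) _)
  unfold sT
  rw [← hK, ← hX]
  calc sV E k (bg k N g) + k + sC E k (bg k N g) + g + 1
      ≤ K ^ (E + 12) * X * 4 := by omega
    _ ≤ K ^ (E + 12) * X * K ^ 2 := by
        refine Nat.mul_le_mul_left _ ?_
        calc 4 = 2 ^ 2 := by norm_num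
          _ ≤ K ^ 2 := Nat.pow_le_pow_left hK2 2
    _ = K ^ (E + 14) * X := by ring

theorem Ht.mono {h h' : ℕ} (hh : h ≤ h') {T : Task} (hT : Ht h T) : Ht h' T :=
  ⟨fun a ha => (hT.1 a ha).trans (two_pow_le hh),
    fun u hu a ha => (hT.2 u hu a ha).trans (two_pow_le hh)⟩

theorem process_spec : ∃ E : ℕ, ∀ (M k N a d h : ℕ) (orc : List ℤ → Option (List ℤ))
    (S : Set (List ℤ)) (T : Task), IsOracle k N a orc S → d < k → Good k (d + 1) T → Ht h T →
    2 ^ ((k + 2) ^ E) * (N + 2) ^ E * (h + a + 2) ^ E ≤ M →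
    (process M k N orc T = none → ∃ y : List ℤ, y.length = d + 1 ∧ xof k T y ∈ S) ∧
    ∀ L, process M k N orc T = some L →
      (∀ T' ∈ L, Good k d T' ∧ Ht ((k + 2) ^ E * (h + a + N + 2)) T') ∧
      L.length ≤ 2 ^ ((k + 2) ^ E) ∧
      ((∃ y : List ℤ, y.length = d + 1 ∧ xof k T y ∈ S) ↔
        ∃ T' ∈ L, ∃ y : List ℤ, y.length = d ∧ xof k T' y ∈ S) := by
  obtain ⟨E1, hE1⟩ := lll_spec
  obtain ⟨E2, hE2⟩ := tame_allB E1
  refine ⟨E1 + E2 + 14, fun M k N a d h orc S T ho hd hT hh hM => ?_⟩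
  have hbig : Big M k N (bt k N a h) d h E1 := by
    refine big_of_allB hd ((hE2 k N (h + a)).trans ((tb_mono ?_ k N (h + a)).trans hM))
    omega
  obtain ⟨h1, h2⟩ := process_ok hE1 ho hT hh hbig
  refine ⟨h1, fun L hL => ?_⟩
  obtain ⟨h3, h4, h5⟩ := h2 L hL
  have hd1 : d + 1 ≤ k := hd
  refine ⟨fun T' hT' => ⟨(h3 T' hT').1, (h3 T' hT').2.mono ?_⟩, h4.trans ?_, h5⟩
  · rw [bt_eq]
    refine (sT_mono hd1 (show h ≤ h + a by omega)).trans ((sT_le E1 k N (h + a)).trans ?_)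
    exact Nat.mul_le_mul (Nat.pow_le_pow_right (by omega) (by omega)) (by omega)
  · have h6 := width_le (d + 1)
    have h7 : 2 ^ (8 * (d + 1) + 5) ≤ 2 ^ ((k + 2) ^ (E1 + E2 + 14)) := by
      refine Nat.pow_le_pow_right (by norm_num) ?_
      have h8 : (k + 2) ^ 4 ≤ (k + 2) ^ (E1 + E2 + 14) :=
        Nat.pow_le_pow_right (by omega) (by omega)
      have h9 : 8 * (d + 1) + 5 ≤ (k + 2) ^ 4 := by
        have : 8 * k + 5 ≤ (k + 2) ^ 4 := by
          nlinarith [Nat.zero_le (k ^ 3), Nat.zero_le (k ^ 2), Nat.zero_le (k ^ 4)]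
        omega
      omega
    omega

end Pool.Agent.Lib.UBox
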