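import Mathlib

/-!
# Linear functions attain their maximum at a vertex
-/

namespace Pool.Agent.Lib.UBox

theorem vert_step {d : ℕ} {ι : Type*} [Fintype ι] (A : ι → Fin d → ℝ) (b : ι → ℝ)
    (hbd : ∃ r : ℝ, ∀ y : Fin d → ℝ, (∀ i, dotProduct (A i) y ≤ b i) → ∀ j, |y j| ≤ r)
    (v : Fin d → ℝ) (hv : ∀ i, dotProduct (A i) v ≤ b i) (u : Fin d → ℝ) (hu : u ≠ 0)
    (ht : ∀ i, dotProduct (A i) v = b i → dotProduct (A i) u = 0) :
    ∃ t : ℝ, 0 < t ∧ (∀ i, dotProduct (A i) (v + t • u) ≤ b i) ∧
      ∃ i, dotProduct (A i) (v + t • u) = b i ∧ dotProduct (A i) v ≠ b i := by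
  classical
  obtain ⟨r, hr⟩ := hbd
  set I : Finset ι := Finset.univ.filter fun i => 0 < dotProduct (A i) u with hI
  have hdot : ∀ (i : ι) (t : ℝ), dotProduct (A i) (v + t • u)
      = dotProduct (A i) v + t * dotProduct (A i) u := by
    intro i t
    rw [dotProduct_add, dotProduct_smul, smul_eq_mul]
  have hIne : I.Nonempty := by
    by_contra hne
    rw [Finset.not_nonempty_iff_eq_empty] at hne
    have h1 : ∀ i, dotProduct (A i) u ≤ 0 := by
      intro i
      by_contra h
      push Not at h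
      have : i ∈ I := by simp [hI, h]
      rw [hne] at this
      simp at this
    obtain ⟨j, hj⟩ := Function.ne_iff.1 hu
    have hj0 : u j ≠ 0 := hj
    have h2 : ∀ t : ℝ, 0 ≤ t → |v j + t * u j| ≤ r := by
      intro t ht0
      have h3 := hr (v + t • u) (fun i => by
        rw [hdot]
        nlinarith [hv i, h1 i]) j
      simpa using h3
    have h4 : 0 < |u j| := abs_pos.2 hj0
    have h5 := h2 ((r + |v j| + 1) / |u j|) (by
      have h6 := h2 0 le_rfl
      have : 0 ≤ r := (abs_nonneg _).trans h6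
      positivity)
    have h6 : |(r + |v j| + 1) / |u j| * u j| = r + |v j| + 1 := by
      have h7 : 0 ≤ r := (abs_nonneg _).trans (h2 0 le_rfl)
      rw [abs_mul, abs_div, abs_abs, div_mul_cancel₀ _ h4.ne', abs_of_nonneg (by positivity)]
    have h7 : |(r + |v j| + 1) / |u j| * u j| ≤ |v j + (r + |v j| + 1) / |u j| * u j| + |v j| := by
      have := abs_sub (v j + (r + |v j| + 1) / |u j| * u j) (v j)
      rwa [add_sub_cancel_left] at this
    rw [h6] at h7
    linarith
  obtain ⟨i₀, hi₀, hmin⟩ := I.exists_min_image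
    (fun i => (b i - dotProduct (A i) v) / dotProduct (A i) u) hIne
  have hpos : 0 < dotProduct (A i₀) u := by simpa [hI] using hi₀
  have hnt : dotProduct (A i₀) v ≠ b i₀ := fun h => by
    have := ht i₀ h
    linarith
  have hlt : dotProduct (A i₀) v < b i₀ := lt_of_le_of_ne (hv i₀) hnt
  refine ⟨(b i₀ - dotProduct (A i₀) v) / dotProduct (A i₀) u, by
    apply div_pos <;> linarith, fun i => ?_, i₀, ?_, hnt⟩
  · rw [hdot]
    by_cases hi : 0 < dotProduct (A i) u
    · have h1 := hmin i (by simp [hI, hi])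
      rw [le_div_iff₀ hi] at h1
      linarith
    · push Not at hi
      have h2 : 0 ≤ (b i₀ - dotProduct (A i₀) v) / dotProduct (A i₀) u := by
        apply div_nonneg <;> linarith
      have h3 := hv i
      nlinarith
  · rw [hdot, div_mul_cancel₀ _ hpos.ne']
    ring

theorem vert_select {d : ℕ} {ι : Type*} (A : ι → Fin d → ℝ) (T : Set ι)
    (h : ∀ u : Fin d → ℝ, (∀ i ∈ T, dotProduct (A i) u = 0) → u = 0) :
    ∃ τ : Fin d → ι, (∀ j, τ j ∈ T) ∧ (Matrix.of fun j => A (τ j)).det ≠ 0 := by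
  classical
  have hspan : Submodule.span ℝ (A '' T) = ⊤ := by
    by_contra hne
    obtain ⟨f, hf0, hf⟩ := Submodule.exists_le_ker_of_lt_top _ (lt_top_iff_ne_top.2 hne)
    have hfx : ∀ x : Fin d → ℝ, f x = dotProduct x (fun j => f (Pi.single j 1)) := by
      intro x
      conv_lhs => rw [← Finset.univ_sum_single x]
      rw [map_sum]
      unfold dotProduct
      refine Finset.sum_congr rfl fun j _ => ?_
      have h1 : (Pi.single j (x j) : Fin d → ℝ) = x j • Pi.single j (1 : ℝ) := by
        rw [← Pi.single_smul, smul_eq_mul, mul_one]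
      rw [h1, map_smul, smul_eq_mul]
    have h2 := h (fun j => f (Pi.single j 1)) (fun i hi => by
      rw [← hfx]
      exact hf (Submodule.subset_span ⟨i, hi, rfl⟩))
    apply hf0
    ext x
    rw [LinearMap.comp_apply]
    have h3 := congrFun h2 x
    simpa using h3
  obtain ⟨s, hsS, hspan', hli⟩ := exists_linearIndependent ℝ (A '' T)
  rw [hspan] at hspan'
  have hbas : Module.Basis s ℝ (Fin d → ℝ) := Module.Basis.mk hli (by
    rw [Subtype.range_coe, hspan'])
  have : Finite s := Module.Finite.finite_basis hbas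
  have : Fintype s := Fintype.ofFinite s
  have hcard : Fintype.card s = d := by
    have h1 := Module.finrank_eq_card_basis hbas
    rw [Module.finrank_fin_fun] at h1
    exact h1.symm
  let g : Fin d ≃ s := (Fintype.equivFinOfCardEq hcard).symm
  have hch : ∀ j : Fin d, ∃ i ∈ T, A i = (g j : Fin d → ℝ) := fun j => hsS (g j).2
  choose τ hτ hAτ using hch
  refine ⟨τ, hτ, ?_⟩
  have h1 : LinearIndependent ℝ (fun j : Fin d => A (τ j)) := by
    have h2 : (fun j : Fin d => A (τ j)) = (fun x : s => (x : Fin d → ℝ)) ∘ g := by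
      funext j; exact hAτ j
    rw [h2]
    exact hli.comp g g.injective
  have h3 : IsUnit (Matrix.of fun j => A (τ j)) := Matrix.linearIndependent_rows_iff_isUnit.1 h1
  exact ((Matrix.isUnit_iff_isUnit_det _).1 h3).ne_zero

theorem exists_vertex_max {d : ℕ} {ι : Type*} [Finite ι] (A : ι → Fin d → ℝ) (b : ι → ℝ)
    (hne : ∃ y : Fin d → ℝ, ∀ i, dotProduct (A i) y ≤ b i)
    (hbd : ∃ r : ℝ, ∀ y : Fin d → ℝ, (∀ i, dotProduct (A i) y ≤ b i) → ∀ j, |y j| ≤ r)
    (l : Fin d → ℝ) :
    ∃ (τ : Fin d → ι) (v : Fin d → ℝ), (Matrix.of fun j => A (τ j)).det ≠ 0 ∧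
      (∀ j, dotProduct (A (τ j)) v = b (τ j)) ∧ (∀ i, dotProduct (A i) v ≤ b i) ∧
      ∀ y, (∀ i, dotProduct (A i) y ≤ b i) → dotProduct l y ≤ dotProduct l v := by
  classical
  have : Fintype ι := Fintype.ofFinite ι
  set P : Set (Fin d → ℝ) := {y | ∀ i, dotProduct (A i) y ≤ b i} with hP
  have hcont : ∀ w : Fin d → ℝ, Continuous fun y : Fin d → ℝ => dotProduct w y := by
    intro w
    unfold dotProduct
    fun_prop
  have hcl : IsClosed P := by
    have : P = ⋂ i, {y | dotProduct (A i) y ≤ b i} := by ext y; simp [hP]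
    rw [this]
    exact isClosed_iInter fun i => isClosed_le (hcont _) continuous_const
  obtain ⟨r, hr⟩ := hbd
  have hcomp : IsCompact P := by
    refine (isCompact_Icc (a := fun _ : Fin d => -r) (b := fun _ : Fin d => r)).of_isClosed_subset
      hcl fun y hy => ?_
    rw [Set.mem_Icc]
    exact ⟨fun j => (abs_le.1 (hr y hy j)).1, fun j => (abs_le.1 (hr y hy j)).2⟩
  obtain ⟨v₀, hv₀, hmax₀⟩ := hcomp.exists_isMaxOn hne (hcont l).continuousOn
  set cnt : (Fin d → ℝ) → ℕ := fun v => (Finset.univ.filter fun i => dotProduct (A i) v = b i).card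
    with hcnt
  set M : Set ℕ := {n | ∃ v ∈ P, (∀ y ∈ P, dotProduct l y ≤ dotProduct l v) ∧ cnt v = n} with hM
  have hMne : M.Nonempty := ⟨cnt v₀, v₀, hv₀, fun y hy => hmax₀ hy, rfl⟩
  have hMbd : BddAbove M := by
    refine ⟨Fintype.card ι, ?_⟩
    rintro n ⟨v, _, _, rfl⟩
    exact Finset.card_le_univ _
  obtain ⟨v, hvP, hvmax, hvc⟩ := Nat.sSup_mem hMne hMbd
  have hstep : ∀ u : Fin d → ℝ, (∀ i ∈ {i | dotProduct (A i) v = b i}, dotProduct (A i) u = 0) →
      u = 0 := by
    intro u hu
    by_contra hu0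
    have hneg : ∀ i, dotProduct (A i) v = b i → dotProduct (A i) (-u) = 0 := by
      intro i hi
      rw [dotProduct_neg, hu i hi, neg_zero]
    obtain ⟨t, ht0, htP, i, hi1, hi2⟩ := vert_step A b ⟨r, hr⟩ v hvP u hu0 hu
    obtain ⟨t', ht0', htP', -⟩ := vert_step A b ⟨r, hr⟩ v hvP (-u) (neg_ne_zero.2 hu0) hneg
    have h1 := hvmax _ htP
    have h2 := hvmax _ htP'
    rw [dotProduct_add, dotProduct_smul, smul_eq_mul] at h1 h2
    rw [dotProduct_neg] at h2
    have h3 : dotProduct l u = 0 := by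
      apply le_antisymm
      · by_contra h
        push Not at h
        nlinarith
      · by_contra h
        push Not at h
        nlinarith
    have h4 : cnt v < cnt (v + t • u) := by
      simp only [hcnt]
      apply Finset.card_lt_card
      rw [Finset.ssubset_iff_of_subset]
      · exact ⟨i, by simpa using hi1, by simpa using hi2⟩
      · intro k hk
        simp only [Finset.mem_filter, Finset.mem_univ, true_and] at hk ⊢
        rw [dotProduct_add, dotProduct_smul, hu k hk, smul_zero, add_zero, hk]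
    have h5 : cnt (v + t • u) ∈ M := by
      refine ⟨v + t • u, htP, fun y hy => ?_, rfl⟩
      rw [dotProduct_add, dotProduct_smul, h3, smul_zero, add_zero]
      exact hvmax y hy
    have h6 := le_csSup hMbd h5
    omega
  obtain ⟨τ, hτT, hdet⟩ := vert_select A {i | dotProduct (A i) v = b i} hstep
  exact ⟨τ, v, hdet, hτT, hvP, hvmax⟩

end Pool.Agent.Lib.UBox
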