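import Pool.Agent.Lib.UBox.Basic
import Pool.Agent.Lib.UBox.Vert

/-!
# The largest simplex
-/

namespace Pool.Agent.Lib.UBox

open Pool.Agent.Lib.PolyTime

/-! ### Lists -/

theorem round_set_prod (L : List (List ℤ)) (i : ℕ) (h : List ℤ) (hi : i < L.length) :
    ((L.set i h).map fun h => h.headD 0).prod * (L.getD i []).headD 0 =
      (L.map fun h => h.headD 0).prod * h.headD 0 := by
  induction L generalizing i with
  | nil => simp at hi
  | cons a L ih =>
    cases i with
    | zero => simp; ring
    | succ i =>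
      simp only [List.set_cons_succ, List.map_cons, List.prod_cons, List.getD_cons_succ]
      have := ih i (by simpa using hi)
      rw [mul_assoc, this, mul_assoc]

theorem round_trans {a b c d e f : ℤ} (hd : 0 < d) (hb : 0 ≤ b) (hf : 0 ≤ f)
    (h1 : a * d ≤ c * b) (h2 : c * f ≤ e * d) : a * f ≤ e * b := by
  have h3 : a * f * d ≤ e * b * d := by nlinarith [mul_le_mul_of_nonneg_right h1 hf, mul_le_mul_of_nonneg_right h2 hb]
  exact le_of_mul_le_mul_right h3 hd

theorem round_fold (M d : ℕ) (L : List (List (List ℤ))) :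
    ∀ H : List (List ℤ), 0 < (qual M d H).2 → (∀ K ∈ L, 0 < (qual M d K).2) →
      (L.foldl (pick M d) H = H ∨ L.foldl (pick M d) H ∈ L) ∧
      0 < (qual M d (L.foldl (pick M d) H)).2 ∧
      (qual M d H).1 * (qual M d (L.foldl (pick M d) H)).2 ≤
        (qual M d (L.foldl (pick M d) H)).1 * (qual M d H).2 ∧
      ∀ K ∈ L, (qual M d K).1 * (qual M d (L.foldl (pick M d) H)).2 ≤
        (qual M d (L.foldl (pick M d) H)).1 * (qual M d K).2 := by
  induction L with
  | nil => intro H hH _; simp [hH]
  | cons K L ih =>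
    intro H hH hL
    have hK : 0 < (qual M d K).2 := hL K (by simp)
    have hp : (pick M d H K = H ∨ pick M d H K = K) ∧ 0 < (qual M d (pick M d H K)).2 ∧
        (qual M d H).1 * (qual M d (pick M d H K)).2 ≤ (qual M d (pick M d H K)).1 * (qual M d H).2 ∧
        (qual M d K).1 * (qual M d (pick M d H K)).2 ≤
          (qual M d (pick M d H K)).1 * (qual M d K).2 := by
      unfold pick
      split_ifs with h
      · exact ⟨Or.inr rfl, hK, h.le, le_refl _⟩
      · exact ⟨Or.inl rfl, hH, le_refl _, not_lt.mp h⟩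
    obtain ⟨hp1, hp2, hp3, hp4⟩ := hp
    obtain ⟨h1, h2, h3, h4⟩ := ih (pick M d H K) hp2 (fun K' hK' => hL K' (by simp [hK']))
    rw [List.foldl_cons]
    refine ⟨?_, h2, ?_, ?_⟩
    · rcases h1 with h1 | h1
      · rcases hp1 with hp1 | hp1
        · exact Or.inl (h1.trans hp1)
        · right; rw [h1, hp1]; simp
      · right; simp [h1]
    · exact round_trans hp2 hH.le h2.le hp3 h3
    · intro K' hK'
      rcases List.mem_cons.mp hK' with rfl | hK'
      · exact round_trans hp2 hK.le h2.le hp4 h3
      · exact h4 K' hK'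

theorem round_vec_cons (d : ℕ) (h : List ℤ) :
    vec (d + 1) h = Fin.cons (h.headD 0) (vec d h.tail) := by
  cases h with
  | nil => funext i; refine Fin.cases ?_ (fun i => ?_) i <;> simp [vec]
  | cons a h => funext i; refine Fin.cases ?_ (fun i => ?_) i <;> simp [vec]

theorem round_toMat_ofFn {n : ℕ} (f : Fin n → List ℤ) :
    toMat n (List.ofFn f) = Matrix.of fun i => vec n (f i) := by
  ext i j
  simp [toMat, vec]

theorem round_vec_set {n : ℕ} {v : List ℤ} (hv : v.length = n) (j : Fin n) (a : ℤ) :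
    vec n (v.set j a) = Function.update (vec n v) j a := by
  funext i
  unfold vec
  rw [List.getD_eq_getElem _ _ (by simp [hv]), List.getElem_set]
  by_cases h : j = i
  · subst h; simp
  · have h' : ¬ ((j : ℕ) = (i : ℕ)) := fun h1 => h (Fin.ext h1)
    rw [if_neg h', Function.update_of_ne (fun h1 => h h1.symm)]
    rw [List.getD_eq_getElem _ _ (by simp [hv])]

theorem round_cast_det {n : ℕ} (A : Matrix (Fin n) (Fin n) ℤ) :
    ((A.det : ℤ) : ℝ) = (A.map (Int.cast : ℤ → ℝ)).det :=
  RingHom.map_det (Int.castRingHom ℝ) A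

/-! ### Vertices -/

/-- The point is in the polytope. -/
def round_inP (d : ℕ) (C : List Con) (y : Fin d → ℝ) : Prop :=
  ∀ c ∈ C, 2 * dotProduct (fun i => (vec d c.1 i : ℝ)) y ≤ 2 * (c.2 : ℝ) + 1

theorem round_vertexOf {M d : ℕ} (hM : d ^ d ≤ M) (t : Fin d → Con)
    (ht : ∀ i, (t i).1.length = d) :
    (vertexOf M d (List.ofFn t)).headD 0 =
      |(Matrix.of fun i => (2 : ℤ) • vec d (t i).1).det| ∧
    ∀ i, 2 * dotProduct (vec d (t i).1) (vec d (vertexOf M d (List.ofFn t)).tail) =
      (2 * (t i).2 + 1) * |(Matrix.of fun i => (2 : ℤ) • vec d (t i).1).det| := by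
  set A : Matrix (Fin d) (Fin d) ℤ := Matrix.of fun i => (2 : ℤ) • vec d (t i).1 with hA
  have h1 : cdet M d ((List.ofFn t).map fun c => smul 2 c.1) = A.det := by
    unfold cdet
    rw [if_pos hM, List.map_ofFn, round_toMat_ofFn]
    simp only [Function.comp_def, vec_smul, hA]
  have h2 : ∀ j : Fin d, cdet M d ((List.ofFn t).map fun c => (smul 2 c.1).set j (2 * c.2 + 1)) =
      (A.updateCol j (fun i => 2 * (t i).2 + 1)).det := by
    intro j
    unfold cdet
    rw [if_pos hM, List.map_ofFn, round_toMat_ofFn]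
    congr 1
    ext i l
    simp only [Function.comp_def, Matrix.of_apply]
    rw [round_vec_set (by simp [ht]), Matrix.updateCol_apply, Function.update_apply, vec_smul]
    rfl
  have h3 : ∀ j : Fin d, vec d (vertexOf M d (List.ofFn t)).tail j =
      A.det.sign * (A.updateCol j (fun i => 2 * (t i).2 + 1)).det := by
    intro j
    unfold vertexOf
    rw [List.map_cons, List.tail_cons, List.map_map]
    unfold vec
    rw [List.getD_eq_getElem _ _ (by simp), List.getElem_map, List.getElem_range]
    simp only [Function.comp_def]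
    rw [h1, h2]
  have hs : A.det.sign * A.det = |A.det| := by
    rw [Int.sign_mul_self_eq_abs]
  refine ⟨?_, ?_⟩
  · unfold vertexOf
    rw [List.map_cons, List.headD_cons, h1, hs]
  · intro i
    have h4 : A.mulVec (A.cramer (fun i => 2 * (t i).2 + 1)) i =
        A.det * (2 * (t i).2 + 1) := by
      rw [Matrix.mulVec_cramer]; rfl
    have h5 : (vec d (vertexOf M d (List.ofFn t)).tail) =
        A.det.sign • A.cramer (fun i => 2 * (t i).2 + 1) := by
      funext j
      rw [h3]
      simp only [Pi.smul_apply, smul_eq_mul, Matrix.cramer_apply]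
    rw [h5, ← hs, dotProduct_smul]
    have h6 : 2 * dotProduct (vec d (t i).1) (A.cramer (fun i => 2 * (t i).2 + 1)) =
        A.mulVec (A.cramer (fun i => 2 * (t i).2 + 1)) i := by
      change _ = dotProduct ((2 : ℤ) • vec d (t i).1) (A.cramer (fun i => 2 * (t i).2 + 1))
      rw [smul_dotProduct]
      rfl
    have h7 : 2 * (A.det.sign • dotProduct (vec d (t i).1) (A.cramer (fun i => 2 * (t i).2 + 1))) =
        A.det.sign * (2 * dotProduct (vec d (t i).1) (A.cramer (fun i => 2 * (t i).2 + 1))) := by
      rw [smul_eq_mul]; ring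
    rw [h7, h6, h4]
    ring

theorem round_length_vertexOf (M d : ℕ) (τ : List Con) : (vertexOf M d τ).length = d + 1 := by
  simp [vertexOf]

theorem round_mem_vertices {M d : ℕ} {C : List Con} {h : List ℤ} (hh : h ∈ vertices M d C) :
    h.length = d + 1 ∧ 0 < h.headD 0 ∧
      ∀ c ∈ C, 2 * dot c.1 h.tail ≤ (2 * c.2 + 1) * h.headD 0 := by
  unfold vertices at hh
  rw [List.mem_filter, List.mem_map] at hh
  obtain ⟨⟨τ, _, rfl⟩, h2⟩ := hh
  refine ⟨round_length_vertexOf M d τ, ?_⟩
  unfold okVertex at h2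
  simp only [Bool.and_eq_true, decide_eq_true_eq, List.all_eq_true] at h2
  exact h2

theorem round_max {M d : ℕ} {C : List Con} (hC : ∀ c ∈ C, c.1.length = d)
    (hM1 : C.length ^ d ≤ M) (hMd : d ^ d ≤ M)
    (hbd : ∃ r : ℝ, ∀ y : Fin d → ℝ, round_inP d C y → ∀ j, |y j| ≤ r)
    (hne : ∃ y : Fin d → ℝ, round_inP d C y) (l : Fin d → ℝ) :
    ∃ h ∈ vertices M d C, ∀ y, round_inP d C y →
      (h.headD 0 : ℝ) * dotProduct l y ≤ dotProduct l (fun j => (vec d h.tail j : ℝ)) := by
  classical
  have : Finite {c // c ∈ C} := (List.finite_toSet C).to_subtype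
  have hP : ∀ y : Fin d → ℝ, (∀ i : {c // c ∈ C},
      dotProduct ((fun j => 2 * (vec d i.1.1 j : ℝ)) : Fin d → ℝ) y ≤ 2 * (i.1.2 : ℝ) + 1) ↔
      round_inP d C y := by
    intro y
    have h1 : ∀ c : Con, dotProduct ((fun j => 2 * (vec d c.1 j : ℝ)) : Fin d → ℝ) y =
        2 * dotProduct (fun i => (vec d c.1 i : ℝ)) y := by
      intro c
      simp only [dotProduct, Finset.mul_sum, mul_assoc]
    constructor
    · intro h c hc
      have := h ⟨c, hc⟩
      rwa [h1] at this
    · intro h i
      rw [h1]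
      exact h i.1 i.2
  obtain ⟨τ, v, hdet, h1, h2, h3⟩ := exists_vertex_max
    (fun i : {c // c ∈ C} => ((fun j => 2 * (vec d i.1.1 j : ℝ)) : Fin d → ℝ))
    (fun i => 2 * (i.1.2 : ℝ) + 1)
    (by obtain ⟨y, hy⟩ := hne; exact ⟨y, (hP y).2 hy⟩)
    (by obtain ⟨r, hr⟩ := hbd; exact ⟨r, fun y hy => hr y ((hP y).1 hy)⟩) l
  rw [hP] at h2
  set t : Fin d → Con := fun j => (τ j).1 with ht
  have htC : ∀ j, t j ∈ C := fun j => (τ j).2
  set h : List ℤ := vertexOf M d (List.ofFn t) with hh
  obtain ⟨h4, h5⟩ := round_vertexOf hMd t (fun j => hC _ (htC j))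
  set A : Matrix (Fin d) (Fin d) ℤ := Matrix.of fun i => (2 : ℤ) • vec d (t i).1 with hA
  have hAR : (Matrix.of fun j => ((fun l => 2 * (vec d (τ j).1.1 l : ℝ)) : Fin d → ℝ)) =
      A.map (Int.cast : ℤ → ℝ) := by
    ext i j
    simp [hA, ht]
  have hdet' : ((A.det : ℤ) : ℝ) ≠ 0 := by
    have : ((A.det : ℤ) : ℝ) = (A.map (Int.cast : ℤ → ℝ)).det := round_cast_det A
    rw [this, ← hAR]
    exact hdet
  have hdetZ : A.det ≠ 0 := by exact_mod_cast hdet'
  have hpos : 0 < |A.det| := abs_pos.mpr hdetZ
  have hvh : ∀ j, (|A.det| : ℤ) * v j = (vec d h.tail j : ℝ) := by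
    have hz : (A.map (Int.cast : ℤ → ℝ)).mulVec
        ((((|A.det| : ℤ) : ℝ)) • v - fun j => (vec d h.tail j : ℝ)) = 0 := by
      rw [Matrix.mulVec_sub, Matrix.mulVec_smul]
      funext i
      simp only [Pi.sub_apply, Pi.smul_apply, smul_eq_mul, Pi.zero_apply]
      have e1 : (A.map (Int.cast : ℤ → ℝ)).mulVec v i = 2 * ((t i).2 : ℝ) + 1 := by
        rw [← hAR]
        exact h1 i
      have e2 : (A.map (Int.cast : ℤ → ℝ)).mulVec (fun j => (vec d h.tail j : ℝ)) i =
          ((2 * (t i).2 + 1) * |A.det| : ℤ) := by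
        rw [← h5 i]
        simp only [Matrix.mulVec, dotProduct, Matrix.map_apply]
        push_cast
        rw [Finset.mul_sum]
        refine Finset.sum_congr rfl fun j _ => ?_
        simp only [hA, Matrix.of_apply, Pi.smul_apply, smul_eq_mul]
        push_cast
        ring
      rw [e1, e2]
      push_cast
      ring
    have hz2 := Matrix.eq_zero_of_mulVec_eq_zero (M := A.map (Int.cast : ℤ → ℝ)) (by
      rw [← hAR]; exact hdet) hz
    intro j
    have := congrFun hz2 j
    simp only [Pi.sub_apply, Pi.smul_apply, smul_eq_mul, Pi.zero_apply] at this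
    linarith
  have hht : h.tail.length = d := by simp [hh, round_length_vertexOf]
  refine ⟨h, ?_, ?_⟩
  · unfold vertices
    rw [List.mem_filter]
    constructor
    · rw [List.mem_map]
      refine ⟨List.ofFn t, ?_, rfl⟩
      unfold ctuples
      rw [if_pos hM1, mem_tuples]
      refine ⟨by simp, ?_⟩
      intro a ha
      rw [List.mem_ofFn] at ha
      obtain ⟨j, rfl⟩ := ha
      exact htC j
    · unfold okVertex
      simp only [Bool.and_eq_true, decide_eq_true_eq, List.all_eq_true]
      refine ⟨by rw [h4]; exact hpos, ?_⟩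
      intro c hc
      rw [h4, dot_eq (hC c hc) hht]
      have e1 := h2 c hc
      have e2 : ((2 * dotProduct (vec d c.1) (vec d h.tail) : ℤ) : ℝ) ≤
          (((2 * c.2 + 1) * |A.det| : ℤ) : ℝ) := by
        have e3 : ((2 * dotProduct (vec d c.1) (vec d h.tail) : ℤ) : ℝ) =
            ((|A.det| : ℤ) : ℝ) * (2 * dotProduct (fun i => (vec d c.1 i : ℝ)) v) := by
          simp only [dotProduct]
          push_cast
          rw [Finset.mul_sum, Finset.mul_sum, Finset.mul_sum]
          refine Finset.sum_congr rfl fun j _ => ?_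
          rw [← hvh j]
          push_cast
          ring
        rw [e3]
        have e4 : (0 : ℝ) < ((|A.det| : ℤ) : ℝ) := by exact_mod_cast hpos
        calc ((|A.det| : ℤ) : ℝ) * (2 * dotProduct (fun i => (vec d c.1 i : ℝ)) v)
            ≤ ((|A.det| : ℤ) : ℝ) * (2 * (c.2 : ℝ) + 1) := by
              exact mul_le_mul_of_nonneg_left e1 e4.le
          _ = _ := by push_cast; ring
      exact_mod_cast e2
  · intro y hy
    have e1 : dotProduct l y ≤ dotProduct l v := h3 y ((hP y).2 hy)
    have e2 : dotProduct l (fun j => (vec d h.tail j : ℝ)) =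
        ((|A.det| : ℤ) : ℝ) * dotProduct l v := by
      simp only [dotProduct, Finset.mul_sum]
      refine Finset.sum_congr rfl fun j _ => ?_
      rw [← hvh j]
      ring
    rw [e2, h4]
    have e4 : (0 : ℝ) < ((|A.det| : ℤ) : ℝ) := by exact_mod_cast hpos
    exact mul_le_mul_of_nonneg_left e1 e4.le

/-! ### The largest simplex -/

theorem round_qual_pos {M d : ℕ} {C : List Con} {K : List (List ℤ)}
    (hK : K ∈ ctuples M (vertices M d C) (d + 1)) : 0 < (qual M d K).2 := by
  have h1 : ∀ h ∈ K, h ∈ vertices M d C := by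
    unfold ctuples at hK
    split_ifs at hK
    · exact (mem_tuples.mp hK).2
    · simp at hK
  unfold qual
  apply List.prod_pos
  intro a ha
  rw [List.mem_map] at ha
  obtain ⟨h, hh, rfl⟩ := ha
  exact (round_mem_vertices (h1 h hh)).2.1

theorem round_qual_nil (M d : ℕ) : qual M d [] = (0, 1) := by
  unfold qual cdet
  have : (toMat (d + 1) []).det = 0 := by
    have : toMat (d + 1) [] = 0 := by
      ext i j
      simp [toMat]
    rw [this, Matrix.det_zero]
  rw [this]
  simp

theorem round_simplexOf (M d : ℕ) (C : List Con) :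
    (simplexOf M d C = [] ∨ simplexOf M d C ∈ ctuples M (vertices M d C) (d + 1)) ∧
    0 < (qual M d (simplexOf M d C)).2 ∧
    ∀ K ∈ ctuples M (vertices M d C) (d + 1),
      (qual M d K).1 * (qual M d (simplexOf M d C)).2 ≤
        (qual M d (simplexOf M d C)).1 * (qual M d K).2 := by
  have h := round_fold M d (ctuples M (vertices M d C) (d + 1)) []
    (by rw [round_qual_nil]; norm_num) (fun K hK => round_qual_pos hK)
  exact ⟨h.1, h.2.1, h.2.2.2⟩

theorem round_ctuples {M d : ℕ} {C : List Con} (hM2 : (C.length ^ d) ^ (d + 1) ≤ M) :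
    ctuples M (vertices M d C) (d + 1) = tuples (vertices M d C) (d + 1) := by
  unfold ctuples
  rw [if_pos]
  refine le_trans (Nat.pow_le_pow_left ?_ _) hM2
  unfold vertices
  refine le_trans (List.length_filter_le _ _) ?_
  rw [List.length_map]
  unfold ctuples
  split_ifs
  · rw [length_tuples]
  · simp

theorem round_eps (L : List ℝ) : ∃ ε : ℝ, 0 < ε ∧ ∀ x ∈ L, ε * x ≤ 1 := by
  induction L with
  | nil => exact ⟨1, by norm_num, by simp⟩
  | cons a L ih =>
    obtain ⟨ε, h1, h2⟩ := ih
    refine ⟨min ε (1 / (|a| + 1)), lt_min h1 (by positivity), ?_⟩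
    intro x hx
    rcases List.mem_cons.mp hx with rfl | hx
    · have h3 : min ε (1 / (|x| + 1)) * x ≤ (1 / (|x| + 1)) * |x| :=
        (mul_le_mul_of_nonneg_left (le_abs_self x) (lt_min h1 (by positivity)).le).trans
          (mul_le_mul_of_nonneg_right (min_le_right _ _) (abs_nonneg x))
      refine h3.trans ?_
      rw [div_mul_eq_mul_div, one_mul, div_le_one (by positivity)]
      linarith
    · rcases le_or_gt x 0 with h | h
      · have : min ε (1 / (|a| + 1)) * x ≤ 0 :=
          mul_nonpos_of_nonneg_of_nonpos (lt_min h1 (by positivity)).le h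
        linarith
      · exact (mul_le_mul_of_nonneg_right (min_le_left _ _) h.le).trans (h2 x hx)

/-- The vertices span if there is an integer point. -/
theorem round_exists_det {M d : ℕ} {C : List Con} (hC : ∀ c ∈ C, c.1.length = d)
    (hM1 : C.length ^ d ≤ M) (hMd : d ^ d ≤ M)
    (hbd : ∃ r : ℝ, ∀ y : Fin d → ℝ, round_inP d C y → ∀ j, |y j| ≤ r)
    {y0 : List ℤ} (hy0 : y0.length = d) (hs : sat C y0) :
    ∃ K ∈ tuples (vertices M d C) (d + 1), (toMat (d + 1) K).det ≠ 0 := by
  classical
  set V : Type := Fin (d + 1) → ℝ with hV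
  set rv : List ℤ → V := fun h => fun i => (vec (d + 1) h i : ℝ) with hrv
  set s : Set V := rv '' {h | h ∈ vertices M d C} with hsdef
  -- the point `y0`
  set v0 : Fin d → ℝ := fun j => (vec d y0 j : ℝ) with hv0
  have hv0c : ∀ c ∈ C, 2 * dotProduct (fun i => (vec d c.1 i : ℝ)) v0 ≤ 2 * (c.2 : ℝ) := by
    intro c hc
    have h1 := hs c hc
    rw [dot_eq (hC c hc) hy0] at h1
    have h2 : ((dotProduct (vec d c.1) (vec d y0) : ℤ) : ℝ) ≤ (c.2 : ℝ) := by exact_mod_cast h1
    have h3 : ((dotProduct (vec d c.1) (vec d y0) : ℤ) : ℝ) =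
        dotProduct (fun i => (vec d c.1 i : ℝ)) v0 := by
      simp only [dotProduct, hv0]
      push_cast
      rfl
    rw [h3] at h2
    linarith
  have hne : ∃ y : Fin d → ℝ, round_inP d C y := ⟨v0, fun c hc => by have := hv0c c hc; linarith⟩
  have hspan : Submodule.span ℝ s = ⊤ := by
    by_contra hcon
    obtain ⟨f, hf0, hf⟩ := Submodule.exists_le_ker_of_lt_top (Submodule.span ℝ s)
      (lt_top_iff_ne_top.mpr hcon)
    set a : ℝ := f (Pi.single 0 1) with ha
    set l : Fin d → ℝ := fun j => f (Pi.single j.succ 1) with hl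
    have hfu : ∀ u : V, f u = a * u 0 + dotProduct l (fun j => u j.succ) := by
      intro u
      have h1 : f u = ∑ i, u i * f (Pi.single i 1) := by
        conv_lhs => rw [pi_eq_sum_univ' u]
        rw [map_sum]
        refine Finset.sum_congr rfl fun i _ => ?_
        rw [map_smul, smul_eq_mul]
      rw [h1, Fin.sum_univ_succ]
      simp only [dotProduct, ha, hl]
      rw [mul_comm]
      congr 1
      refine Finset.sum_congr rfl fun i _ => ?_
      ring
    have hker : ∀ h ∈ vertices M d C, a * (h.headD 0 : ℝ) +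
        dotProduct l (fun j => (vec d h.tail j : ℝ)) = 0 := by
      intro h hh
      have h1 : rv h ∈ Submodule.span ℝ s := Submodule.subset_span ⟨h, hh, rfl⟩
      have h2 : f (rv h) = 0 := by
        have := hf h1
        rwa [LinearMap.mem_ker] at this
      rw [hfu] at h2
      simp only [hrv, round_vec_cons, Fin.cons_zero, Fin.cons_succ] at h2
      exact h2
    have hle : ∀ y, round_inP d C y → dotProduct l y ≤ -a := by
      intro y hy
      obtain ⟨h, hh, h1⟩ := round_max hC hM1 hMd hbd hne l
      have h2 := h1 y hy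
      have h3 := hker h hh
      have h4 : (0 : ℝ) < (h.headD 0 : ℝ) := by exact_mod_cast (round_mem_vertices hh).2.1
      nlinarith
    have hge : ∀ y, round_inP d C y → -a ≤ dotProduct l y := by
      intro y hy
      obtain ⟨h, hh, h1⟩ := round_max hC hM1 hMd hbd hne (-l)
      have h2 := h1 y hy
      have h3 := hker h hh
      have h4 : (0 : ℝ) < (h.headD 0 : ℝ) := by exact_mod_cast (round_mem_vertices hh).2.1
      rw [neg_dotProduct, neg_dotProduct] at h2
      nlinarith
    obtain ⟨ε, hε, hε2⟩ := round_eps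
      (C.map fun c => 2 * dotProduct (fun i => (vec d c.1 i : ℝ)) l)
    have hin : round_inP d C (v0 + ε • l) := by
      intro c hc
      have h1 := hv0c c hc
      have h2 := hε2 (2 * dotProduct (fun i => (vec d c.1 i : ℝ)) l)
        (List.mem_map.mpr ⟨c, hc, rfl⟩)
      rw [dotProduct_add, dotProduct_smul, smul_eq_mul]
      nlinarith
    have h1 := hle _ hin
    have h2 := hge _ (hne.choose_spec)
    have h3 := hge v0 (fun c hc => by have := hv0c c hc; linarith)
    rw [dotProduct_add, dotProduct_smul, smul_eq_mul] at h1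
    have h4 : 0 ≤ dotProduct l l := by
      unfold dotProduct
      exact Finset.sum_nonneg fun i _ => mul_self_nonneg _
    have h5 : dotProduct l l = 0 := by nlinarith
    have hl0 : l = 0 := dotProduct_self_eq_zero.mp h5
    obtain ⟨h, hh, -⟩ := round_max hC hM1 hMd hbd hne l
    have h6 := hker h hh
    rw [hl0, zero_dotProduct, add_zero] at h6
    have h4 : (0 : ℝ) < (h.headD 0 : ℝ) := by exact_mod_cast (round_mem_vertices hh).2.1
    have ha0 : a = 0 := by
      rcases mul_eq_zero.mp h6 with h7 | h7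
      · exact h7
      · exact absurd h7 h4.ne'
    apply hf0
    refine LinearMap.ext fun u => ?_
    rw [hfu, hl0, ha0]
    simp
  obtain ⟨f, hf1, _, hf2⟩ := Submodule.exists_fun_fin_finrank_span_eq ℝ s
  have hfr : Module.finrank ℝ (Submodule.span ℝ s) = d + 1 := by
    rw [hspan, finrank_top]
    exact Module.finrank_fin_fun ℝ
  have hf1' : ∀ i : Fin (d + 1), ∃ h, h ∈ vertices M d C ∧ rv h = f (Fin.cast hfr.symm i) := by
    intro i
    obtain ⟨h, hh, h2⟩ := hf1 (Fin.cast hfr.symm i)
    exact ⟨h, hh, h2⟩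
  choose g hg1 hg2 using hf1'
  refine ⟨List.ofFn g, ?_, ?_⟩
  · rw [mem_tuples]
    refine ⟨by simp, ?_⟩
    intro a ha
    rw [List.mem_ofFn] at ha
    obtain ⟨j, rfl⟩ := ha
    exact hg1 j
  · have h1 : LinearIndependent ℝ ((toMat (d + 1) (List.ofFn g)).map (Int.cast : ℤ → ℝ)).row := by
      have h2 : ((toMat (d + 1) (List.ofFn g)).map (Int.cast : ℤ → ℝ)).row =
          f ∘ (Fin.cast hfr.symm) := by
        funext i
        simp only [Function.comp_def]
        rw [← hg2 i, round_toMat_ofFn]
        rfl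
      rw [h2]
      exact hf2.comp _ (Fin.cast_injective _)
    rw [Matrix.linearIndependent_rows_iff_isUnit, Matrix.isUnit_iff_isUnit_det,
      isUnit_iff_ne_zero, ← round_cast_det] at h1
    exact_mod_cast h1

theorem round_lam {d : ℕ} {H : List (List ℤ)} (hH : H.length = d + 1) (i : Fin (d + 1))
    (u : List ℤ) :
    lam d H i u = (H.getD i []).headD 0 *
      (Matrix.cramer (toMat (d + 1) H).transpose (vec (d + 1) u)) i := by
  unfold lam
  rw [toMat_set hH, Matrix.cramer_transpose_apply]

theorem round_qual_fst {M d : ℕ} (hM3 : (d + 1) ^ (d + 1) ≤ M) (K : List (List ℤ)) :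
    (qual M d K).1 = |(toMat (d + 1) K).det| := by
  unfold qual cdet
  rw [if_pos hM3]

theorem simplex_spec {M d : ℕ} {C : List Con} (hd : 1 ≤ d) (hC : ∀ c ∈ C, c.1.length = d)
    (hM1 : C.length ^ d ≤ M) (hM2 : (C.length ^ d) ^ (d + 1) ≤ M) (hM3 : (d + 1) ^ (d + 1) ≤ M)
    (hbd : ∃ r : ℝ, ∀ y : Fin d → ℝ,
      (∀ c ∈ C, 2 * dotProduct (fun i => (vec d c.1 i : ℝ)) y ≤ 2 * (c.2 : ℝ) + 1) →
        ∀ j, |y j| ≤ r) :
    (cdet M (d + 1) (simplexOf M d C) = 0 → ∀ y : List ℤ, y.length = d → ¬ sat C y) ∧
    (cdet M (d + 1) (simplexOf M d C) ≠ 0 → IsSimplex d C (simplexOf M d C)) := by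
  have hbd' : ∃ r : ℝ, ∀ y : Fin d → ℝ, round_inP d C y → ∀ j, |y j| ≤ r := hbd
  have hMd : d ^ d ≤ M := by
    refine le_trans ?_ hM3
    exact (Nat.pow_le_pow_left (Nat.le_succ d) d).trans
      (Nat.pow_le_pow_right (Nat.succ_pos d) (Nat.le_succ d))
  obtain ⟨hS1, hS2, hS3⟩ := round_simplexOf M d C
  set H := simplexOf M d C with hH
  have hcd : cdet M (d + 1) H = (toMat (d + 1) H).det := by
    unfold cdet
    rw [if_pos hM3]
  constructor
  · intro h0 y hy hs
    obtain ⟨K, hK1, hK2⟩ := round_exists_det hC hM1 hMd hbd' hy hs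
    rw [← round_ctuples hM2] at hK1
    have h1 := hS3 K hK1
    rw [round_qual_fst hM3, round_qual_fst hM3, ← hcd, h0, abs_zero, zero_mul] at h1
    have h2 : 0 < |(toMat (d + 1) K).det| * (qual M d H).2 := mul_pos (abs_pos.mpr hK2) hS2
    omega
  · intro hne
    rw [hcd] at hne
    have hHm : H ∈ tuples (vertices M d C) (d + 1) := by
      rw [← round_ctuples hM2]
      rcases hS1 with h1 | h1
      · exfalso
        apply hne
        have := congrArg Prod.fst (round_qual_nil M d)
        rw [round_qual_fst hM3] at this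
        rw [h1]
        exact abs_eq_zero.mp this
      · exact h1
    obtain ⟨hlen, hmem⟩ := mem_tuples.mp hHm
    have hpos : ∀ h ∈ H, 0 < h.headD 0 := fun h hh => (round_mem_vertices (hmem h hh)).2.1
    have hget : ∀ i : Fin (d + 1), H.getD i [] ∈ H := by
      intro i
      rw [List.getD_eq_getElem _ _ (by rw [hlen]; exact i.2)]
      exact List.getElem_mem _
    refine ⟨hlen, fun h hh => (round_mem_vertices (hmem h hh)).1, hpos, hne, ?_, ?_⟩
    · -- bary
      intro y hy hs i hi
      set i' : Fin (d + 1) := ⟨i, hi⟩ with hi'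
      set D : ℤ := (H.getD i []).headD 0 with hD
      have hDpos : 0 < D := hpos _ (hget i')
      -- maximality
      have hmax : ∀ h ∈ vertices M d C,
          D * |(toMat (d + 1) (H.set i h)).det| ≤ h.headD 0 * |(toMat (d + 1) H).det| := by
        intro h hh
        have hK : H.set i h ∈ ctuples M (vertices M d C) (d + 1) := by
          rw [round_ctuples hM2, mem_tuples]
          refine ⟨by simp [hlen], ?_⟩
          intro a ha
          rcases List.mem_or_eq_of_mem_set ha with h1 | h1
          · exact hmem a h1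
          · rw [h1]; exact hh
        have h1 := hS3 _ hK
        rw [round_qual_fst hM3, round_qual_fst hM3] at h1
        have h2 : (qual M d (H.set i h)).2 * D = (qual M d H).2 * h.headD 0 :=
          round_set_prod H i h (by rw [hlen]; exact hi)
        have h3 : D * |(toMat (d + 1) (H.set i h)).det| * (qual M d H).2 ≤
            h.headD 0 * |(toMat (d + 1) H).det| * (qual M d H).2 := by
          calc D * |(toMat (d + 1) (H.set i h)).det| * (qual M d H).2
              = (|(toMat (d + 1) (H.set i h)).det| * (qual M d H).2) * D := by ring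
            _ ≤ (|(toMat (d + 1) H).det| * (qual M d (H.set i h)).2) * D :=
              mul_le_mul_of_nonneg_right h1 hDpos.le
            _ = |(toMat (d + 1) H).det| * ((qual M d (H.set i h)).2 * D) := by ring
            _ = _ := by rw [h2]; ring
        exact le_of_mul_le_mul_right h3 hS2
      -- the real linear form
      set B : Matrix (Fin (d + 1)) (Fin (d + 1)) ℝ :=
        ((toMat (d + 1) H).map (Int.cast : ℤ → ℝ)).transpose with hB
      set f : (Fin (d + 1) → ℝ) → ℝ := fun u => Matrix.cramer B u i' with hf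
      have hfcast : ∀ h : List ℤ, f (fun j => (vec (d + 1) h j : ℝ)) =
          (((toMat (d + 1) (H.set i h)).det : ℤ) : ℝ) := by
        intro h
        have h1 : toMat (d + 1) (H.set i h) =
            (toMat (d + 1) H).updateRow i' (vec (d + 1) h) := toMat_set hlen i' h
        rw [h1, round_cast_det, hf]
        simp only
        rw [hB, Matrix.cramer_transpose_apply, Matrix.map_updateRow]
        rfl
      set a : ℝ := f (Pi.single 0 1) with ha
      set l : Fin d → ℝ := fun j => f (Pi.single j.succ 1) with hl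
      have hfu : ∀ u : Fin (d + 1) → ℝ, f u = a * u 0 + dotProduct l (fun j => u j.succ) := by
        intro u
        have h1 : f u = ∑ i, u i * f (Pi.single i 1) := by
          have h2 : Matrix.cramer B u = ∑ i, u i • Matrix.cramer B (Pi.single i 1) := by
            conv_lhs => rw [pi_eq_sum_univ' u]
            rw [map_sum]
            refine Finset.sum_congr rfl fun i _ => ?_
            rw [map_smul]
          simp only [hf]
          rw [h2, Finset.sum_apply]
          refine Finset.sum_congr rfl fun i _ => ?_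
          rw [Pi.smul_apply, smul_eq_mul]
        rw [h1, Fin.sum_univ_succ]
        simp only [dotProduct, ha, hl]
        rw [mul_comm]
        congr 1
        refine Finset.sum_congr rfl fun i _ => ?_
        ring
      set v0 : Fin d → ℝ := fun j => (vec d y j : ℝ) with hv0
      have hin : round_inP d C v0 := by
        intro c hc
        have h1 := hs c hc
        rw [dot_eq (hC c hc) hy] at h1
        have h2 : ((dotProduct (vec d c.1) (vec d y) : ℤ) : ℝ) ≤ (c.2 : ℝ) := by exact_mod_cast h1
        have h3 : ((dotProduct (vec d c.1) (vec d y) : ℤ) : ℝ) =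
            dotProduct (fun i => (vec d c.1 i : ℝ)) v0 := by
          simp only [dotProduct, hv0]
          push_cast
          rfl
        rw [h3] at h2
        linarith
      have hfy : f (fun j => (vec (d + 1) (1 :: y) j : ℝ)) = a + dotProduct l v0 := by
        rw [hfu, round_vec_cons]
        simp [hv0]
      have key : ∀ σ : ℝ, |σ| = 1 →
          (D : ℝ) * (σ * f (fun j => (vec (d + 1) (1 :: y) j : ℝ))) ≤
            ((|(toMat (d + 1) H).det| : ℤ) : ℝ) := by
        intro σ hσ
        obtain ⟨h, hh, h1⟩ := round_max hC hM1 hMd hbd' ⟨v0, hin⟩ (σ • l)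
        have h2 := h1 v0 hin
        have hhpos : (0 : ℝ) < (h.headD 0 : ℝ) := by exact_mod_cast (round_mem_vertices hh).2.1
        have h3 : (h.headD 0 : ℝ) * (σ * f (fun j => (vec (d + 1) (1 :: y) j : ℝ))) ≤
            σ * f (fun j => (vec (d + 1) h j : ℝ)) := by
          rw [hfy, hfu (fun j => (vec (d + 1) h j : ℝ)), round_vec_cons]
          simp only [Fin.cons_zero, Fin.cons_succ]
          rw [smul_dotProduct, smul_dotProduct, smul_eq_mul, smul_eq_mul] at h2
          nlinarith
        have h4 : σ * f (fun j => (vec (d + 1) h j : ℝ)) ≤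
            ((|(toMat (d + 1) (H.set i h)).det| : ℤ) : ℝ) := by
          rw [hfcast]
          refine (le_abs_self _).trans ?_
          rw [abs_mul, hσ, one_mul]
          push_cast
          exact le_refl _
        have h5 : ((D * |(toMat (d + 1) (H.set i h)).det| : ℤ) : ℝ) ≤
            ((h.headD 0 * |(toMat (d + 1) H).det| : ℤ) : ℝ) := by exact_mod_cast hmax h hh
        rw [Int.cast_mul, Int.cast_mul] at h5
        have hDR : (0 : ℝ) < (D : ℝ) := by exact_mod_cast hDpos
        have h6 : (h.headD 0 : ℝ) * ((D : ℝ) * (σ * f (fun j => (vec (d + 1) (1 :: y) j : ℝ)))) ≤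
            (h.headD 0 : ℝ) * ((|(toMat (d + 1) H).det| : ℤ) : ℝ) := by
          calc (h.headD 0 : ℝ) * ((D : ℝ) * (σ * f (fun j => (vec (d + 1) (1 :: y) j : ℝ))))
              = (D : ℝ) * ((h.headD 0 : ℝ) * (σ * f (fun j => (vec (d + 1) (1 :: y) j : ℝ)))) := by
                ring
            _ ≤ (D : ℝ) * ((|(toMat (d + 1) (H.set i h)).det| : ℤ) : ℝ) :=
                mul_le_mul_of_nonneg_left (h3.trans h4) hDR.le
            _ ≤ _ := h5
        exact le_of_mul_le_mul_left h6 hhpos
      have hcast : ((lam d H i (1 :: y) : ℤ) : ℝ) =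
          (D : ℝ) * f (fun j => (vec (d + 1) (1 :: y) j : ℝ)) := by
        rw [hfcast]
        unfold lam
        push_cast
        rfl
      have h7 := key 1 (by simp)
      have h8 := key (-1) (by simp)
      have h9 : |((lam d H i (1 :: y) : ℤ) : ℝ)| ≤ ((|(toMat (d + 1) H).det| : ℤ) : ℝ) := by
        rw [hcast, abs_le]
        constructor <;> linarith
      exact_mod_cast h9
    · -- inner
      intro y hy hlam c hc
      have hmv := Matrix.mulVec_cramer (toMat (d + 1) H).transpose (vec (d + 1) (1 :: y))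
      rw [Matrix.det_transpose] at hmv
      set g := Matrix.cramer (toMat (d + 1) H).transpose (vec (d + 1) (1 :: y)) with hg
      set Δ := (toMat (d + 1) H).det with hΔ
      set w : Fin (d + 1) → ℤ := Fin.cons (-(2 * c.2 + 1)) ((2 : ℤ) • vec d c.1) with hw
      have hcl := hC c hc
      have hφ : ∀ h : List ℤ, h.length = d + 1 → dotProduct w (vec (d + 1) h) =
          2 * dot c.1 h.tail - (2 * c.2 + 1) * h.headD 0 := by
        intro h hh
        rw [dot_eq hcl (by simp [hh]), round_vec_cons, hw]
        simp only [dotProduct, Fin.sum_univ_succ, Fin.cons_zero, Fin.cons_succ, Pi.smul_apply,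
          smul_eq_mul, Finset.mul_sum]
        rw [neg_mul, neg_add_eq_sub]
        congr 1
        refine Finset.sum_congr rfl fun j _ => ?_
        ring
      have h1 : Δ * dotProduct w (vec (d + 1) (1 :: y)) =
          ∑ i : Fin (d + 1), g i * dotProduct w (vec (d + 1) (H.getD i [])) := by
        have h2 : Δ * dotProduct w (vec (d + 1) (1 :: y)) =
            dotProduct w ((toMat (d + 1) H).transpose.mulVec g) := by
          rw [hmv, dotProduct_smul, smul_eq_mul]
        rw [h2]
        simp only [dotProduct, Matrix.mulVec, Matrix.transpose_apply, Finset.mul_sum]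
        rw [Finset.sum_comm]
        refine Finset.sum_congr rfl fun i _ => Finset.sum_congr rfl fun j _ => ?_
        rw [toMat_row]
        ring
      have h3 : Δ * (Δ * dotProduct w (vec (d + 1) (1 :: y))) ≤ 0 := by
        rw [h1, Finset.mul_sum]
        apply Finset.sum_nonpos
        intro i _
        have h4 := hlam i i.2
        rw [round_lam hlen] at h4
        have h5 : 0 < (H.getD i []).headD 0 := hpos _ (hget i)
        have h6 : 0 ≤ g i * Δ := by
          have h7 : 0 ≤ (H.getD i []).headD 0 * (g i * Δ) := by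
            rw [← mul_assoc]; exact h4
          exact nonneg_of_mul_nonneg_right h7 h5
        have hv := round_mem_vertices (hmem _ (hget i))
        have h8 : dotProduct w (vec (d + 1) (H.getD i [])) ≤ 0 := by
          rw [hφ _ hv.1]
          have := hv.2.2 c hc
          linarith
        have h9 : Δ * (g i * dotProduct w (vec (d + 1) (H.getD i []))) =
            (g i * Δ) * dotProduct w (vec (d + 1) (H.getD i [])) := by ring
        rw [h9]
        exact mul_nonpos_of_nonneg_of_nonpos h6 h8
      have h10 : dotProduct w (vec (d + 1) (1 :: y)) ≤ 0 := by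
        by_contra hcon
        have h11 : 0 < Δ * Δ := mul_self_pos.mpr hne
        have h12 : 0 < Δ * Δ * dotProduct w (vec (d + 1) (1 :: y)) := mul_pos h11 (not_le.mp hcon)
        rw [mul_assoc] at h12
        exact absurd h3 (not_le.mpr h12)
      rw [hφ (1 :: y) (by simp [hy])] at h10
      simp only [List.tail_cons, List.headD_cons] at h10
      omega

theorem simplex_ht {M d s : ℕ} {C : List Con}
    (hC : ∀ c ∈ C, (∀ a ∈ c.1, |a| ≤ 2 ^ s) ∧ |c.2| ≤ 2 ^ s) :
    ∀ h ∈ simplexOf M d C, ∀ a ∈ h, |a| ≤ 2 ^ (d * (d + s + 2)) := by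
  intro h hh
  have h1 : h ∈ vertices M d C := by
    rcases (round_simplexOf M d C).1 with h2 | h2
    · rw [h2] at hh; simp at hh
    · unfold ctuples at h2
      split_ifs at h2
      · exact (mem_tuples.mp h2).2 h hh
      · simp at h2
  unfold vertices at h1
  rw [List.mem_filter, List.mem_map] at h1
  obtain ⟨⟨τ, hτ, rfl⟩, -⟩ := h1
  have hτ' : ∀ c ∈ τ, c ∈ C := by
    unfold ctuples at hτ
    split_ifs at hτ
    · exact (mem_tuples.mp hτ).2
    · simp at hτ
  have hs1 : (2 : ℤ) ^ (s + 2) = 4 * 2 ^ s := by rw [pow_add]; ring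
  have hs0 : (1 : ℤ) ≤ 2 ^ s := one_le_pow₀ (by norm_num)
  have hsm : ∀ c ∈ C, ∀ a ∈ smul 2 c.1, |a| ≤ 2 ^ (s + 2) := by
    intro c hc a ha
    unfold smul at ha
    rw [List.mem_map] at ha
    obtain ⟨b, hb, rfl⟩ := ha
    have := (hC c hc).1 b hb
    rw [abs_mul, hs1]
    have h2 : |(2 : ℤ)| = 2 := rfl
    rw [h2]
    linarith
  have hrhs : ∀ c ∈ C, |2 * c.2 + 1| ≤ (2 : ℤ) ^ (s + 2) := by
    intro c hc
    have h3 := (hC c hc).2
    rw [hs1]
    rw [abs_le] at h3 ⊢
    constructor <;> linarith [h3.1, h3.2]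
  have hb1 : |cdet M d (τ.map fun c => smul 2 c.1)| ≤ 2 ^ (d * (d + (s + 2))) := by
    apply abs_cdet_le
    intro v hv a ha
    rw [List.mem_map] at hv
    obtain ⟨c, hc, rfl⟩ := hv
    exact hsm c (hτ' c hc) a ha
  have hb2 : ∀ j, |cdet M d (τ.map fun c => (smul 2 c.1).set j (2 * c.2 + 1))| ≤
      2 ^ (d * (d + (s + 2))) := by
    intro j
    apply abs_cdet_le
    intro v hv a ha
    rw [List.mem_map] at hv
    obtain ⟨c, hc, rfl⟩ := hv
    rcases List.mem_or_eq_of_mem_set ha with h1 | h1
    · exact hsm c (hτ' c hc) a h1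
    · rw [h1]; exact hrhs c (hτ' c hc)
  have hsign : ∀ x y : ℤ, |x.sign * y| ≤ |y| := by
    intro x y
    rw [abs_mul]
    have : |x.sign| ≤ 1 := by
      rcases Int.sign_trichotomy x with h | h | h <;> rw [h] <;> simp
    calc |x.sign| * |y| ≤ 1 * |y| := mul_le_mul_of_nonneg_right this (abs_nonneg y)
      _ = |y| := one_mul _
  intro a ha
  unfold vertexOf at ha
  rw [List.mem_map] at ha
  obtain ⟨b, hb, rfl⟩ := ha
  refine (hsign _ _).trans ?_
  rw [add_assoc]
  rcases List.mem_cons.mp hb with rfl | hb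
  · exact hb1
  · rw [List.mem_map] at hb
    obtain ⟨j, -, rfl⟩ := hb
    exact hb2 j

end Pool.Agent.Lib.UBox
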