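import Pool.Agent.Lib.UBox.ProcSpec

/-!
# Correctness of the algorithm
-/

namespace Pool.Agent.Lib.UBox

open Pool.Agent.Lib.PolyTime

/-! ## The first task -/

/-- The first task. -/
def task0 (k : ℕ) : Task := (List.replicate k 0, (List.range k).map (unitv k))

theorem vec_task0 {k : ℕ} (j : Fin k) : vec k ((task0 k).2.getD j []) = Pi.single j 1 := by
  have h : (task0 k).2.getD j [] = unitv k j := by
    unfold task0
    rw [basic_getD_map (unitv k) _ _ 0 [] (by simp), basic_getD_lt 0 (by simp),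
      List.getElem_range]
  rw [h, vec_unitv]

theorem good_task0 (k : ℕ) : Good k k (task0 k) where
  len1 := by simp [task0]
  len2 := by simp [task0]
  lens := by
    intro u hu
    simp only [task0, List.mem_map, List.mem_range] at hu
    obtain ⟨j, _, rfl⟩ := hu
    simp
  indep := by
    intro y hy
    funext i
    have h := hy i
    have h2 : ∀ j : Fin k, ((task0 k).2.getD j []).getD i 0 = if i = j then 1 else 0 := fun j => by
      have := congrFun (vec_task0 j) i
      rw [Pi.single_apply] at this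
      exact this
    simp only [h2] at h
    simpa using h

theorem ht_task0 (k : ℕ) : Ht 0 (task0 k) := by
  constructor
  · intro a ha
    simp only [task0, List.mem_replicate] at ha
    rw [ha.2]
    simp
  · intro u hu a ha
    simp only [task0, List.mem_map, List.mem_range] at hu
    obtain ⟨j, _, rfl⟩ := hu
    simp only [unitv, List.mem_map, List.mem_range] at ha
    obtain ⟨i, _, rfl⟩ := ha
    split_ifs <;> simp

theorem xof_task0 {k : ℕ} {y : List ℤ} (hy : y.length = k) : xof k (task0 k) y = y := by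
  have h1 : (task0 k).2.length = k := by simp [task0]
  have h0 : (task0 k).1.length = k := by simp [task0]
  refine vec_inj (n := k) (length_vadd h0 (length_comb _ _ _)) hy ?_
  unfold xof
  rw [vec_vadd h0 (length_comb _ _ _), vec_comb hy h1]
  funext i
  simp only [vec_task0]
  rw [Pi.add_apply, Finset.sum_apply]
  simp only [Pi.smul_apply, Pi.single_apply, smul_eq_mul, mul_ite, mul_one, mul_zero,
    Finset.sum_ite_eq, Finset.mem_univ, if_true]
  simp [vec, task0]

theorem xof_nil {k : ℕ} {T : Task} (hT : T.1.length = k) : xof k T [] = T.1 := by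
  unfold xof vadd comb dot
  apply List.ext_getElem
  · simp [hT]
  · intro i h1 h2
    simp

/-! ## Bounds -/

/-- Bound for the height. -/
def hB (E k g : ℕ) : ℕ := (k + 2) ^ ((E + 1) * k) * (g + 2)

/-- The height of the tasks of level `i`. -/
def hH (E k g : ℕ) : ℕ → ℕ
  | 0 => 0
  | i + 1 => (k + 2) ^ E * (hH E k g i + g + 2)

theorem hH_le (E k g : ℕ) : ∀ i, hH E k g i + g + 2 ≤ (k + 2) ^ ((E + 1) * i) * (g + 2)
  | 0 => by simp [hH]
  | i + 1 => by
    have ih := hH_le E k g i
    have h1 : (k + 2) ^ E + 1 ≤ (k + 2) ^ (E + 1) := by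
      rw [pow_succ]
      have : 1 ≤ (k + 2) ^ E := Nat.one_le_pow _ _ (by omega)
      nlinarith
    unfold hH
    calc (k + 2) ^ E * (hH E k g i + g + 2) + g + 2
        ≤ ((k + 2) ^ E + 1) * (hH E k g i + g + 2) := by nlinarith
      _ ≤ (k + 2) ^ (E + 1) * ((k + 2) ^ ((E + 1) * i) * (g + 2)) := Nat.mul_le_mul h1 ih
      _ = (k + 2) ^ ((E + 1) * (i + 1)) * (g + 2) := by rw [Nat.mul_succ, pow_add]; ring

theorem hH_le_hB {E k g i : ℕ} (hi : i ≤ k) : hH E k g i + g + 2 ≤ hB E k g :=
  (hH_le E k g i).trans (Nat.mul_le_mul_right _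
    (Nat.pow_le_pow_right (by omega) (Nat.mul_le_mul_left _ hi)))

theorem tame_hB (E : ℕ) : Tame fun k _ g => hB E k g := by
  refine ((Tame.exp (E + 3)).mul ((Tame.g).add (Tame.const 2))).mono fun k N g => ?_
  unfold hB
  refine Nat.mul_le_mul_right _ ?_
  have h1 : k + 2 ≤ 2 ^ (k + 2) := (Nat.lt_two_pow_self).le
  calc (k + 2) ^ ((E + 1) * k) ≤ (2 ^ (k + 2)) ^ ((E + 1) * k) := Nat.pow_le_pow_left h1 _
    _ = 2 ^ ((k + 2) * ((E + 1) * k)) := by rw [← pow_mul]
    _ ≤ 2 ^ ((k + 2) ^ (E + 3)) := by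
      refine Nat.pow_le_pow_right (by norm_num) ?_
      have h2 : E + 1 ≤ (k + 2) ^ (E + 1) := (Nat.lt_pow_self (by omega)).le
      calc (k + 2) * ((E + 1) * k) ≤ (k + 2) * ((k + 2) ^ (E + 1) * (k + 2)) := by
            gcongr
            omega
        _ = (k + 2) ^ (E + 3) := by ring

/-- Everything together. -/
def allS (E k N g : ℕ) : ℕ :=
  2 ^ ((k + 2) ^ E) * (N + 2) ^ E * hB E k g ^ E + (szL k k (hB E k g) (2 ^ ((k + 2) ^ (E + 1))) + 1)

theorem tame_allS (E : ℕ) : Tame fun k N g => allS E k N g := by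
  have hL : Tame fun k _ g => szL k k (hB E k g) (2 ^ ((k + 2) ^ (E + 1))) :=
    (((((Tame.const 1).add ((((Tame.const 2).mul (tame_hB E)).add (Tame.const 5)).mul Tame.k)).add
    ((((((Tame.const 2).mul (tame_hB E)).add (Tame.const 5)).mul Tame.k).add
      (Tame.const 1)).mul Tame.k)).add (Tame.const 1)).mul (Tame.exp (E + 1))).mono
    fun _ _ _ => le_rfl
  exact ((((Tame.exp E).mul (((Tame.N).add (Tame.const 2)).pow E)).mul ((tame_hB E).pow E)).add
    (hL.add (Tame.const 1))).mono fun _ _ _ => le_rfl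

/-! ## The levels -/

/-- The states of the main loop. -/
def LevInv (E k g : ℕ) (S : Set (List ℤ)) (i : ℕ) (st : Option (List Task)) : Prop :=
  (st = none ∧ S.Nonempty) ∨ ∃ L, st = some L ∧
    (∀ T ∈ L, Good k (k - i) T ∧ Ht (hH E k g i) T) ∧ L.length ≤ (2 ^ ((k + 2) ^ E)) ^ i ∧
    (S.Nonempty ↔ ∃ T ∈ L, ∃ y : List ℤ, y.length = k - i ∧ xof k T y ∈ S)

theorem levInv_zero {E k N a g : ℕ} {orc : List ℤ → Option (List ℤ)} {S : Set (List ℤ)}
    (ho : IsOracle k N a orc S) : LevInv E k g S 0 (some [task0 k]) := by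
  refine Or.inr ⟨_, rfl, ?_, by simp, ?_⟩
  · intro T hT
    rw [List.mem_singleton] at hT
    subst hT
    exact ⟨good_task0 k, ht_task0 k⟩
  · constructor
    · rintro ⟨x, hx⟩
      have hl := (ho.sub x hx).1
      exact ⟨_, List.mem_singleton_self _, x, by simpa using hl, by rw [xof_task0 hl]; exact hx⟩
    · rintro ⟨T, _, y, _, hy⟩
      exact ⟨_, hy⟩

theorem levInv_succ {E k N a M i : ℕ} {orc : List ℤ → Option (List ℤ)} {S : Set (List ℤ)}
    (hE : ∀ (M k N a d h : ℕ) (orc : List ℤ → Option (List ℤ))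
      (S : Set (List ℤ)) (T : Task), IsOracle k N a orc S → d < k → Good k (d + 1) T → Ht h T →
      2 ^ ((k + 2) ^ E) * (N + 2) ^ E * (h + a + 2) ^ E ≤ M →
      (process M k N orc T = none → ∃ y : List ℤ, y.length = d + 1 ∧ xof k T y ∈ S) ∧
      ∀ L, process M k N orc T = some L →
        (∀ T' ∈ L, Good k d T' ∧ Ht ((k + 2) ^ E * (h + a + N + 2)) T') ∧
        L.length ≤ 2 ^ ((k + 2) ^ E) ∧
        ((∃ y : List ℤ, y.length = d + 1 ∧ xof k T y ∈ S) ↔
          ∃ T' ∈ L, ∃ y : List ℤ, y.length = d ∧ xof k T' y ∈ S))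
    (ho : IsOracle k N a orc S) (hi : i < k) (hM : allS E k N (a + N) ≤ M)
    {st : Option (List Task)} (hst : LevInv E k (a + N) S i st) :
    LevInv E k (a + N) S (i + 1) (level M k N orc st) := by
  rcases hst with ⟨rfl, hne⟩ | ⟨L, rfl, hgood, hlen, hiff⟩
  · exact Or.inl ⟨rfl, hne⟩
  obtain ⟨d, hd⟩ : ∃ d, k - i = d + 1 := ⟨k - i - 1, by omega⟩
  have hd' : k - (i + 1) = d := by omega
  rw [hd] at hgood hiff
  have hM' : 2 ^ ((k + 2) ^ E) * (N + 2) ^ E * (hH E k (a + N) i + a + 2) ^ E ≤ M := by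
    have h1 := hH_le_hB (E := E) (g := a + N) hi.le
    have h2 : (hH E k (a + N) i + a + 2) ^ E ≤ hB E k (a + N) ^ E :=
      Nat.pow_le_pow_left (by omega) _
    have h3 := Nat.mul_le_mul_left (2 ^ ((k + 2) ^ E) * (N + 2) ^ E) h2
    unfold allS at hM
    omega
  have hproc := fun T (hT : T ∈ L) => hE M k N a d (hH E k (a + N) i) orc S T ho (by omega)
    (hgood T hT).1 (hgood T hT).2 hM'
  unfold level
  simp only
  split_ifs with hany
  · rw [List.any_eq_true] at hany
    obtain ⟨r, hr, hr2⟩ := hany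
    obtain ⟨T, hT, rfl⟩ := List.mem_map.1 hr
    rw [Option.isNone_iff_eq_none] at hr2
    obtain ⟨y, _, hy⟩ := (hproc T hT).1 hr2
    exact Or.inl ⟨rfl, _, hy⟩
  · have hsome : ∀ T ∈ L, process M k N orc T = some ((process M k N orc T).getD []) := by
      intro T hT
      cases h : process M k N orc T with
      | none =>
        exfalso
        apply hany
        rw [List.any_eq_true]
        exact ⟨_, List.mem_map_of_mem hT, by rw [h]; rfl⟩
      | some L' => rfl
    refine Or.inr ⟨_, rfl, ?_, ?_, ?_⟩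
    · intro T' hT'
      obtain ⟨T, hT, hT2⟩ := List.mem_flatMap.1 hT'
      obtain ⟨h1, -, -⟩ := (hproc T hT).2 _ (hsome T hT)
      rw [hd']
      refine ⟨(h1 T' hT2).1, ?_⟩
      have h2 := (h1 T' hT2).2
      unfold hH
      rw [← add_assoc (hH E k (a + N) i)]
      exact h2
    · rw [List.length_flatMap]
      have h1 : ∀ x ∈ (L.map fun T => ((process M k N orc T).getD []).length),
          x ≤ 2 ^ ((k + 2) ^ E) := by
        intro x hx
        obtain ⟨T, hT, rfl⟩ := List.mem_map.1 hx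
        exact ((hproc T hT).2 _ (hsome T hT)).2.1
      have h2 := List.sum_le_card_nsmul _ _ h1
      rw [List.length_map, smul_eq_mul] at h2
      refine h2.trans ?_
      rw [pow_succ]
      exact Nat.mul_le_mul_right _ hlen
    · rw [hiff, hd']
      constructor
      · rintro ⟨T, hT, hy⟩
        obtain ⟨-, -, h3⟩ := (hproc T hT).2 _ (hsome T hT)
        obtain ⟨T', hT', hy'⟩ := h3.1 hy
        exact ⟨T', List.mem_flatMap.2 ⟨T, hT, hT'⟩, hy'⟩
      · rintro ⟨T', hT', hy'⟩
        obtain ⟨T, hT, hT2⟩ := List.mem_flatMap.1 hT'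
        obtain ⟨-, -, h3⟩ := (hproc T hT).2 _ (hsome T hT)
        exact ⟨T, hT, h3.2 ⟨T', hT2, hy'⟩⟩

theorem sz_le_of_levInv {E k g N M i : ℕ} {S : Set (List ℤ)} (hi : i ≤ k)
    (hM : allS E k N g ≤ M) {st : Option (List Task)} (hst : LevInv E k g S i st) :
    sz st ≤ M := by
  have h0 : szL k k (hB E k g) (2 ^ ((k + 2) ^ (E + 1))) + 1 ≤ M := by
    unfold allS at hM
    omega
  rcases hst with ⟨rfl, -⟩ | ⟨L, rfl, hgood, hlen, -⟩
  · rw [sz_none]
    omega
  · rw [sz_some]
    have h1 := sz_tasks_le hgood hlen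
    have h2 : szL k (k - i) (hH E k g i) ((2 ^ ((k + 2) ^ E)) ^ i) ≤
        szL k k (hB E k g) (2 ^ ((k + 2) ^ (E + 1))) := by
      have h3 := hH_le_hB (E := E) (g := g) hi
      have h4 : (2 ^ ((k + 2) ^ E)) ^ i ≤ 2 ^ ((k + 2) ^ (E + 1)) := by
        rw [← pow_mul, pow_succ]
        exact Nat.pow_le_pow_right (by norm_num) (Nat.mul_le_mul_left _ (by omega))
      have h5 : hH E k g i ≤ hB E k g := by omega
      have h6 : k - i ≤ k := by omega
      unfold szL
      gcongr
    omega

theorem solve_correct : ∃ E : ℕ, ∀ (M k N a : ℕ) (orc : List ℤ → Option (List ℤ))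
    (S : Set (List ℤ)), IsOracle k N a orc S → 2 ^ ((k + 2) ^ E) * (N + a + 2) ^ E ≤ M →
    (solve M k N orc = true ↔ S.Nonempty) := by
  obtain ⟨E, hE⟩ := process_spec
  obtain ⟨F, hF⟩ := tame_allS E
  refine ⟨F + F, fun M k N a orc S ho hM => ?_⟩
  have hall : allS E k N (a + N) ≤ M := by
    refine (hF k N (a + N)).trans (le_trans ?_ hM)
    unfold tb
    rw [mul_assoc]
    have h1 : 2 ^ ((k + 2) ^ F) ≤ 2 ^ ((k + 2) ^ (F + F)) :=
      Nat.pow_le_pow_right (by norm_num) (Nat.pow_le_pow_right (by omega) (by omega))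
    have h2 : (N + 2) ^ F * (a + N + 2) ^ F ≤ (N + a + 2) ^ (F + F) := by
      rw [pow_add]
      exact Nat.mul_le_mul (Nat.pow_le_pow_left (by omega) _) (Nat.pow_le_pow_left (by omega) _)
    exact Nat.mul_le_mul h1 h2
  have hinv : ∀ i ≤ k, LevInv E k (a + N) S i ((level M k N orc)^[i] (some [task0 k])) := by
    intro i
    induction i with
    | zero => exact fun _ => levInv_zero ho
    | succ i ih =>
      intro hi
      rw [Function.iterate_succ_apply']
      exact levInv_succ hE ho hi hall (ih (by omega))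
  have hcap : (cap M (level M k N orc))^[k] (some [task0 k]) =
      (level M k N orc)^[k] (some [task0 k]) :=
    cap_iterate_eq k fun i hi => sz_le_of_levInv hi hall (hinv i hi)
  have hfin := hinv k le_rfl
  rw [← hcap] at hfin
  unfold solve
  change (match (cap M (level M k N orc))^[k] (some [task0 k]) with
    | none => true
    | some L => L.any fun T => decide (inBox k N T.1) && (orc T.1).isNone) = true ↔ S.Nonempty
  rcases hfin with ⟨h, hne⟩ | ⟨L, h, hgood, -, hiff⟩
  · rw [h]
    simp [hne]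
  · rw [h]
    simp only
    rw [List.any_eq_true, hiff]
    simp only [Nat.sub_self] at hgood ⊢
    constructor
    · rintro ⟨T, hT, h2⟩
      rw [Bool.and_eq_true, decide_eq_true_eq, Option.isNone_iff_eq_none] at h2
      refine ⟨T, hT, [], rfl, ?_⟩
      rw [xof_nil (hgood T hT).1.len1]
      exact (ho.none_iff _ h2.1).1 h2.2
    · rintro ⟨T, hT, y, hy, h2⟩
      have hy' : y = [] := List.length_eq_zero_iff.1 hy
      subst hy'
      rw [xof_nil (hgood T hT).1.len1] at h2
      refine ⟨T, hT, ?_⟩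
      rw [Bool.and_eq_true, decide_eq_true_eq, Option.isNone_iff_eq_none]
      exact ⟨ho.sub _ h2, (ho.none_iff _ (ho.sub _ h2)).2 h2⟩

end Pool.Agent.Lib.UBox
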